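import Pool.Agent.Helper10.K3.SysDefs

/-!
# Module B : lifting points of the surface, the involution near the curve `R = 0`
-/

namespace KumWA

open Classical

variable {p : ℕ} [hp : Fact p.Prime]

/-- B1 -/
theorem lift_near (h8 : p % 8 = 5) {d : ℚ_[p]} (hd : nd d) {Q : E d} (hy : yc Q ≠ 0) (n : ℕ) :
    ∃ ε : ℝ, 0 < ε ∧ ∀ v : Pt ℚ_[p], ‖v.x - xc Q / d‖ < ε →
      ∃ Q' R' : E d, Rep v d Q' R' ∧ fil n (Q' - Q) := by
  have h2 := p_ne_two h8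
  have hd0 := nd_ne hd
  have hQ0 := ne_zero_of_yc hy
  obtain ⟨ε₁, hε₁, H⟩ := fil_of_close h2 hQ0 hy n
  obtain ⟨x0, hx0⟩ : ∃ x0, x0 = xc Q / d := ⟨_, rfl⟩
  have hff : yc Q ^ 2 = d ^ 3 * ff x0 := by rw [hx0]; exact yc_sq_ff hd0 Q
  have hf0 : ff x0 ≠ 0 := by
    intro h
    rw [h, mul_zero] at hff
    exact hy (pow_eq_zero_iff two_ne_zero |>.1 hff)
  have hyn : 0 < ‖yc Q‖ := norm_pos_iff.2 hy
  have hdn : 0 < ‖d‖ := norm_pos_iff.2 hd0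
  have hcont : Continuous (fun x : ℚ_[p] => ‖ff x / ff x0 - 1‖) :=
    ((continuous_ff.div_const _).sub continuous_const).norm
  have hz : ‖ff x0 / ff x0 - 1‖ = 0 := by rw [div_self hf0]; simp
  have hev : ∀ᶠ x in nhds x0, ‖ff x / ff x0 - 1‖ < min 1 (ε₁ / ‖yc Q‖) :=
    hcont.continuousAt.eventually_lt continuousAt_const (by
      rw [hz]
      exact lt_min one_pos (by positivity))
  obtain ⟨δ, hδ, hball⟩ := Metric.eventually_nhds_iff.1 hev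
  refine ⟨min δ (ε₁ / ‖d‖), lt_min hδ (by positivity), ?_⟩
  intro v hv
  rw [← hx0] at hv
  have hv1 : ‖v.x - x0‖ < δ := lt_of_lt_of_le hv (min_le_left _ _)
  have hv2 : ‖v.x - x0‖ < ε₁ / ‖d‖ := lt_of_lt_of_le hv (min_le_right _ _)
  have hr := hball (y := v.x) (by rw [dist_eq_norm]; exact hv1)
  have hr1 : ‖ff v.x / ff x0 - 1‖ < 1 := lt_of_lt_of_le hr (min_le_left _ _)
  have hr2 : ‖ff v.x / ff x0 - 1‖ < ε₁ / ‖yc Q‖ := lt_of_lt_of_le hr (min_le_right _ _)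
  obtain ⟨w, hw, hw1, hwn⟩ := sqrt_close h2 hr1
  have hw0 : w ≠ 0 := by rintro rfl; simp at hwn
  have hwy : (w * yc Q) ^ 2 = d ^ 3 * ff v.x := by
    rw [mul_pow, hw, hff]; field_simp
  have hwy0 : w * yc Q ≠ 0 := mul_ne_zero hw0 hy
  have e1 : (w * yc Q) ^ 2 = (d * v.x) ^ 3 + 4 * d * (d * v.x) ^ 2 + 2 * d ^ 2 * (d * v.x) := by
    rw [hwy, ff]; ring
  have e2 : (d ^ 3 * v.z / (w * yc Q)) ^ 2 =
      (d * v.y) ^ 3 + 4 * d * (d * v.y) ^ 2 + 2 * d ^ 2 * (d * v.y) := by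
    have hfx := v.hfx
    rw [div_pow, hwy, mul_pow, v.eqn]
    have : (d ^ 3) ^ 2 * (ff v.x * ff v.y) / (d ^ 3 * ff v.x) = d ^ 3 * ff v.y := by
      field_simp
    rw [this, ff]; ring
  refine ⟨mkP hd0 (d * v.x) (w * yc Q) e1, mkP hd0 (d * v.y) (d ^ 3 * v.z / (w * yc Q)) e2,
    ⟨hd0, mkP_ne _ _ _ _, mkP_ne _ _ _ _, ?_, ?_, ?_⟩, ?_⟩
  · rw [xc_mkP]; ring
  · rw [xc_mkP]; ring
  · rw [yc_mkP, yc_mkP]; field_simp
  · apply H _ (mkP_ne _ _ _ _)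
    · rw [xc_mkP]
      have e : d * v.x - xc Q = d * (v.x - x0) := by rw [hx0]; field_simp
      rw [e, norm_mul]
      rw [lt_div_iff₀ hdn] at hv2
      linarith [mul_comm ‖d‖ ‖v.x - x0‖]
    · rw [yc_mkP]
      have e : w * yc Q - yc Q = (w - 1) * yc Q := by ring
      rw [e, norm_mul]
      calc ‖w - 1‖ * ‖yc Q‖ ≤ ‖ff v.x / ff x0 - 1‖ * ‖yc Q‖ := by gcongr
        _ < ε₁ := by rwa [lt_div_iff₀ hyn] at hr2

/-- the point `P` can be perturbed to avoid a finite set -/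
theorem near_avoid_aux (h8 : p % 8 = 5) {d : ℚ_[p]} (hd : nd d) (B : Set (E d)) (hB : B.Finite)
    (P : E d) (n : ℕ) : ∃ P' : E d, P' ∉ B ∧ fil n (P' - P) := by
  choose h hh using fun m : ℕ => exists_lev h8 hd m
  have hinj : Function.Injective (fun m : ℕ => P + h (n + m)) := by
    intro m m' hm
    have h1 : h (n + m) = h (n + m') := add_left_cancel hm
    have h2 := (lev_norm hd (hh (n + m))).2.2
    have h3 := (lev_norm hd (hh (n + m'))).2.2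
    rw [h1, h3] at h2
    have h4 := pow_right_injective₀ (p_pos (p := p)) (one_lt_p (p := p)).ne' h2
    omega
  obtain ⟨P', ⟨m, rfl⟩, hP'⟩ := (Set.infinite_range_of_injective hinj).exists_notMem_finite hB
  refine ⟨_, hP', ?_⟩
  have e : P + h (n + m) - P = h (n + m) := by abel
  change fil n (P + h (n + m) - P)
  rw [e]
  exact fil_mono (by omega) (hh (n + m)).1

/-- the formal part has exact levels -/
theorem exists_lev_of_fil_aux (h8 : p % 8 = 5) {d : ℚ_[p]} (hd : nd d) {η : E d} (h : fil 0 η)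
    (h0 : η ≠ 0) : ∃ c : ℕ, lev c η := by
  have hok := nd_okl hd 0
  obtain ⟨-, hx, hy, ht⟩ := fil_props hok h h0
  have hle := norm_tt_le hok h
  rw [pow_zero, inv_one] at hle
  have ht0 : tt η ≠ 0 := div_ne_zero hx hy
  have hnorm := Padic.norm_eq_zpow_neg_valuation ht0
  have hp1 := one_lt_p (p := p)
  have hval : 0 ≤ (tt η).valuation := by
    by_contra hneg
    push Not at hneg
    have : (1 : ℝ) < (p : ℝ) ^ (-(tt η).valuation) := one_lt_zpow₀ hp1 (by omega)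
    rw [← hnorm] at this
    linarith
  obtain ⟨c, hc⟩ := Int.eq_ofNat_of_zero_le hval
  have hnorm' : ‖tt η‖ = ((p : ℝ) ^ c)⁻¹ := by
    rw [hnorm, hc, zpow_neg]
    simp
  exact ⟨c, fil_of_tt hok h hnorm'.le, hnorm'⟩

theorem lev_ne {d : ℚ_[p]} {n : ℕ} {R : E d} (hR : lev n R) : R ≠ 0 := by
  rintro rfl
  have := hR.2
  have hpp := p_pos (p := p)
  rw [tt_zero, norm_zero] at this
  have h2 : (0 : ℝ) < ((p : ℝ) ^ n)⁻¹ := by positivity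
  rw [← this] at h2
  exact lt_irrefl _ h2

/-- the formal part is torsion free -/
theorem fil_torsion_free (h8 : p % 8 = 5) {d : ℚ_[p]} (hd : nd d) {η : E d} (h : fil 0 η)
    (h0 : η ≠ 0) {i : ℕ} (hi : i ≠ 0) : i • η ≠ 0 := by
  obtain ⟨c, hc⟩ := exists_lev_of_fil_aux h8 hd h h0
  obtain ⟨a, u, hu, hiu⟩ := Nat.exists_eq_pow_mul_and_not_dvd hi p hp.1.ne_one
  have hlev : ∀ a : ℕ, lev (c + a) (p ^ a • η) := by
    intro a
    induction a with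
    | zero => simpa using hc
    | succ a ih =>
      rw [pow_succ, mul_comm, mul_smul, ← add_assoc]
      exact lev_p (by omega) (nd_okl hd _) ih
  have hl := hlev a
  rw [hiu, mul_comm, mul_smul]
  intro hz
  have h1 := tt_nsmul_rough (nd_okl hd (c + a)) hl.1 u
  rw [hz, tt_zero, zero_sub, norm_neg, norm_mul, norm_natCast_eq_one hu, one_mul, hl.2] at h1
  have h2 := inv_pow_lt (p := p) (a := c + a) (b := c + a + 1) (by omega)
  linarith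

/-- points near `P` which are not torsion -/
theorem exists_nontorsion_near (h8 : p % 8 = 5) {d : ℚ_[p]} (hd : nd d) (P : E d) (N : ℕ) :
    ∃ P' : E d, fil N (P' - P) ∧ ∀ i : ℕ, i ≠ 0 → i • P' ≠ 0 := by
  obtain ⟨a, ha⟩ := exists_lev h8 hd N
  obtain ⟨b, hb⟩ := exists_lev h8 hd (N + 1)
  have key : ∀ P' : E d, (p + 1) • P' ≠ 0 → ∀ i : ℕ, i ≠ 0 → i • P' ≠ 0 := by
    intro P' hP' i hi hz
    have h1 : fil 0 ((p + 1) • P') := by simpa using loc_exp h8 hd P' 0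
    apply fil_torsion_free h8 hd h1 hP' hi
    rw [← mul_smul, mul_comm, mul_smul, hz, smul_zero]
  by_cases h1 : (p + 1) • (P + a) = 0
  · refine ⟨P + b, ?_, key _ ?_⟩
    · have e : P + b - P = b := by abel
      rw [e]
      exact fil_mono (by omega) hb.1
    · intro h2
      have hab : a - b ≠ 0 := by
        intro h
        have h3 : a = b := sub_eq_zero.1 h
        have h4 := (lev_norm hd ha).2.2
        have h5 := (lev_norm hd hb).2.2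
        rw [h3, h5] at h4
        have h6 := pow_right_injective₀ (p_pos (p := p)) (one_lt_p (p := p)).ne' h4
        omega
      apply fil_torsion_free h8 hd (fil_sub (nd_okl hd 0) (fil_mono (Nat.zero_le _) ha.1)
        (fil_mono (Nat.zero_le _) hb.1)) hab (Nat.succ_ne_zero p)
      have e : a - b = (P + a) - (P + b) := by abel
      rw [e, smul_sub, h1, h2, sub_zero]
  · refine ⟨P + a, ?_, key _ h1⟩
    have e : P + a - P = a := by abel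
    rw [e]
    exact ha.1

/-- B2 : the involution near the curve `R = 0` -/
theorem sig_base (h8 : p % 8 = 5) {d : ℚ_[p]} (hd : nd d) (Q : E d) (n : ℕ) :
    ∃ (d₀ : ℚ_[p]) (hd₀ : nd d₀) (Q₀ : E d₀) (M : ℕ), (∀ i : ℕ, i ≠ 0 → i • Q₀ ≠ 0) ∧
      ∀ R₀ : E d₀, R₀ ≠ 0 → fil M R₀ →
        ∃ l' : Loc p, SigL ⟨d₀, hd₀, Q₀, R₀⟩ l' ∧ LNear n l' ⟨d, hd, Q, 0⟩ := by
  have h2 := p_ne_two h8
  have hK := kHyp_padic h8
  have hd0 := nd_ne hd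
  have hdn : 0 < ‖d‖ := norm_pos_iff.2 hd0
  -- step 1
  obtain ⟨Q₁, hQ₁B, hQ₁⟩ := near_avoid_aux h8 hd ({0, T hd0} ∪ {P : E d | P ≠ 0 ∧ xc P = -d / 2}) (by
    apply Set.Finite.union (by simp)
    by_cases hex : ∃ P : E d, P ≠ 0 ∧ xc P = -d / 2
    · obtain ⟨P, hP, hPx⟩ := hex
      apply Set.Finite.subset (s := {P, -P}) (by simp)
      rintro R ⟨hR, hRx⟩
      rcases (xc_eq_iff hR hP).1 (hRx.trans hPx.symm) with h | h
      · exact Or.inl h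
      · exact Or.inr h
    · have : {P : E d | P ≠ 0 ∧ xc P = -d / 2} = ∅ := by
        ext P
        simp only [Set.mem_setOf_eq, Set.mem_empty_iff_false, iff_false]
        exact fun h => hex ⟨P, h⟩
      rw [this]
      exact Set.finite_empty) Q n
  have hQ₁0 : Q₁ ≠ 0 := fun h => hQ₁B (Or.inl (Or.inl h))
  have hQ₁T : Q₁ ≠ T hd0 := fun h => hQ₁B (Or.inl (Or.inr h))
  have hxQ₁ : xc Q₁ ≠ 0 := fun h => hQ₁T (eq_T_of_xc hd0 hQ₁0 h)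
  have hyQ₁ : yc Q₁ ≠ 0 := hK.yc_ne hd0 hxQ₁
  obtain ⟨x, hx⟩ : ∃ x, x = xc Q₁ / d := ⟨_, rfl⟩
  have hx0 : x ≠ 0 := by rw [hx]; exact div_ne_zero hxQ₁ hd0
  have hx2 : 4 * x + 2 ≠ 0 := by
    intro h
    apply hQ₁B
    refine Or.inr ⟨hQ₁0, ?_⟩
    have h1 : x = -1 / 2 := by
      field_simp
      linear_combination h / 2
    rw [hx, div_eq_iff hd0] at h1
    rw [h1]; ring
  obtain ⟨ε, hε, Hlift⟩ := lift_near h8 hd hyQ₁ n
  rw [← hx] at Hlift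
  -- step 2
  obtain ⟨x₀, hx₀⟩ : ∃ x₀, x₀ = -2 * x / (4 * x + 2) := ⟨_, rfl⟩
  have hx₀0 : x₀ ≠ 0 := by
    rw [hx₀]
    exact div_ne_zero (mul_ne_zero (by norm_num) hx0) hx2
  have hx₀2 : 4 * x₀ + 2 = 4 / (4 * x + 2) := by
    rw [hx₀]; field_simp; ring
  have hx₀2' : 4 * x₀ + 2 ≠ 0 := by
    rw [hx₀2]
    exact div_ne_zero (by norm_num) hx2
  have hFx₀ : -2 * x₀ / (4 * x₀ + 2) = x := by
    rw [div_eq_iff hx₀2', hx₀2, hx₀]
    ring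
  have hff₀ : ff x₀ ≠ 0 := by
    rw [ff_eq]
    exact mul_ne_zero hx₀0 (hK.gg_ne x₀)
  obtain ⟨d₀, Q₂, Q₂', hd₀, hrep⟩ := exists_rep (p := p) ⟨(x₀, x₀, ff x₀), by
    refine ⟨?_, hff₀⟩
    change ff x₀ ^ 2 = ff x₀ * ff x₀
    ring⟩
  have hd₀0 := nd_ne hd₀
  have hd₀n : 0 < ‖d₀‖ := norm_pos_iff.2 hd₀0
  have hQ₂0 : Q₂ ≠ 0 := hrep.2.1
  have hxQ₂ : xc Q₂ / d₀ = x₀ := by
    rw [← hrep.2.2.2.1, mul_div_cancel_right₀ _ hd₀0]
    rfl
  -- continuity of `-2 t / (4 t + 2)` at `x₀`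
  have hcF : ContinuousAt (fun t : ℚ_[p] => ‖-2 * t / (4 * t + 2) - x‖) x₀ := by
    have c1 : ContinuousAt (fun t : ℚ_[p] => -2 * t) x₀ := by fun_prop
    have c2 : ContinuousAt (fun t : ℚ_[p] => 4 * t + 2) x₀ := by fun_prop
    exact ((c1.div c2 hx₀2').sub continuousAt_const).norm
  have hev1 : ∀ᶠ t in nhds x₀, ‖-2 * t / (4 * t + 2) - x‖ < ε :=
    hcF.eventually_lt continuousAt_const (by rw [hFx₀, sub_self, norm_zero]; exact hε)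
  have hev2 : ∀ᶠ t in nhds x₀, 4 * t + 2 ≠ 0 := by
    have c2 : ContinuousAt (fun t : ℚ_[p] => 4 * t + 2) x₀ := by fun_prop
    exact c2.eventually_ne hx₀2'
  obtain ⟨δ, hδ, hball⟩ := Metric.eventually_nhds_iff.1 (hev1.and hev2)
  obtain ⟨N, hN⟩ := close_of_fil (nd_okl hd₀ 0) hQ₂0 (ε := δ * ‖d₀‖) (by positivity)
  -- step 3
  obtain ⟨Q₀, hQ₀near, hQ₀tors⟩ := exists_nontorsion_near h8 hd₀ Q₂ N
  obtain ⟨hQ₀0, hQ₀x, -⟩ := hN Q₀ hQ₀near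
  have hyQ₀ : yc Q₀ ≠ 0 := by
    intro h
    apply hQ₀tors 2 two_ne_zero
    rw [two_nsmul]
    exact add_self_of_yc h
  obtain ⟨t, ht⟩ : ∃ t, t = xc Q₀ / d₀ := ⟨_, rfl⟩
  have ht0 : t ≠ 0 := by
    rw [ht]
    exact div_ne_zero (xc_ne_of_yc hyQ₀) hd₀0
  have htx : ‖t - x₀‖ < δ := by
    rw [ht, ← hxQ₂, ← sub_div, norm_div, div_lt_iff₀ hd₀n]
    exact hQ₀x
  obtain ⟨hF1, hF2⟩ := hball (y := t) (by rw [dist_eq_norm]; exact htx)
  obtain ⟨a, ha⟩ : ∃ a, a = 4 * t + 2 := ⟨_, rfl⟩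
  rw [← ha] at hF1 hF2
  have han : 0 < ‖a‖ := norm_pos_iff.2 hF2
  obtain ⟨B, hB, HB⟩ := kappa0_aux h8 ht0
  obtain ⟨C, hC⟩ : ∃ C, C = 2 * t * (2 * t - a * t - 4 * a) := ⟨_, rfl⟩
  obtain ⟨M, hM⟩ := pow_unbounded_of_one_lt
    (B + ‖t + 4‖ + ‖2 * t‖ / ‖a‖ + ‖C‖ / (‖a‖ * ‖a‖ * ε) + (p : ℝ) ^ (2 * n) * ‖a‖ / ‖d‖)
    (one_lt_p (p := p))
  refine ⟨d₀, hd₀, Q₀, M, hQ₀tors, ?_⟩
  intro R₀ hR₀0 hR₀
  obtain ⟨-, hxR₀, hyR₀, -⟩ := fil_props (nd_okl hd₀ M) hR₀ hR₀0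
  obtain ⟨y, hy⟩ : ∃ y, y = xc R₀ / d₀ := ⟨_, rfl⟩
  have hpp := p_pos (p := p)
  have hybig : (p : ℝ) ^ M ≤ ‖y‖ := by
    rw [hy, norm_div]
    have h1 : (p : ℝ) ^ (2 * M) ≤ ‖xc R₀‖ := hR₀.resolve_left hR₀0
    have h3 : (p : ℝ) ^ M ≤ (p : ℝ) ^ (2 * M) :=
      pow_le_pow_right₀ (one_lt_p (p := p)).le (by omega)
    have h4 : ‖xc R₀‖ ≤ ‖xc R₀‖ / ‖d₀‖ := by
      rw [le_div_iff₀ hd₀n]
      exact mul_le_of_le_one_right (norm_nonneg _) (nd_lt hd₀).le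
    linarith
  have q1 : 0 ≤ ‖t + 4‖ := norm_nonneg _
  have q2 : 0 ≤ ‖2 * t‖ / ‖a‖ := by positivity
  have q3 : 0 ≤ ‖C‖ / (‖a‖ * ‖a‖ * ε) := by positivity
  have q4 : 0 ≤ (p : ℝ) ^ (2 * n) * ‖a‖ / ‖d‖ := by positivity
  have yB : B < ‖y‖ := by linarith
  have y1 : ‖t + 4‖ < ‖y‖ := by linarith
  have y2 : ‖2 * t‖ / ‖a‖ < ‖y‖ := by linarith
  have y3 : ‖C‖ / (‖a‖ * ‖a‖ * ε) < ‖y‖ := by linarith
  have y4 : (p : ℝ) ^ (2 * n) * ‖a‖ / ‖d‖ < ‖y‖ := by linarith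
  have hyn : 0 < ‖y‖ := by linarith
  obtain ⟨⟨HD, Hs, Hq, -⟩, -⟩ := HB y yB
  have hDn : Dn t y = y * a + 2 * t := by rw [Dn, ha]; ring
  have hnum : ‖t + y + 4‖ = ‖y‖ := by
    have e : t + y + 4 = y + (t + 4) := by ring
    rw [e]
    exact nadd_eq y1
  have h2t : ‖2 * t‖ < ‖y * a‖ := by
    rw [norm_mul y a]
    rwa [div_lt_iff₀ han] at y2
  have hden : ‖Dn t y‖ = ‖y‖ * ‖a‖ := by
    rw [hDn, nadd_eq h2t, norm_mul]
  have hrho : ‖rho t y‖ = 1 / ‖a‖ := by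
    have e : rho t y = -(2 * (t + y + 4)) / Dn t y := by rw [rho]; ring
    rw [e, norm_div, norm_neg, norm_mul, norm_two h2, one_mul, hnum, hden]
    field_simp
  have hG : rho t y * t - -2 * t / a = C / (a * Dn t y) := by
    obtain ⟨D, hD⟩ : ∃ D, D = Dn t y := ⟨_, rfl⟩
    have hD0 : D ≠ 0 := by rw [hD]; exact HD
    have hD2 : D = y * a + 2 * t := by rw [hD, hDn]
    have e : rho t y * t - -2 * t / a = 2 * t * (D - a * (t + y + 4)) / (a * D) := by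
      rw [rho, ← hD]
      field_simp
      ring
    rw [e, ← hD, hC]
    congr 1
    rw [hD2]
    ring
  have hG' : ‖rho t y * t - -2 * t / a‖ < ε := by
    rw [hG, norm_div, norm_mul, hden, div_lt_iff₀ (by positivity)]
    rw [div_lt_iff₀ (by positivity)] at y3
    calc ‖C‖ < ‖y‖ * (‖a‖ * ‖a‖ * ε) := y3
      _ = ε * (‖a‖ * (‖y‖ * ‖a‖)) := by ring
  -- the point
  obtain ⟨u, hu⟩ : ∃ u, u = mkPt hd₀0 Q₀ R₀ hyQ₀ hyR₀ := ⟨_, rfl⟩
  have hrepu : Rep u d₀ Q₀ R₀ := by rw [hu]; exact rep_mkPt hd₀0 hyQ₀ hyR₀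
  have hux : u.x = t := by
    rw [hu, ht]; rfl
  have huy : u.y = y := by
    rw [hu, hy]; rfl
  have hI : IOK u := by
    refine ⟨?_, ?_, ?_⟩
    · rw [hux, huy]; exact HD
    · rw [hux, huy]; exact Hs
    · rw [hux, huy]; exact Hq
  obtain ⟨Q', R', hrep', hQ'⟩ := Hlift (iota u hI) (by
    rw [iota_x, hux, huy]
    have e : rho t y * t - x = (rho t y * t - -2 * t / a) + (-2 * t / a - x) := by ring
    rw [e]
    exact nadd_lt hG' hF1)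
  refine ⟨⟨d, hd, Q', R'⟩, ⟨u, hI, hrepu, hrep'⟩, Q', R', rfl, ?_, ?_⟩
  · change fil n (Q' - Q)
    have e : Q' - Q = (Q' - Q₁) + (Q₁ - Q) := by abel
    rw [e]
    exact fil_add (nd_okl hd n) hQ' hQ₁
  · change fil n (R' - 0)
    rw [sub_zero]
    right
    rw [← hrep'.2.2.2.2.1, iota_y, hux, huy, norm_mul, norm_mul, hrho]
    rw [div_lt_iff₀ hdn] at y4
    have e : 1 / ‖a‖ * ‖y‖ * ‖d‖ = ‖y‖ * ‖d‖ / ‖a‖ := by ring
    rw [e, le_div_iff₀ han]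
    exact y4.le

end KumWA
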