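import Pool.Agent.Helper85.BP.Defs

/-! Module W3 of MP_3dd6d4_an (all real exponents): Gamma factors. -/

set_option autoImplicit false

open MeasureTheory Complex FourierTransform Filter Topology
open scoped ENNReal NNReal ComplexConjugate

noncomputable section

namespace Helper85.BP.P

open Helper72.BA Helper85.BP

theorem Gx_val (k : ℕ) (hk : 1 ≤ k) : ‖Gx (((1 / k : ℝ)) : ℂ)‖ = Real.pi * Ak k := by
  have hk0 : (1 : ℝ) ≤ k := by exact_mod_cast hk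
  have hkp : (0 : ℝ) < k := by linarith
  have e1 : (((1 / k : ℝ)) : ℂ) / 2 = ((1 / (2 * k) : ℝ) : ℂ) := by
    push_cast
    field_simp
  have h2k : (1 / (2 * k) : ℝ) < 1 := by
    rw [div_lt_one (by positivity)]
    linarith
  unfold Gx
  rw [e1, show (1 : ℂ) - ((1 / (2 * k) : ℝ) : ℂ) = ((1 - 1 / (2 * k) : ℝ) : ℂ) by push_cast; ring,
    Complex.Gamma_ofReal, Complex.Gamma_ofReal, norm_div, norm_mul, Complex.norm_real,
    Complex.norm_real, Complex.norm_real, Real.norm_of_nonneg Real.pi_pos.le,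
    Real.norm_of_nonneg (Real.Gamma_pos_of_pos (by positivity)).le,
    Real.norm_of_nonneg (Real.Gamma_pos_of_pos (by linarith)).le]
  unfold Ak
  ring

theorem beta_norm (u v y : ℝ) (hu : 0 < u) (hv : 0 < v) :
    ‖Complex.betaIntegral ((u : ℂ) + I * y) v‖ ≤ ‖Complex.betaIntegral (u : ℂ) v‖ := by
  have h1 : Complex.betaIntegral (u : ℂ) v =
      ((∫ t in (0 : ℝ)..1, t ^ (u - 1) * (1 - t) ^ (v - 1) : ℝ) : ℂ) := by
    unfold Complex.betaIntegral
    rw [← intervalIntegral.integral_ofReal]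
    refine intervalIntegral.integral_congr_ae (ae_of_all _ fun t ht => ?_)
    rw [Set.uIoc_of_le zero_le_one] at ht
    rw [show (u : ℂ) - 1 = ((u - 1 : ℝ) : ℂ) by push_cast; ring,
      show (v : ℂ) - 1 = ((v - 1 : ℝ) : ℂ) by push_cast; ring,
      show (1 : ℂ) - (t : ℂ) = ((1 - t : ℝ) : ℂ) by push_cast; ring,
      ← Complex.ofReal_cpow ht.1.le, ← Complex.ofReal_cpow (by linarith [ht.2])]
    push_cast
    ring
  have h0 : 0 ≤ ∫ t in (0 : ℝ)..1, t ^ (u - 1) * (1 - t) ^ (v - 1) := by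
    refine intervalIntegral.integral_nonneg zero_le_one fun t ht => ?_
    exact mul_nonneg (Real.rpow_nonneg ht.1 _) (Real.rpow_nonneg (by linarith [ht.2]) _)
  rw [h1, Complex.norm_real, Real.norm_of_nonneg h0]
  unfold Complex.betaIntegral
  refine (intervalIntegral.norm_integral_le_integral_norm zero_le_one).trans (le_of_eq ?_)
  refine intervalIntegral.integral_congr_ae ?_
  have h2 : ∀ᵐ t : ℝ, t ≠ 1 := by
    simp [ae_iff, measure_singleton]
  filter_upwards [h2] with t ht1 ht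
  rw [Set.uIoc_of_le zero_le_one] at ht
  have ht2 : 0 < 1 - t := by
    have := lt_of_le_of_ne ht.2 ht1
    linarith
  rw [norm_mul, Complex.norm_cpow_eq_rpow_re_of_pos ht.1,
    show (1 : ℂ) - (t : ℂ) = ((1 - t : ℝ) : ℂ) by push_cast; ring,
    Complex.norm_cpow_eq_rpow_re_of_pos ht2]
  simp

theorem Gx_bound (x y : ℝ) (hx : 0 < x) (hx2 : x < 1 / 2) :
    ‖Gx (((2 * x : ℝ) : ℂ) + I * ((2 * y : ℝ) : ℂ))‖ ^ 2 ≤
      ‖Gx ((2 * x : ℝ) : ℂ)‖ ^ 2 * ((1 + y ^ 2 / (1 - x) ^ 2) / (1 + y ^ 2 / x ^ 2)) := by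
  have hx1 : 0 < 1 - x := by linarith
  -- formula for the norm
  have key : ∀ t : ℝ, ‖Gx (((2 * x : ℝ) : ℂ) + I * ((2 * t : ℝ) : ℂ))‖ =
      Real.pi * (‖Complex.betaIntegral (((1 + x : ℝ) : ℂ) + I * t) ((1 - 2 * x : ℝ) : ℂ)‖ /
        ‖Complex.Gamma ((1 - 2 * x : ℝ) : ℂ)‖) *
        (‖((1 - x : ℝ) : ℂ) + I * t‖ / ‖(x : ℂ) + I * t‖) := by
    intro t
    have n1 : (x : ℂ) + I * t ≠ 0 := by
      intro h
      have := congrArg Complex.re h
      simp at this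
      linarith
    have n2 : ((1 - x : ℝ) : ℂ) + I * t ≠ 0 := by
      intro h
      have := congrArg Complex.re h
      simp at this
      linarith
    have g1 : Complex.Gamma (((1 + x : ℝ) : ℂ) + I * t) =
        ((x : ℂ) + I * t) * Complex.Gamma ((x : ℂ) + I * t) := by
      rw [← Complex.Gamma_add_one _ n1]
      congr 1
      push_cast
      ring
    have g2 : Complex.Gamma (((2 - x : ℝ) : ℂ) + I * t) =
        (((1 - x : ℝ) : ℂ) + I * t) * Complex.Gamma (((1 - x : ℝ) : ℂ) + I * t) := by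
      rw [← Complex.Gamma_add_one _ n2]
      congr 1
      push_cast
      ring
    have hb := Complex.Gamma_mul_Gamma_eq_betaIntegral (s := ((1 + x : ℝ) : ℂ) + I * t)
      (t := ((1 - 2 * x : ℝ) : ℂ)) (by simp; linarith) (by simp; linarith)
    have e2 : ((1 + x : ℝ) : ℂ) + I * t + ((1 - 2 * x : ℝ) : ℂ) = ((2 - x : ℝ) : ℂ) + I * t := by
      push_cast
      ring
    rw [e2, g1, g2] at hb
    have e3 : Complex.Gamma (1 - (((x : ℂ)) + I * t)) =
        conj (Complex.Gamma (((1 - x : ℝ) : ℂ) + I * t)) := by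
      rw [← Complex.Gamma_conj]
      congr 1
      simp
      ring
    unfold Gx
    rw [show (((2 * x : ℝ) : ℂ) + I * ((2 * t : ℝ) : ℂ)) / 2 = (x : ℂ) + I * t by push_cast; ring,
      e3, norm_div, norm_mul, RCLike.norm_conj, Complex.norm_real,
      Real.norm_of_nonneg Real.pi_pos.le]
    have hb' := congrArg norm hb
    simp only [norm_mul] at hb'
    have p1 : 0 < ‖(x : ℂ) + I * t‖ := norm_pos_iff.2 n1
    have p2 : 0 < ‖((1 - x : ℝ) : ℂ) + I * t‖ := norm_pos_iff.2 n2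
    have p3 : 0 < ‖Complex.Gamma ((1 - 2 * x : ℝ) : ℂ)‖ :=
      norm_pos_iff.2 (Complex.Gamma_ne_zero_of_re_pos (by simp; linarith))
    have p4 : 0 < ‖Complex.Gamma (((1 - x : ℝ) : ℂ) + I * t)‖ :=
      norm_pos_iff.2 (Complex.Gamma_ne_zero_of_re_pos (by simp; linarith))
    rw [div_eq_iff p4.ne']
    have hb2 : ‖Complex.Gamma ((x : ℂ) + I * t)‖ =
        ‖((1 - x : ℝ) : ℂ) + I * t‖ * ‖Complex.Gamma (((1 - x : ℝ) : ℂ) + I * t)‖ *
          ‖Complex.betaIntegral (((1 + x : ℝ) : ℂ) + I * t) ((1 - 2 * x : ℝ) : ℂ)‖ /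
          (‖(x : ℂ) + I * t‖ * ‖Complex.Gamma ((1 - 2 * x : ℝ) : ℂ)‖) := by
      rw [eq_div_iff (by positivity)]
      linarith
    rw [hb2]
    field_simp
  have h0 := key 0
  have hy := key y
  have hB := beta_norm (1 + x) (1 - 2 * x) y (by linarith) (by linarith)
  have e0 : (((2 * x : ℝ) : ℂ) + I * ((2 * (0 : ℝ) : ℝ) : ℂ)) = ((2 * x : ℝ) : ℂ) := by simp
  rw [e0] at h0
  have e1 : ((1 + x : ℝ) : ℂ) + I * ((0 : ℝ) : ℂ) = ((1 + x : ℝ) : ℂ) := by simp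
  have e2 : ((1 - x : ℝ) : ℂ) + I * ((0 : ℝ) : ℂ) = ((1 - x : ℝ) : ℂ) := by simp
  have e3 : (x : ℂ) + I * ((0 : ℝ) : ℂ) = (x : ℂ) := by simp
  rw [e1, e2, e3, Complex.norm_real, Complex.norm_real, Real.norm_of_nonneg hx1.le,
    Real.norm_of_nonneg hx.le] at h0
  have nsq : ∀ s t : ℝ, ‖(s : ℂ) + I * t‖ ^ 2 = s ^ 2 + t ^ 2 := by
    intro s t
    rw [← Complex.normSq_eq_norm_sq, Complex.normSq_apply]
    simp
    ring
  set B0 := ‖Complex.betaIntegral ((1 + x : ℝ) : ℂ) ((1 - 2 * x : ℝ) : ℂ)‖ with hB0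
  set By := ‖Complex.betaIntegral (((1 + x : ℝ) : ℂ) + I * y) ((1 - 2 * x : ℝ) : ℂ)‖ with hBy
  set Gm := ‖Complex.Gamma ((1 - 2 * x : ℝ) : ℂ)‖ with hGm
  have p3 : 0 < Gm := norm_pos_iff.2 (Complex.Gamma_ne_zero_of_re_pos (by simp; linarith))
  rw [hy, h0]
  have hle : By ≤ B0 := hB
  have hBy0 : 0 ≤ By := norm_nonneg _
  rw [mul_pow, mul_pow (Real.pi * (B0 / Gm)), div_pow ‖((1 - x : ℝ) : ℂ) + I * y‖, nsq, nsq]
  have e5 : (Real.pi * (B0 / Gm)) ^ 2 * ((1 - x) / x) ^ 2 *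
      ((1 + y ^ 2 / (1 - x) ^ 2) / (1 + y ^ 2 / x ^ 2)) =
      (Real.pi * (B0 / Gm)) ^ 2 * (((1 - x) ^ 2 + y ^ 2) / (x ^ 2 + y ^ 2)) := by
    have : 0 < x ^ 2 + y ^ 2 := by positivity
    field_simp
  rw [e5]
  have : Real.pi * (By / Gm) ≤ Real.pi * (B0 / Gm) := by
    have := Real.pi_pos
    gcongr
  have h6 : 0 ≤ Real.pi * (By / Gm) := by
    have := Real.pi_pos
    positivity
  have h7 : 0 ≤ ((1 - x) ^ 2 + y ^ 2) / (x ^ 2 + y ^ 2) := by positivity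
  exact mul_le_mul_of_nonneg_right (pow_le_pow_left₀ h6 this 2) h7

theorem Gx_cont (x : ℝ) (hx : 0 < x) (hx2 : x < 1 / 2) :
    Continuous (fun y : ℝ => Gx (((2 * x : ℝ) : ℂ) + I * ((2 * y : ℝ) : ℂ))) := by
  rw [continuous_iff_continuousAt]
  intro y
  unfold Gx
  have hne : ∀ s : ℂ, 0 < s.re → ContinuousAt Complex.Gamma s := fun s hs =>
    (Complex.differentiableAt_Gamma s (fun m h => by
      have := congrArg Complex.re h
      simp at this
      have hm : (0 : ℝ) ≤ m := Nat.cast_nonneg m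
      linarith)).continuousAt
  have c1 : ContinuousAt (fun y : ℝ => (((2 * x : ℝ) : ℂ) + I * ((2 * y : ℝ) : ℂ)) / 2) y := by
    fun_prop
  have c2 : ContinuousAt (fun y : ℝ => 1 - (((2 * x : ℝ) : ℂ) + I * ((2 * y : ℝ) : ℂ)) / 2) y := by
    fun_prop
  have r1 : 0 < ((((2 * x : ℝ) : ℂ) + I * ((2 * y : ℝ) : ℂ)) / 2).re := by
    rw [show (((2 * x : ℝ) : ℂ) + I * ((2 * y : ℝ) : ℂ)) / 2 = (x : ℂ) + I * y by push_cast; ring]
    simpa using hx
  have r2 : 0 < (1 - (((2 * x : ℝ) : ℂ) + I * ((2 * y : ℝ) : ℂ)) / 2).re := by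
    rw [show (((2 * x : ℝ) : ℂ) + I * ((2 * y : ℝ) : ℂ)) / 2 = (x : ℂ) + I * y by push_cast; ring]
    simp
    linarith
  have d1 : ContinuousAt (fun y : ℝ => Complex.Gamma
      ((((2 * x : ℝ) : ℂ) + I * ((2 * y : ℝ) : ℂ)) / 2)) y :=
    ContinuousAt.comp (g := Complex.Gamma) (hne _ r1) c1
  have d2 : ContinuousAt (fun y : ℝ => Complex.Gamma
      (1 - (((2 * x : ℝ) : ℂ) + I * ((2 * y : ℝ) : ℂ)) / 2)) y :=
    ContinuousAt.comp (g := Complex.Gamma) (hne _ r2) c2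
  exact (continuousAt_const.mul d1).div d2 (Complex.Gamma_ne_zero_of_re_pos r2)

end Helper85.BP.P
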