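import Pool.Agent.Helper26.GenusWords

set_option autoImplicit false

namespace Pool.Agent.Helper26.Genus

open Finset Polynomial

variable {q n : ℕ}

open Classical in
/-- The partition of positions by letters. -/
noncomputable def kerP (w : Fin n → Fin q) : Finpartition (univ : Finset (Fin n)) :=
  Finpartition.ofSetoid (Setoid.ker w)

theorem kerP_part (w : Fin n → Fin q) (i j : Fin n) :
    (kerP w).part i = (kerP w).part j ↔ w i = w j := by
  classical
  rw [← Finpartition.mem_part_iff_part_eq_part (kerP w) (mem_univ i) (mem_univ j)]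
  unfold kerP
  rw [Finpartition.mem_part_ofSetoid_iff_rel]
  rw [Setoid.comm']
  exact Iff.rfl

theorem eq_of_part (P Q : Finpartition (univ : Finset (Fin n)))
    (h : ∀ i j, P.part i = P.part j ↔ Q.part i = Q.part j) : P = Q := by
  have hp : P.part = Q.part := by
    funext i
    ext j
    rw [P.mem_part_iff_part_eq_part (mem_univ _) (mem_univ _),
      Q.mem_part_iff_part_eq_part (mem_univ _) (mem_univ _)]
    exact h j i
  apply Finpartition.ext
  rw [← image_part, ← image_part, hp]

theorem card_fiber (P : Finpartition (univ : Finset (Fin n))) :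
    Fintype.card {w : Fin n → Fin q // kerP w = P} = q.descFactorial #P.parts := by
  classical
  have hr : ∀ B : P.parts, ∃ i : Fin n, P.part i = B := by
    intro B
    obtain ⟨i, hi⟩ := P.nonempty_of_mem_parts B.2
    exact ⟨i, P.part_eq_of_mem B.2 hi⟩
  choose r hr using hr
  have e : {w : Fin n → Fin q // kerP w = P} ≃ (P.parts ↪ Fin q) :=
    { toFun := fun w => ⟨fun B => w.1 (r B), by
        intro B B' hBB
        have h1 := (kerP_part w.1 (r B) (r B')).2 hBB
        rw [w.2, hr, hr] at h1
        exact Subtype.ext h1⟩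
      invFun := fun e => ⟨fun i => e ⟨P.part i, P.part_mem.2 (mem_univ i)⟩, by
        apply eq_of_part
        intro i j
        rw [kerP_part, e.injective.eq_iff, Subtype.mk.injEq]⟩
      left_inv := by
        intro w
        apply Subtype.ext
        funext i
        change w.1 (r ⟨P.part i, _⟩) = w.1 i
        rw [← kerP_part w.1, w.2, hr]
      right_inv := by
        intro e
        ext B
        change (e ⟨P.part (r B), _⟩ : ℕ) = (e B : ℕ)
        congr 2
        apply Subtype.ext
        exact hr B }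
  rw [Fintype.card_congr e, Fintype.card_embedding_eq, Fintype.card_fin, Fintype.card_coe]

theorem cycCh_eq_runEnds (w : Fin n → Fin q) : cycCh w = #(runEnds (kerP w)) := by
  unfold cycCh runEnds
  congr 1
  apply filter_congr
  intro i _
  exact (not_congr (kerP_part w i (finRotate n i))).symm

theorem sum_words (q n : ℕ) :
    ∑ w : Fin n → Fin q, (X : ℤ[X]) ^ (cycCh w)
      = ∑ P : Finpartition (univ : Finset (Fin n)),
          ((q.descFactorial #P.parts : ℕ) : ℤ[X]) * X ^ #(runEnds P) := by
  classical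
  rw [← Finset.sum_fiberwise (s := univ) (g := fun w : Fin n → Fin q => kerP w)]
  apply sum_congr rfl
  intro P _
  rw [← card_fiber P, Fintype.card_subtype]
  rw [← nsmul_eq_mul, ← Finset.sum_const]
  apply sum_congr rfl
  intro w hw
  rw [cycCh_eq_runEnds, (mem_filter.1 hw).2]

/-- The generating polynomial of three-block partitions by the number of run ends. -/
theorem six_mul_sum (m : ℕ) :
    (6 : ℤ[X]) * ∑ P ∈ univ.filter (fun P : Finpartition (univ : Finset (Fin (m + 1))) =>
        #P.parts = 3), (X : ℤ[X]) ^ #(runEnds P)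
      = ((1 + 2 * X) ^ (m + 1) + 2 * (1 - X) ^ (m + 1))
        - 3 * ((1 + X) ^ (m + 1) + (1 - X) ^ (m + 1)) + 3 := by
  have h3 := sum_words 3 (m + 1)
  have h2 := sum_words 2 (m + 1)
  have h1 := sum_words 1 (m + 1)
  rw [sum_cycCh (by norm_num)] at h1 h2 h3
  have key : ∀ P : Finpartition (univ : Finset (Fin (m + 1))),
      (6 : ℤ[X]) * (if #P.parts = 3 then X ^ #(runEnds P) else 0)
      = (((3 : ℕ).descFactorial #P.parts : ℕ) : ℤ[X]) * X ^ #(runEnds P)
        - 3 * ((((2 : ℕ).descFactorial #P.parts : ℕ) : ℤ[X]) * X ^ #(runEnds P))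
        + 3 * ((((1 : ℕ).descFactorial #P.parts : ℕ) : ℤ[X]) * X ^ #(runEnds P)) := by
    intro P
    have hpos : #P.parts ≠ 0 := by
      intro h
      rw [card_eq_zero] at h
      have : P.part 0 ∈ P.parts := P.part_mem.2 (mem_univ _)
      rw [h] at this
      exact absurd this (notMem_empty _)
    rcases Nat.lt_or_ge #P.parts 4 with hlt | hge
    · interval_cases hk : #P.parts
      · exact absurd rfl hpos
      · simp [Nat.descFactorial]; ring
      · simp [Nat.descFactorial]; ring
      · simp [Nat.descFactorial]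
    · have e3 : (3 : ℕ).descFactorial #P.parts = 0 := Nat.descFactorial_of_lt (by omega)
      have e2 : (2 : ℕ).descFactorial #P.parts = 0 := Nat.descFactorial_of_lt (by omega)
      have e1 : (1 : ℕ).descFactorial #P.parts = 0 := Nat.descFactorial_of_lt (by omega)
      rw [e3, e2, e1, if_neg (by omega)]
      simp
  rw [Finset.sum_filter, Finset.mul_sum]
  simp only [key]
  rw [Finset.sum_add_distrib, Finset.sum_sub_distrib, ← Finset.mul_sum, ← Finset.mul_sum,
    ← h1, ← h2, ← h3]
  push_cast
  ring

theorem coeff_pow_one_add (a : ℤ) (n N : ℕ) :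
    ((1 + C a * X : ℤ[X]) ^ n).coeff N = a ^ N * (n.choose N : ℤ) := by
  rw [add_comm, add_pow]
  simp only [one_pow, mul_one, finsetSum_coeff]
  have : ∀ k ∈ range (n + 1), (((C a * X : ℤ[X]) ^ k * ((n.choose k : ℕ) : ℤ[X])).coeff N)
      = if k = N then a ^ N * (n.choose N : ℤ) else 0 := by
    intro k _
    rw [mul_pow, ← C_pow, mul_assoc, coeff_C_mul, ← Polynomial.C_eq_natCast, mul_comm (X ^ k),
      coeff_C_mul, coeff_X_pow]
    by_cases h : k = N
    · subst h; simp
    · rw [if_neg h, if_neg (Ne.symm h)]; simp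
  rw [sum_congr rfl this, sum_ite_eq']
  split_ifs with h
  · rfl
  · rw [mem_range] at h
    rw [Nat.choose_eq_zero_of_lt (by omega)]
    simp

/-- The number of three-block partitions with exactly `N ≥ 1` run ends. -/
theorem six_mul_card (m N : ℕ) (hN : 1 ≤ N) :
    (6 : ℤ) * #(univ.filter (fun P : Finpartition (univ : Finset (Fin (m + 1))) =>
        #P.parts = 3 ∧ #(runEnds P) = N))
      = (2 ^ N - 3 - (-1) ^ N) * ((m + 1).choose N : ℤ) := by
  have h := congrArg (fun p : ℤ[X] => p.coeff N) (six_mul_sum m)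
  have c1 : (6 : ℤ[X]) = C 6 := rfl
  have c2 : (1 + 2 * X : ℤ[X]) = 1 + C 2 * X := rfl
  have c3 : (1 - X : ℤ[X]) = 1 + C (-1) * X := by simp [sub_eq_add_neg]
  have c4 : (1 + X : ℤ[X]) = 1 + C 1 * X := by simp
  have c5 : (3 : ℤ[X]) = C 3 := rfl
  have c6 : ∀ p : ℤ[X], (2 : ℤ[X]) * p = C 2 * p := fun _ => rfl
  have c7 : ∀ p : ℤ[X], (3 : ℤ[X]) * p = C 3 * p := fun _ => rfl
  have e1 : (6 * ∑ P ∈ univ.filter (fun P : Finpartition (univ : Finset (Fin (m + 1))) =>
        #P.parts = 3), (X : ℤ[X]) ^ #(runEnds P)).coeff N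
      = (6 : ℤ) * #(univ.filter (fun P : Finpartition (univ : Finset (Fin (m + 1))) =>
        #P.parts = 3 ∧ #(runEnds P) = N)) := by
    rw [c1, coeff_C_mul, finsetSum_coeff]
    congr 1
    simp only [coeff_X_pow]
    rw [← filter_filter, card_filter]
    push_cast
    apply sum_congr rfl
    intro P _
    by_cases hh : #(runEnds P) = N
    · simp [hh]
    · rw [if_neg hh, if_neg (Ne.symm hh)]
  have e2 : (((1 + 2 * X) ^ (m + 1) + 2 * (1 - X) ^ (m + 1))
        - 3 * ((1 + X) ^ (m + 1) + (1 - X) ^ (m + 1)) + 3 : ℤ[X]).coeff N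
      = (2 ^ N - 3 - (-1) ^ N) * ((m + 1).choose N : ℤ) := by
    rw [c2, c6 ((1 - X) ^ (m + 1)), c7, c3, c4, coeff_add, coeff_sub, coeff_add, coeff_C_mul, coeff_C_mul, coeff_add,
      coeff_pow_one_add, coeff_pow_one_add, coeff_pow_one_add, c5, coeff_C, if_neg (by omega)]
    simp only [one_pow]
    ring
  calc _ = _ := e1.symm
    _ = _ := h
    _ = _ := e2

end Pool.Agent.Helper26.Genus
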