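import Pool.Agent.Helper26.GenusDefs

set_option autoImplicit false

namespace Pool.Agent.Helper26.Genus

open Finset Equiv.Perm

theorem numCycles_eq {n : ℕ} (f : Equiv.Perm (Fin n)) :
    numCycles f = #(f.cycleFactorsFinset) + (n - #f.support) := by
  unfold numCycles
  rw [parts_partition]
  simp [cycleType_def]

theorem card_support_le' {n : ℕ} (f : Equiv.Perm (Fin n)) : #f.support ≤ n := by
  simpa using f.support.card_le_univ

theorem sign_eq_neg_one_pow {n : ℕ} (f : Equiv.Perm (Fin n)) :
    Equiv.Perm.sign f = (-1) ^ (n + numCycles f) := by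
  rw [sign_of_cycleType, numCycles_eq, sum_cycleType, cycleType_def, Multiset.card_map]
  have h := card_support_le' f
  have e : n + (#(f.cycleFactorsFinset) + (n - #f.support))
      = (#f.support + #(f.cycleFactorsFinset)) + 2 * (n - #f.support) := by omega
  rw [e, pow_add _ _ (2 * _), pow_mul]
  simp

/-- The cycle factors are the images of `cycleOf` on the support. -/
theorem cycleFactorsFinset_eq_image {n : ℕ} (f : Equiv.Perm (Fin n)) :
    f.cycleFactorsFinset = f.support.image (fun x => f.cycleOf x) := by
  ext c
  simp only [mem_image]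
  constructor
  · intro hc
    obtain ⟨x, hx⟩ := IsCycle.nonempty_support (mem_cycleFactorsFinset_iff.mp hc).1
    refine ⟨x, mem_cycleFactorsFinset_support_le hc hx, ?_⟩
    exact ((f.eq_cycleOf_of_mem_cycleFactorsFinset_iff c hc x).2 hx).symm
  · rintro ⟨x, hx, rfl⟩
    exact cycleOf_mem_cycleFactorsFinset_iff.2 hx

theorem card_image_congr_ker {α β γ : Type*} [DecidableEq β] [DecidableEq γ] (s : Finset α)
    (u : α → β) (v : α → γ) (h : ∀ x ∈ s, ∀ y ∈ s, (u x = u y ↔ v x = v y)) :
    #(s.image u) = #(s.image v) := by
  classical
  rcases s.eq_empty_or_nonempty with rfl | ⟨a, ha⟩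
  · simp
  have hex : ∀ b ∈ s.image u, ∃ x ∈ s, u x = b := fun b hb => by simpa using hb
  let φ : β → γ := fun b => if hb : b ∈ s.image u then v (hex b hb).choose else v a
  have hφ : ∀ x ∈ s, φ (u x) = v x := by
    intro x hx
    have hb : u x ∈ s.image u := mem_image_of_mem _ hx
    have hc := (hex (u x) hb).choose_spec
    simp only [φ, dif_pos hb]
    exact (h _ hc.1 _ hx).1 hc.2
  have e : s.image v = (s.image u).image φ := by
    rw [image_image]
    exact (image_congr (fun x hx => hφ x hx)).symm
  rw [e]
  symm
  apply card_image_of_injOn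
  intro b hb b' hb' hbb
  obtain ⟨x, hx, rfl⟩ := hex b hb
  obtain ⟨y, hy, rfl⟩ := hex b' hb'
  rw [hφ x hx, hφ y hy] at hbb
  exact (h x hx y hy).2 hbb

theorem numCycles_eq_card_image {n : ℕ} {β : Type*} [DecidableEq β] (f : Equiv.Perm (Fin n))
    (g : Fin n → β) (hg : ∀ i j, g i = g j ↔ f.SameCycle i j) :
    numCycles f = #(univ.image g) := by
  rw [numCycles_eq]
  have h1 : #(f.cycleFactorsFinset) = #(f.support.image g) := by
    rw [cycleFactorsFinset_eq_image]
    apply card_image_congr_ker
    intro x hx y hy
    rw [hg, sameCycle_iff_cycleOf_eq_of_mem_support hx hy]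
  have h2 : n - #f.support = #(f.supportᶜ.image g) := by
    rw [card_image_of_injOn]
    · rw [card_compl]; simp
    · intro i hi j hj hij
      obtain ⟨k, hk⟩ := (hg i j).1 hij
      have hi' : f i = i := by simpa using hi
      rw [zpow_apply_eq_self_of_apply_eq_self hi'] at hk
      exact hk
  rw [h1, h2, ← card_union_of_disjoint]
  · rw [← image_union]; simp
  · rw [disjoint_left]
    intro b hb hb'
    simp only [mem_image] at hb hb'
    obtain ⟨x, hx, rfl⟩ := hb
    obtain ⟨y, hy, hxy⟩ := hb'
    have hs := (hg y x).1 hxy
    have := hs.mem_support_iff.2 hx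
    simp at hy this
    exact this hy

variable {n : ℕ} (P : Finpartition (univ : Finset (Fin n)))

@[simp] theorem blockPerm_apply (i : Fin n) : blockPerm P i = blockNext P i := rfl
@[simp] theorem blockPerm_symm_apply (i : Fin n) : (blockPerm P).symm i = blockPrev P i := rfl
@[simp] theorem blockPerm_inv_apply (i : Fin n) : (blockPerm P)⁻¹ i = blockPrev P i := rfl

theorem sameCycle_blockPerm_iff (i j : Fin n) :
    P.part i = P.part j ↔ (blockPerm P).SameCycle i j := by
  constructor
  · have key : ∀ i : Fin n, (blockPerm P).SameCycle i ((P.part i).min' (part_nonempty P i)) := by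
      intro i
      induction i using WellFoundedLT.induction with
      | ind i ih =>
        by_cases h : ((P.part i).filter (fun j => j < i)).Nonempty
        · have e : blockPrev P i = ((P.part i).filter (fun j => j < i)).max' h := by
            unfold blockPrev; rw [dif_pos h]
          have hlt : blockPrev P i < i := by
            rw [e]; exact (mem_filter.1 (max'_mem _ h)).2
          have h1 := ih _ hlt
          have h2 : (blockPerm P).SameCycle i (blockPrev P i) := by
            rw [← blockPerm_inv_apply]
            exact sameCycle_symm_apply_right.2 (SameCycle.refl _ _)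
          have h3 := h2.trans h1
          simpa only [part_blockPrev] using h3
        · have : (P.part i).min' (part_nonempty P i) = i := by
            apply le_antisymm
            · exact min'_le _ _ (self_mem P i)
            · apply le_min'
              intro y hy
              by_contra hcon
              exact h ⟨y, mem_filter.2 ⟨hy, lt_of_not_ge hcon⟩⟩
          rw [this]
    intro h
    have h1 := key i
    have h2 := key j
    simp only [h] at h1
    exact h1.trans h2.symm
  · rintro ⟨k, rfl⟩
    have hnext : ∀ x, P.part (blockPerm P x) = P.part x := fun x => part_blockNext P x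
    have hprev : ∀ x, P.part ((blockPerm P)⁻¹ x) = P.part x := fun x => part_blockPrev P x
    induction k using Int.induction_on with
    | zero => simp
    | succ k ih =>
      rw [add_comm, zpow_add, zpow_one, Equiv.Perm.mul_apply, hnext]
      exact ih
    | pred k ih =>
      rw [sub_eq_add_neg, add_comm, zpow_add, zpow_neg_one, Equiv.Perm.mul_apply, hprev]
      exact ih

theorem image_part : (univ : Finset (Fin n)).image P.part = P.parts := by
  ext B
  simp only [mem_image, mem_univ, true_and]
  constructor
  · rintro ⟨i, rfl⟩
    exact P.part_mem.2 (mem_univ _)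
  · intro hB
    obtain ⟨i, hi⟩ := P.nonempty_of_mem_parts hB
    exact ⟨i, P.part_eq_of_mem hB hi⟩

theorem numCycles_blockPerm : numCycles (blockPerm P) = #P.parts := by
  rw [numCycles_eq_card_image (blockPerm P) P.part (sameCycle_blockPerm_iff P), image_part]

theorem numCycles_finRotate {n : ℕ} (hn : 1 ≤ n) : numCycles (finRotate n) = 1 := by
  obtain ⟨m, rfl⟩ : ∃ m, n = m + 1 := ⟨n - 1, by omega⟩
  rcases Nat.eq_zero_or_pos m with rfl | hm
  · rw [numCycles_eq]
    have : finRotate (0 + 1) = 1 := finRotate_one
    rw [this, cycleFactorsFinset_one]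
    simp
  · obtain ⟨k, rfl⟩ : ∃ k, m = k + 1 := ⟨m - 1, by omega⟩
    rw [numCycles_eq, support_finRotate, (isCycle_finRotate).cycleFactorsFinset_eq_singleton]
    simp

end Pool.Agent.Helper26.Genus
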