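import Mathlib

set_option autoImplicit false

/-! Set partitions of `{0, ..., n-1}`, their block permutation and their genus. -/

namespace Pool.Agent.Helper26.Genus

open Finset

/-- The number of cycles of a permutation of `Fin n`, fixed points included
(the number of parts of Mathlib's cycle partition). -/
def numCycles {n : ℕ} (f : Equiv.Perm (Fin n)) : ℕ :=
  Multiset.card f.partition.parts

variable {n : ℕ} (P : Finpartition (univ : Finset (Fin n)))

theorem part_nonempty (i : Fin n) : (P.part i).Nonempty := by
  simp

/-- The element following `i` in its block: the least larger element of the block if there is one,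
and the least element of the block otherwise. -/
def blockNext (i : Fin n) : Fin n :=
  if h : ((P.part i).filter (fun j => i < j)).Nonempty then
    ((P.part i).filter (fun j => i < j)).min' h
  else (P.part i).min' (part_nonempty P i)

/-- The element preceding `i` in its block: the greatest smaller element of the block if there is
one, and the greatest element of the block otherwise. -/
def blockPrev (i : Fin n) : Fin n :=
  if h : ((P.part i).filter (fun j => j < i)).Nonempty then
    ((P.part i).filter (fun j => j < i)).max' h
  else (P.part i).max' (part_nonempty P i)

theorem self_mem (i : Fin n) : i ∈ P.part i := by simp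

theorem blockNext_mem (i : Fin n) : blockNext P i ∈ P.part i := by
  unfold blockNext
  split_ifs with h
  · exact (mem_filter.1 (min'_mem _ h)).1
  · exact min'_mem _ _

theorem blockPrev_mem (i : Fin n) : blockPrev P i ∈ P.part i := by
  unfold blockPrev
  split_ifs with h
  · exact (mem_filter.1 (max'_mem _ h)).1
  · exact max'_mem _ _

theorem part_eq_of_mem_part {i j : Fin n} (h : j ∈ P.part i) : P.part j = P.part i :=
  (P.mem_part_iff_part_eq_part (mem_univ _) (mem_univ _)).1 h

theorem part_blockNext (i : Fin n) : P.part (blockNext P i) = P.part i :=
  part_eq_of_mem_part P (blockNext_mem P i)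

theorem part_blockPrev (i : Fin n) : P.part (blockPrev P i) = P.part i :=
  part_eq_of_mem_part P (blockPrev_mem P i)

theorem blockPrev_blockNext (i : Fin n) : blockPrev P (blockNext P i) = i := by
  by_cases h : ((P.part i).filter (fun j => i < j)).Nonempty
  · -- `i` has a larger element in its block
    have e : blockNext P i = ((P.part i).filter (fun j => i < j)).min' h := by
      unfold blockNext; rw [dif_pos h]
    have hlt : i < blockNext P i := by
      rw [e]; exact (mem_filter.1 (min'_mem _ h)).2
    have hne : ((P.part (blockNext P i)).filter (fun j => j < blockNext P i)).Nonempty :=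
      ⟨i, by rw [mem_filter, part_blockNext]; exact ⟨self_mem P i, hlt⟩⟩
    unfold blockPrev
    rw [dif_pos hne]
    apply le_antisymm
    · apply max'_le
      intro y hy
      rw [mem_filter, part_blockNext] at hy
      by_contra hcon
      have : blockNext P i ≤ y := by
        rw [e]; exact min'_le _ _ (mem_filter.2 ⟨hy.1, not_le.1 hcon⟩)
      exact absurd hy.2 (not_lt.2 this)
    · apply le_max'
      rw [mem_filter, part_blockNext]
      exact ⟨self_mem P i, hlt⟩
  · have e : blockNext P i = (P.part i).min' (part_nonempty P i) := by
      unfold blockNext; rw [dif_neg h]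
    have hne : ¬ ((P.part (blockNext P i)).filter (fun j => j < blockNext P i)).Nonempty := by
      rintro ⟨y, hy⟩
      rw [mem_filter, part_blockNext] at hy
      have : blockNext P i ≤ y := by rw [e]; exact min'_le _ _ hy.1
      exact absurd hy.2 (not_lt.2 this)
    unfold blockPrev
    rw [dif_neg hne]
    apply le_antisymm
    · apply max'_le
      intro y hy
      rw [part_blockNext] at hy
      by_contra hcon
      exact h ⟨y, mem_filter.2 ⟨hy, not_le.1 hcon⟩⟩
    · apply le_max'
      rw [part_blockNext]
      exact self_mem P i

theorem blockNext_blockPrev (i : Fin n) : blockNext P (blockPrev P i) = i := by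
  by_cases h : ((P.part i).filter (fun j => j < i)).Nonempty
  · have e : blockPrev P i = ((P.part i).filter (fun j => j < i)).max' h := by
      unfold blockPrev; rw [dif_pos h]
    have hlt : blockPrev P i < i := by
      rw [e]; exact (mem_filter.1 (max'_mem _ h)).2
    have hne : ((P.part (blockPrev P i)).filter (fun j => blockPrev P i < j)).Nonempty :=
      ⟨i, by rw [mem_filter, part_blockPrev]; exact ⟨self_mem P i, hlt⟩⟩
    unfold blockNext
    rw [dif_pos hne]
    apply le_antisymm
    · apply min'_le
      rw [mem_filter, part_blockPrev]
      exact ⟨self_mem P i, hlt⟩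
    · apply le_min'
      intro y hy
      rw [mem_filter, part_blockPrev] at hy
      by_contra hcon
      have hyi : y < i := lt_of_not_ge hcon
      have : y ≤ blockPrev P i := by
        rw [e]; exact le_max' _ _ (mem_filter.2 ⟨hy.1, hyi⟩)
      exact absurd hy.2 (not_lt.2 this)
  · have e : blockPrev P i = (P.part i).max' (part_nonempty P i) := by
      unfold blockPrev; rw [dif_neg h]
    have hne : ¬ ((P.part (blockPrev P i)).filter (fun j => blockPrev P i < j)).Nonempty := by
      rintro ⟨y, hy⟩
      rw [mem_filter, part_blockPrev] at hy
      have : y ≤ blockPrev P i := by rw [e]; exact le_max' _ _ hy.1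
      exact absurd hy.2 (not_lt.2 this)
    unfold blockNext
    rw [dif_neg hne]
    apply le_antisymm
    · apply min'_le
      rw [part_blockPrev]
      exact self_mem P i
    · apply le_min'
      intro y hy
      rw [part_blockPrev] at hy
      by_contra hcon
      exact h ⟨y, mem_filter.2 ⟨hy, not_le.1 hcon⟩⟩

/-- The permutation whose cycles are the blocks of `P`, each traversed in increasing order. -/
def blockPerm : Equiv.Perm (Fin n) where
  toFun := blockNext P
  invFun := blockPrev P
  left_inv := blockPrev_blockNext P
  right_inv := blockNext_blockPrev P

/-- `P` has genus `g`: with `τ` the block permutation of `P` and `σ` the long cycle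
`finRotate n`, one has `c(τ) + c(τ⁻¹σ) + c(σ) = n + 2 - 2 g`. -/
def HasGenus (g : ℕ) : Prop :=
  numCycles (blockPerm P) + numCycles ((blockPerm P)⁻¹ * finRotate n)
    + numCycles (finRotate n) + 2 * g = n + 2

/-- The number of partitions of an `n`-element cyclically ordered set `{0, ..., n-1}` into exactly
`k` nonempty blocks that have genus `g`. -/
noncomputable def genusCount (n k g : ℕ) : ℕ :=
  Nat.card {P : Finpartition (univ : Finset (Fin n)) // P.parts.card = k ∧ HasGenus P g}

end Pool.Agent.Helper26.Genus
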