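import Pool.Agent.Helper26.GenusCycles

set_option autoImplicit false

namespace Pool.Agent.Helper26.Genus

open Finset Equiv.Perm

/-- The last occurrence of the block `B` cyclically at or before `i`. -/
def lastOcc {n : ℕ} (i : Fin n) (B : Finset (Fin n)) (hB : B.Nonempty) : Fin n :=
  if h : (B.filter (fun j => j ≤ i)).Nonempty then (B.filter (fun j => j ≤ i)).max' h
  else B.max' hB

/-- The run ends of `P`. -/
def runEnds {n : ℕ} (P : Finpartition (univ : Finset (Fin n))) : Finset (Fin n) :=
  univ.filter (fun i => P.part i ≠ P.part (finRotate n i))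

variable {m : ℕ} (P : Finpartition (univ : Finset (Fin (m + 1))))

theorem lastOcc_self (i : Fin (m + 1)) (h : (P.part i).Nonempty) : lastOcc i (P.part i) h = i := by
  have hne : ((P.part i).filter (fun j => j ≤ i)).Nonempty :=
    ⟨i, mem_filter.2 ⟨self_mem P i, le_rfl⟩⟩
  unfold lastOcc
  rw [dif_pos hne]
  apply le_antisymm
  · apply max'_le
    intro y hy
    exact (mem_filter.1 hy).2
  · apply le_max'
    exact mem_filter.2 ⟨self_mem P i, le_rfl⟩

theorem blockPrev_finRotate (i : Fin (m + 1)) :
    blockPrev P (finRotate (m + 1) i)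
      = lastOcc i (P.part (finRotate (m + 1) i)) (part_nonempty P _) := by
  unfold blockPrev lastOcc
  by_cases hi : i = Fin.last m
  · subst hi
    rw [finRotate_last]
    have h1 : ¬ ((P.part 0).filter (fun j => j < 0)).Nonempty := by
      rintro ⟨y, hy⟩
      exact absurd (mem_filter.1 hy).2 (Fin.not_lt_zero y)
    have h2 : (P.part 0).filter (fun j => j ≤ Fin.last m) = P.part 0 := by
      apply filter_true_of_mem
      intro x _
      exact Fin.le_last x
    rw [dif_neg h1]
    simp only [h2]
    rw [dif_pos (part_nonempty P 0)]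
  · have e : ∀ j : Fin (m + 1), j < finRotate (m + 1) i ↔ j ≤ i := by
      intro j
      have := coe_finRotate_of_ne_last hi
      rw [Fin.lt_def, Fin.le_def, this]
      omega
    simp only [e]

theorem lastOcc_succ (i : Fin m) (B : Finset (Fin (m + 1))) (hB : B.Nonempty)
    (h : i.succ ∉ B) : lastOcc i.succ B hB = lastOcc i.castSucc B hB := by
  have e : B.filter (fun j => j ≤ i.succ) = B.filter (fun j => j ≤ i.castSucc) := by
    apply filter_congr
    intro j hj
    have hne : j ≠ i.succ := fun hji => h (hji ▸ hj)
    have hne' : (j : ℕ) ≠ i + 1 := fun hv => hne (Fin.ext (by simpa using hv))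
    rw [Fin.le_def, Fin.le_def]
    simp only [Fin.val_succ, Fin.val_castSucc]
    omega
  unfold lastOcc
  simp only [e]

/-- The permutation whose cycles define the genus. -/
abbrev kr {n : ℕ} (P : Finpartition (univ : Finset (Fin n))) : Equiv.Perm (Fin n) :=
  (blockPerm P)⁻¹ * finRotate n

theorem kr_apply (i : Fin (m + 1)) :
    kr P i = lastOcc i (P.part (finRotate (m + 1) i)) (part_nonempty P _) := by
  rw [← blockPrev_finRotate]; rfl

theorem support_kr : (kr P).support = runEnds P := by
  ext i
  rw [mem_support, runEnds, mem_filter, not_iff_comm]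
  simp only [mem_univ, true_and, ne_eq, not_not]
  constructor
  · intro h
    rw [kr_apply]
    have : ∀ (B : Finset (Fin (m + 1))) (hB : B.Nonempty), B = P.part i → lastOcc i B hB = i := by
      rintro B hB rfl
      exact lastOcc_self P i hB
    exact this _ _ h.symm
  · intro h
    have h2 : P.part (kr P i) = P.part (finRotate (m + 1) i) :=
      part_blockPrev P (finRotate (m + 1) i)
    rw [h] at h2
    exact h2

theorem sameCycle_lastOcc (p q : Fin (m + 1))
    (h0 : ∀ B ∈ P.parts, ∀ hB : B.Nonempty, B ≠ P.part 0 →
      (kr P).SameCycle (lastOcc 0 B hB) p ∨ (kr P).SameCycle (lastOcc 0 B hB) q) :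
    ∀ i : Fin (m + 1), ∀ B ∈ P.parts, ∀ hB : B.Nonempty, B ≠ P.part i →
      (kr P).SameCycle (lastOcc i B hB) p ∨ (kr P).SameCycle (lastOcc i B hB) q := by
  intro i
  induction i using Fin.induction with
  | zero => exact h0
  | succ i ih =>
    intro B hBP hB hne
    have hrot : finRotate (m + 1) i.castSucc = i.succ := by
      apply Fin.ext
      rw [coe_finRotate_of_ne_last (Fin.castSucc_lt_last i).ne]
      simp
    have hnot : i.succ ∉ B := fun hmem => hne (P.part_eq_of_mem hBP hmem).symm
    rw [lastOcc_succ i B hB hnot]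
    by_cases hBi : B = P.part i.castSucc
    · subst hBi
      rw [lastOcc_self]
      have h1 := ih (P.part i.succ) (P.part_mem.2 (mem_univ _)) (part_nonempty P _) hne.symm
      have h2 : kr P i.castSucc = lastOcc i.castSucc (P.part i.succ) (part_nonempty P _) := by
        rw [kr_apply]
        simp only [hrot]
      rw [← h2] at h1
      rcases h1 with h1 | h1
      · left; exact (sameCycle_apply_left).1 h1
      · right; exact (sameCycle_apply_left).1 h1
    · exact ih B hBP hB hBi

theorem card_cycleFactors_le_two (hP : #P.parts = 3) : #((kr P).cycleFactorsFinset) ≤ 2 := by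
  have hmem : P.part 0 ∈ P.parts := P.part_mem.2 (mem_univ _)
  have h2 : #(P.parts.erase (P.part 0)) = 2 := by rw [card_erase_of_mem hmem, hP]
  obtain ⟨B, C, hBC, hBCe⟩ := card_eq_two.1 h2
  have hB : B ∈ P.parts := mem_of_mem_erase (by rw [hBCe]; simp)
  have hC : C ∈ P.parts := mem_of_mem_erase (by rw [hBCe]; simp)
  have hBn := P.nonempty_of_mem_parts hB
  have hCn := P.nonempty_of_mem_parts hC
  have key := sameCycle_lastOcc P (lastOcc 0 B hBn) (lastOcc 0 C hCn) (by
    intro D hD hDn hD0
    have : D ∈ P.parts.erase (P.part 0) := mem_erase.2 ⟨hD0, hD⟩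
    rw [hBCe, mem_insert, mem_singleton] at this
    rcases this with rfl | rfl
    · left; exact SameCycle.refl _ _
    · right; exact SameCycle.refl _ _)
  have hsub : (kr P).cycleFactorsFinset ⊆
      {(kr P).cycleOf (lastOcc 0 B hBn), (kr P).cycleOf (lastOcc 0 C hCn)} := by
    rw [cycleFactorsFinset_eq_image]
    intro c hc
    rw [mem_image] at hc
    obtain ⟨x, hx, rfl⟩ := hc
    rw [support_kr, runEnds, mem_filter] at hx
    have h1 := key x (P.part (finRotate (m + 1) x)) (P.part_mem.2 (mem_univ _))
      (part_nonempty P _) (Ne.symm hx.2)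
    rw [← kr_apply, sameCycle_apply_left, sameCycle_apply_left] at h1
    rw [mem_insert, mem_singleton]
    rcases h1 with h1 | h1
    · left; exact h1.cycleOf_eq
    · right; exact h1.cycleOf_eq
  exact (card_le_card hsub).trans card_le_two

theorem runEnds_nonempty (hP : #P.parts = 3) : (runEnds P).Nonempty := by
  by_contra hcon
  rw [not_nonempty_iff_eq_empty] at hcon
  have hall : ∀ i : Fin (m + 1), P.part i = P.part 0 := by
    intro i
    induction i using Fin.induction with
    | zero => rfl
    | succ i ih =>
      have hrot : finRotate (m + 1) i.castSucc = i.succ := by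
        apply Fin.ext
        rw [coe_finRotate_of_ne_last (Fin.castSucc_lt_last i).ne]
        simp
      have : i.castSucc ∉ runEnds P := by rw [hcon]; simp
      rw [runEnds, mem_filter] at this
      simp only [mem_univ, true_and, ne_eq, not_not] at this
      rw [hrot] at this
      rw [← this, ih]
  have : P.parts ⊆ {P.part 0} := by
    rw [← image_part]
    intro B hB
    rw [mem_image] at hB
    obtain ⟨i, _, rfl⟩ := hB
    rw [hall i, mem_singleton]
  have := card_le_card this
  rw [hP, card_singleton] at this
  omega

theorem hasGenus_iff (hP : #P.parts = 3) (g : ℕ) :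
    HasGenus P g ↔ #(runEnds P) = 2 * g + 3 ∨ #(runEnds P) = 2 * g + 4 := by
  have hle := card_cycleFactors_le_two P hP
  have hpos : 1 ≤ #((kr P).cycleFactorsFinset) := by
    rw [cycleFactorsFinset_eq_image]
    apply card_pos.2
    rw [image_nonempty, support_kr]
    exact runEnds_nonempty P hP
  have hN : #(runEnds P) ≤ m + 1 := by
    have := card_support_le' (kr P)
    rwa [support_kr] at this
  have hc := numCycles_eq (kr P)
  rw [support_kr] at hc
  have hpar : (numCycles (kr P) + (m + 1)) % 2 = 0 := by
    have h1 : Equiv.Perm.sign (kr P) = Equiv.Perm.sign (blockPerm P) *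
        Equiv.Perm.sign (finRotate (m + 1)) := by
      rw [Equiv.Perm.sign_mul, Equiv.Perm.sign_inv]
    rw [sign_eq_neg_one_pow, sign_eq_neg_one_pow, sign_eq_neg_one_pow, ← pow_add,
      numCycles_blockPerm, hP, numCycles_finRotate (by omega)] at h1
    by_contra hcon
    have hodd : Odd (m + 1 + numCycles (kr P)) := by
      rw [Nat.odd_iff]; omega
    have heven : Even (m + 1 + 3 + (m + 1 + 1)) := ⟨m + 3, by ring⟩
    rw [hodd.neg_one_pow, heven.neg_one_pow] at h1
    exact absurd h1 (by decide)
  unfold HasGenus
  rw [numCycles_blockPerm, hP, numCycles_finRotate (by omega)]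
  change 3 + numCycles (kr P) + 1 + 2 * g = m + 1 + 2 ↔ _
  omega

end Pool.Agent.Helper26.Genus
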