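import Pool.Agent.Helper26.GenusRuns

set_option autoImplicit false

namespace Pool.Agent.Helper26.Genus

open Finset Polynomial

variable {q : ℕ}

/-- linear changes of a word -/
def linCh {n : ℕ} (w : Fin (n + 1) → Fin q) : ℕ :=
  #(univ.filter (fun i : Fin n => w i.castSucc ≠ w i.succ))

/-- cyclic changes of a word -/
def cycCh {n : ℕ} (w : Fin n → Fin q) : ℕ :=
  #(univ.filter (fun i : Fin n => w i ≠ w (finRotate n i)))

theorem linCh_snoc {n : ℕ} (w : Fin (n + 1) → Fin q) (b : Fin q) :
    linCh (Fin.snoc w b : Fin (n + 2) → Fin q)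
      = linCh w + (if w (Fin.last n) = b then 0 else 1) := by
  unfold linCh
  rw [card_filter, card_filter, Fin.sum_univ_castSucc]
  congr 1
  · apply sum_congr rfl
    intro i _
    have h1 : (Fin.snoc w b : Fin (n + 2) → Fin q) i.castSucc.castSucc = w i.castSucc :=
      Fin.snoc_castSucc (α := fun _ => Fin q) _ _ _
    have h2 : (Fin.snoc w b : Fin (n + 2) → Fin q) i.castSucc.succ = w i.succ := by
      rw [Fin.succ_castSucc]
      exact Fin.snoc_castSucc (α := fun _ => Fin q) _ _ _
    rw [h1, h2]
  · have h1 : (Fin.snoc w b : Fin (n + 2) → Fin q) (Fin.last n).castSucc = w (Fin.last n) :=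
      Fin.snoc_castSucc (α := fun _ => Fin q) _ _ _
    have h2 : (Fin.snoc w b : Fin (n + 2) → Fin q) (Fin.last n).succ = b := by
      rw [Fin.succ_last]
      exact Fin.snoc_last (α := fun _ => Fin q) _ _
    rw [h1, h2]
    by_cases h : w (Fin.last n) = b <;> simp [h]

theorem cycCh_eq {n : ℕ} (w : Fin (n + 1) → Fin q) :
    cycCh w = linCh w + (if w (Fin.last n) = w 0 then 0 else 1) := by
  unfold linCh cycCh
  rw [card_filter, card_filter, Fin.sum_univ_castSucc]
  congr 1
  · apply sum_congr rfl
    intro i _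
    have hrot : finRotate (n + 1) i.castSucc = i.succ := by
      apply Fin.ext
      rw [coe_finRotate_of_ne_last (Fin.castSucc_lt_last i).ne]
      simp
    rw [hrot]
  · rw [finRotate_last]
    by_cases h : w (Fin.last n) = w 0 <;> simp [h]

/-- Generating polynomial of linear words with given ends. -/
noncomputable def G (q n : ℕ) (a b : Fin q) : ℤ[X] :=
  ∑ w : Fin (n + 1) → Fin q, if w 0 = a ∧ w (Fin.last n) = b then X ^ (linCh w) else 0

theorem G_succ (n : ℕ) (a b : Fin q) :
    G q (n + 1) a b = ∑ c : Fin q, G q n a c * (if c = b then 1 else X) := by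
  unfold G
  rw [← (Fin.snocEquiv (fun _ : Fin (n + 2) => Fin q)).sum_comp, Fintype.sum_prod_type]
  simp only [Finset.sum_mul]
  rw [Finset.sum_comm]
  conv_rhs => rw [Finset.sum_comm]
  apply sum_congr rfl
  intro w _
  have e : ∀ x : Fin q, (Fin.snocEquiv (fun _ : Fin (n + 2) => Fin q)) (x, w)
      = (Fin.snoc w x : Fin (n + 2) → Fin q) := fun x => rfl
  simp only [e, linCh_snoc]
  have h0 : ∀ x, (Fin.snoc w x : Fin (n + 2) → Fin q) 0 = w 0 := fun x =>
    Fin.snoc_castSucc (α := fun _ => Fin q) _ _ 0
  have hl : ∀ x, (Fin.snoc w x : Fin (n + 2) → Fin q) (Fin.last (n + 1)) = x := fun x =>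
    Fin.snoc_last (α := fun _ => Fin q) _ _
  simp only [h0, hl]
  rw [Finset.sum_eq_single b, Finset.sum_eq_single (w (Fin.last n))]
  · by_cases h : w 0 = a <;> by_cases h' : w (Fin.last n) = b <;> simp [h, h', pow_succ]
  · intro c _ hc
    rw [if_neg (fun hh => hc hh.2.symm), zero_mul]
  · intro h; exact absurd (mem_univ _) h
  · intro c _ hc
    rw [if_neg (fun hh => hc hh.2)]
  · intro h; exact absurd (mem_univ _) h

theorem G_closed (n : ℕ) (a b : Fin q) :
    (q : ℤ[X]) * G q n a b = (1 + ((q : ℤ[X]) - 1) * X) ^ n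
      + ((q : ℤ[X]) * (if a = b then 1 else 0) - 1) * (1 - X) ^ n := by
  induction n generalizing b with
  | zero =>
    have : G q 0 a b = if a = b then 1 else 0 := by
      unfold G
      rw [Finset.sum_eq_single (fun _ => a)]
      · have : linCh (fun _ : Fin 1 => a) = 0 := by simp [linCh]
        simp [this]
      · intro w _ hw
        rw [if_neg]
        rintro ⟨h1, _⟩
        apply hw
        funext i
        rw [← h1]
        have hi : i = 0 := by
          apply Fin.ext
          have := i.isLt
          simp only [Fin.val_zero]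
          omega
        rw [hi]
      · intro h; exact absurd (mem_univ _) h
    rw [this]
    ring
  | succ n ih =>
    rw [G_succ, Finset.mul_sum]
    have h1 : ∀ c : Fin q, (q : ℤ[X]) * (G q n a c * (if c = b then 1 else X))
        = ((1 + ((q : ℤ[X]) - 1) * X) ^ n * X
            - (1 - X) ^ n * X)
          + (if a = c then (q : ℤ[X]) * (1 - X) ^ n * X else 0)
          + (if c = b then ((1 + ((q : ℤ[X]) - 1) * X) ^ n
      + ((q : ℤ[X]) * (if a = b then 1 else 0) - 1) * (1 - X) ^ n) * (1 - X) else 0) := by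
      intro c
      rw [← mul_assoc, ih c]
      by_cases hc : c = b
      · subst hc
        by_cases ha : a = c <;> simp [ha] <;> ring
      · by_cases ha : a = c <;> simp [ha, hc] <;> ring
    simp only [h1]
    rw [Finset.sum_add_distrib, Finset.sum_add_distrib, Finset.sum_const, Finset.card_univ,
      Fintype.card_fin, Finset.sum_ite_eq, Finset.sum_ite_eq']
    simp only [mem_univ, if_true, nsmul_eq_mul]
    ring

/-- Generating polynomial of all cyclic words by the number of changes. -/
theorem sum_cycCh (hq : q ≠ 0) (n : ℕ) :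
    ∑ w : Fin (n + 1) → Fin q, (X : ℤ[X]) ^ (cycCh w)
      = (1 + ((q : ℤ[X]) - 1) * X) ^ (n + 1) + ((q : ℤ[X]) - 1) * (1 - X) ^ (n + 1) := by
  have h1 : ∑ w : Fin (n + 1) → Fin q, (X : ℤ[X]) ^ (cycCh w)
      = ∑ a : Fin q, G q (n + 1) a a := by
    simp only [G_succ]
    unfold G
    simp only [Finset.sum_mul]
    have h2 : ∀ a : Fin q, ∑ c : Fin q, ∑ w : Fin (n + 1) → Fin q,
        (if w 0 = a ∧ w (Fin.last n) = c then (X : ℤ[X]) ^ (linCh w) else 0)
          * (if c = a then 1 else X)
        = ∑ w : Fin (n + 1) → Fin q, if w 0 = a then (X : ℤ[X]) ^ (cycCh w) else 0 := by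
      intro a
      rw [Finset.sum_comm]
      apply sum_congr rfl
      intro w _
      rw [Finset.sum_eq_single (w (Fin.last n))]
      · rw [cycCh_eq]
        by_cases h : w 0 = a
        · subst h
          by_cases h' : w (Fin.last n) = w 0 <;> simp [h', pow_succ]
        · simp [h]
      · intro c _ hc
        rw [if_neg (fun hh => hc hh.2.symm), zero_mul]
      · intro h; exact absurd (mem_univ _) h
    simp only [h2]
    rw [Finset.sum_comm]
    apply sum_congr rfl
    intro w _
    simp
  have hq' : (q : ℤ[X]) ≠ 0 := by exact_mod_cast hq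
  apply mul_left_cancel₀ hq'
  rw [h1, Finset.mul_sum]
  simp only [G_closed, if_true]
  rw [Finset.sum_const, Finset.card_univ, Fintype.card_fin, nsmul_eq_mul]
  ring

end Pool.Agent.Helper26.Genus
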