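import Pool.Agent.Helper26.KempeCount

set_option autoImplicit false
set_option linter.unusedSectionVars false

/-! Colourings with `k` colours of graphs on `2 k` vertices: common classes of two colourings,
extremal pairs. -/

namespace Pool.Agent.Helper26.Kempe

open Relation

variable {V : Type} [Fintype V] [DecidableEq V] {k : ℕ} {G : SimpleGraph V}

/-- Adjacency in the complement. -/
def HA (G : SimpleGraph V) (x y : V) : Prop := x ≠ y ∧ ¬ G.Adj x y

theorem HA.symm {x y : V} (h : HA G x y) : HA G y x := ⟨h.1.symm, fun e => h.2 e.symm⟩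

theorem mem_NN_iff {v x : V} : x ∈ NN G v ↔ HA G v x := by
  rw [mem_NN]
  exact ⟨fun h => ⟨h.1.symm, h.2⟩, fun h => ⟨h.1.symm, h.2⟩⟩

theorem HA_of_same {f : V → Fin k} (hf : Proper G f) {x y : V} (hxy : x ≠ y)
    (h : f x = f y) : HA G x y := ⟨hxy, fun e => hf x y e h⟩

/-- The colour class of a vertex. -/
def cls (f : V → Fin k) (x : V) : Finset V := Finset.univ.filter (fun w => f w = f x)

theorem mem_cls {f : V → Fin k} {x w : V} : w ∈ cls f x ↔ f w = f x := by simp [cls]

theorem self_mem_cls (f : V → Fin k) (x : V) : x ∈ cls f x := mem_cls.2 rfl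

theorem cls_eq {f : V → Fin k} {x w : V} (h : f w = f x) : cls f w = cls f x := by
  ext u
  rw [mem_cls, mem_cls, h]

/-- Common classes of size at least two. -/
def com (f g : V → Fin k) : Finset (Finset V) :=
  Finset.univ.filter (fun Z => 2 ≤ Z.card ∧ (∃ x, cls f x = Z) ∧ (∃ x, cls g x = Z))

theorem mem_com {f g : V → Fin k} {Z : Finset V} :
    Z ∈ com f g ↔ 2 ≤ Z.card ∧ (∃ x, cls f x = Z) ∧ (∃ x, cls g x = Z) := by
  simp [com]

theorem com_cls {f g : V → Fin k} {Z : Finset V} (h : Z ∈ com f g) {z : V} (hz : z ∈ Z) :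
    cls f z = Z ∧ cls g z = Z := by
  rw [mem_com] at h
  obtain ⟨-, ⟨x, hx⟩, ⟨y, hy⟩⟩ := h
  constructor
  · rw [← hx] at hz ⊢
    exact cls_eq (mem_cls.1 hz)
  · rw [← hy] at hz ⊢
    exact cls_eq (mem_cls.1 hz)

theorem cls_mem_com {f g : V → Fin k} {z : V} (h : cls f z = cls g z)
    (h2 : 2 ≤ (cls f z).card) : cls f z ∈ com f g :=
  mem_com.2 ⟨h2, ⟨z, rfl⟩, ⟨z, h.symm⟩⟩

theorem com_comm (f g : V → Fin k) : com f g = com g f := by
  ext Z
  rw [mem_com, mem_com]
  tauto

/-- Number of common classes of size at least two. -/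
def mm (f g : V → Fin k) : ℕ := (com f g).card

theorem mm_comm (f g : V → Fin k) : mm f g = mm g f := by
  unfold mm; rw [com_comm]

theorem single_iff_cls {f : V → Fin k} {v : V} : Single f v ↔ cls f v = {v} := by
  constructor
  · intro h
    ext w
    rw [mem_cls, Finset.mem_singleton]
    exact ⟨fun e => h w e, fun e => by rw [e]⟩
  · intro h y hy
    have : y ∈ cls f v := mem_cls.2 hy
    rw [h, Finset.mem_singleton] at this
    exact this

theorem not_single_card {f : V → Fin k} {v : V} (h : ¬ Single f v) : 2 ≤ (cls f v).card := by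
  obtain ⟨w, hw, hfw⟩ := not_single h
  have : ({v, w} : Finset V) ⊆ cls f v := by
    intro x hx
    rw [Finset.mem_insert, Finset.mem_singleton] at hx
    rcases hx with rfl | rfl
    · exact self_mem_cls f x
    · exact mem_cls.2 hfw
  have h2 := Finset.card_le_card this
  rwa [Finset.card_pair (Ne.symm hw)] at h2

/-- Preservation of a common class. -/
theorem com_keep {f g f' g' : V → Fin k} {Z : Finset V} (hZ : Z ∈ com f g)
    (hf : ∀ z ∈ Z, ∀ w, f' w = f' z ↔ w ∈ Z) (hg : ∀ z ∈ Z, ∀ w, g' w = g' z ↔ w ∈ Z) :
    Z ∈ com f' g' := by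
  rw [mem_com] at hZ ⊢
  have hne : Z.Nonempty := by
    rw [← Finset.card_pos]; omega
  obtain ⟨z, hz⟩ := hne
  refine ⟨hZ.1, ⟨z, ?_⟩, ⟨z, ?_⟩⟩
  · ext w
    rw [mem_cls]
    exact hf z hz w
  · ext w
    rw [mem_cls]
    exact hg z hz w

theorem class_iff {f : V → Fin k} {Z : Finset V} {z : V} (h : cls f z = Z) (w : V) :
    f w = f z ↔ w ∈ Z := by
  rw [← h, mem_cls]

theorem mm_le {f g f' g' : V → Fin k} (L N : Finset (Finset V))
    (h1 : ∀ Z ∈ com f g, Z ∉ L → Z ∈ com f' g')
    (h2 : ∀ Z ∈ N, Z ∈ com f' g') (h3 : ∀ Z ∈ N, Z ∈ com f g → Z ∈ L) :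
    mm f g + N.card ≤ mm f' g' + L.card := by
  have e1 : (com f g \ L) ∪ N ⊆ com f' g' := by
    intro Z hZ
    rw [Finset.mem_union, Finset.mem_sdiff] at hZ
    rcases hZ with hZ | hZ
    · exact h1 Z hZ.1 hZ.2
    · exact h2 Z hZ
  have e2 : Disjoint (com f g \ L) N := by
    rw [Finset.disjoint_left]
    intro Z hZ hN
    rw [Finset.mem_sdiff] at hZ
    exact hZ.2 (h3 Z hN hZ.1)
  have e3 := Finset.card_le_card e1
  rw [Finset.card_union_of_disjoint e2] at e3
  have e4 : (com f g).card ≤ (com f g \ L).card + L.card := by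
    exact Finset.card_le_card_sdiff_add_card
  unfold mm
  omega

/-- A class not touched by an update stays a class. -/
theorem upd_class {f : V → Fin k} {v : V} {b : Fin k} {Z : Finset V} {z0 : V}
    (hZ : cls f z0 = Z) (hv : v ∉ Z) (hb : f z0 ≠ b) :
    ∀ z ∈ Z, ∀ w, Function.update f v b w = Function.update f v b z ↔ w ∈ Z := by
  intro z hz w
  have hzv : z ≠ v := fun e => hv (e ▸ hz)
  have hfz : f z = f z0 := by rw [← hZ, mem_cls] at hz; exact hz
  rw [Function.update_of_ne hzv]
  by_cases hw : w = v
  · subst hw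
    rw [Function.update_self]
    constructor
    · intro e; exact absurd (e.trans hfz).symm hb
    · intro e; exact absurd e hv
  · rw [Function.update_of_ne hw, hfz, ← hZ, mem_cls]

/-- Effect of one recolouring on the number of common classes. `e` bounds the number of
common classes destroyed. -/
theorem upd_mm {f g : V → Fin k} {v : V} {b : Fin k} (L : Finset (Finset V))
    (h : ∀ Z ∈ com f g, Z ∉ L → v ∉ Z ∧ ∀ z ∈ Z, f z ≠ b) :
    mm f g ≤ mm (Function.update f v b) g + L.card := by
  have := mm_le (f := f) (g := g) (f' := Function.update f v b) (g' := g) L ∅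
    (by
      intro Z hZ hL
      obtain ⟨h1, h2⟩ := h Z hZ hL
      have hZ' := mem_com.1 hZ
      have hne : Z.Nonempty := by
        rw [← Finset.card_pos]; omega
      obtain ⟨z, hz⟩ := hne
      obtain ⟨e1, e2⟩ := com_cls hZ hz
      apply com_keep hZ
      · exact upd_class e1 h1 (h2 z hz)
      · intro z' hz' w
        exact class_iff (com_cls hZ hz').2 w)
    (by simp) (by simp)
  simpa using this

theorem upd_mm_gain {f g : V → Fin k} {v : V} {b : Fin k} (L : Finset (Finset V))
    (h : ∀ Z ∈ com f g, Z ∉ L → v ∉ Z ∧ ∀ z ∈ Z, f z ≠ b)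
    {y : V} (h1 : cls (Function.update f v b) y = cls g y) (h2 : ¬ Single g y)
    (h3 : cls g y ∈ com f g → cls g y ∈ L) :
    mm f g + 1 ≤ mm (Function.update f v b) g + L.card := by
  have := mm_le (f := f) (g := g) (f' := Function.update f v b) (g' := g) L {cls g y}
    (by
      intro Z hZ hL
      obtain ⟨h1, h2⟩ := h Z hZ hL
      have hZ' := mem_com.1 hZ
      have hne : Z.Nonempty := by
        rw [← Finset.card_pos]; omega
      obtain ⟨z, hz⟩ := hne
      obtain ⟨e1, e2⟩ := com_cls hZ hz
      apply com_keep hZ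
      · exact upd_class e1 h1 (h2 z hz)
      · intro z' hz' w
        exact class_iff (com_cls hZ hz').2 w)
    (by
      intro Z hZ
      rw [Finset.mem_singleton] at hZ
      rw [hZ, ← h1]
      apply cls_mem_com h1
      rw [h1]
      exact not_single_card h2)
    (by
      intro Z hZ
      rw [Finset.mem_singleton] at hZ
      rw [hZ]
      exact h3)
  simpa using this

/-- Moving an independent set to one colour. -/
theorem moveSet {f : V → Fin k} (hf : Proper G f) (D : Finset V) (b : Fin k)
    (hD : ∀ x ∈ D, ∀ y ∈ D, ¬ G.Adj x y) (hb : ∀ w, f w = b → w ∈ D) :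
    KE G f (fun w => if w ∈ D then b else f w) ∧
      Proper G (fun w => if w ∈ D then b else f w) := by
  have key : ∀ S : Finset V, S ⊆ D → KE G f (fun w => if w ∈ S then b else f w) ∧
      Proper G (fun w => if w ∈ S then b else f w) := by
    intro S
    induction S using Finset.induction_on with
    | empty =>
      intro _
      simp only [Finset.notMem_empty, if_false]
      exact ⟨KE.refl f, hf⟩
    | insert v S hv ih =>
      intro hS
      obtain ⟨k1, k2⟩ := ih (fun x hx => hS (Finset.mem_insert_of_mem hx))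
      have hvD : v ∈ D := hS (Finset.mem_insert_self v S)
      obtain ⟨k3, k4⟩ := recolour k2 v b (by
        intro y hy hyb
        have hyD : y ∈ D := by
          by_cases hyS : y ∈ S
          · exact hS (Finset.mem_insert_of_mem hyS)
          · simp only [hyS, if_false] at hyb
            exact hb y hyb
        exact hD v hvD y hyD hy)
      have heq : Function.update (fun w => if w ∈ S then b else f w) v b
          = (fun w => if w ∈ insert v S then b else f w) := by
        funext w
        by_cases hw : w = v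
        · subst hw; simp
        · simp [hw]
      rw [heq] at k3 k4
      exact ⟨KE.trans k1 k3, k4⟩
  exact key D (fun x hx => hx)

/-- Moving a class of `g` to a colour of `f` used only inside it. -/
theorem moveSet_mm {f g : V → Fin k} {y : V} {b : Fin k} (hb : ∀ w, f w = b → w ∈ cls g y)
    (h2 : ¬ Single g y) (hnot : cls f y ≠ cls g y) :
    mm f g + 1 ≤ mm (fun w => if w ∈ cls g y then b else f w) g := by
  have := mm_le (f := f) (g := g) (f' := fun w => if w ∈ cls g y then b else f w) (g' := g)
    ∅ {cls g y}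
    (by
      intro Z hZ _
      have hdis : ∀ z ∈ Z, z ∉ cls g y := by
        intro z hz hzy
        obtain ⟨e1, e2⟩ := com_cls hZ hz
        have e3 : cls g z = cls g y := cls_eq (mem_cls.1 hzy)
        have e4 : y ∈ Z := by rw [← e2, e3]; exact self_mem_cls g y
        exact hnot ((com_cls hZ e4).1.trans (com_cls hZ e4).2.symm)
      apply com_keep hZ
      · intro z hz w
        have hz' := hdis z hz
        obtain ⟨e1, e2⟩ := com_cls hZ hz
        simp only [hz', if_false]
        by_cases hw : w ∈ cls g y
        · simp only [hw, if_true]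
          constructor
          · intro e; exact absurd (hb z e.symm) hz'
          · intro e; exact absurd hw (hdis w e)
        · simp only [hw, if_false]
          exact class_iff e1 w
      · intro z' hz' w
        exact class_iff (com_cls hZ hz').2 w)
    (by
      intro Z hZ
      rw [Finset.mem_singleton] at hZ
      subst hZ
      have e : cls (fun w => if w ∈ cls g y then b else f w) y = cls g y := by
        ext w
        rw [mem_cls]
        simp only [self_mem_cls, if_true]
        by_cases hw : w ∈ cls g y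
        · simp [hw]
        · simp only [hw, if_false, iff_false]
          exact fun e => hw (hb w e)
      have e2 := cls_mem_com (f := fun w => if w ∈ cls g y then b else f w) (g := g) (z := y) e
        (by rw [e]; exact not_single_card h2)
      rwa [e] at e2)
    (by
      intro Z hZ hZ2
      rw [Finset.mem_singleton] at hZ
      subst hZ
      exact absurd (com_cls hZ2 (self_mem_cls g y)).1 hnot)
  simpa using this

theorem cls_indep {g : V → Fin k} (hg : Proper G g) (y : V) :
    ∀ x ∈ cls g y, ∀ z ∈ cls g y, ¬ G.Adj x z := by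
  intro x hx z hz e
  rw [mem_cls] at hx hz
  exact hg x z e (hx.trans hz.symm)

/-- Extremal pairs: inequivalent, with the largest number of common classes. -/
def XExt (G : SimpleGraph V) (c d : V → Fin k) : Prop :=
  Proper G c ∧ Proper G d ∧ ¬ KE G c d ∧
    ∀ c' d' : V → Fin k, Proper G c' → Proper G d' → ¬ KE G c' d' → mm c' d' ≤ mm c d

theorem XExt.symm {c d : V → Fin k} (h : XExt G c d) : XExt G d c := by
  refine ⟨h.2.1, h.1, fun hk => h.2.2.1 hk.symm, fun c' d' h1 h2 h4 => ?_⟩
  rw [mm_comm d c]
  exact h.2.2.2 c' d' h1 h2 h4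

theorem XExt.le {c d c' d' : V → Fin k} (h : XExt G c d) (h1 : KE G c c') (h2 : KE G d d')
    (p1 : Proper G c') (p2 : Proper G d') : mm c' d' ≤ mm c d :=
  h.2.2.2 c' d' p1 p2 (fun hk => h.2.2.1 (KE.trans h1 (KE.trans hk h2.symm)))

theorem XExt.replace {c d c' d' : V → Fin k} (h : XExt G c d) (h1 : KE G c c')
    (h2 : KE G d d') (p1 : Proper G c') (p2 : Proper G d') (hle : mm c d ≤ mm c' d') :
    XExt G c' d' := by
  refine ⟨p1, p2, fun hk => h.2.2.1 (KE.trans h1 (KE.trans hk h2.symm)), ?_⟩
  intro c'' d'' q1 q2 q3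
  exact (h.2.2.2 c'' d'' q1 q2 q3).trans hle

theorem exists_xext {c d : V → Fin k} (hc : Proper G c) (hd : Proper G d) (h : ¬ KE G c d) :
    ∃ c' d' : V → Fin k, XExt G c' d' := by
  classical
  let S : Finset ((V → Fin k) × (V → Fin k)) :=
    Finset.univ.filter (fun p => Proper G p.1 ∧ Proper G p.2 ∧ ¬ KE G p.1 p.2)
  have hS : S.Nonempty := ⟨(c, d), by simp [S, hc, hd, h]⟩
  obtain ⟨p, hp, hmax⟩ := Finset.exists_max_image S (fun p => mm p.1 p.2) hS
  simp only [S, Finset.mem_filter, Finset.mem_univ, true_and] at hp hmax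
  exact ⟨p.1, p.2, hp.1, hp.2.1, hp.2.2, fun c' d' h1 h2 h4 => hmax (c', d') ⟨h1, h2, h4⟩⟩

/-- Singles of an extremal pair agree. -/
theorem XExt.single {c d : V → Fin k} (h : XExt G c d) {v : V} (hv : Single c v) :
    Single d v := by
  by_contra hns
  have hb : ∀ w, c w = c v → w ∈ cls d v := by
    intro w hw
    rw [hv w hw]; exact self_mem_cls d v
  obtain ⟨k1, k2⟩ := moveSet h.1 (cls d v) (c v) (cls_indep h.2.1 v) hb
  have hle := h.le k1 (KE.refl d) k2 h.2.1
  have hne : cls c v ≠ cls d v := by
    intro e
    have := not_single_card hns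
    rw [← e, single_iff_cls.1 hv, Finset.card_singleton] at this
    omega
  have := moveSet_mm (f := c) (g := d) (y := v) (b := c v) hb hns hne
  omega

/-- Colourings of an extremal pair use all colours. -/
theorem XExt.surj {c d : V → Fin k} (h : XExt G c d) (a : Fin k) : ∃ v, c v = a := by
  by_contra hcon
  push Not at hcon
  apply h.2.2.1
  -- every non-single class of d is a class of c
  have h1 : ∀ y, ¬ Single d y → cls c y = cls d y := by
    intro y hy
    by_contra hne
    obtain ⟨k1, k2⟩ := moveSet h.1 (cls d y) a (cls_indep h.2.1 y)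
      (fun w hw => absurd hw (hcon w))
    have hle := h.le k1 (KE.refl d) k2 h.2.1
    have := moveSet_mm (f := c) (g := d) (y := y) (b := a) (fun w hw => absurd hw (hcon w))
      hy hne
    omega
  have h2 : ∀ y, cls c y = cls d y := by
    intro y
    by_cases hy : Single d y
    · have := h.symm.single hy
      rw [single_iff_cls.1 hy, single_iff_cls.1 this]
    · exact h1 y hy
  apply same_kernel
  intro x y
  have := h2 y
  rw [← mem_cls, ← mem_cls, this]

/-- A single vertex is adjacent to every vertex whose classes differ. -/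
theorem XExt.single_odd {c d : V → Fin k} (h : XExt G c d) {v z : V} (hv : Single c v)
    (hz : cls c z ≠ cls d z) : ¬ HA G v z := by
  intro hvz
  have hdv : Single d v := h.single hv
  obtain ⟨k1, k2⟩ := join h.1 hv hvz.2
  have hmm : mm c d ≤ mm (Function.update c z (c v)) d + (∅ : Finset (Finset V)).card := by
    apply upd_mm
    intro Z hZ _
    constructor
    · intro hzZ
      exact hz ((com_cls hZ hzZ).1.trans (com_cls hZ hzZ).2.symm)
    · intro z' hz' e
      have := hv z' e
      subst this
      have h2 := (mem_com.1 hZ).1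
      rw [← (com_cls hZ hz').1, single_iff_cls.1 hv, Finset.card_singleton] at h2
      omega
  have hext : XExt G (Function.update c z (c v)) d :=
    h.replace k1 (KE.refl d) k2 h.2.1 (by simpa using hmm)
  have := hext.symm.single hdv
  have h3 := this z (by rw [Function.update_self, Function.update_of_ne hvz.1])
  exact hvz.1 h3.symm

end Pool.Agent.Helper26.Kempe
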