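import Pool.Agent.Helper26.HalfMain

set_option autoImplicit false
set_option linter.unusedSectionVars false

/-! The case of `2 k` vertices: end of the proof. -/

namespace Pool.Agent.Helper26.Kempe

open Relation

variable {V : Type} [Fintype V] [DecidableEq V] {k : ℕ} {G : SimpleGraph V}

theorem delta1 (E : Env G k) {c d : V → Fin k} (h : XExt G c d) {a1 a2 p1 p2 y : V}
    (ha1 : par c a1 = par d a1) (ha2 : par c a2 = par d a2) (hne : a1 ≠ a2)
    (hne2 : a1 ≠ par c a2) (hb : HA G (par c a1) (par c a2))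
    (hp1 : par c p1 ≠ par d p1) (hp2 : par c p2 ≠ par d p2) (h12 : p1 ≠ p2)
    (h12' : p1 ≠ par c p2) (u1 : HA G a1 p1) (u2 : HA G a1 (par c p1))
    (u3 : HA G a2 p2) (u4 : HA G a2 (par c p2)) (hy : par c y ≠ par d y)
    (y1 : ¬ (y = p1 ∨ y = par c p1)) (y2 : ¬ (y = p2 ∨ y = par c p2)) :
    (par d y = p1 ∨ par d y = par c p1) ∨ (par d y = p2 ∨ par d y = par c p2) := by
  by_contra hcon
  have hc := E.pr h
  have hd := E.pr h.symm
  rw [not_or] at hcon
  have htC : par c (par d y) ≠ par d (par d y) := od_par' hc hd hy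
  have hinj := inj4 (c := c) (x0 := a1) (x1 := a2) (x2 := p1) (x3 := p2)
    (cne hc hne hne2) (cne_JC hc hd ha1 hp1) (cne_JC hc hd ha1 hp2)
    (cne_JC hc hd ha2 hp1) (cne_JC hc hd ha2 hp2) (cne hc h12 h12')
  have hk := reach hc hinj [((0, false), (2, false)), ((0, false), (2, true)),
      ((1, false), (3, false)), ((1, false), (3, true)), ((0, true), (1, true))]
    (by simp [ev]; exact ⟨u1, u2, u3, u4, hb⟩)
    [mk ![(2, 0), (1, 1), (2, 2), (3, 3)], mk ![(2, 0), (3, 1), (2, 2), (3, 3)],
     mk ![(2, 1), (3, 1), (2, 2), (3, 3)]] (by decide)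
  have hcnt := cnt2 hc hd hinj (mk ![(2, 1), (3, 1), (2, 2), (3, 3)]) {0, 1} ∅ id
    (by
      intro i hi
      fin_cases i
      · simp at hi
      · simp at hi
      · exact hp1
      · exact hp2)
    (by simp) (by simp)
  have hcard : (({0, 1} : Finset (Fin 4))).card = 2 := by decide
  simp only [lastS, Finset.card_empty] at hk hcnt
  rw [hcard] at hcnt
  have hun := lft_unused (τ := mk ![(2, 1), (3, 1), (2, 2), (3, 3)]) hc hinj (j := 0)
    (by decide)
  have hoff : ∀ v, par c v ≠ par d v → ¬ (v = p1 ∨ v = par c p1) →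
      ¬ (v = p2 ∨ v = par c p2) → ∀ i, ev c ![a1, a2, p1, p2] i ≠ v := by
    intro v hv q1 q2 i e
    rw [not_or] at q1 q2
    obtain ⟨i, bb⟩ := i
    fin_cases i <;> cases bb
    · simp [ev] at e; rw [← e] at hv; exact hv ha1
    · simp [ev] at e; rw [← e] at hv; exact hv (jp hc hd ha1)
    · simp [ev] at e; rw [← e] at hv; exact hv ha2
    · simp [ev] at e; rw [← e] at hv; exact hv (jp hc hd ha2)
    · simp [ev] at e; exact q1.1 e.symm
    · simp [ev] at e; exact q1.2 e.symm
    · simp [ev] at e; exact q2.1 e.symm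
    · simp [ev] at e; exact q2.2 e.symm
  have oy := hoff y hy y1 y2
  have ot := hoff (par d y) htC hcon.1 hcon.2
  have := LB3 E h hk.1 hk.2 hd hun (y := y) (y' := par c y) (t' := par c (par d y))
    (hc.ne y)
    (by intro w; rw [lft_eq_off hc hinj oy, hc.cl])
    (hc.ne _)
    (by intro w; rw [lft_eq_off hc hinj ot, hc.cl])
    (by
      intro e
      rw [lft_eq_off hc hinj ot, hc.cl] at e
      rcases e with e | e
      · exact hd.ne y e.symm
      · apply hy
        rw [e, hc.pp, ← e])
    (by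
      intro e
      apply U5a E h hy
      rw [← e]
      exact hd.ha _)
  omega

theorem delta2 (E : Env G k) {c d : V → Fin k} (h : XExt G c d) {a1 a2 y : V}
    (ha1 : par c a1 = par d a1) (ha2 : par c a2 = par d a2) (hne : a1 ≠ a2)
    (hne2 : a1 ≠ par c a2) (hb : HA G (par c a1) (par c a2)) (hy : par c y ≠ par d y)
    (u1 : HA G a1 (par d y)) (u2 : HA G a1 (par c (par d y)))
    (u3 : HA G a2 (par d (par c y))) (u4 : HA G a2 (par c (par d (par c y)))) :
    ¬ HA G a1 y ∧ (HA G a1 (par d (par c y)) → ¬ HA G a1 (par c y)) := by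
  have hc := E.pr h
  have hd := E.pr h.symm
  set q1 := par d y with hq1
  set y' := par c y with hy'
  set q2 := par d y' with hq2
  have hq1C : par c q1 ≠ par d q1 := od_par' hc hd hy
  have hy'C : par c y' ≠ par d y' := od_par hc hd hy
  have hq2C : par c q2 ≠ par d q2 := od_par' hc hd hy'C
  have n12 : q1 ≠ q2 := fun e => hc.ne y (hd.inj e).symm
  have n12' : q1 ≠ par c q2 := by
    intro e
    have e2 : par c q1 = q2 := by rw [e, hc.pp]
    apply U5a E h hy
    rw [← hq1, ← hy', e2]
    exact hd.ha y'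
  have n1y : q1 ≠ y := hd.ne y
  have n1y' : q1 ≠ y' := fun e => hy e.symm
  have n2y : q2 ≠ y := by
    intro e
    have : y' = par d y := by rw [← e, hq2, hd.pp]
    exact hy this
  have n2y' : q2 ≠ y' := hd.ne y'
  have hinj := inj5 (c := c) (x0 := a1) (x1 := a2) (x2 := q1) (x3 := q2) (x4 := y)
    (cne hc hne hne2) (cne_JC hc hd ha1 hq1C) (cne_JC hc hd ha1 hq2C)
    (cne_JC hc hd ha1 hy) (cne_JC hc hd ha2 hq1C) (cne_JC hc hd ha2 hq2C)
    (cne_JC hc hd ha2 hy) (cne hc n12 n12') (cne hc n1y n1y') (cne hc n2y n2y')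
  have hk := reach hc hinj [((0, false), (2, false)), ((0, false), (2, true)),
      ((1, false), (3, false)), ((1, false), (3, true)), ((0, true), (1, true)),
      ((2, false), (4, false)), ((3, false), (4, true))]
    (by
      simp [ev]
      exact ⟨u1, u2, u3, u4, hb, (hd.ha y).symm, (hd.ha y').symm⟩)
    [mk ![(2, 0), (1, 1), (2, 2), (3, 3), (4, 4)],
     mk ![(2, 0), (3, 1), (2, 2), (3, 3), (4, 4)],
     mk ![(2, 1), (3, 1), (2, 2), (3, 3), (4, 4)],
     mk ![(2, 1), (3, 1), (0, 2), (3, 3), (4, 4)],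
     mk ![(2, 1), (3, 1), (0, 2), (3, 3), (0, 4)],
     mk ![(2, 1), (3, 1), (0, 2), (4, 3), (0, 4)]] (by decide)
  have hcnt := cnt2 hc hd hinj (mk ![(2, 1), (3, 1), (0, 2), (4, 3), (0, 4)]) {0, 1}
    {(2, false), (4, false), (3, false), (4, true)}
    (fun x => if x = (2, false) then (4, false) else if x = (4, false) then (2, false)
      else if x = (3, false) then (4, true) else (3, false))
    (by
      intro i hi
      fin_cases i
      · simp at hi
      · simp at hi
      · exact hq1C
      · exact hq2C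
      · exact hy)
    (by
      intro x hx
      simp only [Finset.mem_insert, Finset.mem_singleton] at hx
      rcases hx with rfl | rfl | rfl | rfl
      · simp [ev]; rw [hq1, hd.pp]
      · simp [ev]; exact hq1.symm
      · simp [ev]; rw [hq2, hd.pp]
      · simp [ev]; rw [← hy'])
    (by decide)
  have hcard : (({0, 1} : Finset (Fin 5))).card = 2 := by decide
  have hcard2 : (({(2, false), (4, false), (3, false), (4, true)} : Finset (Ix 5))).card = 4 := by
    decide
  simp only [lastS] at hk hcnt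
  rw [hcard, hcard2] at hcnt
  set τ : Ix 5 → Fin 5 := mk ![(2, 1), (3, 1), (0, 2), (4, 3), (0, 4)] with hτ
  set f := lft c ![a1, a2, q1, q2, y] τ with hf
  have hX : XExt G f d := h.replace hk.1 (KE.refl d) hk.2 hd.prop (by omega)
  have pa : par f a1 = par c q1 := by
    have := par_lft (τ := τ) hc hinj (x := (0, false)) (y := (2, true)) (by decide)
      (by decide)
    simp [ev] at this
    exact this
  have pq1 : par f q1 = y := by
    have := par_lft (τ := τ) hc hinj (x := (2, false)) (y := (4, false)) (by decide)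
      (by decide)
    simp [ev] at this
    exact this
  have pq2 : par f q2 = y' := by
    have := par_lft (τ := τ) hc hinj (x := (3, false)) (y := (4, true)) (by decide)
      (by decide)
    simp [ev] at this
    exact this
  have hwa : par f a1 ≠ par d a1 := by
    rw [pa, ← ha1]
    intro e
    have : q1 = a1 := hc.inj e
    rw [this] at hq1C
    exact hq1C ha1
  constructor
  · intro h9
    apply P1 E hX (w := a1) (a := q1) hwa
    · rw [pq1, hq1, hd.pp]
    · exact u1
    · rw [pq1]; exact h9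
  · intro h8 h9
    apply P1 E hX (w := a1) (a := q2) hwa
    · rw [pq2, hq2, hd.pp]
    · exact h8
    · rw [pq2]; exact h9

/-- (δ) -/
theorem delta (E : Env G k) {c d : V → Fin k} (h : XExt G c d) {a1 a2 : V}
    (ha1 : par c a1 = par d a1) (ha2 : par c a2 = par d a2) (hne : a1 ≠ a2)
    (hv1 : ∃ p, par c p ≠ par d p ∧ HA G a1 p ∧ HA G a1 (par c p))
    (hv2 : ∃ p, par c p ≠ par d p ∧ HA G a2 p ∧ HA G a2 (par c p)) :
    ¬ HA G (par c a1) (par c a2) := by
  classical
  intro hb
  have hc := E.pr h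
  have hd := E.pr h.symm
  obtain ⟨p1, hp1, u1, u2⟩ := hv1
  have hne2 : a1 ≠ par c a2 := by
    intro e
    obtain ⟨p, hp, w1, w2⟩ := hv2
    rw [e] at u1 u2
    exact V3 E h ha2 hp hp1 w1 w2 u1 u2
  obtain ⟨p2, hp2, u3, u4, n1, n2⟩ : ∃ p2, par c p2 ≠ par d p2 ∧ HA G a2 p2 ∧
      HA G a2 (par c p2) ∧ p1 ≠ p2 ∧ p1 ≠ par c p2 := by
    obtain ⟨p, hp, w1, w2⟩ := hv2
    by_cases hpp : p1 = p ∨ p1 = par c p
    · obtain ⟨p', hp', m1, m2, w3, w4⟩ := beta E h ha2 hp w1 w2
      refine ⟨p', hp', w3, w4, ?_, ?_⟩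
      · rcases hpp with e | e
        · rw [e]; exact Ne.symm m1
        · rw [e]; exact Ne.symm m2
      · rcases hpp with e | e
        · rw [e]; intro e2; apply m2; rw [e2, hc.pp]
        · rw [e]; intro e2; exact m1 (hc.inj e2).symm
    · rw [not_or] at hpp
      exact ⟨p, hp, w1, w2, hpp.1, hpp.2⟩
  have zc : ∀ p v, (par c v = p ∨ par c v = par c p) ↔ (v = p ∨ v = par c p) := by
    intro p v
    constructor
    · rintro (e | e)
      · right; rw [← e, hc.pp]
      · left; exact hc.inj e
    · rintro (e | e)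
      · right; rw [e]
      · left; rw [e, hc.pp]
  -- two different vertices of a pair
  have two' : ∀ p x x', x ≠ x' → (x = p ∨ x = par c p) → (x' = p ∨ x' = par c p) →
      x' = par c x := by
    rintro p x x' hxx (rfl | rfl) (rfl | rfl)
    · exact absurd rfl hxx
    · rfl
    · rw [hc.pp]
    · exact absurd rfl hxx
  have no4 : ∀ p y, par c y ≠ par d y → (par d y = p ∨ par d y = par c p) →
      ¬ (par d (par c y) = p ∨ par d (par c y) = par c p) := by
    intro p y hy q1 q2
    have hne3 : par d y ≠ par d (par c y) := fun e => hc.ne y (hd.inj e).symm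
    have := two' p _ _ hne3 q1 q2
    apply U5a E h hy
    rw [← this]
    exact hd.ha _
  have g1 : ∀ z, (z = p1 ∨ z = par c p1) → HA G a1 z ∧ HA G a1 (par c z) := by
    rintro z (rfl | rfl)
    · exact ⟨u1, u2⟩
    · rw [hc.pp]; exact ⟨u2, u1⟩
  have g2 : ∀ z, (z = p2 ∨ z = par c p2) → HA G a2 z ∧ HA G a2 (par c z) := by
    rintro z (rfl | rfl)
    · exact ⟨u3, u4⟩
    · rw [hc.pp]; exact ⟨u4, u3⟩
  have D1 : ∀ y, par c y ≠ par d y → ¬ (y = p1 ∨ y = par c p1) →
      ¬ (y = p2 ∨ y = par c p2) →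
      (par d y = p1 ∨ par d y = par c p1) ∨ (par d y = p2 ∨ par d y = par c p2) :=
    fun y hy q1 q2 => delta1 E h ha1 ha2 hne hne2 hb hp1 hp2 n1 n2 u1 u2 u3 u4 hy q1 q2
  have D2 : ∀ y, par c y ≠ par d y → ¬ (y = p1 ∨ y = par c p1) →
      ¬ (y = p2 ∨ y = par c p2) → (par d y = p1 ∨ par d y = par c p1) →
      ¬ HA G a1 y ∧ (HA G a1 (par d (par c y)) → ¬ HA G a1 (par c y)) := by
    intro y hy q1 q2 q3
    have h5 := D1 (par c y) (od_par hc hd hy) (by rw [zc]; exact q1) (by rw [zc]; exact q2)
    rcases h5 with h5 | h5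
    · exact absurd h5 (no4 p1 y hy q3)
    · exact delta2 E h ha1 ha2 hne hne2 hb hy (g1 _ q3).1 (g1 _ q3).2 (g2 _ h5).1 (g2 _ h5).2
  -- from Z2 side, the partner is on the Z1 side
  have D2' : ∀ y, par c y ≠ par d y → ¬ (y = p1 ∨ y = par c p1) →
      ¬ (y = p2 ∨ y = par c p2) → (par d y = p2 ∨ par d y = par c p2) →
      ¬ HA G a1 (par c y) ∧ (HA G a1 (par d y) → ¬ HA G a1 y) := by
    intro y hy q1 q2 q3
    have h5 := D1 (par c y) (od_par hc hd hy) (by rw [zc]; exact q1) (by rw [zc]; exact q2)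
    rcases h5 with h5 | h5
    · have := D2 (par c y) (od_par hc hd hy) (by rw [zc]; exact q1) (by rw [zc]; exact q2) h5
      rw [hc.pp] at this
      exact this
    · exact absurd h5 (no4 p2 y hy q3)
  have D3 : HA G a1 p2 ∧ HA G a1 (par c p2) := by
    obtain ⟨p', hp', m1, m2, w3, w4⟩ := beta E h ha1 hp1 u1 u2
    by_cases hz : p' = p2 ∨ p' = par c p2
    · rcases hz with rfl | rfl
      · exact ⟨w3, w4⟩
      · rw [hc.pp] at w4; exact ⟨w4, w3⟩
    · exfalso
      have hz1 : ¬ (p' = p1 ∨ p' = par c p1) := by rw [not_or]; exact ⟨m1, m2⟩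
      rcases D1 p' hp' hz1 hz with h5 | h5
      · exact (D2 p' hp' hz1 hz h5).1 w3
      · exact (D2' p' hp' hz1 hz h5).1 w4
  have g3 : ∀ z, (z = p2 ∨ z = par c p2) → HA G a1 z := by
    rintro z (rfl | rfl)
    · exact D3.1
    · exact D3.2
  have D4 : ∀ y, par c y ≠ par d y → ¬ (y = p1 ∨ y = par c p1) →
      ¬ (y = p2 ∨ y = par c p2) → ¬ HA G a1 y := by
    intro y hy q1 q2
    rcases D1 y hy q1 q2 with h5 | h5
    · exact (D2 y hy q1 q2 h5).1
    · exact (D2' y hy q1 q2 h5).2 (g3 _ h5)
  obtain ⟨y, hy, q1, q2⟩ : ∃ y, par c y ≠ par d y ∧ ¬ (y = p1 ∨ y = par c p1) ∧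
      ¬ (y = p2 ∨ y = par c p2) := by
    by_contra hcon
    push Not at hcon
    have e1 := hcon (par d p1) (od_par' hc hd hp1) ⟨hd.ne p1, fun e => hp1 e.symm⟩
    have e2 := hcon (par d (par c p1)) (od_par' hc hd (od_par hc hd hp1))
      ⟨fun e => hp1 (by have h7 := congrArg (par d) e; rw [hd.pp] at h7; exact h7), hd.ne _⟩
    exact no4 p2 p1 hp1 (by tauto) (by tauto)
  -- the counting
  have hb1 : ∀ v, par c v ≠ par d v → ¬ HA G (par c a1) v :=
    fun v hv => gamma E h ha1 hp1 u1 u2 hv
  have hV : (VS G c a1).card ≤ 4 := by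
    have hsub : VS G c a1 ⊆ {p1, par c p1, p2, par c p2} := by
      intro v hv
      obtain ⟨r1, r2⟩ := VS_C E h ha1 hv
      simp only [Finset.mem_insert, Finset.mem_singleton]
      by_contra hno
      push Not at hno
      rcases r2 with r2 | r2
      · exact D4 v r1 (by tauto) (by tauto) r2.1
      · exact hb1 v r1 r2.1
    exact (Finset.card_le_card hsub).trans Finset.card_le_four
  have hW : 1 ≤ (WS G c a1).card := by
    apply Finset.card_pos.2
    refine ⟨y, ?_⟩
    rw [mem_WS]
    refine ⟨?_, ?_, D4 y hy q1 q2, D4 _ (od_par hc hd hy) (by rw [zc]; exact q1)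
      (by rw [zc]; exact q2), hb1 y hy, hb1 _ (od_par hc hd hy)⟩
    · rintro rfl; exact hy ha1
    · rintro rfl; exact hy (jp hc hd ha1)
  obtain ⟨t, ht, htp⟩ : ∃ t, (t = p2 ∨ t = par c p2) ∧ ¬ HA G p1 t := by
    by_cases h5 : HA G p1 p2
    · exact ⟨par c p2, Or.inr rfl, fun h6 => P2 E h hp1 hp2 h5 h6⟩
    · exact ⟨p2, Or.inl rfl, h5⟩
  have htC : par c t ≠ par d t := by
    rcases ht with rfl | rfl
    · exact hp2
    · exact od_par hc hd hp2
  have htne : p1 ≠ t := by
    rcases ht with rfl | rfl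
    · exact n1
    · exact n2
  have hirr : ∀ x : V, ¬ HA G x x := fun x hx => hx.1 rfl
  have := ip E h ha1 {p1, t} (by
      intro x hx
      rw [Finset.mem_insert, Finset.mem_singleton] at hx
      rcases hx with rfl | rfl
      · exact ⟨hp1, u1⟩
      · exact ⟨htC, g3 _ ht⟩)
    (by
      intro x hx y hy
      rw [Finset.mem_insert, Finset.mem_singleton] at hx hy
      rcases hx with rfl | rfl <;> rcases hy with rfl | rfl
      · exact hirr _
      · exact htp
      · exact fun e => htp e.symm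
      · exact hirr _)
    (by
      intro x hx
      rw [Finset.mem_insert, Finset.mem_singleton] at hx
      apply hb1
      rcases hx with rfl | rfl
      · exact od_par hc hd hp1
      · exact od_par hc hd htC)
  rw [Finset.card_pair htne] at this
  omega

/-- No common classes. -/
theorem noJ (E : Env G k) {c d : V → Fin k} (h : XExt G c d)
    (hall : ∀ x, par c x ≠ par d x) (a : V) : False := by
  classical
  have hc := E.pr h
  have hd := E.pr h.symm
  have hmm : mm c d = 0 := by
    have h1 := KK_card (f := c) hd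
    have h2 : KK c d = ∅ := by
      rw [Finset.eq_empty_iff_forall_notMem]
      intro v hv
      rw [mem_KK, hc.cls_iff hd] at hv
      exact hall v hv
    rw [h2, Finset.card_empty] at h1
    omega
  have key : ∀ x ∈ XS G c a, ∀ y, HA G a y → y ≠ par c a → ¬ HA G y x := by
    intro x hx y hy hyb hyx
    obtain ⟨x1, x2, x3⟩ := mem_XS.1 hx
    have hax' : a ≠ par c x := by
      intro e
      apply x1
      rw [e, hc.pp]
    have hinj := inj2 (cne hc x2.1 hax')
    have hk := reach hc hinj [((0, false), (1, false)), ((0, true), (1, true))]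
      (by simp [ev]; exact ⟨x2, x3⟩) [mk ![(0, 1), (0, 1)]] (by decide)
    simp only [lastS] at hk
    set f := lft c ![a, x] (mk ![(0, 1), (0, 1)]) with hf
    have hX : XExt G f d := h.replace hk.1 (KE.refl d) hk.2 hd.prop (by omega)
    have hfp := E.pr hX
    have hall' : ∀ v, par f v ≠ par d v := by
      intro v hv
      have h1 := KK_card (f := f) hd
      have h2 : v ∈ KK f d := by rw [mem_KK, hfp.cls_iff hd]; exact hv
      have h3 : 1 ≤ (KK f d).card := Finset.card_pos.2 ⟨v, h2⟩
      have h4 := h.le hk.1 (KE.refl d) hk.2 hd.prop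
      omega
    have pa : par f a = x := by
      have := par_lft (τ := mk ![(0, 1), (0, 1)]) hc hinj (x := (0, false))
        (y := (1, false)) (by decide) (by decide)
      simp [ev] at this
      exact this
    apply P2 E hX (w := y) (p := a) (hall' y) (hall' a) hy.symm
    rw [pa]; exact hyx
  have hy1 : HA G a (par d a) := hd.ha a
  have hy2 : par d a ≠ par c a := Ne.symm (hall a)
  have := cntpair E hc a
    (fun x q1 q2 => P2 E h (hall x) (hall a) q1.symm q2.symm)
    {par d a}
    (by
      intro x hx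
      rw [Finset.mem_singleton] at hx
      subst hx
      exact ⟨hy2, hy1, U5a E h (hall a)⟩)
    (by
      intro x hx y hy
      rw [Finset.mem_union, Finset.mem_singleton] at hx hy
      rcases hx with hx | rfl
      · rcases hy with hy | rfl
        · exact fun e => key x hx y (mem_XS.1 hy).2.1 (mem_XS.1 hy).1 e.symm
        · exact fun e => key x hx _ hy1 hy2 e.symm
      · rcases hy with hy | rfl
        · exact fun e => key y hy _ hy1 hy2 e
        · exact fun e => e.1 rfl)
  rw [Finset.card_singleton] at this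
  have hV : (VS G c a).card = 0 := by
    rw [Finset.card_eq_zero, Finset.eq_empty_iff_forall_notMem]
    intro v hv
    obtain ⟨-, -, q⟩ := mem_VS.1 hv
    rcases q with q | q
    · exact P2 E h (hall a) (hall v) q.1 q.2
    · exact P2 E h (hall _) (hall v) q.1 q.2
  omega

theorem no_xext (E : Env G k) {c d : V → Fin k} (h : XExt G c d) : False := by
  classical
  have hc := E.pr h
  have hd := E.pr h.symm
  obtain ⟨p0, hp0⟩ : ∃ p, par c p ≠ par d p := by
    by_contra hcon
    push Not at hcon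
    apply h.2.2.1
    apply same_kernel
    intro x y
    rw [hc.cl, hd.cl, hcon]
  by_cases hJ : ∃ a, par c a = par d a
  · obtain ⟨a0, ha0⟩ := hJ
    let H : Finset V := Finset.univ.filter (fun a => par c a = par d a ∧
      ∃ p, par c p ≠ par d p ∧ HA G a p ∧ HA G a (par c p))
    have mH : ∀ a, a ∈ H ↔ (par c a = par d a ∧
      ∃ p, par c p ≠ par d p ∧ HA G a p ∧ HA G a (par c p)) := by intro a; simp [H]
    have hor : ∀ a, par c a = par d a → a ∈ H ∨ par c a ∈ H := by
      intro a ha
      obtain ⟨p, hp, q⟩ := alpha E h ha hp0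
      rcases q with q | q
      · exact Or.inl ((mH a).2 ⟨ha, p, hp, q⟩)
      · exact Or.inr ((mH _).2 ⟨jp hc hd ha, p, hp, q⟩)
    have hnot : ∀ a, a ∈ H → par c a ∉ H := by
      intro a ha hb
      obtain ⟨haJ, p, hp, u1, u2⟩ := (mH a).1 ha
      obtain ⟨-, q, hq, u3, u4⟩ := (mH _).1 hb
      exact V3 E h haJ hp hq u1 u2 u3 u4
    let Lt : Finset V := H.image (par c)
    have mL : ∀ x, x ∈ Lt ↔ ∃ a ∈ H, par c a = x := by intro x; simp [Lt]
    have cL : Lt.card = H.card := Finset.card_image_of_injective _ (fun x y e => hc.inj e)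
    have dis : Disjoint H Lt := by
      rw [Finset.disjoint_left]
      intro x hx hx2
      obtain ⟨a, ha, rfl⟩ := (mL x).1 hx2
      exact hnot a ha hx
    have cHL : H.card + Lt.card ≤ 2 * k := by
      rw [← Finset.card_union_of_disjoint dis, ← E.card]
      exact Finset.card_le_univ _
    obtain ⟨a, haH⟩ : ∃ a, a ∈ H := by
      rcases hor a0 ha0 with e | e
      · exact ⟨_, e⟩
      · exact ⟨_, e⟩
    obtain ⟨haJ, p, hp, u1, u2⟩ := (mH a).1 haH
    have hLJ : ∀ x ∈ Lt, par c x = par d x := by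
      intro x hx
      obtain ⟨b, hb, rfl⟩ := (mL x).1 hx
      exact jp hc hd ((mH b).1 hb).1
    have hLC : ∀ x ∈ Lt, ∀ v, par c v ≠ par d v → ¬ HA G x v := by
      intro x hx v hv
      obtain ⟨b, hb, rfl⟩ := (mL x).1 hx
      obtain ⟨hbJ, p, hp, u1, u2⟩ := (mH b).1 hb
      exact gamma E h hbJ hp u1 u2 hv
    have hLL : ∀ x ∈ Lt, ∀ y ∈ Lt, ¬ HA G x y := by
      intro x hx y hy hxy
      obtain ⟨b1, hb1, rfl⟩ := (mL x).1 hx
      obtain ⟨b2, hb2, rfl⟩ := (mL y).1 hy
      refine delta E h ((mH b1).1 hb1).1 ((mH b2).1 hb2).1 ?_ ((mH b1).1 hb1).2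
        ((mH b2).1 hb2).2 hxy
      rintro rfl
      exact hxy.1 rfl
    have hp0L : p0 ∉ Lt := fun e => hp0 (hLJ p0 e)
    have hcl : G.IsClique ((insert p0 Lt : Finset V) : Set V) := by
      rw [Finset.coe_insert]
      apply SimpleGraph.IsClique.insert
      · intro x hx y hy hxy
        rw [Finset.mem_coe] at hx hy
        by_contra hna
        exact hLL x hx y hy ⟨hxy, hna⟩
      · intro x hx hpx
        rw [Finset.mem_coe] at hx
        by_contra hna
        exact hLC x hx p0 hp0 ⟨Ne.symm hpx, fun e => hna e.symm⟩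
    have hst := E.star _ hcl (par c a)
    rw [Finset.card_insert_of_notMem hp0L] at hst
    have hbL : par c a ∈ Lt := (mL _).2 ⟨a, haH, rfl⟩
    have hNN : NN G (par c a) ⊆ H := by
      intro x hx
      have hx' := mem_NN_iff.1 hx
      by_cases hxJ : par c x = par d x
      · rcases hor x hxJ with e | e
        · exact e
        · exfalso
          exact hLL _ hbL x ((mL x).2 ⟨_, e, hc.pp x⟩) hx'
      · exact absurd hx' (hLC _ hbL x hxJ)
    have hNNc := Finset.card_le_card hNN
    omega
  · push Not at hJ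
    exact noJ E h hJ p0

/-- The case of `2 k` vertices. -/
theorem main_half (E : Env G k) (c d : V → Fin k) (hc : Proper G c) (hd : Proper G d) :
    KE G c d := by
  by_contra hcon
  obtain ⟨c', d', h⟩ := exists_xext hc hd hcon
  exact no_xext E h

end Pool.Agent.Helper26.Kempe
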