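import Pool.Agent.Helper26.HalfPairs

set_option autoImplicit false
set_option linter.unusedSectionVars false

/-! Local recolourings, described by finite tables. -/

namespace Pool.Agent.Helper26.Kempe

open Relation

variable {V : Type} [Fintype V] [DecidableEq V] {k : ℕ} {G : SimpleGraph V}

/-- Index set of `m` pairs. -/
abbrev Ix (m : ℕ) := Fin m × Bool

/-- The vertex with a given index. -/
noncomputable def ev (c : V → Fin k) {m : ℕ} (r : Fin m → V) (x : Ix m) : V :=
  if x.2 then par c (r x.1) else r x.1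

theorem ev_false {c : V → Fin k} {m : ℕ} {r : Fin m → V} (i : Fin m) :
    ev c r (i, false) = r i := by simp [ev]

theorem ev_true {c : V → Fin k} {m : ℕ} {r : Fin m → V} (i : Fin m) :
    ev c r (i, true) = par c (r i) := by simp [ev]

theorem c_ev {c : V → Fin k} (h : PR G c) {m : ℕ} {r : Fin m → V} (x : Ix m) :
    c (ev c r x) = c (r x.1) := by
  unfold ev
  split_ifs
  · exact h.same _
  · rfl

theorem ev_inj {c : V → Fin k} (h : PR G c) {m : ℕ} {r : Fin m → V}
    (hr : ∀ i j, c (r i) = c (r j) → i = j) {x y : Ix m} (e : ev c r x = ev c r y) : x = y := by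
  have h1 : x.1 = y.1 := by
    apply hr
    rw [← c_ev h x, ← c_ev h y, e]
  obtain ⟨i, a⟩ := x
  obtain ⟨j, b⟩ := y
  simp only at h1
  subst h1
  cases a <;> cases b
  · rfl
  · rw [ev_false, ev_true] at e; exact absurd e.symm (h.ne _)
  · rw [ev_false, ev_true] at e; exact absurd e (h.ne _)
  · rfl

theorem ev_cover {c : V → Fin k} (h : PR G c) {m : ℕ} {r : Fin m → V} {w : V} {j : Fin m}
    (hw : c w = c (r j)) : ∃ x, ev c r x = w := by
  rcases (h.cl (r j) w).1 hw with e | e
  · exact ⟨(j, false), by rw [ev_false, e]⟩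
  · exact ⟨(j, true), by rw [ev_true, e]⟩

open Classical in
/-- The colouring given by a table. -/
noncomputable def lft (c : V → Fin k) {m : ℕ} (r : Fin m → V) (τ : Ix m → Fin m) (w : V) :
    Fin k :=
  if h : ∃ x, ev c r x = w then c (r (τ h.choose)) else c w

section

variable {c : V → Fin k} {m : ℕ} {r : Fin m → V} {τ τ' : Ix m → Fin m}

theorem lft_ev (h : PR G c) (hr : ∀ i j, c (r i) = c (r j) → i = j) (x : Ix m) :
    lft c r τ (ev c r x) = c (r (τ x)) := by
  have hex : ∃ y, ev c r y = ev c r x := ⟨x, rfl⟩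
  unfold lft
  rw [dif_pos hex, ev_inj h hr hex.choose_spec]

theorem lft_off {w : V} (hw : ∀ x, ev c r x ≠ w) : lft c r τ w = c w := by
  unfold lft
  rw [dif_neg]
  rintro ⟨x, hx⟩
  exact hw x hx

theorem off_color (h : PR G c) {w : V} (hw : ∀ x, ev c r x ≠ w) (j : Fin m) :
    c w ≠ c (r j) := by
  intro e
  obtain ⟨x, hx⟩ := ev_cover h e
  exact hw x hx

theorem lft_base (h : PR G c) (hr : ∀ i j, c (r i) = c (r j) → i = j) :
    lft c r Prod.fst = c := by
  funext w
  by_cases hw : ∃ x, ev c r x = w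
  · obtain ⟨x, rfl⟩ := hw
    rw [lft_ev h hr, c_ev h]
  · push Not at hw
    exact lft_off hw

theorem lft_eq_ev (h : PR G c) (hr : ∀ i j, c (r i) = c (r j) → i = j) (x : Ix m) (w : V) :
    lft c r τ w = lft c r τ (ev c r x) ↔ ∃ y, ev c r y = w ∧ τ y = τ x := by
  rw [lft_ev h hr]
  by_cases hw : ∃ y, ev c r y = w
  · obtain ⟨y, rfl⟩ := hw
    rw [lft_ev h hr]
    constructor
    · intro e
      exact ⟨y, rfl, hr _ _ e⟩
    · rintro ⟨z, hz, e⟩
      rw [ev_inj h hr hz] at e
      rw [e]
  · push Not at hw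
    rw [lft_off hw]
    constructor
    · intro e; exact absurd e (off_color h hw _)
    · rintro ⟨y, hy, -⟩; exact absurd hy (hw y)

theorem lft_eq_off (h : PR G c) (hr : ∀ i j, c (r i) = c (r j) → i = j) {w : V}
    (hw : ∀ x, ev c r x ≠ w) (u : V) : lft c r τ u = lft c r τ w ↔ c u = c w := by
  rw [lft_off hw]
  by_cases hu : ∃ y, ev c r y = u
  · obtain ⟨y, rfl⟩ := hu
    rw [lft_ev h hr, c_ev h]
    constructor
    · intro e; exact absurd e.symm (off_color h hw _)
    · intro e; exact absurd e.symm (off_color h hw _)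
  · push Not at hu
    rw [lft_off hu]

/-- Known non-adjacent pairs of indices. -/
def rel (R : List (Ix m × Ix m)) (x y : Ix m) : Bool :=
  decide (x.1 = y.1) || decide ((x, y) ∈ R) || decide ((y, x) ∈ R)

/-- Proper tables. -/
def valid (R : List (Ix m × Ix m)) (τ : Ix m → Fin m) : Bool :=
  decide (∀ x y, x ≠ y → τ x = τ y → rel R x y = true)

/-- Allowed steps. -/
def stepOk (R : List (Ix m × Ix m)) (τ τ' : Ix m → Fin m) : Bool :=
  decide (∃ x, ∀ y, y ≠ x → τ y = τ' y) ||
  decide (∃ b x, τ b = τ' x ∧ τ x = τ' b ∧ (∀ z, z ≠ b → z ≠ x → τ z = τ' z) ∧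
    (∀ z, z ≠ b → z ≠ x → (τ z = τ b ∨ τ z = τ x) → rel R z b = true ∧ rel R z x = true))

/-- Allowed sequences of steps. -/
def pathOk (R : List (Ix m × Ix m)) : (Ix m → Fin m) → List (Ix m → Fin m) → Bool
  | _, [] => true
  | τ, τ' :: l => valid R τ' && stepOk R τ τ' && pathOk R τ' l

/-- The last table. -/
def lastS : (Ix m → Fin m) → List (Ix m → Fin m) → (Ix m → Fin m)
  | τ, [] => τ
  | _, τ' :: l => lastS τ' l

/-- Table from a list of pairs. -/
def mk {m : ℕ} (v : Fin m → Fin m × Fin m) : Ix m → Fin m :=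
  fun x => if x.2 then (v x.1).2 else (v x.1).1

theorem rel_HA (h : PR G c) {R : List (Ix m × Ix m)}
    (hR : ∀ p ∈ R, HA G (ev c r p.1) (ev c r p.2)) {x y : Ix m} (hxy : x ≠ y)
    (hrel : rel R x y = true) : HA G (ev c r x) (ev c r y) := by
  unfold rel at hrel
  rw [Bool.or_eq_true, Bool.or_eq_true, decide_eq_true_iff, decide_eq_true_iff,
    decide_eq_true_iff] at hrel
  rcases hrel with (e | e) | e
  · obtain ⟨i, a⟩ := x
    obtain ⟨j, b⟩ := y
    simp only at e
    subst e
    cases a <;> cases b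
    · exact absurd rfl hxy
    · rw [ev_false, ev_true]; exact h.ha _
    · rw [ev_false, ev_true]; exact (h.ha _).symm
    · exact absurd rfl hxy
  · exact hR _ e
  · exact (hR _ e).symm

theorem lft_proper (h : PR G c) (hr : ∀ i j, c (r i) = c (r j) → i = j)
    {R : List (Ix m × Ix m)} (hR : ∀ p ∈ R, HA G (ev c r p.1) (ev c r p.2))
    (hv : valid R τ = true) : Proper G (lft c r τ) := by
  unfold valid at hv
  rw [decide_eq_true_iff] at hv
  intro x y hxy e
  by_cases hx : ∃ z, ev c r z = x
  · obtain ⟨z, rfl⟩ := hx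
    obtain ⟨y', hy', e'⟩ := (lft_eq_ev h hr z y).1 e.symm
    subst hy'
    by_cases hzy : z = y'
    · subst hzy; exact hxy.ne rfl
    · exact (rel_HA h hR hzy (hv z y' hzy e'.symm)).2 hxy
  · push Not at hx
    exact h.prop x y hxy ((lft_eq_off h hr hx y).1 e.symm).symm

theorem step_KE (h : PR G c) (hr : ∀ i j, c (r i) = c (r j) → i = j)
    {R : List (Ix m × Ix m)} (hR : ∀ p ∈ R, HA G (ev c r p.1) (ev c r p.2))
    (hv : valid R τ = true) (hv' : valid R τ' = true) (hs : stepOk R τ τ' = true) :
    KE G (lft c r τ) (lft c r τ') := by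
  classical
  have hp := lft_proper h hr hR hv
  have hp' := lft_proper h hr hR hv'
  unfold stepOk at hs
  rw [Bool.or_eq_true, decide_eq_true_iff, decide_eq_true_iff] at hs
  rcases hs with ⟨x, hx⟩ | ⟨b, x, h1, h2, h3, h4⟩
  · have heq : lft c r τ' = Function.update (lft c r τ) (ev c r x) (c (r (τ' x))) := by
      funext w
      by_cases hw : w = ev c r x
      · subst hw; rw [Function.update_self, lft_ev h hr]
      · rw [Function.update_of_ne hw]
        by_cases hw2 : ∃ y, ev c r y = w
        · obtain ⟨y, rfl⟩ := hw2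
          have hyx : y ≠ x := by rintro rfl; exact hw rfl
          rw [lft_ev h hr, lft_ev h hr, hx y hyx]
        · push Not at hw2
          rw [lft_off hw2, lft_off hw2]
    have := recolour hp (ev c r x) (c (r (τ' x))) (by
      intro y hy e
      have hyx : y ≠ ev c r x := hy.ne'
      have e2 : lft c r τ' y = lft c r τ y := by
        rw [heq, Function.update_of_ne hyx]
      apply hp' _ _ hy
      rw [e2, e, lft_ev h hr])
    rw [heq]
    exact this.1
  · by_cases hbx : b = x
    · subst hbx
      have : τ = τ' := by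
        funext z
        by_cases hz : z = b
        · subst hz; exact h1
        · exact h3 z hz hz
      rw [this]; exact KE.refl _
    have hk := closed_swap (G := G) (lft c r τ) (c (r (τ b))) (c (r (τ x)))
      {ev c r b, ev c r x}
      (by
        intro y hy
        rw [Finset.mem_insert, Finset.mem_singleton] at hy
        rcases hy with rfl | rfl
        · left; rw [lft_ev h hr]
        · right; rw [lft_ev h hr])
      (by
        intro y hy z hyz hz
        rw [Finset.mem_insert, Finset.mem_singleton] at hy ⊢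
        have hz2 : ∃ u, ev c r u = z ∧ (τ u = τ b ∨ τ u = τ x) := by
          rcases hz with hz | hz
          · rw [← lft_ev (τ := τ) h hr b] at hz
            obtain ⟨u, hu, e⟩ := (lft_eq_ev h hr b z).1 hz
            exact ⟨u, hu, Or.inl e⟩
          · rw [← lft_ev (τ := τ) h hr x] at hz
            obtain ⟨u, hu, e⟩ := (lft_eq_ev h hr x z).1 hz
            exact ⟨u, hu, Or.inr e⟩
        obtain ⟨u, rfl, hu⟩ := hz2
        by_cases hub : u = b
        · left; rw [hub]
        by_cases hux : u = x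
        · right; rw [hux]
        exfalso
        have h5 := h4 u hub hux hu
        rcases hy with rfl | rfl
        · exact (rel_HA h hR hub h5.1).symm.2 hyz
        · exact (rel_HA h hR hux h5.2).symm.2 hyz)
    have heq : lft c r τ' = (fun w => if w ∈ ({ev c r b, ev c r x} : Finset V) then
        Equiv.swap (c (r (τ b))) (c (r (τ x))) (lft c r τ w) else lft c r τ w) := by
      funext w
      by_cases hw : ∃ y, ev c r y = w
      · obtain ⟨y, rfl⟩ := hw
        by_cases hyb : y = b
        · subst hyb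
          rw [if_pos (by simp), lft_ev h hr, lft_ev h hr, Equiv.swap_apply_left, h2]
        · by_cases hyx : y = x
          · subst hyx
            rw [if_pos (by simp), lft_ev h hr, lft_ev h hr, Equiv.swap_apply_right, h1]
          · rw [if_neg, lft_ev h hr, lft_ev h hr, h3 y hyb hyx]
            rw [Finset.mem_insert, Finset.mem_singleton, not_or]
            exact ⟨fun e => hyb (ev_inj h hr e), fun e => hyx (ev_inj h hr e)⟩
      · push Not at hw
        rw [if_neg, lft_off hw, lft_off hw]
        rw [Finset.mem_insert, Finset.mem_singleton, not_or]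
        exact ⟨fun e => hw b e.symm, fun e => hw x e.symm⟩
    rw [heq]
    exact hk

theorem path_KE (h : PR G c) (hr : ∀ i j, c (r i) = c (r j) → i = j)
    {R : List (Ix m × Ix m)} (hR : ∀ p ∈ R, HA G (ev c r p.1) (ev c r p.2)) :
    ∀ (l : List (Ix m → Fin m)) (τ : Ix m → Fin m), valid R τ = true →
      pathOk R τ l = true →
      KE G (lft c r τ) (lft c r (lastS τ l)) ∧ Proper G (lft c r (lastS τ l)) := by
  intro l
  induction l with
  | nil =>
    intro τ hv _
    exact ⟨KE.refl _, lft_proper h hr hR hv⟩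
  | cons τ' l ih =>
    intro τ hv hp
    unfold pathOk at hp
    rw [Bool.and_eq_true, Bool.and_eq_true] at hp
    obtain ⟨a1, a2⟩ := ih τ' hp.1.1 hp.2
    exact ⟨KE.trans (step_KE h hr hR hv hp.1.1 hp.1.2) a1, a2⟩

theorem valid_base {R : List (Ix m × Ix m)} : valid R (Prod.fst : Ix m → Fin m) = true := by
  unfold valid
  rw [decide_eq_true_iff]
  intro x y _ e
  unfold rel
  simp [e]

/-- Everything reachable by a table path is Kempe equivalent to `c`. -/
theorem reach (h : PR G c) (hr : ∀ i j, c (r i) = c (r j) → i = j)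
    (R : List (Ix m × Ix m)) (hR : ∀ p ∈ R, HA G (ev c r p.1) (ev c r p.2))
    (l : List (Ix m → Fin m)) (hp : pathOk R Prod.fst l = true) :
    KE G c (lft c r (lastS Prod.fst l)) ∧ Proper G (lft c r (lastS Prod.fst l)) := by
  have := path_KE h hr hR l Prod.fst valid_base hp
  rw [lft_base h hr] at this
  exact this

/-- Counting common classes after a local change. -/
theorem cnt {d : V → Fin k} (h : PR G c) (hd : PR G d)
    (hr : ∀ i j, c (r i) = c (r j) → i = j) (τ : Ix m → Fin m) (L N : Finset (Ix m))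
    (δ : Ix m → Ix m)
    (hL : ∀ x, par c (ev c r x) = par d (ev c r x) → x ∈ L)
    (hN : ∀ x ∈ N, par d (ev c r x) = ev c r (δ x))
    (hc : ∀ x ∈ N, ∀ z, τ z = τ x ↔ (z = x ∨ z = δ x)) :
    2 * mm c d + N.card ≤ 2 * mm (lft c r τ) d + L.card := by
  classical
  have e1 := KK_card (f := c) hd
  have e2 := KK_card (f := lft c r τ) hd
  have hsub : (KK c d \ L.image (ev c r)) ∪ N.image (ev c r) ⊆ KK (lft c r τ) d := by
    intro v hv
    rw [Finset.mem_union, Finset.mem_sdiff, Finset.mem_image, Finset.mem_image, mem_KK] at hv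
    rw [mem_KK]
    rcases hv with ⟨h1, h2⟩ | ⟨x, hx, rfl⟩
    · have hoff : ∀ x, ev c r x ≠ v := by
        intro x hx
        apply h2
        refine ⟨x, hL x ?_, hx⟩
        rw [hx]
        exact (h.cls_iff hd v).1 h1
      rw [← h1]
      ext w
      rw [mem_cls, mem_cls]
      exact lft_eq_off h hr hoff w
    · ext w
      rw [mem_cls, mem_cls, lft_eq_ev h hr, hd.cl, hN x hx]
      constructor
      · rintro ⟨y, rfl, hy⟩
        rcases (hc x hx y).1 hy with e | e
        · left; rw [e]
        · right; rw [e]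
      · rintro (e | e)
        · exact ⟨x, e.symm, rfl⟩
        · exact ⟨δ x, e.symm, (hc x hx _).2 (Or.inr rfl)⟩
  have hdis : Disjoint (KK c d \ L.image (ev c r)) (N.image (ev c r)) := by
    rw [Finset.disjoint_left]
    intro v hv hv2
    rw [Finset.mem_sdiff, Finset.mem_image, mem_KK] at hv
    rw [Finset.mem_image] at hv2
    obtain ⟨x, hx, rfl⟩ := hv2
    exact hv.2 ⟨x, hL x ((h.cls_iff hd _).1 hv.1), rfl⟩
  have h3 := Finset.card_le_card hsub
  rw [Finset.card_union_of_disjoint hdis,
    Finset.card_image_of_injective _ (fun x y e => ev_inj h hr e)] at h3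
  have h4 : (KK c d).card ≤ (KK c d \ L.image (ev c r)).card + (L.image (ev c r)).card :=
    Finset.card_le_card_sdiff_add_card
  have h5 : (L.image (ev c r)).card ≤ L.card := Finset.card_image_le
  omega

theorem par_of_cl {f : V → Fin k} {x y : V} (hne : y ≠ x)
    (h : ∀ w, f w = f x ↔ (w = x ∨ w = y)) : par f x = y := by
  have hns : ¬ Single f x := fun hs => hne (hs y ((h y).2 (Or.inr rfl)))
  obtain ⟨h1, h2⟩ := par_spec hns
  rcases (h _).1 h2 with e | e
  · exact absurd e h1
  · exact e

theorem lft_cl (h : PR G c) (hr : ∀ i j, c (r i) = c (r j) → i = j) {x y : Ix m}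
    (hxy : ∀ z, τ z = τ x ↔ (z = x ∨ z = y)) (w : V) :
    lft c r τ w = lft c r τ (ev c r x) ↔ (w = ev c r x ∨ w = ev c r y) := by
  rw [lft_eq_ev h hr]
  constructor
  · rintro ⟨z, rfl, hz⟩
    rcases (hxy z).1 hz with e | e
    · left; rw [e]
    · right; rw [e]
  · rintro (e | e)
    · exact ⟨x, e.symm, rfl⟩
    · exact ⟨y, e.symm, (hxy y).2 (Or.inr rfl)⟩

theorem par_lft (h : PR G c) (hr : ∀ i j, c (r i) = c (r j) → i = j) {x y : Ix m}
    (hne : y ≠ x) (hxy : ∀ z, τ z = τ x ↔ (z = x ∨ z = y)) :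
    par (lft c r τ) (ev c r x) = ev c r y :=
  par_of_cl (fun e => hne (ev_inj h hr e)) (lft_cl h hr hxy)

theorem par_lft_off (h : PR G c) (hr : ∀ i j, c (r i) = c (r j) → i = j) {w : V}
    (hw : ∀ x, ev c r x ≠ w) : par (lft c r τ) w = par c w := by
  apply par_of_cl (h.ne w)
  intro u
  rw [lft_eq_off h hr hw, h.cl]

theorem lft_single (h : PR G c) (hr : ∀ i j, c (r i) = c (r j) → i = j) {x : Ix m}
    (hx : ∀ z, τ z = τ x → z = x) : Single (lft c r τ) (ev c r x) := by
  intro w hw
  obtain ⟨y, rfl, hy⟩ := (lft_eq_ev h hr x w).1 hw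
  rw [hx y hy]

theorem lft_unused (h : PR G c) (hr : ∀ i j, c (r i) = c (r j) → i = j) {j : Fin m}
    (hj : ∀ z, τ z ≠ j) (w : V) : lft c r τ w ≠ c (r j) := by
  by_cases hw : ∃ y, ev c r y = w
  · obtain ⟨y, rfl⟩ := hw
    rw [lft_ev h hr]
    intro e
    exact hj y (hr _ _ e)
  · push Not at hw
    rw [lft_off hw]
    exact off_color h hw j

end

end Pool.Agent.Helper26.Kempe
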