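import Mathlib

set_option autoImplicit false
set_option linter.unusedSectionVars false

/-! A Gallai-Edmonds type theorem for matchings given as involutions on a finite set. -/

namespace Pool.Agent.Helper26.GE

open Relation

variable {V : Type} [Fintype V] [DecidableEq V]

/-- `M` restricted to `W` is an involution of `W` along edges of `H`. -/
def Mt (H : V → V → Prop) (W : Finset V) (M : V → V) : Prop :=
  ∀ v ∈ W, M v ∈ W ∧ M (M v) = v ∧ (M v ≠ v → H v (M v))

/-- Uncovered vertices. -/
def fixs (W : Finset V) (M : V → V) : Finset V := W.filter (fun v => M v = v)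

theorem mem_fixs {W : Finset V} {M : V → V} {v : V} : v ∈ fixs W M ↔ v ∈ W ∧ M v = v := by
  simp [fixs]

/-- Every matching leaves at least `s` vertices uncovered. -/
def MinFix (H : V → V → Prop) (W : Finset V) (s : ℕ) : Prop :=
  ∀ N : V → V, Mt H W N → s ≤ (fixs W N).card

variable {H : V → V → Prop}

/-- Pairing two vertices. -/
def pairF (M : V → V) (x y : V) : V → V := fun v => if v = x then y else if v = y then x else M v

/-- Shifting a hole from `r` to the partner of `x`. -/
def shiftF (M : V → V) (r x : V) : V → V :=
  fun v => if v = r then x else if v = x then r else if v = M x then M x else M v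

theorem merge_mt (hsymm : ∀ x y, H x y → H y x) {W : Finset V} {M : V → V} (hM : Mt H W M)
    {x y : V} (hx : x ∈ fixs W M) (hy : y ∈ fixs W M) (hxy : x ≠ y) (hH : H x y) :
    Mt H W (pairF M x y) ∧ fixs W (pairF M x y) = ((fixs W M).erase x).erase y := by
  rw [mem_fixs] at hx hy
  constructor
  · intro v hv
    unfold pairF
    by_cases h1 : v = x
    · subst h1
      simp [hxy.symm, hy.1]
      exact hH
    · by_cases h2 : v = y
      · subst h2
        simp [h1, hx.1]
        exact fun _ => hsymm _ _ hH
      · have h3 : M v ≠ x := by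
          intro e
          have := (hM v hv).2.1
          rw [e, hx.2] at this
          exact h1 this.symm
        have h4 : M v ≠ y := by
          intro e
          have := (hM v hv).2.1
          rw [e, hy.2] at this
          exact h2 this.symm
        simp only [h1, h2, h3, h4, if_false]
        exact hM v hv
  · ext v
    rw [mem_fixs, Finset.mem_erase, Finset.mem_erase, mem_fixs]
    unfold pairF
    by_cases h1 : v = x
    · subst h1; simp [hxy.symm]
    · by_cases h2 : v = y
      · subst h2; simp [h1, hxy]
      · simp [h1, h2]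

theorem no_merge (hsymm : ∀ x y, H x y → H y x) {W : Finset V} {M : V → V} {s : ℕ}
    (hM : Mt H W M) (hs : (fixs W M).card = s) (hmin : MinFix H W s)
    {x y : V} (hx : x ∈ fixs W M) (hy : y ∈ fixs W M) (hxy : x ≠ y) : ¬ H x y := by
  intro hH
  obtain ⟨h1, h2⟩ := merge_mt hsymm hM hx hy hxy hH
  have h3 := hmin _ h1
  rw [h2, Finset.card_erase_of_mem (Finset.mem_erase.2 ⟨hxy.symm, hy⟩),
    Finset.card_erase_of_mem hx, hs] at h3
  have h4 : 1 ≤ (fixs W M).card := Finset.card_pos.2 ⟨x, hx⟩
  omega

theorem shift_ne {W : Finset V} {M : V → V} (hM : Mt H W M) {r x : V}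
    (hr : r ∈ fixs W M) (hx : x ∈ W) (hxx : M x ≠ x) : x ≠ r ∧ M x ≠ r := by
  rw [mem_fixs] at hr
  constructor
  · rintro rfl; exact hxx hr.2
  · intro e
    have := (hM x hx).2.1
    rw [e, hr.2] at this
    subst this
    exact hxx e

theorem shift_mt (hsymm : ∀ x y, H x y → H y x) {W : Finset V} {M : V → V} (hM : Mt H W M)
    {r x : V} (hr : r ∈ fixs W M) (hx : x ∈ W) (hxx : M x ≠ x) (hH : H r x) :
    Mt H W (shiftF M r x) ∧ fixs W (shiftF M r x) = insert (M x) ((fixs W M).erase r) := by
  obtain ⟨n1, n2⟩ := shift_ne hM hr hx hxx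
  rw [mem_fixs] at hr
  obtain ⟨m1, m2, m3⟩ := hM x hx
  have hval : ∀ v, v ≠ r → v ≠ x → v ≠ M x → shiftF M r x v = M v := by
    intro v h1 h2 h3
    unfold shiftF
    simp [h1, h2, h3]
  have hvr : shiftF M r x r = x := by unfold shiftF; simp
  have hvx : shiftF M r x x = r := by unfold shiftF; simp [n1]
  have hvm : shiftF M r x (M x) = M x := by unfold shiftF; simp [n2, hxx]
  constructor
  · intro v hv
    by_cases h1 : v = r
    · subst h1
      rw [hvr, hvx]
      exact ⟨hx, rfl, fun _ => hH⟩
    · by_cases h2 : v = x
      · subst h2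
        rw [hvx, hvr]
        exact ⟨hr.1, rfl, fun _ => hsymm _ _ hH⟩
      · by_cases h3 : v = M x
        · subst h3
          rw [hvm, hvm]
          exact ⟨m1, rfl, fun e => absurd rfl e⟩
        · rw [hval v h1 h2 h3]
          obtain ⟨q1, q2, q3⟩ := hM v hv
          have p1 : M v ≠ r := by
            intro e; rw [e, hr.2] at q2; exact h1 q2.symm
          have p2 : M v ≠ x := by
            intro e; rw [e] at q2; exact h3 q2.symm
          have p3 : M v ≠ M x := by
            intro e; rw [e, m2] at q2; exact h2 q2.symm
          rw [hval (M v) p1 p2 p3]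
          exact ⟨q1, q2, q3⟩
  · ext v
    rw [mem_fixs, Finset.mem_insert, Finset.mem_erase, mem_fixs]
    by_cases h1 : v = r
    · subst h1
      rw [hvr]
      constructor
      · rintro ⟨-, e⟩; exact absurd e n1
      · rintro (e | e)
        · exact absurd e.symm n2
        · exact absurd rfl e.1
    · by_cases h2 : v = x
      · subst h2
        rw [hvx]
        constructor
        · rintro ⟨-, e⟩; exact absurd e.symm n1
        · rintro (e | e)
          · exact absurd e.symm hxx
          · exact absurd e.2.2 hxx
      · by_cases h3 : v = M x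
        · subst h3
          rw [hvm]
          simp [m1]
        · rw [hval v h1 h2 h3]
          constructor
          · rintro ⟨a, b⟩; exact Or.inr ⟨h1, a, b⟩
          · rintro (e | e)
            · exact absurd e h3
            · exact e.2

theorem shift_card {W : Finset V} {M : V → V} (hM : Mt H W M)
    {r x : V} (hr : r ∈ fixs W M) (hx : x ∈ W) (hxx : M x ≠ x) :
    (insert (M x) ((fixs W M).erase r)).card = (fixs W M).card := by
  have h1 : M x ∉ (fixs W M).erase r := by
    rw [Finset.mem_erase, mem_fixs, not_and, not_and]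
    intro _ _ e
    have := (hM x hx).2.1
    rw [this] at e
    exact hxx e.symm
  rw [Finset.card_insert_of_notMem h1, Finset.card_erase_of_mem hr]
  have : 1 ≤ (fixs W M).card := Finset.card_pos.2 ⟨r, hr⟩
  omega

open Classical in
/-- Vertices missed by some optimal matching. -/
noncomputable def DD (H : V → V → Prop) (W : Finset V) (s : ℕ) : Finset V :=
  W.filter (fun v => ∃ N : V → V, Mt H W N ∧ (fixs W N).card = s ∧ N v = v)

theorem mem_DD {W : Finset V} {s : ℕ} {v : V} :
    v ∈ DD H W s ↔ v ∈ W ∧ ∃ N : V → V, Mt H W N ∧ (fixs W N).card = s ∧ N v = v := by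
  classical
  simp [DD]

open Classical in
/-- Neighbours of `DD` outside it. -/
noncomputable def AA (H : V → V → Prop) (W : Finset V) (s : ℕ) : Finset V :=
  (W \ DD H W s).filter (fun z => ∃ r ∈ DD H W s, H r z)

theorem mem_AA {W : Finset V} {s : ℕ} {z : V} :
    z ∈ AA H W s ↔ (z ∈ W ∧ z ∉ DD H W s) ∧ ∃ r ∈ DD H W s, H r z := by
  classical
  simp [AA]

/-- Connection inside a set. -/
def Conn (H : V → V → Prop) (D : Finset V) (x y : V) : Prop :=
  ReflTransGen (fun a b => H a b ∧ b ∈ D) x y

/-- Gallai's lemma. -/
theorem gallai (hsymm : ∀ x y, H x y → H y x) {W : Finset V} {s : ℕ} (hmin : MinFix H W s)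
    {x y : V} (hconn : Conn H (DD H W s) x y) :
    ∀ M : V → V, Mt H W M → (fixs W M).card = s → x ∈ fixs W M → y ∈ fixs W M → x = y := by
  classical
  unfold Conn at hconn
  induction hconn using ReflTransGen.head_induction_on with
  | refl => intro M _ _ _ _; rfl
  | head hxz hrest ih =>
    rename_i x z
    intro M hM hs hx hy
    by_contra hne
    obtain ⟨hH, hzD⟩ := hxz
    by_cases hzy : z = y
    · subst hzy
      exact no_merge hsymm hM hs hmin hx hy hne hH
    · obtain ⟨hzW, N0, hN0, hN0s, hN0z⟩ := mem_DD.1 hzD
      let S : Finset (V → V) := Finset.univ.filter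
        (fun N => Mt H W N ∧ (fixs W N).card = s ∧ N z = z)
      have hSne : S.Nonempty := ⟨N0, by simp [S, hN0, hN0s, hN0z]⟩
      obtain ⟨N, hNS, hmax⟩ := Finset.exists_max_image S
        (fun N => (W.filter (fun v => N v = M v)).card) hSne
      simp only [S, Finset.mem_filter, Finset.mem_univ, true_and] at hNS hmax
      obtain ⟨hN, hNs, hNz⟩ := hNS
      have hzN : z ∈ fixs W N := mem_fixs.2 ⟨hzW, hNz⟩
      have hxN : x ∉ fixs W N := by
        intro h
        have hxz : x ≠ z := by
          rintro rfl
          exact hzy (ih M hM hs hx hy)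
        exact no_merge hsymm hN hNs hmin h hzN hxz hH
      have hyN : y ∉ fixs W N := fun h => hzy (ih N hN hNs hzN h)
      have hcard : ((fixs W M) \ (fixs W N)).card = ((fixs W N) \ (fixs W M)).card :=
        Finset.card_sdiff_comm (hs.trans hNs.symm)
      have h2 : 2 ≤ ((fixs W M) \ (fixs W N)).card := by
        have : ({x, y} : Finset V) ⊆ (fixs W M) \ (fixs W N) := by
          intro u hu
          rw [Finset.mem_insert, Finset.mem_singleton] at hu
          rw [Finset.mem_sdiff]
          rcases hu with rfl | rfl
          · exact ⟨hx, hxN⟩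
          · exact ⟨hy, hyN⟩
        have := Finset.card_le_card this
        rwa [Finset.card_pair hne] at this
      rw [hcard] at h2
      obtain ⟨t, ht, htz⟩ := Finset.exists_mem_ne (by omega : 1 < ((fixs W N) \ (fixs W M)).card) z
      rw [Finset.mem_sdiff] at ht
      obtain ⟨htN, htM⟩ := ht
      have htW := (mem_fixs.1 htN).1
      have hNt := (mem_fixs.1 htN).2
      have hMt : M t ≠ t := fun e => htM (mem_fixs.2 ⟨htW, e⟩)
      obtain ⟨hwW, hww, hHtw⟩ := hM t htW
      have hHtw' := hHtw hMt
      have hNw : N (M t) ≠ M t := by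
        intro e
        exact no_merge hsymm hN hNs hmin htN (mem_fixs.2 ⟨hwW, e⟩) (Ne.symm hMt) hHtw'
      obtain ⟨q1, q2⟩ := shift_mt hsymm hN htN hwW hNw hHtw'
      have q3 := shift_card hN htN hwW hNw
      obtain ⟨n1, n2⟩ := shift_ne hN htN hwW hNw
      obtain ⟨v1, v2, v3⟩ := hN (M t) hwW
      have hzw : z ≠ M t := by
        intro e; rw [e] at hNz; exact hNw hNz
      have hzw' : z ≠ N (M t) := by
        intro e
        rw [← e] at v2
        exact hzw (hNz.symm.trans v2)
      have hval : ∀ v, v ≠ t → v ≠ M t → v ≠ N (M t) → shiftF N t (M t) v = N v := by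
        intro v h1 h2 h3
        unfold shiftF
        simp [h1, h2, h3]
      have hN'z : shiftF N t (M t) z = z := by
        rw [hval z htz.symm hzw hzw']; exact hNz
      have hle := hmax (shiftF N t (M t)) ⟨q1, by rw [q2, q3, hNs], hN'z⟩
      have hlt : (W.filter (fun v => N v = M v)).card
          < (W.filter (fun v => shiftF N t (M t) v = M v)).card := by
        apply Finset.card_lt_card
        rw [Finset.ssubset_iff_of_subset]
        · refine ⟨t, ?_, ?_⟩
          · rw [Finset.mem_filter]
            refine ⟨htW, ?_⟩
            unfold shiftF; simp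
          · rw [Finset.mem_filter, not_and, hNt]
            exact fun _ e => hMt e.symm
        · intro v hv
          rw [Finset.mem_filter] at hv ⊢
          refine ⟨hv.1, ?_⟩
          have h1 : v ≠ t := by
            rintro rfl
            rw [hNt] at hv
            exact hMt hv.2.symm
          have h2 : v ≠ M t := by
            rintro rfl
            rw [hww] at hv
            exact n2 hv.2
          have h3 : v ≠ N (M t) := by
            rintro rfl
            have e1 := hv.2
            rw [v2] at e1
            have e2 := (hM (N (M t)) v1).2.1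
            rw [← e1, hww] at e2
            exact n2 e2.symm
          rw [hval v h1 h2 h3]
          exact hv.2
      exact absurd hle (not_le.2 hlt)

/-- Trajectory lemma. -/
theorem traj (hsymm : ∀ x y, H x y → H y x) {W : Finset V} {s : ℕ} (hmin : MinFix H W s)
    {M : V → V} (hM : Mt H W M) :
    ∀ (n : ℕ) (N : V → V) (y : V), Mt H W N → (fixs W N).card = s → y ∈ fixs W N →
      (W.filter (fun v => N v ≠ M v)).card = n →
      ∃ x ∈ fixs W M, ∃ M' : V → V, Mt H W M' ∧
        fixs W M' = insert y ((fixs W M).erase x) ∧
        ∀ v ∈ W, M v = N v → M' v = M v := by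
  classical
  intro n
  induction n using Nat.strong_induction_on with
  | _ n ih =>
    intro N y hN hNs hyN hn
    have hyW := (mem_fixs.1 hyN).1
    have hNy := (mem_fixs.1 hyN).2
    by_cases hyM : M y = y
    · refine ⟨y, mem_fixs.2 ⟨hyW, hyM⟩, M, hM, ?_, fun _ _ _ => rfl⟩
      rw [Finset.insert_erase (mem_fixs.2 ⟨hyW, hyM⟩)]
    · obtain ⟨y1W, y1y, hHy⟩ := hM y hyW
      have hHy1 := hHy hyM
      have hNy1 : N (M y) ≠ M y := by
        intro e
        exact no_merge hsymm hN hNs hmin hyN (mem_fixs.2 ⟨y1W, e⟩) (Ne.symm hyM) hHy1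
      obtain ⟨n1, n2⟩ := shift_ne hN hyN y1W hNy1
      obtain ⟨y2W, y2y1, hH12⟩ := hN (M y) y1W
      have hH12' := hH12 hNy1
      by_cases hM2 : M (N (M y)) = N (M y)
      · -- y2 is a hole of M
        have hy2 : N (M y) ∈ fixs W M := mem_fixs.2 ⟨y2W, hM2⟩
        have hMy1 : M (M y) ≠ M y := by rw [y1y]; exact Ne.symm hyM
        obtain ⟨r1, r2⟩ := shift_mt hsymm hM hy2 y1W hMy1 (hsymm _ _ hH12')
        refine ⟨N (M y), hy2, shiftF M (N (M y)) (M y), r1, ?_, ?_⟩
        · rw [r2, y1y]
        · intro v hv hvN
          have h1 : v ≠ N (M y) := by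
            intro e
            rw [e, hM2, y2y1] at hvN
            exact hNy1 hvN
          have h2 : v ≠ M y := by
            intro e
            rw [e, y1y] at hvN
            exact n2 hvN.symm
          have h3 : v ≠ M (M y) := by
            intro e
            rw [y1y] at e
            rw [e, hNy] at hvN
            exact hyM hvN
          unfold shiftF
          simp [h1, h2, h3]
      · obtain ⟨q1, q2⟩ := shift_mt hsymm hN hyN y1W hNy1 hHy1
        have q3 := shift_card hN hyN y1W hNy1
        have hval : ∀ v, v ≠ y → v ≠ M y → v ≠ N (M y) → shiftF N y (M y) v = N v := by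
          intro v h1 h2 h3
          unfold shiftF
          simp [h1, h2, h3]
        have hv1 : shiftF N y (M y) y = M y := by unfold shiftF; simp
        have hv2 : shiftF N y (M y) (M y) = y := by unfold shiftF; simp [n1]
        have hlt : (W.filter (fun v => shiftF N y (M y) v ≠ M v)).card < n := by
          rw [← hn]
          apply Finset.card_lt_card
          rw [Finset.ssubset_iff_of_subset]
          · refine ⟨y, ?_, ?_⟩
            · rw [Finset.mem_filter, hNy]
              exact ⟨hyW, Ne.symm hyM⟩
            · rw [Finset.mem_filter, hv1]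
              simp
          · intro v hv
            rw [Finset.mem_filter] at hv ⊢
            refine ⟨hv.1, ?_⟩
            by_cases h1 : v = y
            · rw [h1, hNy]; exact Ne.symm hyM
            · by_cases h2 : v = M y
              · rw [h2, y1y]; exact n2
              · by_cases h3 : v = N (M y)
                · rw [h3, y2y1]
                  intro e
                  have e2 := (hM (N (M y)) y2W).2.1
                  rw [← e, y1y] at e2
                  exact n2 e2.symm
                · rw [hval v h1 h2 h3] at hv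
                  exact hv.2
        have hy2fix : N (M y) ∈ fixs W (shiftF N y (M y)) := by
          rw [q2]; exact Finset.mem_insert_self _ _
        obtain ⟨x, hx, M'', hM'', hfix, hkeep⟩ := ih _ hlt (shiftF N y (M y)) (N (M y)) q1
          (by rw [q2, q3, hNs]) hy2fix rfl
        have hk1 : M'' y = M y := hkeep y hyW hv1.symm
        have hk2 : M'' (M y) = y := by
          rw [hkeep (M y) y1W (by rw [hv2, y1y]), y1y]
        have hy2'' : N (M y) ∈ fixs W M'' := by rw [hfix]; exact Finset.mem_insert_self _ _
        have hne1 : M'' (M y) ≠ M y := by rw [hk2]; exact Ne.symm hyM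
        obtain ⟨r1, r2⟩ := shift_mt hsymm hM'' hy2'' y1W hne1 (hsymm _ _ hH12')
        have hy2M : N (M y) ∉ fixs W M := fun h => hM2 (mem_fixs.1 h).2
        refine ⟨x, hx, shiftF M'' (N (M y)) (M y), r1, ?_, ?_⟩
        · rw [r2, hk2, hfix]
          congr 1
          rw [Finset.erase_insert]
          intro h
          exact hy2M (Finset.mem_of_mem_erase h)
        · intro v hv hvN
          have h1 : v ≠ N (M y) := by
            intro e
            rw [e, y2y1] at hvN
            have e2 := (hM (N (M y)) y2W).2.1
            rw [hvN, y1y] at e2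
            exact n2 e2.symm
          have h2 : v ≠ M y := by
            intro e
            rw [e, y1y] at hvN
            exact n2 hvN.symm
          have h3 : v ≠ y := by
            intro e
            rw [e, hNy] at hvN
            exact hyM hvN
          have h4 : shiftF M'' (N (M y)) (M y) v = M'' v := by
            unfold shiftF
            rw [hk2]
            simp [h1, h2, h3]
          rw [h4]
          apply hkeep v hv
          rw [hval v h3 h2 h1]
          exact hvN

theorem parity {W : Finset V} {M : V → V} (hM : Mt H W M) :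
    W.card % 2 = (fixs W M).card % 2 := by
  classical
  have h1 : (∑ _x ∈ W \ fixs W M, (1 : ZMod 2)) = 0 := by
    apply Finset.sum_involution (fun a _ => M a)
    · intro a _; decide
    · intro a ha _ e
      rw [Finset.mem_sdiff, mem_fixs, not_and] at ha
      exact ha.2 ha.1 e
    · intro a ha
      rw [Finset.mem_sdiff, mem_fixs, not_and] at ha ⊢
      obtain ⟨q1, q2, q3⟩ := hM a ha.1
      refine ⟨q1, fun _ e => ?_⟩
      rw [q2] at e
      exact ha.2 ha.1 e.symm
    · intro a ha
      rw [Finset.mem_sdiff] at ha
      exact (hM a ha.1).2.1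
  rw [Finset.sum_const, nsmul_eq_mul, mul_one, ZMod.natCast_eq_zero_iff] at h1
  have h2 : (W \ fixs W M).card + (fixs W M).card = W.card :=
    Finset.card_sdiff_add_card_eq_card (Finset.filter_subset _ _)
  omega

/-- Removing a covered vertex. -/
def detF (M : V → V) (z : V) : V → V := fun v => if v = M z then M z else M v

theorem det_mt {W : Finset V} {M : V → V} (hM : Mt H W M) {z : V} (hz : z ∈ W)
    (hzz : M z ≠ z) :
    Mt H (W.erase z) (detF M z) ∧
      fixs (W.erase z) (detF M z) = insert (M z) (fixs W M) ∧ M z ∉ fixs W M := by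
  obtain ⟨m1, m2, m3⟩ := hM z hz
  have hnot : M z ∉ fixs W M := by
    rw [mem_fixs, not_and]
    intro _ e
    rw [m2] at e
    exact hzz e.symm
  refine ⟨?_, ?_, hnot⟩
  · intro v hv
    rw [Finset.mem_erase] at hv
    unfold detF
    by_cases h1 : v = M z
    · rw [if_pos h1, if_pos rfl]
      refine ⟨Finset.mem_erase.2 ⟨hzz, m1⟩, h1.symm, fun e => absurd h1.symm e⟩
    · rw [if_neg h1]
      obtain ⟨q1, q2, q3⟩ := hM v hv.2
      have h2 : M v ≠ M z := by
        intro e; rw [e, m2] at q2; exact hv.1 q2.symm
      rw [if_neg h2]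
      have h3 : M v ≠ z := by
        intro e; rw [e] at q2; exact h1 q2.symm
      exact ⟨Finset.mem_erase.2 ⟨h3, q1⟩, q2, q3⟩
  · ext v
    rw [mem_fixs, Finset.mem_erase, Finset.mem_insert, mem_fixs]
    unfold detF
    by_cases h1 : v = M z
    · rw [if_pos h1]
      simp [h1, hzz, m1]
    · rw [if_neg h1]
      constructor
      · rintro ⟨⟨-, a⟩, b⟩; exact Or.inr ⟨a, b⟩
      · rintro (e | e)
        · exact absurd e h1
        · refine ⟨⟨?_, e.1⟩, e.2⟩
          rintro rfl
          exact hzz e.2

/-- Attaching a vertex to a hole. -/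
theorem att_mt (hsymm : ∀ x y, H x y → H y x) {W : Finset V} {M : V → V} {z r : V}
    (hz : z ∈ W) (hM : Mt H (W.erase z) M) (hr : r ∈ fixs (W.erase z) M) (hH : H z r) :
    Mt H W (pairF M z r) ∧ fixs W (pairF M z r) = (fixs (W.erase z) M).erase r := by
  rw [mem_fixs, Finset.mem_erase] at hr
  obtain ⟨⟨hrz, hrW⟩, hMr⟩ := hr
  constructor
  · intro v hv
    unfold pairF
    by_cases h1 : v = z
    · subst h1
      simp [hrz, hrW]
      exact hH
    · by_cases h2 : v = r
      · subst h2
        simp [h1, hz]
        exact fun _ => hsymm _ _ hH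
      · obtain ⟨q1, q2, q3⟩ := hM v (Finset.mem_erase.2 ⟨h1, hv⟩)
        rw [Finset.mem_erase] at q1
        have h4 : M v ≠ r := by
          intro e
          rw [e, hMr] at q2
          exact h2 q2.symm
        simp only [h1, h2, q1.1, h4, if_false]
        exact ⟨q1.2, q2, q3⟩
  · ext v
    rw [mem_fixs, Finset.mem_erase, mem_fixs, Finset.mem_erase]
    unfold pairF
    by_cases h1 : v = z
    · subst h1; simp [hrz]
    · by_cases h2 : v = r
      · subst h2; simp [h1, Ne.symm h1]
      · simp [h1, h2]

/-- Extending by a hole. -/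
theorem ext_mt {W : Finset V} {M : V → V} {z : V}
    (hz : z ∈ W) (hM : Mt H (W.erase z) M) :
    Mt H W (fun v => if v = z then z else M v) ∧
      fixs W (fun v => if v = z then z else M v) = insert z (fixs (W.erase z) M) := by
  constructor
  · intro v hv
    by_cases h1 : v = z
    · subst h1; simp [hv]
    · obtain ⟨q1, q2, q3⟩ := hM v (Finset.mem_erase.2 ⟨h1, hv⟩)
      rw [Finset.mem_erase] at q1
      simp only [h1, q1.1, if_false]
      exact ⟨q1.2, q2, q3⟩
  · ext v
    rw [mem_fixs, Finset.mem_insert, mem_fixs, Finset.mem_erase]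
    by_cases h1 : v = z
    · subst h1; simp [hz]
    · simp [h1]

theorem ge_aux (hsymm : ∀ x y, H x y → H y x) :
    ∀ (n : ℕ) (W : Finset V) (s : ℕ), MinFix H W s → (AA H W s).card = n →
      ∀ M : V → V, Mt H W M → (fixs W M).card = s →
        (∀ z ∈ AA H W s, M z ∈ DD H W s) ∧
        (∀ x ∈ fixs W M ∪ (AA H W s).image M, ∀ y ∈ fixs W M ∪ (AA H W s).image M,
          Conn H (DD H W s) x y → x = y) := by
  classical
  intro n
  induction n with
  | zero =>
    intro W s hmin hA M hM hs
    rw [Finset.card_eq_zero] at hA
    rw [hA]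
    refine ⟨by simp, ?_⟩
    intro x hx y hy hconn
    simp only [Finset.image_empty, Finset.union_empty] at hx hy
    exact gallai hsymm hmin hconn M hM hs hx hy
  | succ n ih =>
    intro W s hmin hA M hM hs
    have hne : (AA H W s).Nonempty := by rw [← Finset.card_pos]; omega
    obtain ⟨z, hzA⟩ := hne
    obtain ⟨⟨hzW, hzD⟩, r, hrD, hrz⟩ := mem_AA.1 hzA
    -- every optimal matching covers z
    have hcov : ∀ N : V → V, Mt H W N → (fixs W N).card = s → N z ≠ z := by
      intro N hN hNs e
      exact hzD (mem_DD.2 ⟨hzW, N, hN, hNs, e⟩)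
    have hmin' : MinFix H (W.erase z) (s + 1) := by
      intro N hN
      obtain ⟨e1, e2⟩ := ext_mt hzW hN
      have e3 := hmin _ e1
      have hznot : z ∉ fixs (W.erase z) N := by
        rw [mem_fixs]; simp
      have e4 : (fixs W (fun v => if v = z then z else N v)).card
          = (fixs (W.erase z) N).card + 1 := by
        rw [e2, Finset.card_insert_of_notMem hznot]
      have e5 : (fixs W (fun v => if v = z then z else N v)).card ≠ s := by
        intro e
        exact hcov _ e1 e (by simp)
      have p1 := parity hN
      have p2 := parity hM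
      have p3 : (W.erase z).card + 1 = W.card := Finset.card_erase_add_one hzW
      omega
    have hDD : DD H (W.erase z) (s + 1) = DD H W s := by
      ext v
      constructor
      · intro hv
        obtain ⟨hvW, N, hN, hNs, hNv⟩ := mem_DD.1 hv
        rw [Finset.mem_erase] at hvW
        obtain ⟨hrW, Mr, hMr, hMrs, hMrr⟩ := mem_DD.1 hrD
        have hMrz := hcov Mr hMr hMrs
        have hrfix : r ∈ fixs W Mr := mem_fixs.2 ⟨hrW, hMrr⟩
        by_cases hvF : v ∈ fixs W Mr
        · exact mem_DD.2 ⟨hvW.2, Mr, hMr, hMrs, (mem_fixs.1 hvF).2⟩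
        by_cases hvq : v = Mr z
        · obtain ⟨q1, q2⟩ := shift_mt hsymm hMr hrfix hzW hMrz hrz
          have q3 := shift_card hMr hrfix hzW hMrz
          refine mem_DD.2 ⟨hvW.2, shiftF Mr r z, q1, by rw [q2, q3, hMrs], ?_⟩
          have : v ∈ fixs W (shiftF Mr r z) := by rw [q2, hvq]; exact Finset.mem_insert_self _ _
          exact (mem_fixs.1 this).2
        obtain ⟨d1, d2, d3⟩ := det_mt hMr hzW hMrz
        obtain ⟨x, hx, M'', hM'', hfix, -⟩ := traj hsymm hmin' d1 _ N v hN hNs
          (mem_fixs.2 ⟨Finset.mem_erase.2 hvW, hNv⟩) rfl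
        rw [d2] at hx hfix
        rw [Finset.mem_insert] at hx
        have hvx : v ≠ x := by
          rintro rfl
          rcases hx with hx | hx
          · exact hvq hx
          · exact hvF hx
        rcases hx with hx | hx
        · -- x = Mr z
          subst hx
          rw [Finset.erase_insert d3] at hfix
          have hr'' : r ∈ fixs (W.erase z) M'' := by
            rw [hfix]; exact Finset.mem_insert_of_mem hrfix
          obtain ⟨a1, a2⟩ := att_mt hsymm hzW hM'' hr'' (hsymm _ _ hrz)
          have hvr : v ≠ r := by
            rintro rfl; exact hvF hrfix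
          refine mem_DD.2 ⟨hvW.2, pairF M'' z r, a1, ?_, ?_⟩
          · rw [a2, hfix, Finset.card_erase_of_mem (Finset.mem_insert_of_mem hrfix),
              Finset.card_insert_of_notMem hvF, hMrs]
            rfl
          · have : v ∈ fixs W (pairF M'' z r) := by
              rw [a2, hfix, Finset.mem_erase]
              exact ⟨hvr, Finset.mem_insert_self _ _⟩
            exact (mem_fixs.1 this).2
        · have hxq : x ≠ Mr z := by
            rintro rfl; exact d3 hx
          have hq'' : Mr z ∈ fixs (W.erase z) M'' := by
            rw [hfix]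
            apply Finset.mem_insert_of_mem
            rw [Finset.mem_erase]
            exact ⟨hxq.symm, Finset.mem_insert_self _ _⟩
          obtain ⟨m1, m2, m3⟩ := hMr z hzW
          obtain ⟨a1, a2⟩ := att_mt hsymm hzW hM'' hq'' (m3 hMrz)
          refine mem_DD.2 ⟨hvW.2, pairF M'' z (Mr z), a1, ?_, ?_⟩
          · have c1 : v ∉ (insert (Mr z) (fixs W Mr)).erase x := by
              rw [Finset.mem_erase, Finset.mem_insert]
              rintro ⟨-, h | h⟩
              · exact hvq h
              · exact hvF h
            have c2 : x ∈ insert (Mr z) (fixs W Mr) := Finset.mem_insert_of_mem hx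
            rw [a2, Finset.card_erase_of_mem hq'', hfix, Finset.card_insert_of_notMem c1,
              Finset.card_erase_of_mem c2, Finset.card_insert_of_notMem d3, hMrs]
            rfl
          · have : v ∈ fixs W (pairF M'' z (Mr z)) := by
              rw [a2, hfix, Finset.mem_erase]
              exact ⟨hvq, Finset.mem_insert_self _ _⟩
            exact (mem_fixs.1 this).2
      · intro hv
        obtain ⟨hvW, N, hN, hNs, hNv⟩ := mem_DD.1 hv
        have hNz := hcov N hN hNs
        obtain ⟨d1, d2, d3⟩ := det_mt hN hzW hNz
        have hvz : v ≠ z := by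
          rintro rfl; exact hzD hv
        refine mem_DD.2 ⟨Finset.mem_erase.2 ⟨hvz, hvW⟩, detF N z, d1, ?_, ?_⟩
        · rw [d2, Finset.card_insert_of_notMem d3, hNs]
        · have : v ∈ fixs (W.erase z) (detF N z) := by
            rw [d2]; exact Finset.mem_insert_of_mem (mem_fixs.2 ⟨hvW, hNv⟩)
          exact (mem_fixs.1 this).2
    have hAA : AA H (W.erase z) (s + 1) = (AA H W s).erase z := by
      ext v
      rw [Finset.mem_erase, mem_AA, mem_AA, hDD, Finset.mem_erase]
      tauto
    have hMz := hcov M hM hs
    obtain ⟨d1, d2, d3⟩ := det_mt hM hzW hMz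
    have hcard : (AA H (W.erase z) (s + 1)).card = n := by
      rw [hAA, Finset.card_erase_of_mem hzA, hA]; rfl
    obtain ⟨i1, i2⟩ := ih (W.erase z) (s + 1) hmin' hcard (detF M z) d1
      (by rw [d2, Finset.card_insert_of_notMem d3, hs])
    have hMzD : M z ∈ DD H W s := by
      rw [← hDD]
      have h1 : M z ∈ fixs (W.erase z) (detF M z) := by
        rw [d2]; exact Finset.mem_insert_self _ _
      refine mem_DD.2 ⟨(mem_fixs.1 h1).1, detF M z, d1, ?_, (mem_fixs.1 h1).2⟩
      rw [d2, Finset.card_insert_of_notMem d3, hs]
    have hsame : ∀ w ∈ (AA H W s).erase z, detF M z w = M w := by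
      intro w hw
      rw [Finset.mem_erase] at hw
      unfold detF
      rw [if_neg]
      rintro rfl
      exact (mem_AA.1 hw.2).1.2 hMzD
    constructor
    · intro w hw
      by_cases hwz : w = z
      · rw [hwz]; exact hMzD
      · have hw' : w ∈ (AA H W s).erase z := Finset.mem_erase.2 ⟨hwz, hw⟩
        have := i1 w (by rw [hAA]; exact hw')
        rw [hsame w hw', hDD] at this
        exact this
    · have hset : fixs (W.erase z) (detF M z) ∪ (AA H (W.erase z) (s + 1)).image (detF M z)
          = fixs W M ∪ (AA H W s).image M := by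
        rw [d2, hAA]
        ext u
        simp only [Finset.mem_union, Finset.mem_insert, Finset.mem_image]
        constructor
        · rintro ((h | h) | ⟨w, hw, h⟩)
          · exact Or.inr ⟨z, hzA, h.symm⟩
          · exact Or.inl h
          · rw [hsame w hw] at h
            exact Or.inr ⟨w, Finset.mem_of_mem_erase hw, h⟩
        · rintro (h | ⟨w, hw, h⟩)
          · exact Or.inl (Or.inr h)
          · by_cases hwz : w = z
            · subst hwz
              exact Or.inl (Or.inl h.symm)
            · have hw' : w ∈ (AA H W s).erase z := Finset.mem_erase.2 ⟨hwz, hw⟩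
              exact Or.inr ⟨w, hw', by rw [hsame w hw']; exact h⟩
      rw [hset, hDD] at i2
      exact i2

/-- The Gallai-Edmonds type statement used later. -/
theorem ge (hsymm : ∀ x y, H x y → H y x) {W : Finset V} {s : ℕ} (hmin : MinFix H W s)
    {M : V → V} (hM : Mt H W M) (hs : (fixs W M).card = s) :
    (∀ z ∈ AA H W s, M z ∈ DD H W s) ∧
    (∀ x ∈ fixs W M ∪ (AA H W s).image M, ∀ y ∈ fixs W M ∪ (AA H W s).image M,
      Conn H (DD H W s) x y → x = y) :=
  ge_aux hsymm _ W s hmin rfl M hM hs

end Pool.Agent.Helper26.GE
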