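import Pool.Agent.Helper26.HalfBasic

set_option autoImplicit false
set_option linter.unusedSectionVars false

/-! Recolouring a part of the graph with many colours. -/

namespace Pool.Agent.Helper26.Kempe

open Relation

variable {V : Type} [Fintype V] [DecidableEq V] {k : ℕ} {G : SimpleGraph V}

open Classical in
/-- Neighbours inside a set. -/
noncomputable def nbrs (G : SimpleGraph V) (R : Finset V) (w : V) : Finset V :=
  R.filter (fun x => G.Adj w x)

theorem mem_nbrs {R : Finset V} {w x : V} : x ∈ nbrs G R w ↔ x ∈ R ∧ G.Adj w x := by
  classical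
  simp [nbrs]

/-- Clearing one colour from the neighbourhood of `v`. -/
theorem clear_colour {R : Finset V} {T : Finset (Fin k)} {g : V → Fin k} (hg : Proper G g)
    (hgR : ∀ w, w ∉ R → g w ∉ T) (hdeg : ∀ w ∈ R, (nbrs G R w).card + 2 ≤ T.card)
    {S : Finset V} {v : V} :
    ∀ (n : ℕ) (f : V → Fin k), Proper G f → (∀ w, w ∉ R → f w = g w) → (∀ w ∈ R, f w ∈ T) →
      (∀ w ∈ S, f w = g w) → ((nbrs G R v).filter (fun w => f w = g v)).card = n →
      ∃ f' : V → Fin k, KE G f f' ∧ Proper G f' ∧ (∀ w, w ∉ R → f' w = g w) ∧
        (∀ w ∈ R, f' w ∈ T) ∧ (∀ w ∈ S, f' w = g w) ∧ (∀ w, G.Adj v w → f' w ≠ g v) := by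
  classical
  intro n
  induction n using Nat.strong_induction_on with
  | _ n ih =>
    intro f hf hfR hfT hfS hn
    by_cases hex : ∃ w, G.Adj v w ∧ f w = g v
    · obtain ⟨w, hvw, hfw⟩ := hex
      have hwR : w ∈ R := by
        by_contra hw
        have := hfR w hw
        rw [hfw] at this
        exact hg v w hvw this
      have hwS : w ∉ S := by
        intro hw
        have := hfS w hw
        rw [hfw] at this
        exact hg v w hvw this
      have hcard : (insert (g v) ((nbrs G R w).image f)).card < T.card := by
        have h1 : (insert (g v) ((nbrs G R w).image f)).card ≤ ((nbrs G R w).image f).card + 1 :=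
          Finset.card_insert_le _ _
        have h2 : ((nbrs G R w).image f).card ≤ (nbrs G R w).card := Finset.card_image_le
        have := hdeg w hwR
        omega
      obtain ⟨y, hyT, hy⟩ := Finset.exists_mem_notMem_of_card_lt_card hcard
      rw [Finset.mem_insert, not_or] at hy
      obtain ⟨hyx, hyim⟩ := hy
      have hnb : ∀ u, G.Adj w u → f u ≠ y := by
        intro u hu e
        by_cases huR : u ∈ R
        · exact hyim (Finset.mem_image.2 ⟨u, mem_nbrs.2 ⟨huR, hu⟩, e⟩)
        · have := hfR u huR
          rw [e] at this
          exact hgR u huR (this ▸ hyT)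
      obtain ⟨k1, k2⟩ := recolour hf w y hnb
      have hlt : ((nbrs G R v).filter (fun u => Function.update f w y u = g v)).card < n := by
        rw [← hn]
        apply Finset.card_lt_card
        rw [Finset.ssubset_iff_of_subset]
        · refine ⟨w, ?_, ?_⟩
          · rw [Finset.mem_filter]
            exact ⟨mem_nbrs.2 ⟨hwR, hvw⟩, hfw⟩
          · rw [Finset.mem_filter, not_and, Function.update_self]
            exact fun _ => hyx
        · intro u hu
          rw [Finset.mem_filter] at hu ⊢
          refine ⟨hu.1, ?_⟩
          by_cases huw : u = w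
          · rw [huw]; exact hfw
          · rw [Function.update_of_ne huw] at hu
            exact hu.2
      obtain ⟨f', a1, a2, a3, a4, a5, a6⟩ := ih _ hlt (Function.update f w y) k2
        (by
          intro u hu
          have hne : u ≠ w := by
            rintro rfl; exact hu hwR
          rw [Function.update_of_ne hne]
          exact hfR u hu)
        (by
          intro u hu
          by_cases huw : u = w
          · rw [huw, Function.update_self]; exact hyT
          · rw [Function.update_of_ne huw]; exact hfT u hu)
        (by
          intro u hu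
          have hne : u ≠ w := by
            rintro rfl; exact hwS hu
          rw [Function.update_of_ne hne]
          exact hfS u hu) rfl
      exact ⟨f', KE.trans k1 a1, a2, a3, a4, a5, a6⟩
    · push Not at hex
      exact ⟨f, KE.refl f, hf, hfR, hfT, hfS, hex⟩

/-- Any two colourings of a part with small degrees, with the same palette, are equivalent. -/
theorem jerrum {R : Finset V} {T : Finset (Fin k)} {f g : V → Fin k} (hf : Proper G f)
    (hg : Proper G g) (hoff : ∀ w, w ∉ R → f w = g w) (hgR : ∀ w, w ∉ R → g w ∉ T)
    (hfT : ∀ w ∈ R, f w ∈ T) (hgT : ∀ w ∈ R, g w ∈ T)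
    (hdeg : ∀ w ∈ R, (nbrs G R w).card + 2 ≤ T.card) : KE G f g := by
  classical
  have key : ∀ S : Finset V, S ⊆ R → ∃ f' : V → Fin k, KE G f f' ∧ Proper G f' ∧
      (∀ w, w ∉ R → f' w = g w) ∧ (∀ w ∈ R, f' w ∈ T) ∧ (∀ w ∈ S, f' w = g w) := by
    intro S
    induction S using Finset.induction_on with
    | empty => intro _; exact ⟨f, KE.refl f, hf, hoff, hfT, by simp⟩
    | insert v S hv ih =>
      intro hS
      obtain ⟨f1, a1, a2, a3, a4, a5⟩ := ih (fun x hx => hS (Finset.mem_insert_of_mem hx))
      have hvR : v ∈ R := hS (Finset.mem_insert_self v S)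
      obtain ⟨f2, b1, b2, b3, b4, b5, b6⟩ :=
        clear_colour hg hgR hdeg (S := S) (v := v) _ f1 a2 a3 a4 a5 rfl
      obtain ⟨k1, k2⟩ := recolour b2 v (g v) b6
      refine ⟨Function.update f2 v (g v), KE.trans a1 (KE.trans b1 k1), k2, ?_, ?_, ?_⟩
      · intro w hw
        have hne : w ≠ v := by
          rintro rfl; exact hw hvR
        rw [Function.update_of_ne hne]
        exact b3 w hw
      · intro w hw
        by_cases hwv : w = v
        · rw [hwv, Function.update_self]; exact hgT v hvR
        · rw [Function.update_of_ne hwv]; exact b4 w hw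
      · intro w hw
        by_cases hwv : w = v
        · rw [hwv, Function.update_self]
        · rw [Function.update_of_ne hwv]
          rw [Finset.mem_insert] at hw
          exact b5 w (hw.resolve_left hwv)
  obtain ⟨f', h1, h2, h4, h5, h6⟩ := key R (fun x hx => hx)
  have : f' = g := by
    funext w
    by_cases hw : w ∈ R
    · exact h6 w hw
    · exact h4 w hw
  rw [← this]; exact h1

end Pool.Agent.Helper26.Kempe
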