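import Pool.Agent.Helper26.HalfOpen

set_option autoImplicit false
set_option linter.unusedSectionVars false

/-! Counting the joins between a pair and the other pairs. -/

namespace Pool.Agent.Helper26.Kempe

open Relation

variable {V : Type} [Fintype V] [DecidableEq V] {k : ℕ} {G : SimpleGraph V}

/-! ### The simultaneous switch -/

theorem SW (E : Env G k) {c d : V → Fin k} (h : XExt G c d) {a x y : V}
    (ha : par c a = par d a) (hx : par c x = par d x) (h1 : HA G x a)
    (h2 : HA G (par c x) (par c a)) (h3 : HA G y x) (h4 : HA G y a) (h5 : y ≠ par c a) :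
    False := by
  classical
  have hc := E.pr h
  have hd := E.pr h.symm
  have hyx' : y ≠ par c x := by
    rintro rfl
    have hxx : par c (par c x) = par d (par c x) := by rw [hc.pp, hx, hd.pp]
    exact P3 E h hxx ha h4 h2
  have hax' : a ≠ par c x := by
    intro e
    have e2 : x = par c a := by rw [e, hc.pp]
    rw [e2] at h3
    by_cases hy : par c y = par d y
    · exact P3 E h hy ha h4 h3
    · exact P1 E h hy ha h4 h3
  have hcax : c a ≠ c x := cne hc (Ne.symm h1.1) hax'
  have hdax : d a ≠ d x := cne hd (Ne.symm h1.1) (hx ▸ hax')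
  set τ : Ix 2 → Fin 2 := mk ![(0, 1), (0, 1)] with hτ
  have hrc := inj2 hcax
  have hrd := inj2 hdax
  have hev : ∀ i : Ix 2, ev d ![a, x] i = ev c ![a, x] i := by
    rintro ⟨i, b⟩
    fin_cases i <;> cases b <;> simp [ev, ha, hx]
  have hR : ∀ p ∈ ([((0, false), (1, false)), ((0, true), (1, true))] : List (Ix 2 × Ix 2)),
      HA G (ev c ![a, x] p.1) (ev c ![a, x] p.2) := by
    simp [ev]; exact ⟨h1.symm, h2.symm⟩
  have hkc := reach hc hrc _ hR [mk ![(0, 1), (0, 1)]] (by decide)
  have hkd := reach hd hrd _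
    (by intro p hp; rw [hev, hev]; exact hR p hp) [mk ![(0, 1), (0, 1)]] (by decide)
  simp only [lastS] at hkc hkd
  rw [← hτ] at hkc hkd
  have clf : ∀ i j : Ix 2, (∀ z, τ z = τ i ↔ (z = i ∨ z = j)) →
      cls (lft c ![a, x] τ) (ev c ![a, x] i) = {ev c ![a, x] i, ev c ![a, x] j} ∧
      cls (lft d ![a, x] τ) (ev c ![a, x] i) = {ev c ![a, x] i, ev c ![a, x] j} := by
    intro i j hij
    constructor
    · ext w
      rw [mem_cls, lft_cl hc hrc hij, Finset.mem_insert, Finset.mem_singleton]
    · ext w
      rw [← hev i, ← hev j, mem_cls, lft_cl hd hrd hij, Finset.mem_insert,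
        Finset.mem_singleton]
  have q0 := clf (0, false) (1, false) (by decide)
  have q1 := clf (0, true) (1, true) (by decide)
  have v0 : ev c ![a, x] (0, false) = a := by simp [ev]
  have v1 : ev c ![a, x] (1, false) = x := by simp [ev]
  have v2 : ev c ![a, x] (0, true) = par c a := by simp [ev]
  have v3 : ev c ![a, x] (1, true) = par c x := by simp [ev]
  rw [v0, v1] at q0
  rw [v2, v3] at q1
  have hab : a ≠ par c a := Ne.symm (hc.ne a)
  have hbx : par c a ≠ x := fun e => hax' (by rw [← e, hc.pp])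
  have hle : mm c d ≤ mm (lft c ![a, x] τ) (lft d ![a, x] τ) := by
    have := mm_le (f := c) (g := d) (f' := lft c ![a, x] τ) (g' := lft d ![a, x] τ)
      {cls c a, cls c x} {({a, x} : Finset V), {par c a, par c x}}
      (by
        intro Z hZ hZL
        simp only [Finset.mem_insert, Finset.mem_singleton, not_or] at hZL
        have hoff : ∀ z ∈ Z, ∀ i, ev c ![a, x] i ≠ z := by
          rintro z hz i rfl
          have h6 := (com_cls hZ hz).1
          have h7 : c (ev c ![a, x] i) = c (![a, x] i.1) := c_ev hc i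
          rw [cls_eq h7] at h6
          obtain ⟨i, b⟩ := i
          fin_cases i
          · exact hZL.1 h6.symm
          · exact hZL.2 h6.symm
        apply com_keep hZ
        · intro z hz u
          rw [lft_eq_off hc hrc (hoff z hz)]
          exact class_iff (com_cls hZ hz).1 u
        · intro z hz u
          rw [lft_eq_off hd hrd (fun i => by rw [hev]; exact hoff z hz i)]
          exact class_iff (com_cls hZ hz).2 u)
      (by
        intro Z hZ
        rw [Finset.mem_insert, Finset.mem_singleton] at hZ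
        rcases hZ with rfl | rfl
        · rw [mem_com]
          exact ⟨by rw [Finset.card_pair (Ne.symm h1.1)], ⟨a, q0.1⟩, ⟨a, q0.2⟩⟩
        · rw [mem_com]
          exact ⟨by rw [Finset.card_pair h2.symm.1], ⟨_, q1.1⟩, ⟨_, q1.2⟩⟩)
      (by
        intro Z hZ hZ2
        exfalso
        rw [Finset.mem_insert, Finset.mem_singleton] at hZ
        rcases hZ with rfl | rfl
        · have h6 := (com_cls hZ2 (Finset.mem_insert_self a _)).1
          have h7 : par c a ∈ cls c a := mem_cls.2 (hc.same a)
          rw [h6, Finset.mem_insert, Finset.mem_singleton] at h7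
          rcases h7 with e | e
          · exact hab e.symm
          · exact hbx e
        · have h6 := (com_cls hZ2 (Finset.mem_insert_self (par c a) _)).1
          have h7 : a ∈ cls c (par c a) := mem_cls.2 (hc.same a).symm
          rw [h6, Finset.mem_insert, Finset.mem_singleton] at h7
          rcases h7 with e | e
          · exact hab e
          · exact hax' e)
    have c1 : ({cls c a, cls c x} : Finset (Finset V)).card ≤ 2 := Finset.card_le_two
    have c2 : ({({a, x} : Finset V), {par c a, par c x}} : Finset (Finset V)).card = 2 := by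
      apply Finset.card_pair
      intro e
      have : a ∈ ({par c a, par c x} : Finset V) := by rw [← e]; simp
      rw [Finset.mem_insert, Finset.mem_singleton] at this
      rcases this with e | e
      · exact hab e
      · exact hax' e
    omega
  have hX := h.replace hkc.1 hkd.1 hkc.2 hkd.2 hle
  have pa : par (lft c ![a, x] τ) a = x := by
    have := par_lft (τ := τ) hc hrc (x := (0, false)) (y := (1, false)) (by decide)
      (by decide)
    rwa [v0, v1] at this
  have pa' : par (lft d ![a, x] τ) a = x := by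
    have := par_lft (τ := τ) hd hrd (x := (0, false)) (y := (1, false)) (by decide)
      (by decide)
    rwa [hev, hev, v0, v1] at this
  have hoff : ∀ i, ev c ![a, x] i ≠ y := by
    rintro ⟨i, b⟩
    fin_cases i <;> cases b
    · simp [ev]; exact Ne.symm h4.1
    · simp [ev]; exact Ne.symm h5
    · simp [ev]; exact Ne.symm h3.1
    · simp [ev]; exact Ne.symm hyx'
  have py : par (lft c ![a, x] τ) y = par c y := par_lft_off hc hrc hoff
  have py' : par (lft d ![a, x] τ) y = par d y :=
    par_lft_off hd hrd (fun i => by rw [hev]; exact hoff i)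
  by_cases hy : par c y = par d y
  · apply P3 E hX (a := y) (w := a) (by rw [py, py', hy]) (by rw [pa, pa']) h4
    rw [pa]; exact h3
  · apply P1 E hX (w := y) (a := a) (by rw [py, py']; exact hy) (by rw [pa, pa']) h4
    rw [pa]; exact h3

/-! ### Counting joins -/

open Classical in
/-- Doubly joined vertices. -/
noncomputable def XS (G : SimpleGraph V) (c : V → Fin k) (a : V) : Finset V :=
  Finset.univ.filter (fun x => x ≠ par c a ∧ HA G a x ∧ HA G (par c a) (par c x))

open Classical in
/-- V-joined vertices. -/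
noncomputable def VS (G : SimpleGraph V) (c : V → Fin k) (a : V) : Finset V :=
  Finset.univ.filter (fun v => v ≠ a ∧ v ≠ par c a ∧
    ((HA G a v ∧ HA G a (par c v)) ∨ (HA G (par c a) v ∧ HA G (par c a) (par c v))))

open Classical in
/-- Vertices in pairs without a join. -/
noncomputable def WS (G : SimpleGraph V) (c : V → Fin k) (a : V) : Finset V :=
  Finset.univ.filter (fun v => v ≠ a ∧ v ≠ par c a ∧
    ¬ HA G a v ∧ ¬ HA G a (par c v) ∧ ¬ HA G (par c a) v ∧ ¬ HA G (par c a) (par c v))

theorem mem_XS {c : V → Fin k} {a x : V} : x ∈ XS G c a ↔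
    (x ≠ par c a ∧ HA G a x ∧ HA G (par c a) (par c x)) := by
  classical
  simp [XS]

theorem mem_VS {c : V → Fin k} {a v : V} : v ∈ VS G c a ↔ (v ≠ a ∧ v ≠ par c a ∧
    ((HA G a v ∧ HA G a (par c v)) ∨ (HA G (par c a) v ∧ HA G (par c a) (par c v)))) := by
  classical
  simp [VS]

theorem mem_WS {c : V → Fin k} {a v : V} : v ∈ WS G c a ↔ (v ≠ a ∧ v ≠ par c a ∧
    ¬ HA G a v ∧ ¬ HA G a (par c v) ∧ ¬ HA G (par c a) v ∧ ¬ HA G (par c a) (par c v)) := by
  classical
  simp [WS]

theorem cntpair (E : Env G k) {c : V → Fin k} (hc : PR G c) (a : V)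
    (hdis : ∀ x, HA G a x → HA G (par c a) x → False) (I : Finset V)
    (hI : ∀ x ∈ I, x ≠ par c a ∧ HA G a x ∧ ¬ HA G (par c a) (par c x))
    (hQ : ∀ x ∈ XS G c a ∪ I, ∀ y ∈ XS G c a ∪ I, ¬ HA G x y) :
    2 * I.card + (WS G c a).card ≤ (VS G c a).card := by
  classical
  set b := par c a with hb
  have hpb : par c b = a := by rw [hb, hc.pp]
  have hab : a ≠ b := Ne.symm (hc.ne a)
  have hHab : HA G a b := hc.ha a
  let Sa : Finset V := (NN G a).erase b
  let Sb : Finset V := (NN G b).erase a
  have mSa : ∀ x, x ∈ Sa ↔ (x ≠ b ∧ HA G a x) := by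
    intro x; simp only [Sa]; rw [Finset.mem_erase, mem_NN_iff]
  have mSb : ∀ x, x ∈ Sb ↔ (x ≠ a ∧ HA G b x) := by
    intro x; simp only [Sb]; rw [Finset.mem_erase, mem_NN_iff]
  have cSa : Sa.card + 1 = (NN G a).card :=
    Finset.card_erase_add_one (mem_NN_iff.2 hHab)
  have cSb : Sb.card + 1 = (NN G b).card :=
    Finset.card_erase_add_one (mem_NN_iff.2 hHab.symm)
  have dS : Disjoint Sa Sb := by
    rw [Finset.disjoint_left]
    intro x hx hx2
    exact hdis x ((mSa x).1 hx).2 ((mSb x).1 hx2).2
  -- the clique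
  have hXI : Disjoint (XS G c a) I := by
    rw [Finset.disjoint_left]
    intro x hx hx2
    exact (hI x hx2).2.2 (mem_XS.1 hx).2.2
  have hbXI : b ∉ XS G c a ∪ I := by
    rw [Finset.mem_union, not_or]
    exact ⟨fun e => (mem_XS.1 e).1 rfl, fun e => (hI b e).1 rfl⟩
  have hSaXI : ∀ x ∈ XS G c a ∪ I, HA G a x ∧ x ≠ b := by
    intro x hx
    rw [Finset.mem_union] at hx
    rcases hx with hx | hx
    · exact ⟨(mem_XS.1 hx).2.1, (mem_XS.1 hx).1⟩
    · exact ⟨(hI x hx).2.1, (hI x hx).1⟩
  have hcl : G.IsClique ((insert b (XS G c a ∪ I) : Finset V) : Set V) := by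
    rw [Finset.coe_insert]
    apply SimpleGraph.IsClique.insert
    · intro x hx y hy hxy
      rw [Finset.mem_coe] at hx hy
      by_contra hna
      exact hQ x hx y hy ⟨hxy, hna⟩
    · intro x hx hbx
      rw [Finset.mem_coe] at hx
      by_contra hna
      exact hdis x (hSaXI x hx).1 ⟨hbx, hna⟩
  have sa := E.star _ hcl a
  have sb := E.star _ hcl b
  rw [Finset.card_insert_of_notMem hbXI, Finset.card_union_of_disjoint hXI] at sa sb
  -- counting
  let S : Finset V := Sa ∪ Sb
  let R : Finset V := (Finset.univ.erase a).erase b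
  have mR : ∀ x, x ∈ R ↔ (x ≠ b ∧ x ≠ a) := by
    intro x; simp [R]
  have cR : R.card + 2 = 2 * k := by
    have e1 : R.card + 1 = (Finset.univ.erase a).card :=
      Finset.card_erase_add_one (by simp [Ne.symm hab])
    have e2 : (Finset.univ.erase a).card + 1 = (Finset.univ : Finset V).card :=
      Finset.card_erase_add_one (Finset.mem_univ a)
    rw [Finset.card_univ, E.card] at e2
    omega
  have mS : ∀ x, x ∈ S ↔ ((x ≠ b ∧ HA G a x) ∨ (x ≠ a ∧ HA G b x)) := by
    intro x; simp only [S]; rw [Finset.mem_union, mSa, mSb]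
  have hSR : S ⊆ R := by
    intro x hx
    rw [mS] at hx
    rw [mR]
    rcases hx with hx | hx
    · exact ⟨hx.1, hx.2.1.symm⟩
    · exact ⟨hx.2.1.symm, hx.1⟩
  have cS : S.card = Sa.card + Sb.card := Finset.card_union_of_disjoint dS
  have hparR : ∀ x, x ∈ R → par c x ∈ R := by
    intro x hx
    rw [mR] at hx ⊢
    constructor
    · intro e; exact hx.2 (hc.inj e)
    · intro e; apply hx.1; rw [hb, ← e, hc.pp]
  let A1 := S.filter (fun v => par c v ∈ S)
  let A2 := S.filter (fun v => par c v ∉ S)
  let A3 := (R \ S).filter (fun v => par c v ∈ S)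
  let A4 := (R \ S).filter (fun v => par c v ∉ S)
  have h12 : A1.card + A2.card = S.card := Finset.card_filter_add_card_filter_not _
  have h34 : A3.card + A4.card = (R \ S).card := Finset.card_filter_add_card_filter_not _
  have hRS : (R \ S).card + S.card = R.card := Finset.card_sdiff_add_card_eq_card hSR
  have h23 : A3.card = A2.card := by
    have e1 : A3 = A2.image (par c) := by
      ext v
      simp only [A3, A2, Finset.mem_filter, Finset.mem_sdiff, Finset.mem_image]
      constructor
      · rintro ⟨⟨q1, q2⟩, q3⟩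
        exact ⟨par c v, ⟨q3, by rw [hc.pp]; exact q2⟩, hc.pp v⟩
      · rintro ⟨u, ⟨q1, q2⟩, rfl⟩
        exact ⟨⟨hparR u (hSR q1), q2⟩, by rw [hc.pp]; exact q1⟩
    rw [e1, Finset.card_image_of_injective _ (fun x y e => hc.inj e)]
  have h4 : A4 = WS G c a := by
    ext v
    simp only [A4, Finset.mem_filter, Finset.mem_sdiff]
    rw [mem_WS, mR, mS, mS, ← hb]
    constructor
    · rintro ⟨⟨⟨q1, q2⟩, q3⟩, q4⟩
      have hp := hparR v ((mR v).2 ⟨q1, q2⟩)
      rw [mR] at hp
      push Not at q3 q4
      exact ⟨q2, q1, q3.1 q1, q4.1 hp.1, q3.2 q2, q4.2 hp.2⟩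
    · rintro ⟨q1, q2, q3, q4, q5, q6⟩
      exact ⟨⟨⟨q2, q1⟩, by tauto⟩, by tauto⟩
  have h1 : A1 ⊆ XS G c a ∪ (XS G c a).image (par c) ∪ VS G c a := by
    intro v hv
    simp only [A1, Finset.mem_filter] at hv
    rw [mS, mS] at hv
    rw [Finset.mem_union, Finset.mem_union, Finset.mem_image]
    obtain ⟨q1, q2⟩ := hv
    rcases q1 with q1 | q1
    · rcases q2 with q2 | q2
      · right
        rw [mem_VS]
        exact ⟨q1.2.1.symm, q1.1, Or.inl ⟨q1.2, q2.2⟩⟩
      · left; left
        rw [mem_XS]
        exact ⟨q1.1, q1.2, q2.2⟩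
    · rcases q2 with q2 | q2
      · left; right
        refine ⟨par c v, ?_, hc.pp v⟩
        rw [mem_XS, hc.pp]
        exact ⟨q2.1, q2.2, q1.2⟩
      · right
        rw [mem_VS]
        exact ⟨q1.1, q1.2.1.symm, Or.inr ⟨q1.2, q2.2⟩⟩
  have h1c := Finset.card_le_card h1
  have h1d := Finset.card_union_le (XS G c a ∪ (XS G c a).image (par c)) (VS G c a)
  have h1e := Finset.card_union_le (XS G c a) ((XS G c a).image (par c))
  have h1f : ((XS G c a).image (par c)).card ≤ (XS G c a).card := Finset.card_image_le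
  rw [← h4]
  change 2 * I.card + A4.card ≤ _
  omega

/-- The inequality (i'). -/
theorem ip (E : Env G k) {c d : V → Fin k} (h : XExt G c d) {a : V}
    (ha : par c a = par d a) (I : Finset V)
    (hI : ∀ x ∈ I, par c x ≠ par d x ∧ HA G a x)
    (hII : ∀ x ∈ I, ∀ y ∈ I, ¬ HA G x y)
    (hIX : ∀ x ∈ I, ¬ HA G (par c a) (par c x)) :
    2 * I.card + (WS G c a).card ≤ (VS G c a).card := by
  have hc := E.pr h
  have hd := E.pr h.symm
  have hIb : ∀ x ∈ I, x ≠ par c a := by
    rintro x hx rfl
    apply (hI _ hx).1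
    rw [hc.pp, ha, hd.pp]
  have hX : ∀ x ∈ XS G c a, ∀ y, HA G a y → y ≠ par c a →
      (par c x = par d x ∨ par c y ≠ par d y) → ¬ HA G y x := by
    intro x hx y hy hyb hor hyx
    obtain ⟨x1, x2, x3⟩ := mem_XS.1 hx
    by_cases hxC : par c x = par d x
    · exact SW E h ha hxC x2.symm x3.symm hyx hy.symm hyb
    · rcases hor with hor | hor
      · exact hxC hor
      · exact U3 E h ha hxC hor x2.symm x3.symm hyx hy.symm
  apply cntpair E hc a
  · intro x h1 h2
    by_cases hx : par c x = par d x
    · exact P3 E h hx ha h1.symm h2.symm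
    · exact P1 E h hx ha h1.symm h2.symm
  · intro x hx
    exact ⟨hIb x hx, (hI x hx).2, hIX x hx⟩
  · intro x hx y hy hxy
    rw [Finset.mem_union] at hx hy
    rcases hx with hx | hx
    · obtain ⟨x1, x2, x3⟩ := mem_XS.1 hx
      rcases hy with hy | hy
      · obtain ⟨y1, y2, y3⟩ := mem_XS.1 hy
        by_cases hxC : par c x = par d x
        · exact hX x hx y y2 y1 (Or.inl hxC) hxy.symm
        · exact hX y hy x x2 x1 (Or.inr hxC) hxy
      · exact hX x hx y (hI y hy).2 (hIb y hy) (Or.inr (hI y hy).1) hxy.symm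
    · rcases hy with hy | hy
      · exact hX y hy x (hI x hx).2 (hIb x hx) (Or.inr (hI x hx).1) hxy
      · exact hII x hx y hy hxy

end Pool.Agent.Helper26.Kempe
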