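import Pool.Agent.Helper26.HalfFrame

set_option autoImplicit false
set_option linter.unusedSectionVars false

/-! Local structure of extremal pairs with all classes of size two. -/

namespace Pool.Agent.Helper26.Kempe

open Relation

variable {V : Type} [Fintype V] [DecidableEq V] {k : ℕ} {G : SimpleGraph V}

/-! ### Small tools -/

theorem od_par {c d : V → Fin k} (hc : PR G c) (hd : PR G d) {x : V}
    (h : par c x ≠ par d x) : par c (par c x) ≠ par d (par c x) := by
  rw [hc.pp]
  intro e
  apply h
  have := congrArg (par d) e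
  rw [hd.pp] at this
  exact this.symm

theorem od_par' {c d : V → Fin k} (hc : PR G c) (hd : PR G d) {x : V}
    (h : par c x ≠ par d x) : par c (par d x) ≠ par d (par d x) := by
  have := od_par hd hc (x := x) (Ne.symm h)
  exact Ne.symm this

theorem cne {c : V → Fin k} (hc : PR G c) {x y : V} (h1 : x ≠ y) (h2 : x ≠ par c y) :
    c x ≠ c y := by
  intro e
  rcases (hc.cl y x).1 e with e1 | e1
  · exact h1 e1
  · exact h2 e1

theorem cne_JC {c d : V → Fin k} (hc : PR G c) (hd : PR G d) {a x : V}
    (ha : par c a = par d a) (hx : par c x ≠ par d x) : c a ≠ c x := by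
  intro e
  rcases (hc.cl x a).1 e with e1 | e1
  · subst e1; exact hx ha
  · subst e1; exact od_par hc hd hx ha

theorem inj2 {c : V → Fin k} {x0 x1 : V} (h : c x0 ≠ c x1) :
    ∀ i j : Fin 2, c (![x0, x1] i) = c (![x0, x1] j) → i = j := by
  intro i j e
  fin_cases i <;> fin_cases j <;> first | rfl | exact absurd e h | exact absurd e.symm h

theorem inj3 {c : V → Fin k} {x0 x1 x2 : V} (h01 : c x0 ≠ c x1) (h02 : c x0 ≠ c x2)
    (h12 : c x1 ≠ c x2) :
    ∀ i j : Fin 3, c (![x0, x1, x2] i) = c (![x0, x1, x2] j) → i = j := by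
  intro i j e
  fin_cases i <;> fin_cases j <;> first
    | rfl
    | exact absurd e h01 | exact absurd e.symm h01
    | exact absurd e h02 | exact absurd e.symm h02
    | exact absurd e h12 | exact absurd e.symm h12

theorem inj4 {c : V → Fin k} {x0 x1 x2 x3 : V} (h01 : c x0 ≠ c x1) (h02 : c x0 ≠ c x2)
    (h03 : c x0 ≠ c x3) (h12 : c x1 ≠ c x2) (h13 : c x1 ≠ c x3) (h23 : c x2 ≠ c x3) :
    ∀ i j : Fin 4, c (![x0, x1, x2, x3] i) = c (![x0, x1, x2, x3] j) → i = j := by
  intro i j e
  fin_cases i <;> fin_cases j <;> first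
    | rfl
    | exact absurd e h01 | exact absurd e.symm h01
    | exact absurd e h02 | exact absurd e.symm h02
    | exact absurd e h03 | exact absurd e.symm h03
    | exact absurd e h12 | exact absurd e.symm h12
    | exact absurd e h13 | exact absurd e.symm h13
    | exact absurd e h23 | exact absurd e.symm h23

theorem inj5 {c : V → Fin k} {x0 x1 x2 x3 x4 : V} (h01 : c x0 ≠ c x1) (h02 : c x0 ≠ c x2)
    (h03 : c x0 ≠ c x3) (h04 : c x0 ≠ c x4) (h12 : c x1 ≠ c x2) (h13 : c x1 ≠ c x3)
    (h14 : c x1 ≠ c x4) (h23 : c x2 ≠ c x3) (h24 : c x2 ≠ c x4) (h34 : c x3 ≠ c x4) :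
    ∀ i j : Fin 5, c (![x0, x1, x2, x3, x4] i) = c (![x0, x1, x2, x3, x4] j) → i = j := by
  intro i j e
  fin_cases i <;> fin_cases j <;> first
    | rfl
    | exact absurd e h01 | exact absurd e.symm h01
    | exact absurd e h02 | exact absurd e.symm h02
    | exact absurd e h03 | exact absurd e.symm h03
    | exact absurd e h04 | exact absurd e.symm h04
    | exact absurd e h12 | exact absurd e.symm h12
    | exact absurd e h13 | exact absurd e.symm h13
    | exact absurd e h14 | exact absurd e.symm h14
    | exact absurd e h23 | exact absurd e.symm h23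
    | exact absurd e h24 | exact absurd e.symm h24
    | exact absurd e h34 | exact absurd e.symm h34

/-- Counting, with the lost pairs given by their indices. -/
theorem cnt2 {c d : V → Fin k} (h : PR G c) (hd : PR G d) {m : ℕ} {r : Fin m → V}
    (hr : ∀ i j, c (r i) = c (r j) → i = j) (τ : Ix m → Fin m) (Lp : Finset (Fin m))
    (N : Finset (Ix m)) (δ : Ix m → Ix m)
    (hL : ∀ i, i ∉ Lp → par c (r i) ≠ par d (r i))
    (hN : ∀ x ∈ N, par d (ev c r x) = ev c r (δ x))
    (hc : ∀ x ∈ N, ∀ z, τ z = τ x ↔ (z = x ∨ z = δ x)) :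
    2 * mm c d + N.card ≤ 2 * mm (lft c r τ) d + 2 * Lp.card := by
  have := cnt h hd hr τ (Lp ×ˢ Finset.univ) N δ
    (by
      rintro ⟨i, b⟩ hx
      rw [Finset.mem_product]
      refine ⟨?_, Finset.mem_univ _⟩
      by_contra hi
      have h1 := hL i hi
      cases b
      · rw [ev_false] at hx; exact h1 hx
      · rw [ev_true] at hx; exact od_par h hd h1 hx)
    hN hc
  rw [Finset.card_product, Finset.card_univ, Fintype.card_bool] at this
  omega

/-- (LB2) for tables. -/
theorem tab2 (E : Env G k) {c d : V → Fin k} (h : XExt G c d) {m : ℕ} {r : Fin m → V}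
    (hr : ∀ i j, c (r i) = c (r j) → i = j) {τ : Ix m → Fin m}
    (hk : KE G c (lft c r τ) ∧ Proper G (lft c r τ)) {x : Ix m}
    (hx : ∀ z, τ z = τ x → z = x) (Bad : List (Ix m))
    (hgood : ∀ y, y ∉ Bad → ∃ y', y' ≠ y ∧ ∀ z, τ z = τ y ↔ (z = y ∨ z = y'))
    (hbad : ∀ y ∈ Bad, par d (ev c r x) ≠ ev c r y) :
    mm (lft c r τ) d + 2 ≤ mm c d := by
  have hc := E.pr h
  have hd := E.pr h.symm
  have hs := lft_single (τ := τ) hc hr hx
  by_cases hw : ∃ y, ev c r y = par d (ev c r x)
  · obtain ⟨y, hy⟩ := hw
    obtain ⟨y', h1, h2⟩ := hgood y (fun hyB => hbad y hyB hy.symm)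
    apply LB2 E h hk.1 (KE.refl d) hk.2 hd hs (t' := ev c r y')
    · rw [← hy]
      exact fun e => h1 (ev_inj hc hr e)
    · intro w
      rw [← hy]
      exact lft_cl hc hr h2 w
  · push Not at hw
    apply LB2 E h hk.1 (KE.refl d) hk.2 hd hs (t' := par c (par d (ev c r x)))
    · exact hc.ne _
    · intro w
      rw [lft_eq_off hc hr hw, hc.cl]

/-! ### (P2), (U5), (P1) -/

theorem P2 (E : Env G k) {c d : V → Fin k} (h : XExt G c d) {w p : V}
    (hw : par c w ≠ par d w) (hp : par c p ≠ par d p) (h1 : HA G w p)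
    (h2 : HA G w (par c p)) : False := by
  have hc := E.pr h
  have hd := E.pr h.symm
  have hr := inj2 (c := c) (x0 := p) (x1 := w) (Ne.symm (cne hc h1.1 h2.1))
  have hk := reach hc hr [((1, false), (0, false)), ((1, false), (0, true))]
    (by simp [ev]; exact ⟨h1, h2⟩) [mk ![(0, 0), (0, 1)]] (by decide)
  have hcnt := cnt2 hc hd hr (mk ![(0, 0), (0, 1)]) ∅ ∅ id
    (by intro i _; fin_cases i <;> simpa) (by simp) (by simp)
  have hs := lft_single (τ := mk ![(0, 0), (0, 1)]) hc hr (x := (1, true)) (by decide)
  have := LB1 E h hk.1 (KE.refl d) hk.2 hd.prop (Or.inl ⟨_, hs⟩)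
  simp only [lastS, Finset.card_empty] at this hcnt
  omega

theorem U5a (E : Env G k) {c d : V → Fin k} (h : XExt G c d) {x : V}
    (hx : par c x ≠ par d x) : ¬ HA G (par c x) (par c (par d x)) := by
  intro h1
  have hc := E.pr h
  have hd := E.pr h.symm
  have hr := inj2 (c := c) (x0 := x) (x1 := par d x)
    (Ne.symm (cne hc (hd.ne x) (Ne.symm hx)))
  have hk := reach hc hr [((0, false), (1, false)), ((0, true), (1, true))]
    (by simp [ev]; exact ⟨hd.ha x, h1⟩) [mk ![(0, 1), (0, 1)]] (by decide)
  have hcnt := cnt2 hc hd hr (mk ![(0, 1), (0, 1)]) ∅ {(0, false), (1, false)}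
    (fun x => (x.1 + 1, x.2))
    (by
      intro i _
      fin_cases i
      · exact hx
      · exact od_par' hc hd hx)
    (by
      intro y hy
      simp only [Finset.mem_insert, Finset.mem_singleton] at hy
      rcases hy with rfl | rfl
      · simp [ev]
      · simp [ev]; exact hd.pp x)
    (by decide)
  have := h.le hk.1 (KE.refl d) hk.2 hd.prop
  have hcard : (({(0, false), (1, false)} : Finset (Ix 2))).card = 2 := by decide
  simp only [lastS, Finset.card_empty] at this hcnt
  rw [hcard] at hcnt
  omega

theorem U5b (E : Env G k) {c d : V → Fin k} (h : XExt G c d) {x : V}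
    (hx : par c x ≠ par d x) : ¬ HA G x (par c (par d x)) := fun h1 =>
  P2 E h hx (od_par' (E.pr h) (E.pr h.symm) hx) ((E.pr h.symm).ha x) h1

theorem U5c (E : Env G k) {c d : V → Fin k} (h : XExt G c d) {x : V}
    (hx : par c x ≠ par d x) : ¬ HA G (par c x) (par d x) := fun h1 =>
  P2 E h (od_par' (E.pr h) (E.pr h.symm) hx) hx ((E.pr h.symm).ha x).symm h1.symm

/-- Adding a vertex to a common class in both colourings. -/
theorem add_common {f g : V → Fin k} (pf : Proper G f) (pg : Proper G g) {r x : V}
    (hcx : cls f x = cls g x) (h2 : ¬ Single f x) (hr : cls f r ≠ cls g r ∨ Single f r)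
    (hcomp : ∀ y ∈ cls f x, HA G r y) :
    KE G f (Function.update f r (f x)) ∧ Proper G (Function.update f r (f x)) ∧
    KE G g (Function.update g r (g x)) ∧ Proper G (Function.update g r (g x)) ∧
    mm f g ≤ mm (Function.update f r (f x)) (Function.update g r (g x)) := by
  have hrx : r ≠ x := (hcomp x (self_mem_cls f x)).1
  obtain ⟨k1, k2⟩ := recolour pf r (f x) (fun y hy e => (hcomp y (mem_cls.2 e)).2 hy)
  obtain ⟨k3, k4⟩ := recolour pg r (g x) (fun y hy e => by
    have : y ∈ cls f x := by rw [hcx]; exact mem_cls.2 e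
    exact (hcomp y this).2 hy)
  refine ⟨k1, k2, k3, k4, ?_⟩
  have cnew : ∀ (F : V → Fin k), ∀ w,
      (Function.update F r (F x) w = F x ↔ w ∈ insert r (cls F x)) := by
    intro F w
    rw [Finset.mem_insert, mem_cls]
    by_cases hw : w = r
    · subst hw; simp
    · rw [Function.update_of_ne hw]
      simp [hw]
  have hrc : ∀ Z ∈ com f g, r ∉ Z := by
    intro Z hZ hrZ
    rcases hr with hr | hr
    · exact hr ((com_cls hZ hrZ).1.trans (com_cls hZ hrZ).2.symm)
    · have h3 := (mem_com.1 hZ).1
      rw [← (com_cls hZ hrZ).1, single_iff_cls.1 hr, Finset.card_singleton] at h3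
      omega
  have := mm_le (f := f) (g := g) (f' := Function.update f r (f x))
    (g' := Function.update g r (g x)) {cls f x} {insert r (cls f x)}
    (by
      intro Z hZ hZL
      have hZL' : Z ≠ cls f x := by simpa using hZL
      obtain ⟨h2, ⟨z0, hz0⟩, -⟩ := mem_com.1 hZ
      have hz0Z : z0 ∈ Z := by rw [← hz0]; exact self_mem_cls _ _
      obtain ⟨e1, e2⟩ := com_cls hZ hz0Z
      apply com_keep hZ
      · apply upd_class e1 (hrc Z hZ)
        intro e
        apply hZL'
        rw [← e1]
        exact cls_eq e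
      · apply upd_class e2 (hrc Z hZ)
        intro e
        apply hZL'
        rw [hcx, ← e2]
        exact cls_eq e)
    (by
      intro Z hZ
      rw [Finset.mem_singleton] at hZ
      subst hZ
      rw [mem_com]
      refine ⟨?_, ⟨x, ?_⟩, ⟨x, ?_⟩⟩
      · have h3 := not_single_card h2
        exact h3.trans (Finset.card_le_card (Finset.subset_insert _ _))
      · ext w
        rw [mem_cls, Function.update_of_ne (Ne.symm hrx), cnew f]
      · ext w
        rw [mem_cls, Function.update_of_ne (Ne.symm hrx), cnew g, hcx])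
    (by
      intro Z hZ hZ2
      rw [Finset.mem_singleton] at hZ
      subst hZ
      exact absurd (Finset.mem_insert_self r _) (hrc _ hZ2))
  simp at this
  exact this

theorem P1 (E : Env G k) {c d : V → Fin k} (h : XExt G c d) {w a : V}
    (hw : par c w ≠ par d w) (ha : par c a = par d a) (h1 : HA G w a)
    (h2 : HA G w (par c a)) : False := by
  have hc := E.pr h
  have hd := E.pr h.symm
  obtain ⟨k1, k2, k3, k4, k5⟩ := add_common hc.prop hd.prop (r := w) (x := a)
    ((hc.cls_iff hd a).2 ha) (hc.not_single a)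
    (Or.inl (fun e => hw ((hc.cls_iff hd w).1 e)))
    (by
      intro y hy
      rw [hc.cls_eq', Finset.mem_insert, Finset.mem_singleton] at hy
      rcases hy with rfl | rfl
      · exact h1
      · exact h2)
  have hs : Single (Function.update c w (c a)) (par c w) := by
    intro y hy
    rw [Function.update_of_ne (hc.ne w), hc.same] at hy
    by_cases hyw : y = w
    · subst hyw
      rw [Function.update_self] at hy
      exact absurd hy.symm (cne hc h1.1 h2.1)
    · rw [Function.update_of_ne hyw] at hy
      rcases (hc.cl w y).1 hy with e | e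
      · exact absurd e hyw
      · exact e
  have := LB1 E h k1 k3 k2 k4 (Or.inl ⟨_, hs⟩)
  omega

/-! ### (U3), (U4), (V1), (V3) -/

theorem U3 (E : Env G k) {c d : V → Fin k} (h : XExt G c d) {a x w : V}
    (ha : par c a = par d a) (hx : par c x ≠ par d x) (hw : par c w ≠ par d w)
    (h1 : HA G x a) (h2 : HA G (par c x) (par c a)) (h3 : HA G w x) (h4 : HA G w a) :
    False := by
  have hc := E.pr h
  have hd := E.pr h.symm
  have hwx : w ≠ par c x := by
    rintro rfl
    exact P1 E h hw ha h4 h2
  have hr := inj3 (c := c) (x0 := a) (x1 := x) (x2 := w) (cne_JC hc hd ha hx)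
    (cne_JC hc hd ha hw) (Ne.symm (cne hc h3.1 hwx))
  have hk := reach hc hr [((0, false), (1, false)), ((0, true), (1, true)),
      ((2, false), (1, false)), ((2, false), (0, false))]
    (by simp [ev]; exact ⟨h1.symm, h2.symm, h3, h4⟩)
    [mk ![(0, 1), (0, 1), (2, 2)], mk ![(0, 1), (0, 1), (0, 2)]] (by decide)
  have hcnt := cnt2 hc hd hr (mk ![(0, 1), (0, 1), (0, 2)]) {0} ∅ id
    (by
      intro i hi
      fin_cases i
      · simp at hi
      · exact hx
      · exact hw)
    (by simp) (by simp)
  have hk' : KE G c (lft c ![a, x, w] (mk ![(0, 1), (0, 1), (0, 2)])) ∧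
    Proper G (lft c ![a, x, w] (mk ![(0, 1), (0, 1), (0, 2)])) := hk
  have := tab2 E h hr hk' (x := (2, true)) (by decide)
    [(0, false), (1, false), (2, false), (2, true)] (by decide)
    (by
      intro y hy
      simp only [List.mem_cons, List.not_mem_nil, or_false] at hy
      rcases hy with rfl | rfl | rfl | rfl
      · simp [ev]
        intro e
        have := od_par' hc hd (od_par hc hd hw)
        rw [e] at this
        exact this ha
      · simp [ev]
        intro e
        -- x = d (c w): x complete to {w, c w}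
        apply P2 E h hx hw h3.symm
        rw [← e]
        exact (hd.ha _).symm
      · simp [ev]
        intro e
        have := congrArg (par d) e
        rw [hd.pp] at this
        exact hw this
      · simp [ev]
        exact hd.ne _)
  simp only [Finset.card_empty, Finset.card_singleton] at this hcnt
  omega

theorem V1 (E : Env G k) {c d : V → Fin k} (h : XExt G c d) {a p v : V}
    (ha : par c a = par d a) (hp : par c p ≠ par d p) (hv : par c v ≠ par d v)
    (h1 : HA G a p) (h2 : HA G a (par c p)) (h3 : HA G v (par c a)) :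
    par d (par c v) = p ∨ par d (par c v) = par c p := by
  by_contra hcon
  rw [not_or] at hcon
  have hc := E.pr h
  have hd := E.pr h.symm
  have hvp : v ≠ p := by
    rintro rfl
    exact P1 E h hv ha h1.symm h3
  have hvp' : v ≠ par c p := by
    rintro rfl
    exact P1 E h hv ha h2.symm h3
  have hr := inj3 (c := c) (x0 := a) (x1 := p) (x2 := v) (cne_JC hc hd ha hp)
    (cne_JC hc hd ha hv) (Ne.symm (cne hc hvp hvp'))
  have hk := reach hc hr [((0, false), (1, false)), ((0, false), (1, true)),
      ((2, false), (0, true))]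
    (by simp [ev]; exact ⟨h1, h2, h3⟩)
    [mk ![(1, 0), (1, 1), (2, 2)], mk ![(1, 0), (1, 1), (0, 2)]] (by decide)
  have hcnt := cnt2 hc hd hr (mk ![(1, 0), (1, 1), (0, 2)]) {0} ∅ id
    (by
      intro i hi
      fin_cases i
      · simp at hi
      · exact hp
      · exact hv)
    (by simp) (by simp)
  have hk' : KE G c (lft c ![a, p, v] (mk ![(1, 0), (1, 1), (0, 2)])) ∧
    Proper G (lft c ![a, p, v] (mk ![(1, 0), (1, 1), (0, 2)])) := hk
  have := tab2 E h hr hk' (x := (2, true)) (by decide)
    [(0, false), (1, false), (1, true), (2, true)] (by decide)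
    (by
      intro y hy
      simp only [List.mem_cons, List.not_mem_nil, or_false] at hy
      rcases hy with rfl | rfl | rfl | rfl
      · simp [ev]
        intro e
        have := od_par' hc hd (od_par hc hd hv)
        rw [e] at this
        exact this ha
      · simp [ev]
        exact hcon.1
      · simp [ev]
        exact hcon.2
      · simp [ev]
        exact hd.ne _)
  simp only [Finset.card_empty, Finset.card_singleton] at this hcnt
  omega

theorem V3 (E : Env G k) {c d : V → Fin k} (h : XExt G c d) {a p q : V}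
    (ha : par c a = par d a) (hp : par c p ≠ par d p) (hq : par c q ≠ par d q)
    (h1 : HA G a p) (h2 : HA G a (par c p)) (h3 : HA G (par c a) q)
    (h4 : HA G (par c a) (par c q)) : False := by
  have hc := E.pr h
  have hd := E.pr h.symm
  have e1 := V1 E h ha hp hq h1 h2 h3.symm
  have e2 := V1 E h ha hp (od_par hc hd hq) h1 h2 h4.symm
  rw [hc.pp] at e2
  have hne : par d (par c q) ≠ par d q := by
    intro e
    exact hc.ne q (hd.inj e)
  have e3 : par d (par c q) = par c (par d q) := by
    rcases e1 with e1 | e1 <;> rcases e2 with e2 | e2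
    · exact absurd (e1.trans e2.symm) hne
    · rw [e1, e2, hc.pp]
    · rw [e1, e2]
    · exact absurd (e1.trans e2.symm) hne
  apply U5a E h hq
  rw [← e3]
  exact hd.ha _

/-- (U4): the vertices of `C` are not all joined to both ends of a common pair. -/
theorem U4 (E : Env G k) {c d : V → Fin k} (h : XExt G c d) {a x1 : V}
    (ha : par c a = par d a) (hx1 : par c x1 ≠ par d x1)
    (hall : ∀ x, par c x ≠ par d x →
      (HA G x a ∧ HA G (par c x) (par c a)) ∨ (HA G x (par c a) ∧ HA G (par c x) a)) :
    False := by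
  have hc := E.pr h
  have hd := E.pr h.symm
  have hb : par c (par c a) = par d (par c a) := by
    rw [hc.pp, ha, hd.pp]
  have noab : ∀ x, par c x ≠ par d x → HA G x a → ¬ HA G x (par c a) :=
    fun x hx h1 h2 => P1 E h hx ha h1 h2
  have cA : ∀ x, par c x ≠ par d x → HA G x a → HA G (par c x) (par c a) := by
    intro x hx h1
    rcases hall x hx with h2 | h2
    · exact h2.2
    · exact absurd h2.1 (noab x hx h1)
  have cB : ∀ x, par c x ≠ par d x → HA G x (par c a) → HA G (par c x) a := by
    intro x hx h1
    rcases hall x hx with h2 | h2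
    · exact absurd h1 (noab x hx h2.1)
    · exact h2.2
  have dA : ∀ x, par c x ≠ par d x → HA G x a → HA G (par d x) (par c a) := by
    intro x hx h1
    rcases hall (par d x) (od_par' hc hd hx) with h2 | h2
    · exfalso
      exact U3 E h ha hx (od_par' hc hd hx) h1 (cA x hx h1) (hd.ha x).symm h2.1
    · exact h2.1
  -- start from a vertex joined to `a`
  obtain ⟨x1, hx1, hxa⟩ : ∃ x, par c x ≠ par d x ∧ HA G x a := by
    rcases hall x1 hx1 with h2 | h2
    · exact ⟨x1, hx1, h2.1⟩
    · exact ⟨par c x1, od_par hc hd hx1, h2.2⟩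
  set y2 := par d x1 with hy2
  have hy2C := od_par' hc hd hx1
  rw [← hy2] at hy2C
  have hy2b : HA G y2 (par c a) := dA x1 hx1 hxa
  set x2 := par c y2 with hx2
  have hx2C : par c x2 ≠ par d x2 := od_par hc hd hy2C
  have hx2a : HA G x2 a := cB y2 hy2C hy2b
  set y3 := par d x2 with hy3
  have hy3C : par c y3 ≠ par d y3 := od_par' hc hd hx2C
  have hy3b : HA G y3 (par c a) := dA x2 hx2C hx2a
  have hx3a : HA G (par c y3) a := cB y3 hy3C hy3b
  have hy1b : HA G (par c x1) (par c a) := cA x1 hx1 hxa
  have n12 : c x1 ≠ c y2 := by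
    apply Ne.symm
    apply cne hc
    · exact hd.ne x1
    · exact fun e => hx1 (e.symm)
  have n23 : c y2 ≠ c y3 := by
    apply cne hc
    · intro e
      -- y2 = y3 : x1 = x2
      have : x1 = x2 := hd.inj e
      apply hx1
      rw [this, hx2, hc.pp]
    · intro e
      -- y2 = par c y3, so y3 = par c y2 = x2
      have h5 := congrArg (par c) e
      rw [hc.pp, ← hx2] at h5
      exact hd.ne x2 h5.symm
  have n13 : c x1 ≠ c y3 := by
    apply cne hc
    · intro e
      exact noab x1 hx1 hxa (e ▸ hy3b)
    · intro e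
      -- x1 = par c y3 so par c x1 = y3
      have h5 : par c x1 = y3 := by rw [e, hc.pp]
      apply U5a E h hx1
      rw [h5, ← hy2, ← hx2]
      exact (hd.ha x2).symm
  have hr := inj4 (c := c) (x0 := a) (x1 := x1) (x2 := y2) (x3 := y3)
    (cne_JC hc hd ha hx1) (cne_JC hc hd ha hy2C) (cne_JC hc hd ha hy3C) n12 n13 n23
  have hk := reach hc hr [((0, false), (2, true)), ((0, false), (3, true)),
      ((0, true), (2, false)), ((0, true), (1, true)), ((1, false), (2, false)),
      ((2, true), (3, false))]
    (by
      simp [ev]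
      exact ⟨hx2a.symm, hx3a.symm, hy2b.symm, hy1b.symm, hd.ha x1, hd.ha x2⟩)
    [mk ![(0, 2), (1, 1), (2, 0), (3, 3)], mk ![(0, 1), (2, 1), (2, 0), (3, 3)],
     mk ![(0, 1), (2, 1), (2, 3), (3, 0)]] (by decide)
  have hcnt := cnt2 hc hd hr (mk ![(0, 1), (2, 1), (2, 3), (3, 0)]) {0}
    {(1, false), (2, false), (2, true), (3, false)}
    (fun x => if x = (1, false) then (2, false) else if x = (2, false) then (1, false)
      else if x = (2, true) then (3, false) else (2, true))
    (by
      intro i hi
      fin_cases i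
      · simp at hi
      · exact hx1
      · exact hy2C
      · exact hy3C)
    (by
      intro y hy
      simp only [Finset.mem_insert, Finset.mem_singleton] at hy
      rcases hy with rfl | rfl | rfl | rfl
      · simp [ev]; exact hy2.symm
      · simp [ev]; rw [hy2]; exact hd.pp x1
      · simp [ev]; rw [← hx2]
      · simp [ev]; rw [← hx2, hy3]; exact hd.pp x2)
    (by decide)
  have := h.le hk.1 (KE.refl d) hk.2 hd.prop
  have hcard : (({(1, false), (2, false), (2, true), (3, false)} : Finset (Ix 4))).card = 4 := by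
    decide
  simp only [lastS, Finset.card_singleton] at this hcnt
  rw [hcard] at hcnt
  omega

end Pool.Agent.Helper26.Kempe
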