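import Pool.Agent.Helper26.HalfJoin

set_option autoImplicit false
set_option linter.unusedSectionVars false

/-! The case of `2 k` vertices. -/

namespace Pool.Agent.Helper26.Kempe

open Relation

variable {V : Type} [Fintype V] [DecidableEq V] {k : ℕ} {G : SimpleGraph V}

theorem jp {c d : V → Fin k} (hc : PR G c) (hd : PR G d) {a : V}
    (ha : par c a = par d a) : par c (par c a) = par d (par c a) := by
  rw [hc.pp, ha, hd.pp]

theorem VS_C (E : Env G k) {c d : V → Fin k} (h : XExt G c d) {a v : V}
    (ha : par c a = par d a) (hv : v ∈ VS G c a) : par c v ≠ par d v ∧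
    ((HA G a v ∧ HA G a (par c v)) ∨ (HA G (par c a) v ∧ HA G (par c a) (par c v))) := by
  have hc := E.pr h
  have hd := E.pr h.symm
  obtain ⟨-, -, q⟩ := mem_VS.1 hv
  refine ⟨fun hvJ => ?_, q⟩
  rcases q with q | q
  · exact P3 E h ha hvJ q.1 q.2
  · exact P3 E h (jp hc hd ha) hvJ q.1 q.2

theorem noab (E : Env G k) {c d : V → Fin k} (h : XExt G c d) {a x : V}
    (ha : par c a = par d a) (h1 : HA G a x) : ¬ HA G (par c a) x := by
  intro h2
  by_cases hx : par c x = par d x
  · exact P3 E h hx ha h1.symm h2.symm
  · exact P1 E h hx ha h1.symm h2.symm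

/-- (α) -/
theorem alpha (E : Env G k) {c d : V → Fin k} (h : XExt G c d) {a x0 : V}
    (ha : par c a = par d a) (hx0 : par c x0 ≠ par d x0) :
    ∃ p, par c p ≠ par d p ∧ ((HA G a p ∧ HA G a (par c p)) ∨
      (HA G (par c a) p ∧ HA G (par c a) (par c p))) := by
  classical
  by_contra hcon
  push Not at hcon
  have hc := E.pr h
  have hd := E.pr h.symm
  have hb := jp hc hd ha
  have hVa : (VS G c a).card = 0 := by
    rw [Finset.card_eq_zero, Finset.eq_empty_iff_forall_notMem]
    intro v hv
    obtain ⟨q1, q2⟩ := VS_C E h ha hv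
    rcases q2 with q2 | q2
    · exact (hcon v q1).1 q2.1 q2.2
    · exact (hcon v q1).2 q2.1 q2.2
  have hVb : (VS G c (par c a)).card = 0 := by
    rw [Finset.card_eq_zero, Finset.eq_empty_iff_forall_notMem]
    intro v hv
    obtain ⟨q1, q2⟩ := VS_C E h hb hv
    rw [hc.pp] at q2
    rcases q2 with q2 | q2
    · exact (hcon v q1).2 q2.1 q2.2
    · exact (hcon v q1).1 q2.1 q2.2
  have hirr : ∀ x : V, ¬ HA G x x := fun x hx => hx.1 rfl
  have cA : ∀ v, par c v ≠ par d v → HA G a v → HA G (par c a) (par c v) := by
    intro v hv hav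
    by_contra hno
    have := ip E h ha {v} (by
        intro x hx; rw [Finset.mem_singleton] at hx; subst hx; exact ⟨hv, hav⟩)
      (by
        intro x hx y hy; rw [Finset.mem_singleton] at hx hy; subst hx; subst hy
        exact hirr _)
      (by intro x hx; rw [Finset.mem_singleton] at hx; subst hx; exact hno)
    rw [hVa, Finset.card_singleton] at this
    omega
  have cB : ∀ v, par c v ≠ par d v → HA G (par c a) v → HA G a (par c v) := by
    intro v hv hav
    by_contra hno
    have := ip E h hb {v} (by
        intro x hx; rw [Finset.mem_singleton] at hx; subst hx; exact ⟨hv, hav⟩)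
      (by
        intro x hx y hy; rw [Finset.mem_singleton] at hx hy; subst hx; subst hy
        exact hirr _)
      (by intro x hx; rw [Finset.mem_singleton] at hx; subst hx; rw [hc.pp]; exact hno)
    rw [hVb, Finset.card_singleton] at this
    omega
  have hW := ip E h ha ∅ (by simp) (by simp) (by simp)
  rw [hVa] at hW
  have hW0 : WS G c a = ∅ := by
    rw [← Finset.card_eq_zero]; omega
  apply U4 E h ha hx0
  intro v hv
  have hva : v ≠ a := by rintro rfl; exact hv ha
  have hvb : v ≠ par c a := by rintro rfl; exact hv hb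
  have hnW : v ∉ WS G c a := by rw [hW0]; simp
  rw [mem_WS] at hnW
  by_cases h1 : HA G a v
  · exact Or.inl ⟨h1.symm, (cA v hv h1).symm⟩
  by_cases h2 : HA G (par c a) v
  · exact Or.inr ⟨h2.symm, (cB v hv h2).symm⟩
  have hv' := od_par hc hd hv
  by_cases h3 : HA G a (par c v)
  · have := cA _ hv' h3
    rw [hc.pp] at this
    exact absurd this h2
  by_cases h4 : HA G (par c a) (par c v)
  · have := cB _ hv' h4
    rw [hc.pp] at this
    exact absurd this h1
  exact absurd ⟨hva, hvb, h1, h3, h2, h4⟩ hnW

/-- (β) -/
theorem beta (E : Env G k) {c d : V → Fin k} (h : XExt G c d) {a p : V}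
    (ha : par c a = par d a) (hp : par c p ≠ par d p) (h1 : HA G a p)
    (h2 : HA G a (par c p)) :
    ∃ p', par c p' ≠ par d p' ∧ p' ≠ p ∧ p' ≠ par c p ∧ HA G a p' ∧ HA G a (par c p') := by
  classical
  by_contra hcon
  push Not at hcon
  have hc := E.pr h
  have hd := E.pr h.symm
  have hb := jp hc hd ha
  set b := par c a with hbdef
  set q := par c p with hq
  have hpq : par c q = p := by rw [hq, hc.pp]
  have hqC : par c q ≠ par d q := od_par hc hd hp
  have hVa : (VS G c a).card ≤ 2 := by
    have : VS G c a ⊆ {p, q} := by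
      intro v hv
      obtain ⟨q1, q2⟩ := VS_C E h ha hv
      rw [Finset.mem_insert, Finset.mem_singleton]
      rcases q2 with q2 | q2
      · by_contra hno
        rw [not_or] at hno
        exact hcon v q1 hno.1 hno.2 q2.1 q2.2
      · exact absurd (V3 E h ha hp q1 h1 h2 q2.1 q2.2) id
    exact (Finset.card_le_card this).trans Finset.card_le_two
  have hirr : ∀ x : V, ¬ HA G x x := fun x hx => hx.1 rfl
  have hW0 : WS G c a = ∅ := by
    have := ip E h ha {p} (by
        intro x hx; rw [Finset.mem_singleton] at hx; subst hx; exact ⟨hp, h1⟩)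
      (by
        intro x hx y hy; rw [Finset.mem_singleton] at hx hy; subst hx; subst hy
        exact hirr _)
      (by intro x hx; rw [Finset.mem_singleton] at hx; subst hx; exact noab E h ha h2)
    rw [Finset.card_singleton] at this
    rw [← Finset.card_eq_zero]; omega
  have clA : ∀ v, par c v ≠ par d v → v ≠ p → v ≠ q → HA G a v → HA G b (par c v) := by
    intro v hv hvp hvq hav
    by_contra hno
    obtain ⟨p0, hp0, hp0C, hp0a, hp0n, hvp0⟩ : ∃ p0, v ≠ p0 ∧ par c p0 ≠ par d p0 ∧
        HA G a p0 ∧ ¬ HA G b (par c p0) ∧ ¬ HA G v p0 := by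
      by_cases h3 : HA G v p
      · refine ⟨q, hvq, hqC, h2, ?_, fun h4 => P2 E h hv hp h3 h4⟩
        rw [hpq]; exact noab E h ha h1
      · exact ⟨p, hvp, hp, h1, noab E h ha h2, h3⟩
    have := ip E h ha {v, p0} (by
        intro x hx
        rw [Finset.mem_insert, Finset.mem_singleton] at hx
        rcases hx with rfl | rfl
        · exact ⟨hv, hav⟩
        · exact ⟨hp0C, hp0a⟩)
      (by
        intro x hx y hy
        rw [Finset.mem_insert, Finset.mem_singleton] at hx hy
        rcases hx with rfl | rfl <;> rcases hy with rfl | rfl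
        · exact hirr _
        · exact hvp0
        · exact fun e => hvp0 e.symm
        · exact hirr _)
      (by
        intro x hx
        rw [Finset.mem_insert, Finset.mem_singleton] at hx
        rcases hx with rfl | rfl
        · exact hno
        · exact hp0n)
    rw [Finset.card_pair hp0] at this
    omega
  have clB : ∀ v, par c v ≠ par d v → v ≠ p → v ≠ q → HA G b v ∨ HA G b (par c v) := by
    intro v hv hvp hvq
    by_contra hno
    rw [not_or] at hno
    have hva : v ≠ a := by rintro rfl; exact hv ha
    have hvb : v ≠ b := by rintro rfl; exact hv hb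
    have hnW : v ∉ WS G c a := by rw [hW0]; simp
    rw [mem_WS] at hnW
    apply hnW
    refine ⟨hva, hvb, fun e => hno.2 (clA v hv hvp hvq e), fun e => ?_, hno.1, hno.2⟩
    have := clA (par c v) (od_par hc hd hv)
      (fun e2 => hvq (by rw [hq, ← e2, hc.pp])) (fun e2 => hvp (hc.inj e2)) e
    rw [hc.pp] at this
    exact hno.1 this
  have v1 : ∀ v, par c v ≠ par d v → HA G b v → par d (par c v) = p ∨ par d (par c v) = q :=
    fun v hv hbv => V1 E h ha hp hv h1 h2 hbv.symm
  set p' := par d p with hp'
  set q' := par d q with hq'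
  set r := par c p' with hr
  set s := par c q' with hs
  have hp'C : par c p' ≠ par d p' := od_par' hc hd hp
  have hq'C : par c q' ≠ par d q' := od_par' hc hd hqC
  have dp' : par d p' = p := by rw [hp', hd.pp]
  have dq' : par d q' = q := by rw [hq', hd.pp]
  have cr : par c r = p' := by rw [hr, hc.pp]
  have cs : par c s = q' := by rw [hs, hc.pp]
  have hp'p : p' ≠ p := hd.ne p
  have hp'q : p' ≠ q := fun e => hp e.symm
  have hq'q : q' ≠ q := hd.ne q
  have hq'p : q' ≠ p := by intro e; apply hqC; rw [hpq, e]
  have hrq' : r ≠ q' := by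
    intro e
    apply U5a E h hp
    rw [← hp', ← hr, e, ← hq]
    exact hd.ha q
  have hsp' : s ≠ p' := by
    intro e
    apply hrq'
    rw [hr, ← e, hs, hc.pp]
  have hpq' : p' ≠ q' := by
    intro e
    exact hc.ne p (hd.inj e).symm
  have hrC : par c r ≠ par d r := od_par hc hd hp'C
  have hsC : par c s ≠ par d s := od_par hc hd hq'C
  have hbr : HA G b r := by
    rcases clB p' hp'C hp'p hp'q with e | e
    · exfalso
      rcases v1 p' hp'C e with e2 | e2
      · -- par d r = p so r = p'
        have : r = p' := hd.inj (e2.trans dp'.symm)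
        exact hc.ne p' this
      · have : r = q' := hd.inj (e2.trans dq'.symm)
        exact hrq' this
    · exact e
  have hbs : HA G b s := by
    rcases clB q' hq'C hq'p hq'q with e | e
    · exfalso
      rcases v1 q' hq'C e with e2 | e2
      · have : s = p' := hd.inj (e2.trans dp'.symm)
        exact hsp' this
      · have : s = q' := hd.inj (e2.trans dq'.symm)
        exact hc.ne q' this
    · exact e
  have hrp : r ≠ p := by
    intro e
    apply hp'q
    rw [hq, ← e, cr]
  have hrq : r ≠ q := by
    intro e
    apply hp'p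
    exact hc.inj (e : par c p' = par c p)
  have hdr : par d r = s := by
    have htC : par c (par d r) ≠ par d (par d r) := od_par' hc hd hrC
    have htp : par d r ≠ p := by
      intro e
      exact hc.ne p' (hd.inj (e.trans dp'.symm))
    have htq : par d r ≠ q := by
      intro e
      exact hrq' (hd.inj (e.trans dq'.symm))
    rcases clB _ htC htp htq with e | e
    · rcases v1 _ htC e with e2 | e2
      · -- par c t = p'
        exfalso
        have e3 : par c (par d r) = p' := hd.inj (e2.trans dp'.symm)
        have e4 : par d r = r := by rw [← hc.pp (par d r), e3]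
        exact hd.ne r e4
      · have e3 : par c (par d r) = q' := hd.inj (e2.trans dq'.symm)
        rw [← hc.pp (par d r), e3]
    · exfalso
      have htC' := od_par hc hd htC
      rcases v1 _ htC' e with e2 | e2
      · rw [hc.pp, hd.pp] at e2
        exact hrp e2
      · rw [hc.pp, hd.pp] at e2
        exact hrq e2
  have hrs : HA G r s := by rw [← hdr]; exact hd.ha r
  have dr_s : par d s = r := by rw [← hdr, hd.pp]
  -- the local change
  have hinj := inj3 (c := c) (x0 := a) (x1 := p) (x2 := p') (cne_JC hc hd ha hp)
    (cne_JC hc hd ha hp'C) (Ne.symm (cne hc hp'p hp'q))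
  have hk := reach hc hinj [((0, false), (1, false)), ((0, false), (1, true)),
      ((0, true), (2, true)), ((1, false), (2, false))]
    (by simp [ev]; exact ⟨h1, h2, hbr, hd.ha p⟩)
    [mk ![(1, 0), (1, 1), (2, 2)], mk ![(1, 0), (1, 1), (2, 0)],
     mk ![(1, 0), (2, 1), (2, 0)]] (by decide)
  have hcnt := cnt2 hc hd hinj (mk ![(1, 0), (2, 1), (2, 0)]) {0}
    {(1, false), (2, false)} (fun x => if x = (1, false) then (2, false) else (1, false))
    (by
      intro i hi
      fin_cases i
      · simp at hi
      · exact hp
      · exact hp'C)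
    (by
      intro y hy
      simp only [Finset.mem_insert, Finset.mem_singleton] at hy
      rcases hy with rfl | rfl
      · simp [ev]; exact hp'.symm
      · simp [ev]; exact dp')
    (by decide)
  have hcard : (({(1, false), (2, false)} : Finset (Ix 3))).card = 2 := by decide
  simp only [lastS, Finset.card_singleton] at hk hcnt
  rw [hcard] at hcnt
  set f := lft c ![a, p, p'] (mk ![(1, 0), (2, 1), (2, 0)]) with hf
  have hX : XExt G f d := h.replace hk.1 (KE.refl d) hk.2 hd.prop (by omega)
  have pb : par f b = r := by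
    have := par_lft (τ := mk ![(1, 0), (2, 1), (2, 0)]) hc hinj (x := (0, true))
      (y := (2, true)) (by decide) (by decide)
    simp [ev] at this
    exact this
  have hsa : s ≠ a := by intro e; rw [e] at hsC; exact hsC ha
  have hsb : s ≠ b := by intro e; rw [e] at hsC; exact hsC hb
  have ps : par f s = q' := by
    rw [hf, par_lft_off hc hinj, cs]
    rintro ⟨i, bb⟩
    fin_cases i <;> cases bb
    · simp [ev]; exact Ne.symm hsa
    · simp [ev]; exact Ne.symm hsb
    · simp [ev]
      intro e
      -- p = s : par c p = q' = q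
      apply hq'q
      rw [hq, e, cs]
    · simp [ev]
      intro e
      exact hq'p (hc.inj (e.symm : par c q' = par c p))
    · simp [ev]; exact Ne.symm hsp'
    · simp [ev]
      intro e
      exact hpq' (hc.inj (e : par c p' = par c q'))
  have hra : r ≠ a := by intro e; rw [e] at hrC; exact hrC ha
  have db : par d b = a := by rw [← hb, hbdef, hc.pp]
  apply P2 E hX (w := s) (p := b)
  · rw [ps, dr_s]; exact Ne.symm hrq'
  · rw [pb, db]; exact hra
  · exact hbs.symm
  · rw [pb]; exact hrs.symm

/-- (γ) The partner of a V-joined vertex sees nothing in `C`. -/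
theorem gamma (E : Env G k) {c d : V → Fin k} (h : XExt G c d) {a p v : V}
    (ha : par c a = par d a) (hp : par c p ≠ par d p) (h1 : HA G a p)
    (h2 : HA G a (par c p)) (hv : par c v ≠ par d v) : ¬ HA G (par c a) v := by
  intro hbv
  have hc := E.pr h
  obtain ⟨p', hp', n1, n2, h3, h4⟩ := beta E h ha hp h1 h2
  have e1 := V1 E h ha hp hv h1 h2 hbv.symm
  have e2 := V1 E h ha hp' hv h3 h4 hbv.symm
  rcases e1 with e1 | e1 <;> rcases e2 with e2 | e2
  · exact n1 (e2.symm.trans e1)
  · apply n2
    rw [← e1, e2, hc.pp]
  · exact n2 (e2.symm.trans e1)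
  · exact n1 (hc.inj (e2.symm.trans e1))

end Pool.Agent.Helper26.Kempe
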