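import Pool.Agent.Helper26.HalfSingles

set_option autoImplicit false
set_option linter.unusedSectionVars false

/-! No extremal pair has a single vertex. -/

namespace Pool.Agent.Helper26.Kempe

open Relation GE

variable {V : Type} [Fintype V] [DecidableEq V] {k : ℕ} {G : SimpleGraph V}

theorem nn_card (v : V) : ∀ R : Finset V, v ∈ R → (∀ x, HA G v x → x ∈ R) →
    (nbrs G R v).card + (NN G v).card + 1 = R.card := by
  classical
  intro R hvR hsub
  have e1 : Disjoint (nbrs G R v) (NN G v) := by
    rw [Finset.disjoint_left]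
    intro x h1 h2
    rw [mem_nbrs] at h1
    rw [mem_NN] at h2
    exact h2.2 h1.2
  have e2 : v ∉ nbrs G R v ∪ NN G v := by
    rw [Finset.mem_union, mem_nbrs, mem_NN]
    simp
  have e3 : insert v (nbrs G R v ∪ NN G v) = R := by
    ext x
    rw [Finset.mem_insert, Finset.mem_union, mem_nbrs, mem_NN_iff]
    constructor
    · rintro (rfl | h | h)
      · exact hvR
      · exact h.1
      · exact hsub x h
    · intro hx
      by_cases h1 : x = v
      · exact Or.inl h1
      · by_cases h2 : G.Adj v x
        · exact Or.inr (Or.inl ⟨hx, h2⟩)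
        · exact Or.inr (Or.inr ⟨Ne.symm h1, h2⟩)
  have h := congrArg Finset.card e3
  rw [Finset.card_insert_of_notMem e2, Finset.card_union_of_disjoint e1] at h
  omega

theorem proper_of_kernel {f g : V → Fin k} (hf : Proper G f)
    (h : ∀ x y, f x = f y ↔ g x = g y) : Proper G g :=
  fun x y hxy e => hf x y hxy ((h x y).2 e)

/-- The exceptional case: the two colourings differ only on a part with small degrees. -/
theorem jerrum_case {c d : V → Fin k} (hc : XExt G c d) (D : Finset V) (M : V → V)
    (hMD : ∀ v ∈ D, M v ∈ D) (hcf : ∀ v ∈ D, ∀ w, c w = c v ↔ (w = v ∨ w = M v))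
    (hdf : ∀ v ∈ D, ∀ w, d w = d v ↔ (w = v ∨ w = M v))
    (hdeg : ∀ w, w ∉ D → 2 * (nbrs G (Finset.univ \ D) w).card + 4 + (D.card + (fixs D M).card)
      ≤ 2 * k) : False := by
  classical
  apply hc.2.2.1
  let R : Finset V := Finset.univ \ D
  have hR : ∀ w, w ∈ R ↔ w ∉ D := by intro w; simp [R]
  have himg : ∀ (F : V → Fin k), (∀ v ∈ D, ∀ w, F w = F v ↔ (w = v ∨ w = M v)) →
      (∀ a, ∃ v, F v = a) → D.card + (fixs D M).card + 2 * (R.image F).card = 2 * k := by
    intro F hF hsurj
    have h1 := count_pairs hMD hF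
    have h2 : Disjoint (D.image F) (R.image F) := by
      rw [Finset.disjoint_left]
      intro a ha hb
      rw [Finset.mem_image] at ha hb
      obtain ⟨x, hx, rfl⟩ := ha
      obtain ⟨y, hy, hyx⟩ := hb
      rcases (hF x hx y).1 hyx with e | e
      · exact (hR y).1 hy (e ▸ hx)
      · exact (hR y).1 hy (e ▸ hMD x hx)
    have h3 : D.image F ∪ R.image F = Finset.univ := by
      ext a
      simp only [Finset.mem_union, Finset.mem_image, Finset.mem_univ, iff_true]
      obtain ⟨v, hv⟩ := hsurj a
      by_cases hvD : v ∈ D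
      · exact Or.inl ⟨v, hvD, hv⟩
      · exact Or.inr ⟨v, (hR v).2 hvD, hv⟩
    have h4 := Finset.card_union_of_disjoint h2
    rw [h3, Finset.card_univ, Fintype.card_fin] at h4
    omega
  have hTc := himg c hcf hc.surj
  have hTd := himg d hdf hc.symm.surj
  have hTT : (R.image d).card = (R.image c).card := by omega
  let e := Finset.equivOfCardEq hTT
  let d1 : V → Fin k := fun w =>
    if h : w ∈ R then (e ⟨d w, Finset.mem_image_of_mem d h⟩).1 else c w
  have hd1R : ∀ w (h : w ∈ R), d1 w = (e ⟨d w, Finset.mem_image_of_mem d h⟩).1 := by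
    intro w h; simp only [d1]; rw [dif_pos h]
  have hd1D : ∀ w, w ∉ R → d1 w = c w := by
    intro w h; simp only [d1]; rw [dif_neg h]
  have hd1T : ∀ w ∈ R, d1 w ∈ R.image c := by
    intro w h; rw [hd1R w h]; exact (e _).2
  have hcT : ∀ w, w ∉ R → c w ∉ R.image c := by
    intro w hw hmem
    have hwD : w ∈ D := by
      by_contra hh; exact hw ((hR w).2 hh)
    rw [Finset.mem_image] at hmem
    obtain ⟨y, hy, hyw⟩ := hmem
    rcases (hcf w hwD y).1 hyw with e1 | e1
    · exact (hR y).1 hy (e1 ▸ hwD)
    · exact (hR y).1 hy (e1 ▸ hMD w hwD)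
  have hcross : ∀ x y, x ∉ R → y ∈ R → d x ≠ d y := by
    intro x y hx hy e1
    have hxD : x ∈ D := by
      by_contra hh; exact hx ((hR x).2 hh)
    rcases (hdf x hxD y).1 e1.symm with e2 | e2
    · exact (hR y).1 hy (e2 ▸ hxD)
    · exact (hR y).1 hy (e2 ▸ hMD x hxD)
  have hker : ∀ x y, d x = d y ↔ d1 x = d1 y := by
    intro x y
    by_cases hx : x ∈ R
    · by_cases hy : y ∈ R
      · rw [hd1R x hx, hd1R y hy]
        constructor
        · intro e1
          congr 2
          exact Subtype.ext e1
        · intro e1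
          have := e.injective (Subtype.ext e1)
          exact congrArg Subtype.val this
      · constructor
        · intro e1; exact absurd e1.symm (hcross y x hy hx)
        · intro e1
          exfalso
          apply hcT y hy
          rw [← hd1D y hy, ← e1]
          exact hd1T x hx
    · by_cases hy : y ∈ R
      · constructor
        · intro e1; exact absurd e1 (hcross x y hx hy)
        · intro e1
          exfalso
          apply hcT x hx
          rw [← hd1D x hx, e1]
          exact hd1T y hy
      · rw [hd1D x hx, hd1D y hy]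
        have hyD : y ∈ D := by
          by_contra hh; exact hy ((hR y).2 hh)
        rw [hdf y hyD x, hcf y hyD x]
  have hp1 : Proper G d1 := proper_of_kernel hc.2.1 hker
  have k1 : KE G c d1 := by
    apply jerrum (R := R) (T := R.image c) hc.1 hp1
    · intro w hw; rw [hd1D w hw]
    · intro w hw; rw [hd1D w hw]; exact hcT w hw
    · intro w hw; exact Finset.mem_image_of_mem c hw
    · exact hd1T
    · intro w hw
      have := hdeg w ((hR w).1 hw)
      change 2 * (nbrs G R w).card + 4 + _ ≤ _ at this
      omega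
  exact KE.trans k1 (same_kernel d d1 hker).symm

theorem no_single (hn : Fintype.card V = 2 * k)
    (hstar : ∀ Q : Finset V, G.IsClique (Q : Set V) → ∀ v : V, Q.card + k ≤ 2 * (NN G v).card)
    {c d : V → Fin k} (h : XExt G c d) (v0 : V) : ¬ Single c v0 := by
  classical
  intro hv0
  set W := small c d with hW
  set s := (fixs W (par c)).card with hs
  have hbase := base_state h
  have hv0W : v0 ∈ fixs W (par c) := by
    rw [mem_fixs]
    refine ⟨?_, par_of_single hv0⟩
    rw [hW, mem_small, single_iff_cls.1 hv0, single_iff_cls.1 (h.single hv0)]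
    simp
  have hs1 : 1 ≤ s := Finset.card_pos.2 ⟨v0, hv0W⟩
  have hmin : MinFix (HA G) W s := by
    intro N hN
    obtain ⟨f', g', M', -, a2, a3⟩ := St.follow hN _ c d (par c) hbase rfl
    have := Finset.card_le_card a2
    rw [a3] at this
    exact this
  set D := DD (HA G) W s with hD
  set a := (AA (HA G) W s).card with ha
  have hreach : ∀ e ∈ D, ∃ (f g : V → Fin k) (M : V → V), St G c d f g M ∧
      e ∈ fixs W M ∧ (fixs W M).card = s := by
    intro e he
    obtain ⟨heW, N, hN, hNs, hNe⟩ := mem_DD.1 he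
    obtain ⟨f', g', M', a1, a2, a3⟩ := St.follow hN _ c d (par c) hbase rfl
    refine ⟨f', g', M', a1, ?_, a3⟩
    have heq := Finset.eq_of_subset_of_card_le a2 (by rw [a3, hNs])
    rw [heq]
    exact mem_fixs.2 ⟨heW, hNe⟩
  have hDnbr : ∀ e ∈ D, ∀ x, HA G e x → x ∈ D ∨ x ∈ AA (HA G) W s := by
    intro e he x hx
    obtain ⟨f, g, M, hst, heM, -⟩ := hreach e he
    exact nn_sub he (fun y hy => (hst.nbr heM hy).1) hx
  -- a vertex with different classes
  obtain ⟨p, hp⟩ : ∃ p, cls c p ≠ cls d p := by
    by_contra hcon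
    push Not at hcon
    apply h.2.2.1
    apply same_kernel
    intro x y
    rw [← mem_cls, ← mem_cls, hcon y]
  have hpW : p ∉ W := by
    rw [hW, mem_small]
    exact fun hh => hp hh.1
  have hpD : p ∉ D := fun hh => hpW (mem_DD.1 hh).1
  have hpadj : ∀ x ∈ D, ¬ HA G x p := by
    intro x hx hxp
    obtain ⟨f, g, M, hst, hxM, -⟩ := hreach x hx
    exact hpW (hst.nbr hxM hxp).1
  -- vertex with the fewest non-neighbours
  obtain ⟨vm, -, hvm⟩ := Finset.exists_min_image Finset.univ (fun v => (NN G v).card)
    ⟨v0, Finset.mem_univ v0⟩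
  set hh := (NN G vm).card with hhh
  have hmn : ∀ v, hh ≤ (NN G v).card := fun v => hvm v (Finset.mem_univ v)
  have hQh : ∀ Q : Finset V, G.IsClique (Q : Set V) → Q.card + k ≤ 2 * hh :=
    fun Q hQ => hstar Q hQ vm
  -- sizes
  have hAW : AA (HA G) W s ⊆ W := fun x hx => (mem_AA.1 hx).1.1
  have hDA : Disjoint D (AA (HA G) W s) := by
    rw [Finset.disjoint_left]
    intro x hx hx2
    exact (mem_AA.1 hx2).1.2 hx
  let R : Finset V := Finset.univ \ (D ∪ AA (HA G) W s)
  have hRcard : D.card + a + R.card = 2 * k := by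
    have e1 : (D ∪ AA (HA G) W s).card = D.card + a := Finset.card_union_of_disjoint hDA
    have e2 : R.card + (D ∪ AA (HA G) W s).card = (Finset.univ : Finset V).card :=
      Finset.card_sdiff_add_card_eq_card (Finset.subset_univ _)
    rw [Finset.card_univ, hn] at e2
    omega
  have hR1 : hh + 1 ≤ R.card + a := by
    have hsub : insert p (NN G p) ⊆ R ∪ AA (HA G) W s := by
      intro x hx
      rw [Finset.mem_insert] at hx
      have hxD : x ∉ D := by
        rcases hx with rfl | hx
        · exact hpD
        · intro hxD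
          exact hpadj x hxD (mem_NN_iff.1 hx).symm
      rw [Finset.mem_union]
      by_cases hxA : x ∈ AA (HA G) W s
      · exact Or.inr hxA
      · left
        simp only [R, Finset.mem_sdiff, Finset.mem_univ, true_and, Finset.mem_union, not_or]
        exact ⟨hxD, hxA⟩
    have e1 := Finset.card_le_card hsub
    rw [Finset.card_insert_of_notMem (by rw [mem_NN]; simp)] at e1
    have e2 : (R ∪ AA (HA G) W s).card ≤ R.card + a := Finset.card_union_le _ _
    have e3 := hmn p
    omega
  have hK : ∀ e ∈ D, 1 + 2 * (hh - a) ≤ (comp (HA G) D e).card := by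
    intro e he
    obtain ⟨f, g, M, hst, heM, hMs⟩ := hreach e he
    have h1 := comp_card hmin hst.inv hMs heM
      (fun x hx _ => ⟨(hst.nbr heM hx).2.1, (hst.nbr heM hx).2.2⟩)
    have h2 : (NN G e).card ≤ (NN G e ∩ D).card + a := by
      have hsub : NN G e ⊆ (NN G e ∩ D) ∪ AA (HA G) W s := by
        intro x hx
        rw [Finset.mem_union, Finset.mem_inter]
        rcases hDnbr e he x (mem_NN_iff.1 hx) with h3 | h3
        · exact Or.inl ⟨hx, h3⟩
        · exact Or.inr h3
      exact (Finset.card_le_card hsub).trans (Finset.card_union_le _ _)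
    have h3 := hmn e
    change 1 + 2 * (NN G e ∩ D).card ≤ (comp (HA G) D e).card at h1
    omega
  have hDcard : (s + a) * (1 + 2 * (hh - a)) ≤ D.card :=
    comps_card hmin hbase.inv rfl
      (fun e he => hK e (extr_sub hmin hbase.inv rfl he))
  by_cases hha : a + 1 ≤ hh
  · -- a hole with a neighbour in D
    have hv0D : v0 ∈ D := mem_DD.2 ⟨(mem_fixs.1 hv0W).1, par c, hbase.inv, rfl, (mem_fixs.1 hv0W).2⟩
    have hex : ∃ x, HA G v0 x ∧ x ∈ D := by
      by_contra hcon
      push Not at hcon
      have hsub : NN G v0 ⊆ AA (HA G) W s := by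
        intro x hx
        rcases hDnbr v0 hv0D x (mem_NN_iff.1 hx) with h3 | h3
        · exact absurd h3 (hcon x (mem_NN_iff.1 hx))
        · exact h3
      have := Finset.card_le_card hsub
      have := hmn v0
      omega
    obtain ⟨x, hx, hxD⟩ := hex
    obtain ⟨b1, b2, b3⟩ := hbase.nbr hv0W hx
    obtain ⟨Q, hQ, hQc⟩ := extr_clique2 hmin hbase.inv rfl hpadj hpD hv0W hx hxD b2 b3
    have hQ2 := hQh Q hQ
    rw [hQc] at hQ2
    obtain ⟨hs2, ha2⟩ := arith1 hs1 hha hDcard hR1 hRcard hQ2
    -- exceptional case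
    have hA0 : AA (HA G) W s = ∅ := Finset.card_eq_zero.1 ha2
    have hDnbr' : ∀ e ∈ D, ∀ x, HA G e x → x ∈ D := by
      intro e he x hx
      rcases hDnbr e he x hx with h3 | h3
      · exact h3
      · rw [hA0] at h3; simp at h3
    have hMD : ∀ v ∈ D, par c v ∈ D := by
      intro v hv
      by_cases hvv : par c v = v
      · rw [hvv]; exact hv
      · exact hDnbr' v hv _ ((hbase.inv v (mem_DD.1 hv).1).2.2 hvv)
    have hfD : (fixs D (par c)).card = 1 := by
      have : fixs D (par c) = fixs W (par c) := by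
        ext x
        rw [mem_fixs, mem_fixs]
        constructor
        · rintro ⟨h1, h2⟩; exact ⟨(mem_DD.1 h1).1, h2⟩
        · rintro ⟨h1, h2⟩; exact ⟨mem_DD.2 ⟨h1, par c, hbase.inv, rfl, h2⟩, h2⟩
      rw [this]; exact hs2
    apply jerrum_case h D (par c) hMD
      (fun v hv w => hbase.cf v (mem_DD.1 hv).1 w) (fun v hv w => hbase.cg v (mem_DD.1 hv).1 w)
    intro w hw
    have hwR : w ∈ Finset.univ \ D := by simp [hw]
    have e1 := nn_card (G := G) w (Finset.univ \ D) hwR (by
      intro x hx
      simp only [Finset.mem_sdiff, Finset.mem_univ, true_and]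
      intro hxD
      exact hw (hDnbr' x hxD w hx.symm))
    have e2 : (Finset.univ \ D).card + D.card = (Finset.univ : Finset V).card :=
      Finset.card_sdiff_add_card_eq_card (Finset.subset_univ _)
    rw [Finset.card_univ, hn] at e2
    have e3 := hmn w
    have e4 : 1 + 2 * hh ≤ D.card := by
      have := hDcard
      rw [ha2, hs2] at this
      simpa using this
    rw [hfD]
    omega
  · obtain ⟨Q, hQ, hQc⟩ := extr_clique hmin hbase.inv rfl hpadj hpD
    have hQ2 := hQh Q hQ
    rw [hQc] at hQ2
    have h1 : (s + a) * 1 ≤ D.card :=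
      le_trans (Nat.mul_le_mul_left _ (by omega)) hDcard
    omega

end Pool.Agent.Helper26.Kempe
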