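import Pool.Agent.Helper26.HalfLocal

set_option autoImplicit false
set_option linter.unusedSectionVars false

/-! Open states: a common class with three vertices and one hole. -/

namespace Pool.Agent.Helper26.Kempe

open Relation GE

variable {V : Type} [Fintype V] [DecidableEq V] {k : ℕ} {G : SimpleGraph V}

theorem take_mm {f g : V → Fin k} {r x : V} (hr : Single f r) (hgr : Single g r)
    (hrx : HA G r x) (hx : cls f x = cls g x) :
    mm f g ≤ mm (Function.update f x (f r)) (Function.update g x (g r)) := by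
  have := mm_le (f := f) (g := g) (f' := Function.update f x (f r))
    (g' := Function.update g x (g r)) {cls f x} {({r, x} : Finset V)}
    (by
      intro Z hZ hZL
      have hne : Z ≠ cls f x := by simpa using hZL
      obtain ⟨h2, ⟨z0, hz0⟩, -⟩ := mem_com.1 hZ
      have hz0Z : z0 ∈ Z := by rw [← hz0]; exact self_mem_cls _ _
      obtain ⟨e1, e2⟩ := com_cls hZ hz0Z
      apply com_keep hZ
      · exact keep_class hr h2 hz0Z e1 hne
      · exact keep_class hgr h2 hz0Z e2 (hx ▸ hne))
    (by
      intro Z hZ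
      rw [Finset.mem_singleton] at hZ
      subst hZ
      rw [mem_com]
      refine ⟨by rw [Finset.card_pair hrx.1], ⟨r, ?_⟩, ⟨r, ?_⟩⟩
      · ext w
        rw [mem_cls, Function.update_of_ne hrx.1, pair_class hr hrx.1]
        simp
      · ext w
        rw [mem_cls, Function.update_of_ne hrx.1, pair_class hgr hrx.1]
        simp)
    (by
      intro Z hZ hZ2
      rw [Finset.mem_singleton] at hZ
      rw [hZ] at hZ2
      exact absurd hZ2 (pair_notin_com hr))
  simp at this
  exact this

theorem take_mm_C {f g : V → Fin k} {r x : V} (hr : Single f r) (hgr : Single g r)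
    (hrx : HA G r x) (hx : cls f x ≠ cls g x) :
    mm f g + 1 ≤ mm (Function.update f x (f r)) (Function.update g x (g r)) := by
  have := mm_le (f := f) (g := g) (f' := Function.update f x (f r))
    (g' := Function.update g x (g r)) ∅ {({r, x} : Finset V)}
    (by
      intro Z hZ _
      have hxZ : x ∉ Z := fun e => hx ((com_cls hZ e).1.trans (com_cls hZ e).2.symm)
      obtain ⟨h2, ⟨z0, hz0⟩, -⟩ := mem_com.1 hZ
      have hz0Z : z0 ∈ Z := by rw [← hz0]; exact self_mem_cls _ _
      obtain ⟨e1, e2⟩ := com_cls hZ hz0Z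
      apply com_keep hZ
      · exact keep_class hr h2 hz0Z e1 (fun e => hxZ (e ▸ self_mem_cls f x))
      · exact keep_class hgr h2 hz0Z e2 (fun e => hxZ (e ▸ self_mem_cls g x)))
    (by
      intro Z hZ
      rw [Finset.mem_singleton] at hZ
      subst hZ
      rw [mem_com]
      refine ⟨by rw [Finset.card_pair hrx.1], ⟨r, ?_⟩, ⟨r, ?_⟩⟩
      · ext w
        rw [mem_cls, Function.update_of_ne hrx.1, pair_class hr hrx.1]
        simp
      · ext w
        rw [mem_cls, Function.update_of_ne hrx.1, pair_class hgr hrx.1]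
        simp)
    (by
      intro Z hZ hZ2
      rw [Finset.mem_singleton] at hZ
      rw [hZ] at hZ2
      exact absurd hZ2 (pair_notin_com hr))
  simp at this
  exact this

/-- Open states. -/
structure OS (G : SimpleGraph V) (c d f g : V → Fin k) (B V1 : Finset V) (M : V → V) :
    Prop where
  kf : KE G c f
  kg : KE G d g
  pf : Proper G f
  pg : Proper G g
  lvl : mm c d ≤ mm f g + 1
  offf : ∀ w, par c w ≠ par d w → ∀ u, f u = f w ↔ (u = w ∨ u = par c w)
  offg : ∀ w, par c w ≠ par d w → ∀ u, g u = g w ↔ (u = w ∨ u = par d w)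
  bf : ∀ w ∈ B, ∀ u, f u = f w ↔ u ∈ B
  bg : ∀ w ∈ B, ∀ u, g u = g w ↔ u ∈ B
  inv : Mt (HA G) V1 M
  cf : ∀ v ∈ V1, ∀ w, f w = f v ↔ (w = v ∨ w = M v)
  cg : ∀ v ∈ V1, ∀ w, g w = g v ↔ (w = v ∨ w = M v)

theorem OS.sf {c d f g : V → Fin k} {B V1 : Finset V} {M : V → V}
    (h : OS G c d f g B V1 M) {r : V} (hr : r ∈ fixs V1 M) : Single f r := by
  obtain ⟨hrW, hMr⟩ := mem_fixs.1 hr
  intro w hw
  rcases (h.cf r hrW w).1 hw with e | e
  · exact e
  · rw [e, hMr]

theorem OS.sg {c d f g : V → Fin k} {B V1 : Finset V} {M : V → V}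
    (h : OS G c d f g B V1 M) {r : V} (hr : r ∈ fixs V1 M) : Single g r := by
  obtain ⟨hrW, hMr⟩ := mem_fixs.1 hr
  intro w hw
  rcases (h.cg r hrW w).1 hw with e | e
  · exact e
  · rw [e, hMr]

/-- The hole is not complete to a common class. -/
theorem OS.nocomp (E : Env G k) {c d f g : V → Fin k} {B V1 : Finset V} {M : V → V}
    (hx : XExt G c d) (h : OS G c d f g B V1 M) {r z y : V} (hr : r ∈ fixs V1 M)
    (hy : par c y ≠ par d y) (hcx : cls f z = cls g z) (h2 : ¬ Single f z)
    (hcomp : ∀ u ∈ cls f z, HA G r u) : False := by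
  have hc := E.pr hx
  have hd := E.pr hx.symm
  have hrf := h.sf hr
  have hrg := h.sg hr
  obtain ⟨k1, k2, k3, k4, k5⟩ := add_common h.pf h.pg (r := r) (x := z) hcx h2
    (Or.inr hrf) hcomp
  have hrz : r ≠ z := (hcomp z (self_mem_cls f z)).1
  set f1 := Function.update f r (f z) with hf1
  set g1 := Function.update g r (g z) with hg1
  have hun : ∀ v, f1 v ≠ f r := by
    intro v e
    by_cases hv : v = r
    · subst hv
      rw [hf1, Function.update_self] at e
      exact hrz (hrf z e).symm
    · rw [hf1, Function.update_of_ne hv] at e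
      exact hv (hrf v e)
  -- classes of y
  have hfy : ∀ u, f u = f y ↔ (u = y ∨ u = par c y) := h.offf y hy
  have hgy : ∀ u, g u = g y ↔ (u = y ∨ u = par d y) := h.offg y hy
  have hcyf : cls f y ≠ cls g y := by
    intro e
    have : par c y ∈ cls g y := by rw [← e, mem_cls, hfy]; exact Or.inr rfl
    rw [mem_cls, hgy] at this
    rcases this with e | e
    · exact hc.ne y e
    · exact hy e
  have hry : r ≠ y := by
    rintro rfl
    exact hc.ne r (hrf _ ((hfy _).2 (Or.inr rfl)))
  have hry' : r ≠ par c y := by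
    intro e
    have h6 : f y = f (par c y) := ((hfy _).2 (Or.inr rfl)).symm
    rw [← e] at h6
    exact hry (hrf y h6).symm
  have hzy : f z ≠ f y := by
    intro e
    have e1 : cls f z = cls f y := cls_eq e
    have : y ∈ cls g z := by rw [← hcx, mem_cls]; exact e.symm
    have e2 : cls g y = cls g z := cls_eq (mem_cls.1 this)
    exact hcyf (e1.symm.trans (hcx.trans e2.symm))
  have hzyg : g z ≠ g y := by
    intro e
    have e1 : cls g z = cls g y := cls_eq e
    have : y ∈ cls f z := by rw [hcx, mem_cls]; exact e.symm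
    have e2 : cls f y = cls f z := cls_eq (mem_cls.1 this)
    exact hcyf (e2.trans (hcx.trans e1))
  have hryd : r ≠ par d y := by
    intro e
    have h6 : g y = g (par d y) := ((hgy _).2 (Or.inr rfl)).symm
    rw [← e] at h6
    exact hry (hrg y h6).symm
  have hf1y : ∀ u, f1 u = f1 y ↔ (u = y ∨ u = par c y) := by
    intro u
    rw [hf1, Function.update_of_ne (Ne.symm hry)]
    by_cases hu : u = r
    · subst hu
      rw [Function.update_self]
      constructor
      · intro e; exact absurd e hzy
      · rintro (e | e)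
        · exact absurd e hry
        · exact absurd e hry'
    · rw [Function.update_of_ne hu, hfy]
  have hg1y : ∀ u, g1 u = g1 y ↔ (u = y ∨ u = par d y) := by
    intro u
    rw [hg1, Function.update_of_ne (Ne.symm hry)]
    by_cases hu : u = r
    · subst hu
      rw [Function.update_self]
      constructor
      · intro e; exact absurd e hzyg
      · rintro (e | e)
        · exact absurd e hry
        · exact absurd e hryd
    · rw [Function.update_of_ne hu, hgy]
  have hbd : ∀ w, f1 w = f r → w ∈ cls g1 y := fun w hw => absurd hw (hun w)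
  obtain ⟨k6, k7⟩ := moveSet k2 (cls g1 y) (f r) (cls_indep k4 y) hbd
  have hm := moveSet_mm (f := f1) (g := g1) (y := y) (b := f r) hbd
    (by
      intro hs
      exact hd.ne y (hs _ ((hg1y _).2 (Or.inr rfl))))
    (by
      intro e
      have : par c y ∈ cls g1 y := by rw [← e, mem_cls, hf1y]; exact Or.inr rfl
      rw [mem_cls, hg1y] at this
      rcases this with e | e
      · exact hc.ne y e
      · exact hy e)
  have hyn : par c y ∉ cls g1 y := by
    rw [mem_cls, hg1y]
    rintro (e | e)
    · exact hc.ne y e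
    · exact hy e
  have hs : Single (fun w => if w ∈ cls g1 y then f r else f1 w) (par c y) := by
    intro w hw
    simp only [hyn, if_false] at hw
    by_cases hwy : w ∈ cls g1 y
    · simp only [hwy, if_true] at hw
      exact absurd hw.symm (hun _)
    · simp only [hwy, if_false] at hw
      have e1 : f1 (par c y) = f1 y := (hf1y _).2 (Or.inr rfl)
      rw [e1] at hw
      rcases (hf1y w).1 hw with e | e
      · exact absurd (e ▸ self_mem_cls g1 y) hwy
      · exact e
  have := LB1 E hx (KE.trans h.kf (KE.trans k1 k6)) (KE.trans h.kg k3) k7 k4 (Or.inl ⟨_, hs⟩)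
  have h8 := h.lvl
  omega

theorem OS.clsB {c d f g : V → Fin k} {B V1 : Finset V} {M : V → V}
    (h : OS G c d f g B V1 M) {x : V} (hx : x ∈ B) : cls f x = B ∧ cls g x = B := by
  constructor
  · ext w; rw [mem_cls, h.bf x hx]
  · ext w; rw [mem_cls, h.bg x hx]

theorem OS.cls1 {c d f g : V → Fin k} {B V1 : Finset V} {M : V → V}
    (h : OS G c d f g B V1 M) {x : V} (hx : x ∈ V1) : cls f x = cls g x := by
  ext w
  rw [mem_cls, mem_cls, h.cf x hx w, h.cg x hx w]

theorem OS.noC (E : Env G k) {c d f g : V → Fin k} {B V1 : Finset V} {M : V → V}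
    (hx : XExt G c d) (h : OS G c d f g B V1 M) {r z : V} (hr : r ∈ fixs V1 M)
    (hz : par c z ≠ par d z) : ¬ HA G r z := by
  intro hrz
  have hc := E.pr hx
  have hd := E.pr hx.symm
  have hrf := h.sf hr
  have hrg := h.sg hr
  have hne : cls f z ≠ cls g z := by
    intro e
    have : par c z ∈ cls g z := by rw [← e, mem_cls, h.offf z hz]; exact Or.inr rfl
    rw [mem_cls, h.offg z hz] at this
    rcases this with e | e
    · exact hc.ne z e
    · exact hz e
  have h1 := take_mm_C hrf hrg hrz hne
  obtain ⟨k1, k2⟩ := join h.pf hrf hrz.2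
  obtain ⟨k3, k4⟩ := join h.pg hrg hrz.2
  have hs : Single (Function.update f z (f r)) (par c z) := by
    intro w hw
    rw [Function.update_of_ne (hc.ne z)] at hw
    have e1 : f (par c z) = f z := (h.offf z hz _).2 (Or.inr rfl)
    rw [e1] at hw
    by_cases hwz : w = z
    · subst hwz
      rw [Function.update_self] at hw
      exact absurd (hrf w hw.symm).symm hrz.1
    · rw [Function.update_of_ne hwz] at hw
      rcases (h.offf z hz w).1 hw with e | e
      · exact absurd e hwz
      · exact e
  have := LB1 E hx (KE.trans h.kf k1) (KE.trans h.kg k3) k2 k4 (Or.inl ⟨_, hs⟩)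
  have h8 := h.lvl
  omega

theorem OS.nbr (E : Env G k) {c d f g : V → Fin k} {B V1 : Finset V} {M : V → V}
    (hx : XExt G c d) (h : OS G c d f g B V1 M) {r z y : V} (hr : r ∈ fixs V1 M)
    (hcard : (fixs V1 M).card = 1) (hy : par c y ≠ par d y) (hz : z ∈ V1)
    (hrz : HA G r z) : M z ≠ z ∧ ¬ HA G r (M z) := by
  have hzz : M z ≠ z := by
    intro e
    have h1 : z ∈ fixs V1 M := mem_fixs.2 ⟨hz, e⟩
    rw [Finset.card_eq_one] at hcard
    obtain ⟨t, ht⟩ := hcard
    rw [ht, Finset.mem_singleton] at h1 hr
    exact hrz.1 (hr.trans h1.symm)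
  refine ⟨hzz, fun hrm => ?_⟩
  apply h.nocomp E hx hr hy (h.cls1 hz)
  · intro hs
    exact hzz (hs _ ((h.cf z hz _).2 (Or.inr rfl)))
  · intro u hu
    rw [mem_cls, h.cf z hz] at hu
    rcases hu with rfl | rfl
    · exact hrz
    · exact hrm

theorem OS.nbrB (E : Env G k) {c d f g : V → Fin k} {B V1 : Finset V} {M : V → V}
    (hx : XExt G c d) (h : OS G c d f g B V1 M) {r y : V} (hr : r ∈ fixs V1 M)
    (hy : par c y ≠ par d y) (hB : 2 ≤ B.card) : ¬ ∀ u ∈ B, HA G r u := by
  intro hcomp
  have hne : B.Nonempty := by rw [← Finset.card_pos]; omega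
  obtain ⟨z, hz⟩ := hne
  obtain ⟨e1, e2⟩ := h.clsB hz
  apply h.nocomp E hx hr hy (z := z) (e1.trans e2.symm)
  · intro hs
    rw [single_iff_cls.1 hs] at e1
    rw [← e1, Finset.card_singleton] at hB
    omega
  · intro u hu
    rw [e1] at hu
    exact hcomp u hu

theorem OS.move (E : Env G k) {c d f g : V → Fin k} {B V1 : Finset V} {M : V → V}
    (hx0 : XExt G c d) (hBV : ∀ x ∈ B, x ∉ V1)
    (hCV : ∀ x ∈ V1, par c x = par d x)
    (h : OS G c d f g B V1 M) {r x y : V} (hr : r ∈ fixs V1 M)
    (hcard : (fixs V1 M).card = 1) (hy : par c y ≠ par d y) (hx : x ∈ V1)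
    (hrx : HA G r x) :
    OS G c d (Function.update f x (f r)) (Function.update g x (g r)) B V1
      (shiftF M r x) := by
  have hc := E.pr hx0
  have hd := E.pr hx0.symm
  obtain ⟨hxx, -⟩ := h.nbr E hx0 hr hcard hy hx hrx
  have hrf := h.sf hr
  have hrg := h.sg hr
  have hr1 := (mem_fixs.1 hr).1
  obtain ⟨k1, k2⟩ := join h.pf hrf hrx.2
  obtain ⟨k3, k4⟩ := join h.pg hrg hrx.2
  have hmm := take_mm hrf hrg hrx (h.cls1 hx)
  have h8 := h.lvl
  -- an untouched class
  have key : ∀ (F : V → Fin k) (P : V → Prop) (w : V), Single F r → w ≠ r → w ≠ x →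
      (∀ u, F u = F w ↔ P u) → ¬ P x →
      ∀ u, Function.update F x (F r) u = Function.update F x (F r) w ↔ P u := by
    intro F P w hs hwr hwx hP hPx u
    rw [Function.update_of_ne hwx]
    by_cases hu : u = x
    · subst hu
      rw [Function.update_self]
      constructor
      · intro e; exact absurd (hs w e.symm) hwr
      · intro e; exact absurd e hPx
    · rw [Function.update_of_ne hu]
      exact hP u
  refine ⟨KE.trans h.kf k1, KE.trans h.kg k3, k2, k4, by omega, ?_, ?_, ?_, ?_,
    (shift_mt HA.symm' h.inv hr hx hxx hrx).1,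
    shift_classes h.inv h.cf hr hx hxx, shift_classes h.inv h.cg hr hx hxx⟩
  · intro w hw
    apply key f _ w hrf
    · rintro rfl; exact hw (hCV _ hr1)
    · rintro rfl; exact hw (hCV _ hx)
    · exact h.offf w hw
    · rintro (e | e)
      · subst e; exact hw (hCV _ hx)
      · have := hCV x hx
        rw [e] at this
        exact od_par hc hd hw this
  · intro w hw
    apply key g _ w hrg
    · rintro rfl; exact hw (hCV _ hr1)
    · rintro rfl; exact hw (hCV _ hx)
    · exact h.offg w hw
    · rintro (e | e)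
      · subst e; exact hw (hCV _ hx)
      · have := hCV x hx
        rw [e] at this
        exact od_par' hc hd hw this
  · intro w hw
    apply key f _ w hrf
    · rintro rfl; exact hBV _ hw hr1
    · rintro rfl; exact hBV _ hw hx
    · exact h.bf w hw
    · intro e; exact hBV _ e hx
  · intro w hw
    apply key g _ w hrg
    · rintro rfl; exact hBV _ hw hr1
    · rintro rfl; exact hBV _ hw hx
    · exact h.bg w hw
    · intro e; exact hBV _ e hx

theorem OS.follow (E : Env G k) {c d : V → Fin k} {B V1 : Finset V}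
    (hx0 : XExt G c d) (hBV : ∀ x ∈ B, x ∉ V1)
    (hCV : ∀ x ∈ V1, par c x = par d x) {y : V} (hy : par c y ≠ par d y)
    {N : V → V} (hN : Mt (HA G) V1 N) :
    ∀ (n : ℕ) (f g : V → Fin k) (M : V → V), OS G c d f g B V1 M →
      (fixs V1 M).card = 1 →
      (V1.filter (fun v => N v ≠ M v)).card = n →
      ∃ (f' g' : V → Fin k) (M' : V → V), OS G c d f' g' B V1 M' ∧
        fixs V1 M' ⊆ fixs V1 N ∧ (fixs V1 M').card = 1 := by
  classical
  intro n
  induction n using Nat.strong_induction_on with
  | _ n ih =>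
    intro f g M h hcard hn
    by_cases hall : fixs V1 M ⊆ fixs V1 N
    · exact ⟨f, g, M, h, hall, hcard⟩
    · rw [Finset.not_subset] at hall
      obtain ⟨r, hr, hrN⟩ := hall
      obtain ⟨hrW, hMr⟩ := mem_fixs.1 hr
      have hNr : N r ≠ r := fun e => hrN (mem_fixs.2 ⟨hrW, e⟩)
      obtain ⟨hxW, hNx, hH⟩ := hN r hrW
      have hrx := hH hNr
      obtain ⟨hxx, -⟩ := h.nbr E hx0 hr hcard hy hxW hrx
      obtain ⟨n1, n2⟩ := shift_ne h.inv hr hxW hxx
      have hst := h.move E hx0 hBV hCV hr hcard hy hxW hrx
      have hc : (fixs V1 (shiftF M r (N r))).card = 1 := by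
        rw [(shift_mt HA.symm' h.inv hr hxW hxx hrx).2, shift_card h.inv hr hxW hxx, hcard]
      have hlt : (V1.filter (fun v => N v ≠ shiftF M r (N r) v)).card < n := by
        rw [← hn]
        apply Finset.card_lt_card
        rw [Finset.ssubset_iff_of_subset]
        · refine ⟨r, ?_, ?_⟩
          · rw [Finset.mem_filter, hMr]
            exact ⟨hrW, hNr⟩
          · rw [Finset.mem_filter, not_and, not_not]
            intro _
            unfold shiftF; simp
        · intro v hv
          rw [Finset.mem_filter] at hv ⊢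
          refine ⟨hv.1, ?_⟩
          by_cases h1 : v = r
          · rw [h1, hMr]; exact hNr
          · by_cases h2 : v = N r
            · exfalso
              apply hv.2
              rw [h2, hNx]
              unfold shiftF
              simp [n1]
            · by_cases h3 : v = M (N r)
              · rw [h3, (h.inv (N r) hxW).2.1]
                intro e
                have e2 := (hN (M (N r)) (h.inv (N r) hxW).1).2.1
                rw [e, hNx] at e2
                exact n2 e2.symm
              · have : shiftF M r (N r) v = M v := by unfold shiftF; simp [h1, h2, h3]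
                rw [this] at hv
                exact hv.2
      exact ih _ hlt _ _ _ hst hc rfl

/-- (P3) A vertex of a common pair is not complete to another common pair. -/
theorem P3 (E : Env G k) {c d : V → Fin k} (h : XExt G c d) {a w : V}
    (ha : par c a = par d a) (hw : par c w = par d w) (h1 : HA G a w)
    (h2 : HA G a (par c w)) : False := by
  classical
  have hc := E.pr h
  have hd := E.pr h.symm
  -- a vertex of C
  obtain ⟨p, hp⟩ : ∃ p, par c p ≠ par d p := by
    by_contra hcon
    push Not at hcon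
    apply h.2.2.1
    apply same_kernel
    intro x y
    rw [hc.cl, hd.cl, hcon]
  set b := par c a with hb
  set w' := par c w with hw'
  have haw : a ≠ w := h1.1
  have haw' : a ≠ w' := h2.1
  have hww' : w ≠ w' := Ne.symm (hc.ne w)
  have hab : a ≠ b := Ne.symm (hc.ne a)
  have hbw : b ≠ w := by
    intro e
    apply haw'
    rw [hw', ← e, hb, hc.pp]
  have hbw' : b ≠ w' := by
    intro e
    exact haw (hc.inj e)
  have hpb : par c b = a := by rw [hb, hc.pp]
  have hpw' : par c w' = w := by rw [hw', hc.pp]
  have hbJ : par c b = par d b := by rw [hpb, ha, hd.pp]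
  have hw'J : par c w' = par d w' := by rw [hpw', hw, hd.pp]
  set B : Finset V := {a, w, w'} with hB
  have hBcard : B.card = 3 := by
    rw [hB]
    exact Finset.card_eq_three.2 ⟨a, w, w', haw, haw', hww', rfl⟩
  have memB : ∀ x, x ∈ B ↔ (x = a ∨ x = w ∨ x = w') := by intro x; simp [hB]
  have hBJ : ∀ x ∈ B, par c x = par d x := by
    intro x hx
    rcases (memB x).1 hx with rfl | rfl | rfl
    · exact ha
    · exact hw
    · exact hw'J
  let V1 : Finset V := Finset.univ.filter (fun x => par c x = par d x ∧ x ∉ B)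
  have memV1 : ∀ x, x ∈ V1 ↔ (par c x = par d x ∧ x ∉ B) := by intro x; simp [V1]
  have hBV : ∀ x ∈ B, x ∉ V1 := fun x hx hx2 => ((memV1 x).1 hx2).2 hx
  have hCV : ∀ x ∈ V1, par c x = par d x := fun x hx => ((memV1 x).1 hx).1
  have hbV1 : b ∈ V1 := by
    rw [memV1, memB]
    refine ⟨hbJ, ?_⟩
    rintro (e | e | e)
    · exact hab e.symm
    · exact hbw e
    · exact hbw' e
  let M : V → V := fun v => if v = b then b else par c v
  have Mb : M b = b := by simp [M]
  have Mo : ∀ v, v ≠ b → M v = par c v := by intro v hv; simp [M, hv]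
  have parV1 : ∀ v ∈ V1, v ≠ b → par c v ∈ V1 ∧ par c v ≠ b := by
    intro v hv hvb
    obtain ⟨q1, q2⟩ := (memV1 v).1 hv
    rw [memB] at q2
    push Not at q2
    refine ⟨?_, ?_⟩
    · rw [memV1, memB]
      constructor
      · rw [hc.pp, q1, hd.pp]
      · rintro (e | e | e)
        · apply hvb; rw [hb, ← e, hc.pp]
        · apply q2.2.2; rw [hw', ← e, hc.pp]
        · exact q2.2.1 (hc.inj e)
    · intro e
      exact q2.1 (hc.inj e)
  -- the base state
  have ka := add_common h.1 h.2.1 (r := a) (x := w) ((hc.cls_iff hd w).2 hw)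
    (hc.not_single w)
  have hkf := recolour h.1 a (c w) (by
    intro y hy e
    rcases (hc.cl w y).1 e with e1 | e1
    · subst e1; exact h1.2 hy
    · subst e1; exact h2.2 hy)
  have hkg := recolour h.2.1 a (d w) (by
    intro y hy e
    rcases (hd.cl w y).1 e with e1 | e1
    · subst e1; exact h1.2 hy
    · rw [← hw] at e1; subst e1; exact h2.2 hy)
  have hbase : OS G c d (Function.update c a (c w)) (Function.update d a (d w)) B V1 M := by
    -- classes away from the touched pairs
    have key : ∀ (F : V → Fin k) (hF : PR G F), par F a = b → par F w = w' →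
        (∀ v, v ∉ B → v ≠ b → ∀ u,
          Function.update F a (F w) u = Function.update F a (F w) v ↔
            (u = v ∨ u = par F v)) ∧
        (∀ v ∈ B, ∀ u, Function.update F a (F w) u = Function.update F a (F w) v ↔ u ∈ B) ∧
        (∀ u, Function.update F a (F w) u = Function.update F a (F w) b ↔ u = b) := by
      intro F hF e1 e2
      have hFba : F b = F a := by rw [← e1]; exact hF.same a
      have hFw' : F w' = F w := by rw [← e2]; exact hF.same w
      have hFwa : F w ≠ F a := by
        intro e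
        rcases (hF.cl a w).1 e with e3 | e3
        · exact haw e3.symm
        · rw [e1] at e3; exact hbw e3.symm
      refine ⟨?_, ?_, ?_⟩
      · intro v hv hvb u
        rw [memB] at hv
        push Not at hv
        rw [Function.update_of_ne hv.1]
        by_cases hu : u = a
        · subst hu
          rw [Function.update_self]
          constructor
          · intro e
            rcases (hF.cl w v).1 e.symm with e3 | e3
            · exact absurd e3 hv.2.1
            · rw [e2] at e3; exact absurd e3 hv.2.2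
          · rintro (e | e)
            · exact absurd e.symm hv.1
            · exfalso
              apply hvb
              rw [← e1, e, hF.pp]
        · rw [Function.update_of_ne hu, hF.cl]
      · intro v hv u
        have hval : ∀ x, Function.update F a (F w) x = F w ↔ x ∈ B := by
          intro x
          rw [memB]
          by_cases hx : x = a
          · subst hx; simp
          · rw [Function.update_of_ne hx, hF.cl, e2]
            simp [hx]
        rw [(hval v).2 hv, hval]
      · intro u
        rw [Function.update_of_ne (Ne.symm hab)]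
        by_cases hu : u = a
        · subst hu
          rw [Function.update_self, hFba]
          constructor
          · intro e; exact absurd e hFwa
          · intro e; exact absurd e hab
        · rw [Function.update_of_ne hu, hFba, hF.cl, e1]
          simp [hu]
    obtain ⟨c1, c2, c3⟩ := key c hc rfl rfl
    obtain ⟨d1, d2, d3⟩ := key d hd ha.symm hw.symm
    have hlvl : mm c d ≤ mm (Function.update c a (c w)) (Function.update d a (d w)) + 1 := by
      have := mm_le (f := c) (g := d) (f' := Function.update c a (c w))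
        (g' := Function.update d a (d w)) {({a, b} : Finset V), {w, w'}} {B}
        (by
          intro Z hZ hZL
          simp only [Finset.mem_insert, Finset.mem_singleton, not_or] at hZL
          obtain ⟨g2, ⟨z0, hz0⟩, -⟩ := mem_com.1 hZ
          have hz0Z : z0 ∈ Z := by rw [← hz0]; exact self_mem_cls _ _
          obtain ⟨e1, e2⟩ := com_cls hZ hz0Z
          have hna : ∀ z ∈ Z, z ≠ a ∧ z ≠ b ∧ z ≠ w ∧ z ≠ w' := by
            intro z hz
            have hz' := (com_cls hZ hz).1
            rw [hc.cls_eq'] at hz'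
            refine ⟨?_, ?_, ?_, ?_⟩
            · rintro rfl; exact hZL.1 hz'.symm
            · rintro rfl; rw [hpb] at hz'; exact hZL.1 (by rw [← hz', Finset.pair_comm])
            · rintro rfl; exact hZL.2 hz'.symm
            · rintro rfl; rw [hpw'] at hz'; exact hZL.2 (by rw [← hz', Finset.pair_comm])
          apply com_keep hZ
          · intro z hz u
            obtain ⟨m1, m2, m3, m4⟩ := hna z hz
            rw [c1 z (by rw [memB]; push Not; exact ⟨m1, m3, m4⟩) m2 u, ← hc.cl]
            exact class_iff (com_cls hZ hz).1 u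
          · intro z hz u
            obtain ⟨m1, m2, m3, m4⟩ := hna z hz
            rw [d1 z (by rw [memB]; push Not; exact ⟨m1, m3, m4⟩) m2 u, ← hd.cl]
            exact class_iff (com_cls hZ hz).2 u)
        (by
          intro Z hZ
          rw [Finset.mem_singleton] at hZ
          subst hZ
          rw [mem_com]
          have haB : a ∈ B := (memB a).2 (Or.inl rfl)
          refine ⟨by omega, ⟨a, ?_⟩, ⟨a, ?_⟩⟩
          · ext u; rw [mem_cls, c2 a haB]
          · ext u; rw [mem_cls, d2 a haB])
        (by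
          intro Z hZ hZ2
          rw [Finset.mem_singleton] at hZ
          subst hZ
          exfalso
          have haB : a ∈ B := (memB a).2 (Or.inl rfl)
          have := (com_cls hZ2 haB).1
          rw [hc.cls_eq'] at this
          have hwB : w ∈ B := (memB w).2 (Or.inr (Or.inl rfl))
          rw [← this, Finset.mem_insert, Finset.mem_singleton] at hwB
          rcases hwB with e | e
          · exact haw e.symm
          · exact hbw e.symm)
      rw [Finset.card_singleton] at this
      have h9 : ({({a, b} : Finset V), {w, w'}} : Finset (Finset V)).card ≤ 2 :=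
        Finset.card_le_two
      omega
    refine ⟨hkf.1, hkg.1, hkf.2, hkg.2, hlvl, ?_, ?_, c2, d2, ?_, ?_, ?_⟩
    · intro v hv u
      apply c1 v
      · exact fun e => hv (hBJ v e)
      · rintro rfl; exact hv hbJ
    · intro v hv u
      apply d1 v
      · exact fun e => hv (hBJ v e)
      · rintro rfl; exact hv hbJ
    · intro v hv
      by_cases hvb : v = b
      · subst hvb
        rw [Mb, Mb]
        exact ⟨hv, rfl, fun e => absurd rfl e⟩
      · obtain ⟨q1, q2⟩ := parV1 v hv hvb
        rw [Mo v hvb, Mo _ q2, hc.pp]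
        exact ⟨q1, rfl, fun _ => hc.ha v⟩
    · intro v hv u
      by_cases hvb : v = b
      · subst hvb
        rw [Mb, c3]; simp
      · rw [Mo v hvb]
        exact c1 v ((memV1 v).1 hv).2 hvb u
    · intro v hv u
      by_cases hvb : v = b
      · subst hvb
        rw [Mb, d3]; simp
      · rw [Mo v hvb, ((memV1 v).1 hv).1]
        exact d1 v ((memV1 v).1 hv).2 hvb u
  have hfix : fixs V1 M = {b} := by
    ext v
    rw [mem_fixs, Finset.mem_singleton]
    constructor
    · rintro ⟨h3, h4⟩
      by_contra hvb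
      rw [Mo v hvb] at h4
      exact hc.ne v h4
    · rintro rfl; exact ⟨hbV1, Mb⟩
  have hfix1 : (fixs V1 M).card = 1 := by rw [hfix, Finset.card_singleton]
  have hbfix : b ∈ fixs V1 M := by rw [hfix]; simp
  have hmin : MinFix (HA G) V1 1 := by
    intro N hN
    have e1 := parity hbase.inv
    have e2 := parity hN
    rw [hfix1] at e1
    omega
  set D := DD (HA G) V1 1 with hD
  set α := (AA (HA G) V1 1).card with hα
  have hreach : ∀ e ∈ D, ∃ (f g : V → Fin k) (M : V → V), OS G c d f g B V1 M ∧
      e ∈ fixs V1 M ∧ (fixs V1 M).card = 1 := by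
    intro e he
    obtain ⟨heW, N, hN, hNs, hNe⟩ := mem_DD.1 he
    obtain ⟨f', g', M', a1, a2, a3⟩ := OS.follow E h hBV hCV hp hN _ _ _ M hbase hfix1 rfl
    refine ⟨f', g', M', a1, ?_, a3⟩
    have heq := Finset.eq_of_subset_of_card_le a2 (by rw [a3, hNs])
    rw [heq]
    exact mem_fixs.2 ⟨heW, hNe⟩
  have hpV1 : p ∉ V1 := fun e => hp (hCV p e)
  have hpB : p ∉ B := fun e => hp (hBJ p e)
  have hpD : p ∉ D := fun hh => hpV1 (mem_DD.1 hh).1
  have hpadj : ∀ x ∈ D, ¬ HA G x p := by
    intro x hx
    obtain ⟨f, g, M, hst, hxM, -⟩ := hreach x hx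
    exact hst.noC E h hxM hp
  have hcov : ∀ e ∈ D, ∀ x, HA G e x → x ∈ V1 ∨ x ∈ B := by
    intro e he x hx
    obtain ⟨f, g, M, hst, heM, -⟩ := hreach e he
    by_cases hxC : par c x = par d x
    · by_cases hxB : x ∈ B
      · exact Or.inr hxB
      · exact Or.inl ((memV1 x).2 ⟨hxC, hxB⟩)
    · exact absurd hx (hst.noC E h heM hxC)
  obtain ⟨vm, -, hvm⟩ := Finset.exists_min_image Finset.univ (fun v => (NN G v).card)
    ⟨a, Finset.mem_univ a⟩
  set hh := (NN G vm).card with hhh
  have hmn : ∀ v, hh ≤ (NN G v).card := fun v => hvm v (Finset.mem_univ v)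
  have hQh : ∀ Q : Finset V, G.IsClique (Q : Set V) → Q.card + k ≤ 2 * hh :=
    fun Q hQ => E.star Q hQ vm
  -- neighbours in B
  have hB2 : ∀ e, (¬ ∀ u ∈ B, HA G e u) → (NN G e ∩ B).card ≤ 2 := by
    intro e hcon
    push Not at hcon
    obtain ⟨u, hu, hne⟩ := hcon
    have hsub : NN G e ∩ B ⊆ B.erase u := by
      intro x hx
      rw [Finset.mem_inter, mem_NN_iff] at hx
      rw [Finset.mem_erase]
      exact ⟨fun e1 => hne (e1 ▸ hx.1), hx.2⟩
    have := Finset.card_le_card hsub
    rw [Finset.card_erase_of_mem hu, hBcard] at this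
    exact this
  have hNNe : ∀ e ∈ D, hh ≤ (NN G e ∩ D).card + α + 2 := by
    intro e he
    obtain ⟨f, g, M, hst, heM, hMs⟩ := hreach e he
    have hb2 := hB2 e (hst.nbrB E h heM hp (by omega))
    have hsub : NN G e ⊆ (NN G e ∩ D) ∪ AA (HA G) V1 1 ∪ (NN G e ∩ B) := by
      intro x hx
      have hx' := mem_NN_iff.1 hx
      rw [Finset.mem_union, Finset.mem_union, Finset.mem_inter, Finset.mem_inter]
      rcases hcov e he x hx' with h3 | h3
      · left
        by_cases hxD : x ∈ D
        · exact Or.inl ⟨hx, hxD⟩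
        · exact Or.inr (mem_AA.2 ⟨⟨h3, hxD⟩, e, he, hx'⟩)
      · exact Or.inr ⟨hx, h3⟩
    have e1 := Finset.card_le_card hsub
    have e2 := Finset.card_union_le ((NN G e ∩ D) ∪ AA (HA G) V1 1) (NN G e ∩ B)
    have e3 := Finset.card_union_le (NN G e ∩ D) (AA (HA G) V1 1)
    have e4 := hmn e
    omega
  have hK : ∀ e ∈ D, 1 + 2 * (hh - α - 2) ≤ (comp (HA G) D e).card := by
    intro e he
    obtain ⟨f, g, M, hst, heM, hMs⟩ := hreach e he
    have h1 := comp_card hmin hst.inv hMs heM
      (fun x hx hxD => hst.nbr E h heM hMs hp (mem_DD.1 hxD).1 hx)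
    have h2 := hNNe e he
    change 1 + 2 * (NN G e ∩ D).card ≤ (comp (HA G) D e).card at h1
    omega
  have hDcard : (1 + α) * (1 + 2 * (hh - α - 2)) ≤ D.card :=
    comps_card hmin hbase.inv hfix1
      (fun e he => hK e (extr_sub hmin hbase.inv hfix1 he))
  -- the rest
  have hAW : ∀ x ∈ AA (HA G) V1 1, x ∈ V1 ∧ x ∉ D := fun x hx => (mem_AA.1 hx).1
  have hDW : ∀ x ∈ D, x ∈ V1 := fun x hx => (mem_DD.1 hx).1
  have hDA : Disjoint D (AA (HA G) V1 1) := by
    rw [Finset.disjoint_left]
    intro x hx hx2
    exact (hAW x hx2).2 hx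
  have hDAB : Disjoint (D ∪ AA (HA G) V1 1) B := by
    rw [Finset.disjoint_left]
    intro x hx hx2
    rw [Finset.mem_union] at hx
    rcases hx with hx | hx
    · exact hBV x hx2 (hDW x hx)
    · exact hBV x hx2 (hAW x hx).1
  let R : Finset V := Finset.univ \ (D ∪ AA (HA G) V1 1 ∪ B)
  have memR : ∀ x, x ∈ R ↔ (x ∉ D ∧ x ∉ AA (HA G) V1 1 ∧ x ∉ B) := by
    intro x
    simp only [R, Finset.mem_sdiff, Finset.mem_univ, true_and, Finset.mem_union, not_or]
    tauto
  have hRcard : D.card + α + 3 + R.card = 2 * k := by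
    have e0 : (D ∪ AA (HA G) V1 1 ∪ B).card = D.card + α + 3 := by
      rw [Finset.card_union_of_disjoint hDAB, Finset.card_union_of_disjoint hDA, hBcard]
    have e2 : R.card + (D ∪ AA (HA G) V1 1 ∪ B).card = (Finset.univ : Finset V).card :=
      Finset.card_sdiff_add_card_eq_card (Finset.subset_univ _)
    rw [Finset.card_univ, E.card] at e2
    omega
  have hpR : p ∈ R := by
    rw [memR]
    exact ⟨hpD, fun e => hpV1 (hAW p e).1, hpB⟩
  have hparR : ∀ x ∈ R, par c x ∈ R := by
    intro x hx
    rw [memR] at hx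
    obtain ⟨x1, x2, x3⟩ := hx
    by_cases hxC : par c x = par d x
    · have hxV : x ∈ V1 := (memV1 x).2 ⟨hxC, x3⟩
      have hxb : x ≠ b := by
        rintro rfl
        exact x1 (mem_DD.2 ⟨hbV1, M, hbase.inv, hfix1, Mb⟩)
      obtain ⟨q1, q2⟩ := parV1 x hxV hxb
      rw [memR]
      refine ⟨?_, ?_, fun e => hBV _ e q1⟩
      · intro e
        exact x2 (mem_AA.2 ⟨⟨hxV, x1⟩, par c x, e, (hc.ha x).symm⟩)
      · intro e
        have := (ge HA.symm' hmin hbase.inv hfix1).1 _ e
        rw [Mo _ q2, hc.pp] at this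
        exact x1 this
    · have h5 := od_par hc hd hxC
      rw [memR]
      refine ⟨fun e => h5 (hCV _ (hDW _ e)), fun e => h5 (hCV _ (hAW _ e).1),
        fun e => h5 (hBJ _ e)⟩
  have hpno : ∀ x, HA G p x → ¬ HA G p (par c x) := by
    intro x hx hx2
    by_cases hxC : par c x = par d x
    · exact P1 E h hp hxC hx hx2
    · exact P2 E h hp hxC hx hx2
  have hR2 : 2 * (hh - α - 2) ≤ R.card := by
    have e1 : hh ≤ (NN G p ∩ R).card + α + 2 := by
      have hb2 := hB2 p (by
        intro hcon
        exact hpno w (hcon w ((memB w).2 (Or.inr (Or.inl rfl))))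
          (hcon w' ((memB w').2 (Or.inr (Or.inr rfl)))))
      have hsub : NN G p ⊆ (NN G p ∩ R) ∪ AA (HA G) V1 1 ∪ (NN G p ∩ B) := by
        intro x hx
        have hx' := mem_NN_iff.1 hx
        rw [Finset.mem_union, Finset.mem_union, Finset.mem_inter, Finset.mem_inter]
        by_cases h3 : x ∈ B
        · exact Or.inr ⟨hx, h3⟩
        by_cases h4 : x ∈ AA (HA G) V1 1
        · exact Or.inl (Or.inr h4)
        · refine Or.inl (Or.inl ⟨hx, (memR x).2 ⟨?_, h4, h3⟩⟩)
          exact fun e => hpadj x e hx'.symm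
      have e1 := Finset.card_le_card hsub
      have e2 := Finset.card_union_le ((NN G p ∩ R) ∪ AA (HA G) V1 1) (NN G p ∩ B)
      have e3 := Finset.card_union_le (NN G p ∩ R) (AA (HA G) V1 1)
      have e4 := hmn p
      omega
    have e2 : Disjoint (NN G p ∩ R) ((NN G p ∩ R).image (par c)) := by
      rw [Finset.disjoint_left]
      intro x hx hx2
      rw [Finset.mem_image] at hx2
      obtain ⟨y, hy, rfl⟩ := hx2
      rw [Finset.mem_inter, mem_NN_iff] at hx hy
      exact hpno y hy.1 hx.1
    have e3 : (NN G p ∩ R) ∪ (NN G p ∩ R).image (par c) ⊆ R := by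
      intro x hx
      rw [Finset.mem_union, Finset.mem_image] at hx
      rcases hx with hx | ⟨y, hy, rfl⟩
      · exact (Finset.mem_inter.1 hx).2
      · exact hparR y (Finset.mem_inter.1 hy).2
    have e4 := Finset.card_le_card e3
    rw [Finset.card_union_of_disjoint e2,
      Finset.card_image_of_injective _ (fun x y e => hc.inj e)] at e4
    omega
  by_cases hha : α + 3 ≤ hh
  · -- the hole has a neighbour in D
    have hbD : b ∈ D := mem_DD.2 ⟨hbV1, M, hbase.inv, hfix1, Mb⟩
    have h1 := hNNe b hbD
    have hpos : 0 < (NN G b ∩ D).card := by omega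
    obtain ⟨x, hx⟩ := Finset.card_pos.1 hpos
    rw [Finset.mem_inter, mem_NN_iff] at hx
    obtain ⟨b2, b3⟩ := hbase.nbr E h hbfix hfix1 hp (hDW x hx.2) hx.1
    obtain ⟨Q, hQ, hQc⟩ := extr_clique2 hmin hbase.inv hfix1 hpadj hpD hbfix hx.1 hx.2 b2 b3
    have hQ2 := hQh Q hQ
    rw [hQc] at hQ2
    obtain ⟨t, ht⟩ : ∃ t, hh = α + 2 + t := ⟨hh - α - 2, by omega⟩
    have ht2 : hh - α - 2 = t := by omega
    rw [ht2] at hDcard hR2
    have e1 : (1 + α) * (1 + 2 * t) = 1 + α + 2 * t + 2 * (α * t) := by ring
    rw [e1] at hDcard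
    have : 0 ≤ α * t := Nat.zero_le _
    change 1 + α + 2 + k ≤ 2 * hh at hQ2
    omega
  · obtain ⟨Q, hQ, hQc⟩ := extr_clique hmin hbase.inv hfix1 hpadj hpD
    have hQ2 := hQh Q hQ
    rw [hQc] at hQ2
    have h3 : (1 + α) * 1 ≤ D.card :=
      le_trans (Nat.mul_le_mul_left _ (by omega)) hDcard
    have h4 : 1 ≤ R.card := Finset.card_pos.2 ⟨p, hpR⟩
    change 1 + α + 1 + k ≤ 2 * hh at hQ2
    omega

end Pool.Agent.Helper26.Kempe
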