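import Pool.Agent.Helper26.HalfNoSingle

set_option autoImplicit false
set_option linter.unusedSectionVars false

/-! Extremal pairs in which all classes have two vertices. -/

namespace Pool.Agent.Helper26.Kempe

open Relation

variable {V : Type} [Fintype V] [DecidableEq V] {k : ℕ} {G : SimpleGraph V}

/-- All classes have exactly two vertices. -/
structure PR (G : SimpleGraph V) (c : V → Fin k) : Prop where
  prop : Proper G c
  ne : ∀ x, par c x ≠ x
  cl : ∀ x w, c w = c x ↔ (w = x ∨ w = par c x)

theorem PR.same {c : V → Fin k} (h : PR G c) (x : V) : c (par c x) = c x :=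
  (h.cl x _).2 (Or.inr rfl)

theorem PR.pp {c : V → Fin k} (h : PR G c) (x : V) : par c (par c x) = x := by
  rcases (h.cl (par c x) x).1 (h.same x).symm with e | e
  · exact absurd e.symm (h.ne x)
  · exact e.symm

theorem PR.ha {c : V → Fin k} (h : PR G c) (x : V) : HA G x (par c x) :=
  HA_of_same h.prop (Ne.symm (h.ne x)) (h.same x).symm

theorem PR.cls_eq' {c : V → Fin k} (h : PR G c) (x : V) : cls c x = {x, par c x} := by
  ext w
  rw [mem_cls, h.cl, Finset.mem_insert, Finset.mem_singleton]

theorem PR.not_single {c : V → Fin k} (h : PR G c) (x : V) : ¬ Single c x :=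
  fun hs => h.ne x (hs _ (h.same x))

theorem PR.inj {c : V → Fin k} (h : PR G c) {x y : V} (e : par c x = par c y) : x = y := by
  rw [← h.pp x, e, h.pp y]

theorem PR.cls_iff {c d : V → Fin k} (hc : PR G c) (hd : PR G d) (x : V) :
    cls c x = cls d x ↔ par c x = par d x := by
  constructor
  · intro h
    have : par c x ∈ cls d x := by rw [← h]; exact mem_cls.2 (hc.same x)
    rcases (hd.cl x _).1 (mem_cls.1 this) with e | e
    · exact absurd e (hc.ne x)
    · exact e
  · intro h
    rw [hc.cls_eq', hd.cls_eq', h]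

/-- The standing assumptions. -/
structure Env (G : SimpleGraph V) (k : ℕ) : Prop where
  card : Fintype.card V = 2 * k
  star : ∀ Q : Finset V, G.IsClique (Q : Set V) → ∀ v : V, Q.card + k ≤ 2 * (NN G v).card

theorem Env.ns (E : Env G k) {c d : V → Fin k} (h : XExt G c d) (v : V) : ¬ Single c v :=
  no_single E.card E.star h v

theorem Env.pr (E : Env G k) {c d : V → Fin k} (h : XExt G c d) : PR G c := by
  classical
  have hge : ∀ a : Fin k, 2 ≤ (Finset.univ.filter (fun x => c x = a)).card := by
    intro a
    obtain ⟨v, hv⟩ := h.surj a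
    have := not_single_card (E.ns h v)
    unfold cls at this
    rwa [hv] at this
  have hsum : (Finset.univ : Finset V).card
      = ∑ a : Fin k, (Finset.univ.filter (fun x => c x = a)).card :=
    Finset.card_eq_sum_card_fiberwise (fun x _ => by simp)
  have heq : ∀ a : Fin k, (Finset.univ.filter (fun x => c x = a)).card = 2 := by
    by_contra hcon
    push Not at hcon
    obtain ⟨a, ha⟩ := hcon
    have h1 : ∑ _a : Fin k, 2 < ∑ a : Fin k, (Finset.univ.filter (fun x => c x = a)).card := by
      apply Finset.sum_lt_sum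
      · intro b _; exact hge b
      · exact ⟨a, Finset.mem_univ a, lt_of_le_of_ne (hge a) (Ne.symm ha)⟩
    rw [← hsum, Finset.card_univ, E.card] at h1
    simp at h1
    omega
  refine ⟨h.1, fun x => (par_spec (E.ns h x)).1, fun x w => ?_⟩
  apply par_class
  have := heq (c x)
  unfold cls
  omega

/-- Vertices whose class in `f` is the class of the paired colouring `d`. -/
def KK (f d : V → Fin k) : Finset V := Finset.univ.filter (fun v => cls f v = cls d v)

theorem mem_KK {f d : V → Fin k} {v : V} : v ∈ KK f d ↔ cls f v = cls d v := by simp [KK]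

theorem KK_card {f d : V → Fin k} (hd : PR G d) : (KK f d).card = 2 * mm f d := by
  classical
  have e1 : KK f d = (com f d).biUnion id := by
    ext v
    rw [mem_KK, Finset.mem_biUnion]
    constructor
    · intro h
      exact ⟨cls f v, cls_mem_com h (by rw [h]; exact not_single_card (hd.not_single v)),
        self_mem_cls f v⟩
    · rintro ⟨Z, hZ, hv⟩
      have := com_cls hZ hv
      rw [this.1, this.2]
  have e2 : ((com f d).biUnion id).card = ∑ Z ∈ com f d, (id Z : Finset V).card := by
    apply Finset.card_biUnion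
    intro Z hZ Z' hZ' hne
    change Disjoint Z Z'
    rw [Finset.disjoint_left]
    intro v hv hv'
    apply hne
    rw [← (com_cls hZ hv).1, ← (com_cls hZ' hv').1]
  rw [e1, e2]
  have e3 : ∀ Z ∈ com f d, (id Z : Finset V).card = 2 := by
    intro Z hZ
    have h2 := (mem_com.1 hZ).1
    have hne : Z.Nonempty := by rw [← Finset.card_pos]; omega
    obtain ⟨z, hz⟩ := hne
    have := (com_cls hZ hz).2
    rw [hd.cls_eq'] at this
    rw [id, ← this, Finset.card_pair (Ne.symm (hd.ne z))]
  rw [Finset.sum_congr rfl e3, Finset.sum_const, smul_eq_mul, mul_comm]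
  rfl

/-- (LB1) -/
theorem LB1 (E : Env G k) {c d f g : V → Fin k} (h : XExt G c d) (h1 : KE G c f)
    (h2 : KE G d g) (p1 : Proper G f) (p2 : Proper G g)
    (hs : (∃ v, Single f v) ∨ (∃ a, ∀ v, f v ≠ a)) : mm f g < mm c d := by
  by_contra hcon
  have hx := h.replace h1 h2 p1 p2 (not_lt.1 hcon)
  rcases hs with ⟨v, hv⟩ | ⟨a, ha⟩
  · exact E.ns hx v hv
  · obtain ⟨v, hv⟩ := hx.surj a
    exact ha v hv

/-- (LB2) -/
theorem LB2 (E : Env G k) {c d f g : V → Fin k} (h : XExt G c d) (h1 : KE G c f)
    (h2 : KE G d g) (p1 : Proper G f) (p2 : PR G g) {v t' : V} (hv : Single f v)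
    (ht' : t' ≠ par g v) (hcl : ∀ w, f w = f (par g v) ↔ (w = par g v ∨ w = t')) :
    mm f g + 2 ≤ mm c d := by
  set t := par g v with ht
  have hvt : HA G v t := p2.ha v
  have hft : f t' = f t := (hcl t').2 (Or.inr rfl)
  have hvt' : v ≠ t' := by
    rintro rfl
    exact hvt.1 (hv t hft.symm).symm
  obtain ⟨k1, k2⟩ := join p1 hv hvt.2
  have hgv : ∀ z, cls f z = cls g z → z ≠ v ∧ z ≠ t := by
    intro z hz
    constructor
    · intro e
      rw [e, single_iff_cls.1 hv, p2.cls_eq'] at hz
      have : t ∈ ({v} : Finset V) := by rw [hz, ← ht]; simp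
      exact hvt.1 (Finset.mem_singleton.1 this).symm
    · intro e
      rw [e] at hz
      have : v ∈ cls f t := by
        rw [hz, mem_cls]
        exact (p2.same v).symm
      exact hvt.1 (hv t (mem_cls.1 this).symm).symm
  have hg := upd_mm_gain (f := f) (g := g) (v := t) (b := f v) ∅
    (by
      intro Z hZ _
      refine ⟨fun h3 => ?_, fun z hz e => ?_⟩
      · exact (hgv t ((com_cls hZ h3).1.trans (com_cls hZ h3).2.symm)).2 rfl
      · have := hv z e
        subst this
        exact (hgv z ((com_cls hZ hz).1.trans (com_cls hZ hz).2.symm)).1 rfl)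
    (y := v)
    (by
      ext w
      rw [mem_cls, mem_cls, Function.update_of_ne hvt.1, pair_class hv hvt.1, p2.cl v w])
    (p2.not_single v)
    (by
      intro hZ
      exfalso
      have := com_cls hZ (self_mem_cls g v)
      exact (hgv v this.1).1 rfl)
  have hs : Single (Function.update f t (f v)) t' := by
    intro w hw
    rw [Function.update_of_ne ht'] at hw
    by_cases hwt : w = t
    · subst hwt
      rw [Function.update_self] at hw
      exact absurd (hv t' hw.symm).symm hvt'
    · rw [Function.update_of_ne hwt, hft] at hw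
      rcases (hcl w).1 hw with e | e
      · exact absurd e hwt
      · exact e
  have := LB1 E h (KE.trans h1 k1) h2 k2 p2.prop (Or.inl ⟨t', hs⟩)
  simp at hg
  omega

/-- (LB3) -/
theorem LB3 (E : Env G k) {c d f : V → Fin k} (h : XExt G c d) (h1 : KE G c f)
    (p1 : Proper G f) (p2 : PR G d) {a : Fin k} (ha : ∀ v, f v ≠ a) {y y' t' : V}
    (hy' : y' ≠ y) (hcly : ∀ w, f w = f y ↔ (w = y ∨ w = y'))
    (ht' : t' ≠ par d y) (hclt : ∀ w, f w = f (par d y) ↔ (w = par d y ∨ w = t'))
    (hyt : f y ≠ f (par d y)) (hne : par d y' ≠ t') :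
    mm f d + 3 ≤ mm c d := by
  classical
  set t := par d y with ht
  have hyt0 : y ≠ t := fun e => hyt (congrArg f e)
  have hfy' : f y' = f y := (hcly y').2 (Or.inr rfl)
  have hft' : f t' = f t := (hclt t').2 (Or.inr rfl)
  have n1 : y' ≠ t := by rintro rfl; exact hyt hfy'.symm
  have n2 : y' ≠ t' := by rintro rfl; exact hyt (hfy'.symm.trans hft')
  have n3 : y ≠ t' := by rintro rfl; exact hyt hft'
  have hcy : cls d y = {y, t} := p2.cls_eq' y
  have hbd : ∀ w, f w = a → w ∈ cls d y := fun w hw => absurd hw (ha w)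
  obtain ⟨k1, k2⟩ := moveSet p1 (cls d y) a (cls_indep p2.prop y) hbd
  have hg1 := moveSet_mm (f := f) (g := d) (y := y) (b := a) hbd (p2.not_single y)
    (by
      intro e
      have : t ∈ cls f y := by rw [e, hcy]; simp
      rw [mem_cls] at this
      exact hyt this.symm)
  set f1 : V → Fin k := fun w => if w ∈ cls d y then a else f w with hf1
  have v1 : ∀ w, w ≠ y → w ≠ t → f1 w = f w := by
    intro w h3 h4
    simp only [hf1]
    rw [if_neg]
    rw [hcy, Finset.mem_insert, Finset.mem_singleton]
    push Not
    exact ⟨h3, h4⟩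
  have v2 : f1 y = a := by
    simp only [hf1]; rw [if_pos (self_mem_cls d y)]
  have v3 : f1 t = a := by
    simp only [hf1]; rw [if_pos (by rw [hcy]; simp)]
  have s1 : Single f1 y' := by
    intro w hw
    rw [v1 y' hy' n1, hfy'] at hw
    by_cases hwy : w = y
    · subst hwy; rw [v2] at hw; exact absurd hw.symm (ha _)
    by_cases hwt : w = t
    · subst hwt; rw [v3] at hw; exact absurd hw.symm (ha _)
    rw [v1 w hwy hwt] at hw
    rcases (hcly w).1 hw with e | e
    · exact absurd e hwy
    · exact e
  have s2 : Single f1 t' := by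
    intro w hw
    rw [v1 t' n3.symm ht', hft'] at hw
    by_cases hwy : w = y
    · subst hwy; rw [v2] at hw; exact absurd hw.symm (ha _)
    by_cases hwt : w = t
    · subst hwt; rw [v3] at hw; exact absurd hw.symm (ha _)
    rw [v1 w hwy hwt] at hw
    rcases (hclt w).1 hw with e | e
    · exact absurd e hwt
    · exact e
  set u := par d y' with hu
  have hyu : HA G y' u := p2.ha y'
  have hgv : ∀ z, cls f1 z = cls d z → z ≠ y' ∧ z ≠ u := by
    intro z hz
    constructor
    · intro e
      rw [e, single_iff_cls.1 s1, p2.cls_eq'] at hz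
      have : u ∈ ({y'} : Finset V) := by rw [hz, ← hu]; simp
      exact hyu.1 (Finset.mem_singleton.1 this).symm
    · intro e
      rw [e] at hz
      have : y' ∈ cls f1 u := by
        rw [hz, mem_cls]
        exact (p2.same y').symm
      exact hyu.1 (s1 u (mem_cls.1 this).symm).symm
  obtain ⟨k3, k4⟩ := join k2 s1 hyu.2
  have hg2 := upd_mm_gain (f := f1) (g := d) (v := u) (b := f1 y') ∅
    (by
      intro Z hZ _
      refine ⟨fun h3 => ?_, fun z hz e => ?_⟩
      · exact (hgv u ((com_cls hZ h3).1.trans (com_cls hZ h3).2.symm)).2 rfl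
      · have := s1 z e
        subst this
        exact (hgv z ((com_cls hZ hz).1.trans (com_cls hZ hz).2.symm)).1 rfl)
    (y := y')
    (by
      ext w
      rw [mem_cls, mem_cls, Function.update_of_ne hyu.1, pair_class s1 hyu.1, p2.cl y' w])
    (p2.not_single y')
    (by
      intro hZ
      exfalso
      have := com_cls hZ (self_mem_cls d y')
      exact (hgv y' this.1).1 rfl)
  have hs : Single (Function.update f1 u (f1 y')) t' := by
    intro w hw
    rw [Function.update_of_ne (Ne.symm hne)] at hw
    by_cases hwu : w = u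
    · subst hwu
      rw [Function.update_self] at hw
      exact absurd (s2 y' hw) n2
    · rw [Function.update_of_ne hwu] at hw
      exact s2 w hw
  have := LB1 E h (KE.trans h1 (KE.trans k1 k3)) (KE.refl d) k4 p2.prop (Or.inl ⟨t', hs⟩)
  simp at hg2
  omega

end Pool.Agent.Helper26.Kempe
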