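import Pool.Agent.Helper26.HalfEnd

set_option autoImplicit false
set_option linter.unusedSectionVars false

/-! From `2 k` vertices to at most `2 k` vertices: adding isolated vertices. -/

namespace Pool.Agent.Helper26.Kempe

open Relation

variable {V : Type} [Fintype V] [DecidableEq V] {k : ℕ} {G : SimpleGraph V}

/-- The graph with `t` isolated vertices added. -/
def addIso (G : SimpleGraph V) (t : ℕ) : SimpleGraph (V ⊕ Fin t) :=
  G.map Function.Embedding.inl

theorem addIso_inl {t : ℕ} {x : V} {z : V ⊕ Fin t} :
    (addIso G t).Adj (Sum.inl x) z ↔ ∃ y, z = Sum.inl y ∧ G.Adj x y := by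
  unfold addIso
  rw [SimpleGraph.map_adj]
  constructor
  · rintro ⟨u, v, huv, hu, rfl⟩
    have : u = x := Sum.inl_injective hu
    subst this
    exact ⟨v, rfl, huv⟩
  · rintro ⟨y, rfl, hy⟩
    exact ⟨x, y, hy, rfl, rfl⟩

theorem addIso_ll {t : ℕ} {x y : V} :
    (addIso G t).Adj (Sum.inl x) (Sum.inl y) ↔ G.Adj x y := by
  rw [addIso_inl]
  constructor
  · rintro ⟨z, hz, h⟩
    rw [Sum.inl_injective hz]
    exact h
  · intro h; exact ⟨y, rfl, h⟩

theorem addIso_inr {t : ℕ} {i : Fin t} {z : V ⊕ Fin t} :
    ¬ (addIso G t).Adj (Sum.inr i) z := by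
  unfold addIso
  rw [SimpleGraph.map_adj]
  rintro ⟨u, v, -, hu, -⟩
  exact absurd hu (by simp)

theorem addIso_proper {t : ℕ} {c : V → Fin k} (hc : Proper G c) (e : Fin k) :
    Proper (addIso G t) (Sum.elim c (fun _ : Fin t => e)) := by
  intro x y hxy
  rcases x with x | i
  · obtain ⟨z, rfl, hz⟩ := addIso_inl.1 hxy
    exact hc x z hz
  · exact absurd hxy addIso_inr

theorem step_restrict {t : ℕ} {f g : V ⊕ Fin t → Fin k} (h : Step (addIso G t) f g) :
    KE G (fun x => f (Sum.inl x)) (fun x => g (Sum.inl x)) := by
  obtain ⟨a, b, v, hv, hw⟩ := h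
  rcases v with v | i
  · -- a chain inside `V`
    have key : ∀ w : V ⊕ Fin t, ReflTransGen (Two (addIso G t) f a b) (Sum.inl v) w →
        ∃ u, w = Sum.inl u ∧ ReflTransGen (Two G (fun x => f (Sum.inl x)) a b) v u := by
      intro w hw
      induction hw with
      | refl => exact ⟨v, rfl, ReflTransGen.refl⟩
      | tail _ hs ih =>
        obtain ⟨u, rfl, hu⟩ := ih
        obtain ⟨h1, h2, h3⟩ := hs
        obtain ⟨y, rfl, hy⟩ := addIso_inl.1 h1
        exact ⟨y, rfl, ReflTransGen.tail hu ⟨hy, h2, h3⟩⟩
    have key2 : ∀ u : V, ReflTransGen (Two G (fun x => f (Sum.inl x)) a b) v u →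
        ReflTransGen (Two (addIso G t) f a b) (Sum.inl v) (Sum.inl u) := by
      intro u hu
      induction hu with
      | refl => exact ReflTransGen.refl
      | tail _ hs ih => exact ReflTransGen.tail ih ⟨addIso_ll.2 hs.1, hs.2.1, hs.2.2⟩
    apply ReflTransGen.single
    refine ⟨a, b, v, hv, fun w => ⟨fun hc => ?_, fun hc => ?_⟩⟩
    · exact (hw (Sum.inl w)).1 (key2 w hc)
    · apply (hw (Sum.inl w)).2
      intro hc2
      obtain ⟨u, hu, hr⟩ := key _ hc2
      rw [← Sum.inl_injective hu] at hr
      exact hc hr
  · have key : ∀ w : V ⊕ Fin t, ReflTransGen (Two (addIso G t) f a b) (Sum.inr i) w →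
        w = Sum.inr i := by
      intro w hw
      induction hw with
      | refl => rfl
      | tail _ hs ih =>
        rw [ih] at hs
        exact absurd hs.1 addIso_inr
    have : (fun x => g (Sum.inl x)) = (fun x => f (Sum.inl x)) := by
      funext x
      apply (hw (Sum.inl x)).2
      intro hc
      exact absurd (key _ hc) (by simp)
    rw [this]
    exact KE.refl _

theorem KE_restrict {t : ℕ} {f g : V ⊕ Fin t → Fin k} (h : KE (addIso G t) f g) :
    KE G (fun x => f (Sum.inl x)) (fun x => g (Sum.inl x)) := by
  unfold KE at h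
  induction h with
  | refl => exact KE.refl _
  | tail _ hs ih => exact KE.trans ih (step_restrict hs)

theorem clique_bound {t : ℕ} {b : ℕ} (v0 : V)
    (hcl : ∀ s : Finset V, G.IsClique (s : Set V) → s.card ≤ b)
    (Q : Finset (V ⊕ Fin t)) (hQ : (addIso G t).IsClique (Q : Set (V ⊕ Fin t))) :
    Q.card ≤ b := by
  by_cases h : ∃ i : Fin t, Sum.inr i ∈ Q
  · obtain ⟨i, hi⟩ := h
    have hsub : Q ⊆ {Sum.inr i} := by
      intro x hx
      rw [Finset.mem_singleton]
      by_contra hne
      exact addIso_inr (hQ hi hx (Ne.symm hne))
    have h1 := Finset.card_le_card hsub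
    rw [Finset.card_singleton] at h1
    have h2 := hcl {v0} (by simp)
    rw [Finset.card_singleton] at h2
    omega
  · push Not at h
    have h1 : Q.toLeft.card + Q.toRight.card = Q.card := Finset.card_toLeft_add_card_toRight
    have h2 : Q.toRight = ∅ := by
      rw [Finset.eq_empty_iff_forall_notMem]
      intro i hi
      exact h i (Finset.mem_toRight.1 hi)
    rw [h2, Finset.card_empty] at h1
    have h3 := hcl Q.toLeft (by
      intro x hx y hy hxy
      rw [Finset.mem_coe, Finset.mem_toLeft] at hx hy
      have := hQ hx hy (fun e => hxy (Sum.inl_injective e))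
      exact addIso_ll.1 this)
    omega

/-- Every graph with at most `2 k` vertices. -/
theorem main_le (hn : Fintype.card V ≤ 2 * k)
    (hstar : ∀ Q : Finset V, G.IsClique (Q : Set V) → ∀ v : V,
      Q.card + 2 * Fintype.card V ≤ 3 * k + 2 * (NN G v).card)
    (c d : V → Fin k) (hc : Proper G c) (hd : Proper G d) : KE G c d := by
  classical
  by_cases hV : Nonempty V
  · obtain ⟨v0⟩ := hV
    obtain ⟨t, ht⟩ : ∃ t, Fintype.card V + t = 2 * k := ⟨2 * k - Fintype.card V, by omega⟩
    have hcard : Fintype.card (V ⊕ Fin t) = 2 * k := by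
      rw [Fintype.card_sum, Fintype.card_fin]; exact ht
    have hE : Env (addIso G t) k := by
      refine ⟨hcard, fun Q hQ v => ?_⟩
      -- pick the right vertex of `G`
      have hQb : ∀ v : V, Q.card ≤ 3 * k + 2 * (NN G v).card - 2 * Fintype.card V := by
        intro v
        apply clique_bound v0 _ Q hQ
        intro s hs
        have := hstar s hs v
        omega
      have hQ0 : ∀ v : V, 2 * Fintype.card V ≤ 3 * k + 2 * (NN G v).card := by
        intro v
        have := hstar ∅ (by simp) v
        omega
      have hNle : ∀ v : V, (NN G v).card + 1 ≤ Fintype.card V := by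
        intro v
        have : NN G v ⊆ Finset.univ.erase v := by
          intro x hx
          rw [Finset.mem_erase]
          exact ⟨(mem_NN.1 hx).1, Finset.mem_univ _⟩
        have h1 := Finset.card_le_card this
        rw [Finset.card_erase_of_mem (Finset.mem_univ v), Finset.card_univ] at h1
        have h2 : 0 < Fintype.card V := Fintype.card_pos_iff.2 ⟨v⟩
        omega
      rcases v with v | i
      · have h1 : (NN (addIso G t) (Sum.inl v)).card = (NN G v).card + t := by
          have e1 : (NN (addIso G t) (Sum.inl v)).toLeft = NN G v := by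
            ext x
            rw [Finset.mem_toLeft, mem_NN, mem_NN, addIso_ll]
            simp
          have e2 : (NN (addIso G t) (Sum.inl v)).toRight = Finset.univ := by
            ext i
            rw [Finset.mem_toRight, mem_NN, addIso_inl]
            simp
          have e3 : (NN (addIso G t) (Sum.inl v)).toLeft.card +
              (NN (addIso G t) (Sum.inl v)).toRight.card = _ :=
            Finset.card_toLeft_add_card_toRight
          rw [e1, e2, Finset.card_univ, Fintype.card_fin] at e3
          exact e3.symm
        have := hQb v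
        have := hQ0 v
        omega
      · have h1 : (NN (addIso G t) (Sum.inr i)).card + 1 = 2 * k := by
          have e1 : NN (addIso G t) (Sum.inr i) = Finset.univ.erase (Sum.inr i) := by
            ext x
            rw [mem_NN, Finset.mem_erase]
            simp only [Finset.mem_univ, and_true, and_iff_left_iff_imp]
            intro _
            exact addIso_inr
          rw [e1, Finset.card_erase_of_mem (Finset.mem_univ _), Finset.card_univ, hcard]
          have : 0 < Fintype.card V := Fintype.card_pos_iff.2 ⟨v0⟩
          omega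
        have := hQb v0
        have := hQ0 v0
        have := hNle v0
        omega
    have hk := main_half hE (Sum.elim c (fun _ => c v0)) (Sum.elim d (fun _ => c v0))
      (addIso_proper hc _) (addIso_proper hd _)
    exact KE_restrict hk
  · rw [not_nonempty_iff] at hV
    have : c = d := by funext x; exact (hV.false x).elim
    rw [this]; exact KE.refl _

end Pool.Agent.Helper26.Kempe
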