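import Pool.Agent.Helper26.HalfStates

set_option autoImplicit false
set_option linter.unusedSectionVars false

/-! No extremal pair has a single vertex: structure around the holes. -/

namespace Pool.Agent.Helper26.Kempe

open Relation GE

variable {V : Type} [Fintype V] [DecidableEq V] {k : ℕ} {G : SimpleGraph V}

theorem conn_symm {H : V → V → Prop} (hsymm : ∀ x y, H x y → H y x) {D : Finset V} {x y : V}
    (hx : x ∈ D) (h : Conn H D x y) : Conn H D y x ∧ y ∈ D := by
  unfold Conn at *
  induction h with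
  | refl => exact ⟨ReflTransGen.refl, hx⟩
  | tail _ hs ih => exact ⟨ReflTransGen.head ⟨hsymm _ _ hs.1, ih.2⟩ ih.1, hs.2⟩

theorem conn_one {H : V → V → Prop} {D : Finset V} {x y : V} (h : H x y) (hy : y ∈ D) :
    Conn H D x y := ReflTransGen.single ⟨h, hy⟩

open Classical in
/-- The component of `e` inside `D`. -/
noncomputable def comp (H : V → V → Prop) (D : Finset V) (e : V) : Finset V :=
  D.filter (fun v => Conn H D e v)

theorem mem_comp {H : V → V → Prop} {D : Finset V} {e v : V} :
    v ∈ comp H D e ↔ v ∈ D ∧ Conn H D e v := by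
  classical
  simp [comp]

/-- External vertices of a matching. -/
noncomputable def extr (G : SimpleGraph V) (W : Finset V) (s : ℕ) (M : V → V) : Finset V :=
  fixs W M ∪ (AA (HA G) W s).image M

theorem extr_sub {W : Finset V} {s : ℕ} (hmin : MinFix (HA G) W s) {M : V → V}
    (hM : Mt (HA G) W M) (hs : (fixs W M).card = s) : extr G W s M ⊆ DD (HA G) W s := by
  classical
  intro x hx
  unfold extr at hx
  rw [Finset.mem_union, Finset.mem_image] at hx
  rcases hx with hx | ⟨z, hz, rfl⟩
  · obtain ⟨h1, h2⟩ := mem_fixs.1 hx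
    exact mem_DD.2 ⟨h1, M, hM, hs, h2⟩
  · exact (ge HA.symm' hmin hM hs).1 z hz

theorem extr_card {W : Finset V} {s : ℕ} {M : V → V}
    (hM : Mt (HA G) W M) (hs : (fixs W M).card = s) :
    (extr G W s M).card = s + (AA (HA G) W s).card := by
  classical
  unfold extr
  have hAW : ∀ z ∈ AA (HA G) W s, z ∈ W := fun z hz => (mem_AA.1 hz).1.1
  rw [Finset.card_union_of_disjoint, hs, Finset.card_image_of_injOn]
  · intro a ha b hb hab
    rw [Finset.mem_coe] at ha hb
    have h1 := (hM a (hAW a ha)).2.1
    have h2 := (hM b (hAW b hb)).2.1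
    change M a = M b at hab
    rw [← h1, ← h2, hab]
  · rw [Finset.disjoint_left]
    intro x hx hx2
    rw [Finset.mem_image] at hx2
    obtain ⟨z, hz, rfl⟩ := hx2
    have h1 := (mem_fixs.1 hx).2
    rw [(hM z (hAW z hz)).2.1] at h1
    have h2 := mem_AA.1 hz
    exact h2.1.2 (mem_DD.2 ⟨h2.1.1, M, hM, hs, h1.symm⟩)

theorem extr_conn {W : Finset V} {s : ℕ} (hmin : MinFix (HA G) W s) {M : V → V}
    (hM : Mt (HA G) W M) (hs : (fixs W M).card = s) {x y : V} (hx : x ∈ extr G W s M)
    (hy : y ∈ extr G W s M) (hc : Conn (HA G) (DD (HA G) W s) x y) : x = y :=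
  (ge HA.symm' hmin hM hs).2 x hx y hy hc

theorem nn_sub {W : Finset V} {s : ℕ} {e : V} (he : e ∈ DD (HA G) W s)
    (hW : ∀ x, HA G e x → x ∈ W) {x : V} (hx : HA G e x) :
    x ∈ DD (HA G) W s ∨ x ∈ AA (HA G) W s := by
  by_cases hxD : x ∈ DD (HA G) W s
  · exact Or.inl hxD
  · exact Or.inr (mem_AA.2 ⟨⟨hW x hx, hxD⟩, e, he, hx⟩)

/-- Partner of a neighbour of a hole lies in the same component. -/
theorem partner_in {W : Finset V} {s : ℕ} (hmin : MinFix (HA G) W s) {M : V → V}
    (hM : Mt (HA G) W M) (hs : (fixs W M).card = s) {e x : V} (he : e ∈ fixs W M)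
    (hx : HA G e x) (hxD : x ∈ DD (HA G) W s) (hxx : M x ≠ x) :
    M x ∈ DD (HA G) W s ∧ Conn (HA G) (DD (HA G) W s) e (M x) := by
  classical
  have hxW : x ∈ W := (mem_DD.1 hxD).1
  obtain ⟨m1, m2, m3⟩ := hM x hxW
  have hMD : M x ∈ DD (HA G) W s := by
    by_contra hno
    have hA : M x ∈ AA (HA G) W s := mem_AA.2 ⟨⟨m1, hno⟩, x, hxD, m3 hxx⟩
    have h1 : x ∈ extr G W s M := by
      unfold extr
      rw [Finset.mem_union, Finset.mem_image]
      exact Or.inr ⟨M x, hA, m2⟩
    have h2 : e ∈ extr G W s M := by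
      unfold extr
      rw [Finset.mem_union]
      exact Or.inl he
    have := extr_conn hmin hM hs h2 h1 (conn_one hx hxD)
    exact hx.1 this
  refine ⟨hMD, ?_⟩
  exact ReflTransGen.tail (conn_one hx hxD) ⟨m3 hxx, hMD⟩

/-- Lower bound for the size of a component. -/
theorem comp_card {W : Finset V} {s : ℕ} (hmin : MinFix (HA G) W s) {M : V → V}
    (hM : Mt (HA G) W M) (hs : (fixs W M).card = s) {e : V} (he : e ∈ fixs W M)
    (hnbr : ∀ x, HA G e x → x ∈ DD (HA G) W s → M x ≠ x ∧ ¬ HA G e (M x)) :
    1 + 2 * (NN G e ∩ DD (HA G) W s).card ≤ (comp (HA G) (DD (HA G) W s) e).card := by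
  classical
  set D := DD (HA G) W s with hD
  obtain ⟨heW, hMe⟩ := mem_fixs.1 he
  have heD : e ∈ D := mem_DD.2 ⟨heW, M, hM, hs, hMe⟩
  let X := NN G e ∩ D
  have hX : ∀ x ∈ X, HA G e x ∧ x ∈ D := by
    intro x hx
    rw [Finset.mem_inter, mem_NN_iff] at hx
    exact hx
  have hsub : insert e (X ∪ X.image M) ⊆ comp (HA G) D e := by
    intro u hu
    rw [Finset.mem_insert, Finset.mem_union, Finset.mem_image] at hu
    rw [mem_comp]
    rcases hu with rfl | hu | ⟨x, hx, rfl⟩
    · exact ⟨heD, ReflTransGen.refl⟩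
    · exact ⟨(hX u hu).2, conn_one (hX u hu).1 (hX u hu).2⟩
    · exact partner_in hmin hM hs he (hX x hx).1 (hX x hx).2 (hnbr x (hX x hx).1 (hX x hx).2).1
  have hle := Finset.card_le_card hsub
  have hDW : ∀ x ∈ D, x ∈ W := fun x hx => (mem_DD.1 hx).1
  have d1 : Disjoint X (X.image M) := by
    rw [Finset.disjoint_left]
    intro u hu hu2
    rw [Finset.mem_image] at hu2
    obtain ⟨x, hx, rfl⟩ := hu2
    exact (hnbr x (hX x hx).1 (hX x hx).2).2 (hX _ hu).1
  have d2 : e ∉ X ∪ X.image M := by
    rw [Finset.mem_union, Finset.mem_image, not_or]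
    constructor
    · intro h; exact (hX e h).1.1 rfl
    · rintro ⟨x, hx, hxe⟩
      have h1 := (hM x (hDW x (hX x hx).2)).2.1
      rw [hxe, hMe] at h1
      exact (hX x hx).1.1 h1
  have h3 : (X.image M).card = X.card := by
    apply Finset.card_image_of_injOn
    intro a ha b hb hab
    rw [Finset.mem_coe] at ha hb
    have h1 := (hM a (hDW a (hX a ha).2)).2.1
    have h2 := (hM b (hDW b (hX b hb).2)).2.1
    change M a = M b at hab
    rw [← h1, ← h2, hab]
  rw [Finset.card_insert_of_notMem d2, Finset.card_union_of_disjoint d1, h3] at hle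
  change 1 + 2 * X.card ≤ _
  omega

/-- The components of external vertices are disjoint. -/
theorem comps_card {W : Finset V} {s : ℕ} (hmin : MinFix (HA G) W s) {M : V → V}
    (hM : Mt (HA G) W M) (hs : (fixs W M).card = s) {b : ℕ}
    (hb : ∀ e ∈ extr G W s M, b ≤ (comp (HA G) (DD (HA G) W s) e).card) :
    (s + (AA (HA G) W s).card) * b ≤ (DD (HA G) W s).card := by
  classical
  have hsub := extr_sub hmin hM hs
  have h1 : ((extr G W s M).biUnion (comp (HA G) (DD (HA G) W s))).card
      = ∑ e ∈ extr G W s M, (comp (HA G) (DD (HA G) W s) e).card := by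
    apply Finset.card_biUnion
    intro x hx y hy hxy
    change Disjoint (comp (HA G) (DD (HA G) W s) x) (comp (HA G) (DD (HA G) W s) y)
    rw [Finset.disjoint_left]
    intro u hu hu2
    rw [mem_comp] at hu hu2
    have h3 := (conn_symm HA.symm' (hsub hy) hu2.2).1
    exact hxy (extr_conn hmin hM hs hx hy (ReflTransGen.trans hu.2 h3))
  have h2 : ((extr G W s M).biUnion (comp (HA G) (DD (HA G) W s))).card
      ≤ (DD (HA G) W s).card := by
    apply Finset.card_le_card
    intro u hu
    rw [Finset.mem_biUnion] at hu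
    obtain ⟨e, -, he⟩ := hu
    exact (mem_comp.1 he).1
  have h3 : (extr G W s M).card * b ≤ ∑ e ∈ extr G W s M, (comp (HA G) (DD (HA G) W s) e).card := by
    rw [← smul_eq_mul]
    exact Finset.card_nsmul_le_sum _ _ _ hb
  rw [extr_card hM hs] at h3
  omega

/-- A clique made of external vertices and a vertex `p` seeing no vertex of `D`. -/
theorem extr_clique {W : Finset V} {s : ℕ} (hmin : MinFix (HA G) W s) {M : V → V}
    (hM : Mt (HA G) W M) (hs : (fixs W M).card = s) {p : V}
    (hp : ∀ x ∈ DD (HA G) W s, ¬ HA G x p) (hpD : p ∉ DD (HA G) W s) :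
    ∃ Q : Finset V, G.IsClique (Q : Set V) ∧
      Q.card = s + (AA (HA G) W s).card + 1 := by
  classical
  have hsub := extr_sub hmin hM hs
  refine ⟨insert p (extr G W s M), ?_, ?_⟩
  · rw [Finset.coe_insert]
    apply SimpleGraph.IsClique.insert
    · intro x hx y hy hxy
      rw [Finset.mem_coe] at hx hy
      by_contra hna
      exact hxy (extr_conn hmin hM hs hx hy (conn_one ⟨hxy, hna⟩ (hsub hy)))
    · intro b hb hpb
      rw [Finset.mem_coe] at hb
      by_contra hna
      exact hp b (hsub hb) ⟨Ne.symm hpb, fun e => hna e.symm⟩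
  · rw [Finset.card_insert_of_notMem (fun h => hpD (hsub h)), extr_card hM hs]

/-- A larger clique when some hole has a neighbour in `D`. -/
theorem extr_clique2 {W : Finset V} {s : ℕ} (hmin : MinFix (HA G) W s) {M : V → V}
    (hM : Mt (HA G) W M) (hs : (fixs W M).card = s) {p : V}
    (hp : ∀ x ∈ DD (HA G) W s, ¬ HA G x p) (hpD : p ∉ DD (HA G) W s)
    {e x : V} (he : e ∈ fixs W M) (hex : HA G e x) (hxD : x ∈ DD (HA G) W s)
    (hxx : M x ≠ x) (hno : ¬ HA G e (M x)) :
    ∃ Q : Finset V, G.IsClique (Q : Set V) ∧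
      Q.card = s + (AA (HA G) W s).card + 2 := by
  classical
  have hsub := extr_sub hmin hM hs
  obtain ⟨q1, q2⟩ := partner_in hmin hM hs he hex hxD hxx
  have hee : e ∈ extr G W s M := by
    unfold extr; rw [Finset.mem_union]; exact Or.inl he
  have hye : M x ≠ e := by
    intro e1
    have h1 := (hM x (mem_DD.1 hxD).1).2.1
    rw [e1, (mem_fixs.1 he).2] at h1
    exact hex.1 h1
  have hyE : M x ∉ extr G W s M := fun h => hye (extr_conn hmin hM hs hee h q2).symm
  have hyb : ∀ b ∈ extr G W s M, ¬ HA G (M x) b := by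
    intro b hb hxb
    have hcb : Conn (HA G) (DD (HA G) W s) e b := ReflTransGen.tail q2 ⟨hxb, hsub hb⟩
    have := extr_conn hmin hM hs hee hb hcb
    subst this
    exact hno hxb.symm
  refine ⟨insert p (insert (M x) (extr G W s M)), ?_, ?_⟩
  · rw [Finset.coe_insert, Finset.coe_insert]
    apply SimpleGraph.IsClique.insert
    · apply SimpleGraph.IsClique.insert
      · intro x hx y hy hxy
        rw [Finset.mem_coe] at hx hy
        by_contra hna
        exact hxy (extr_conn hmin hM hs hx hy (conn_one ⟨hxy, hna⟩ (hsub hy)))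
      · intro b hb hpb
        rw [Finset.mem_coe] at hb
        by_contra hna
        exact hyb b hb ⟨hpb, hna⟩
    · intro b hb hpb
      rw [Set.mem_insert_iff, Finset.mem_coe] at hb
      by_contra hna
      have hbD : b ∈ DD (HA G) W s := by
        rcases hb with hb | hb
        · rw [hb]; exact q1
        · exact hsub hb
      exact hp b hbD ⟨Ne.symm hpb, fun e => hna e.symm⟩
  · rw [Finset.card_insert_of_notMem, Finset.card_insert_of_notMem hyE, extr_card hM hs]
    rw [Finset.mem_insert, not_or]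
    exact ⟨fun h => hpD (h ▸ q1), fun h => hpD (hsub h)⟩

theorem arith1 {s a h k D R : ℕ} (hs : 1 ≤ s) (hha : a + 1 ≤ h)
    (hD : (s + a) * (1 + 2 * (h - a)) ≤ D) (hR : h + 1 ≤ R + a) (hn : D + a + R = 2 * k)
    (hQ : s + a + 2 + k ≤ 2 * h) : s = 1 ∧ a = 0 := by
  obtain ⟨t, rfl⟩ : ∃ t, h = a + t := ⟨h - a, by omega⟩
  rw [Nat.add_sub_cancel_left] at hD
  have ht : 1 ≤ t := by omega
  have e1 : (s + a) * (1 + 2 * t) = s + a + 2 * (s * t) + 2 * (a * t) := by ring
  rw [e1] at hD
  by_cases h2 : 2 ≤ s
  · have : 2 * t ≤ s * t := Nat.mul_le_mul_right t h2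
    exfalso
    have : 0 ≤ a * t := Nat.zero_le _
    omega
  · have hs1 : s = 1 := by omega
    subst hs1
    refine ⟨rfl, ?_⟩
    by_contra ha
    have : 1 * t ≤ a * t := Nat.mul_le_mul_right t (by omega)
    omega

theorem count_pairs {f : V → Fin k} {D : Finset V} {M : V → V}
    (hM : ∀ v ∈ D, M v ∈ D) (hcf : ∀ v ∈ D, ∀ w, f w = f v ↔ (w = v ∨ w = M v)) :
    D.card + (fixs D M).card = 2 * (D.image f).card := by
  classical
  have e1 : D.card = ∑ b ∈ D.image f, (D.filter (fun x => f x = b)).card :=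
    Finset.card_eq_sum_card_fiberwise (fun x hx => Finset.mem_image_of_mem f hx)
  have e2 : (fixs D M).card = ∑ b ∈ D.image f, ((fixs D M).filter (fun x => f x = b)).card :=
    Finset.card_eq_sum_card_fiberwise
      (fun x hx => Finset.mem_image_of_mem f (mem_fixs.1 hx).1)
  rw [e1, e2, ← Finset.sum_add_distrib]
  have e3 : ∀ b ∈ D.image f, (D.filter (fun x => f x = b)).card
      + ((fixs D M).filter (fun x => f x = b)).card = 2 := by
    intro b hb
    rw [Finset.mem_image] at hb
    obtain ⟨v, hv, rfl⟩ := hb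
    by_cases hs : M v = v
    · have a1 : D.filter (fun x => f x = f v) = {v} := by
        ext x
        simp only [Finset.mem_filter, Finset.mem_singleton]
        constructor
        · rintro ⟨-, h⟩
          rcases (hcf v hv x).1 h with e | e
          · exact e
          · rw [e, hs]
        · rintro rfl; exact ⟨hv, rfl⟩
      have a2 : (fixs D M).filter (fun x => f x = f v) = {v} := by
        ext x
        simp only [Finset.mem_filter, mem_fixs, Finset.mem_singleton]
        constructor
        · rintro ⟨-, h⟩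
          rcases (hcf v hv x).1 h with e | e
          · exact e
          · rw [e, hs]
        · rintro rfl; exact ⟨⟨hv, hs⟩, rfl⟩
      rw [a1, a2]; simp
    · have a1 : D.filter (fun x => f x = f v) = {v, M v} := by
        ext x
        simp only [Finset.mem_filter, Finset.mem_insert, Finset.mem_singleton]
        constructor
        · rintro ⟨-, h⟩; exact (hcf v hv x).1 h
        · intro h
          refine ⟨?_, (hcf v hv x).2 h⟩
          rcases h with rfl | rfl
          · exact hv
          · exact hM v hv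
      have a2 : (fixs D M).filter (fun x => f x = f v) = ∅ := by
        ext x
        simp only [Finset.mem_filter, mem_fixs, Finset.notMem_empty, iff_false, not_and]
        rintro ⟨hx, hxx⟩ h
        have h1 : v = x ∨ v = M x := (hcf x hx v).1 h.symm
        have h2 : v = x := by
          rcases h1 with e | e
          · exact e
          · rw [e, hxx]
        subst h2
        exact hs hxx
      rw [a1, a2, Finset.card_pair (Ne.symm hs)]; simp
  rw [Finset.sum_congr rfl e3, Finset.sum_const, smul_eq_mul, mul_comm]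

end Pool.Agent.Helper26.Kempe
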