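import Pool.Agent.Helper26.HalfJerrum
import Pool.Agent.Helper26.HalfGE

set_option autoImplicit false
set_option linter.unusedSectionVars false

/-! Extremal pairs with a common single vertex: moving the hole. -/

namespace Pool.Agent.Helper26.Kempe

open Relation GE

variable {V : Type} [Fintype V] [DecidableEq V] {k : ℕ} {G : SimpleGraph V}

theorem HA.symm' : ∀ x y : V, HA G x y → HA G y x := fun _ _ h => h.symm

/-- Vertices in common classes of size at most two. -/
def small (c d : V → Fin k) : Finset V :=
  Finset.univ.filter (fun x => cls c x = cls d x ∧ (cls c x).card ≤ 2)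

theorem mem_small {c d : V → Fin k} {x : V} :
    x ∈ small c d ↔ cls c x = cls d x ∧ (cls c x).card ≤ 2 := by simp [small]

theorem par_of_single {c : V → Fin k} {x : V} (h : Single c x) : par c x = x := by
  classical
  unfold par
  rw [dif_neg]
  rintro ⟨y, hy, hc⟩
  exact hy (h y hc)

theorem par_class {c : V → Fin k} {x : V} (h : (cls c x).card ≤ 2) (w : V) :
    c w = c x ↔ (w = x ∨ w = par c x) := by
  by_cases hs : Single c x
  · rw [par_of_single hs]
    constructor
    · intro e; exact Or.inl (hs w e)
    · rintro (e | e) <;> rw [e]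
  · obtain ⟨h1, h2⟩ := par_spec hs
    have hsub : ({x, par c x} : Finset V) ⊆ cls c x := by
      intro u hu
      rw [Finset.mem_insert, Finset.mem_singleton] at hu
      rcases hu with rfl | rfl
      · exact self_mem_cls _ _
      · exact mem_cls.2 h2
    have hcard : (cls c x).card ≤ ({x, par c x} : Finset V).card := by
      rw [Finset.card_pair (Ne.symm h1)]; exact h
    have heq := Finset.eq_of_subset_of_card_le hsub hcard
    rw [← mem_cls, ← heq, Finset.mem_insert, Finset.mem_singleton]

/-- A state: an extremal pair that differs from the base pair only in the small common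
classes. -/
structure St (G : SimpleGraph V) (c d f g : V → Fin k) (M : V → V) : Prop where
  ext : XExt G f g
  offc : ∀ w, w ∉ small c d → f w = c w
  offd : ∀ w, w ∉ small c d → g w = d w
  inv : Mt (HA G) (small c d) M
  cf : ∀ v ∈ small c d, ∀ w, f w = f v ↔ (w = v ∨ w = M v)
  cg : ∀ v ∈ small c d, ∀ w, g w = g v ↔ (w = v ∨ w = M v)

theorem small_closed {c d : V → Fin k} {x w : V} (hx : x ∈ small c d) (h : c w = c x) :
    w ∈ small c d := by
  rw [mem_small] at hx ⊢
  have h1 : cls c w = cls c x := cls_eq h
  have h2 : w ∈ cls d x := by rw [← hx.1, mem_cls]; exact h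
  have h3 : cls d w = cls d x := cls_eq (mem_cls.1 h2)
  rw [h1, h3]
  exact hx

theorem base_state {c d : V → Fin k} (h : XExt G c d) : St G c d c d (par c) := by
  have hcf : ∀ v ∈ small c d, ∀ w, c w = c v ↔ (w = v ∨ w = par c v) :=
    fun v hv w => par_class (mem_small.1 hv).2 w
  refine ⟨h, fun _ _ => rfl, fun _ _ => rfl, ?_, hcf, ?_⟩
  · intro v hv
    have h1 : c (par c v) = c v := (hcf v hv _).2 (Or.inr rfl)
    have h2 : par c v ∈ small c d := small_closed hv h1
    refine ⟨h2, ?_, fun hne => HA_of_same h.1 (Ne.symm hne) h1.symm⟩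
    by_cases hne : par c v = v
    · rw [hne, hne]
    · have := (hcf (par c v) h2 v).1 h1.symm
      rcases this with e | e
      · exact absurd e.symm hne
      · exact e.symm
  · intro v hv w
    rw [← mem_cls, ← (mem_small.1 hv).1, mem_cls]
    exact hcf v hv w

theorem St.cls_off {c d f g : V → Fin k} {M : V → V} (h : St G c d f g M) {p : V}
    (hp : p ∉ small c d) : cls f p = cls c p ∧ cls g p = cls d p := by
  constructor
  · ext w
    rw [mem_cls, mem_cls]
    by_cases hw : w ∈ small c d
    · constructor
      · intro e
        rcases (h.cf w hw p).1 e.symm with e2 | e2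
        · exact absurd (e2 ▸ hw) hp
        · exact absurd (e2 ▸ (h.inv w hw).1) hp
      · intro e
        exact absurd (small_closed hw e.symm) hp
    · rw [h.offc w hw, h.offc p hp]
  · ext w
    rw [mem_cls, mem_cls]
    by_cases hw : w ∈ small c d
    · constructor
      · intro e
        rcases (h.cg w hw p).1 e.symm with e2 | e2
        · exact absurd (e2 ▸ hw) hp
        · exact absurd (e2 ▸ (h.inv w hw).1) hp
      · intro e
        have : p ∈ cls c w := by
          rw [(mem_small.1 hw).1, mem_cls]; exact e.symm
        exact absurd (small_closed hw (mem_cls.1 this)) hp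
    · rw [h.offd w hw, h.offd p hp]

theorem pair_class {f : V → Fin k} {r x : V} (hr : Single f r) (hrx : r ≠ x) (w : V) :
    Function.update f x (f r) w = f r ↔ (w = r ∨ w = x) := by
  by_cases hw : w = x
  · subst hw; simp
  · rw [Function.update_of_ne hw]
    constructor
    · intro e; exact Or.inl (hr w e)
    · rintro (e | e)
      · rw [e]
      · exact absurd e hw

theorem erase_class {f : V → Fin k} {r x : V} (hr : Single f r) (hrx : r ≠ x) {z : V}
    (hz : z ∈ (cls f x).erase x) (w : V) :
    Function.update f x (f r) w = Function.update f x (f r) z ↔ w ∈ (cls f x).erase x := by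
  rw [Finset.mem_erase, mem_cls] at hz
  rw [Function.update_of_ne hz.1, hz.2, Finset.mem_erase, mem_cls]
  by_cases hw : w = x
  · subst hw
    rw [Function.update_self]
    constructor
    · intro e; exact absurd (hr w e.symm).symm hrx
    · intro e; exact absurd rfl e.1
  · rw [Function.update_of_ne hw]
    exact ⟨fun e => ⟨hw, e⟩, fun e => e.2⟩

theorem keep_class {f : V → Fin k} {r x : V} (hr : Single f r) {Z : Finset V}
    (hc : 2 ≤ Z.card) {z0 : V} (hz0 : z0 ∈ Z) (hZ : cls f z0 = Z) (hne : Z ≠ cls f x) :
    ∀ z ∈ Z, ∀ w, Function.update f x (f r) w = Function.update f x (f r) z ↔ w ∈ Z := by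
  apply upd_class hZ
  · intro hx
    apply hne
    rw [← hZ] at hx ⊢
    exact (cls_eq (mem_cls.1 hx)).symm
  · intro e
    have := hr z0 e
    subst this
    rw [← hZ, single_iff_cls.1 hr, Finset.card_singleton] at hc
    omega

theorem sim_take {f g : V → Fin k} (h : XExt G f g) {r x : V} (hr : Single f r)
    (hrx : HA G r x) (hx : cls f x = cls g x) :
    (∀ Z ∈ com f g, Z ≠ cls f x →
      Z ∈ com (Function.update f x (f r)) (Function.update g x (g r))) ∧
    ({r, x} : Finset V) ∈ com (Function.update f x (f r)) (Function.update g x (g r)) ∧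
    (3 ≤ (cls f x).card →
      (cls f x).erase x ∈ com (Function.update f x (f r)) (Function.update g x (g r))) := by
  have hgr : Single g r := h.single hr
  refine ⟨?_, ?_, ?_⟩
  · intro Z hZ hne
    obtain ⟨h2, ⟨z0, hz0⟩, -⟩ := mem_com.1 hZ
    have hz0Z : z0 ∈ Z := by rw [← hz0]; exact self_mem_cls _ _
    obtain ⟨e1, e2⟩ := com_cls hZ hz0Z
    apply com_keep hZ
    · exact keep_class hr h2 hz0Z e1 hne
    · exact keep_class hgr h2 hz0Z e2 (hx ▸ hne)
  · rw [mem_com]
    refine ⟨by rw [Finset.card_pair hrx.1], ⟨r, ?_⟩, ⟨r, ?_⟩⟩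
    · ext w
      rw [mem_cls, Function.update_of_ne hrx.1, pair_class hr hrx.1]
      simp
    · ext w
      rw [mem_cls, Function.update_of_ne hrx.1, pair_class hgr hrx.1]
      simp
  · intro h3
    have hcard : 2 ≤ ((cls f x).erase x).card := by
      rw [Finset.card_erase_of_mem (self_mem_cls f x)]; omega
    have hne : ((cls f x).erase x).Nonempty := by
      rw [← Finset.card_pos]; omega
    obtain ⟨z, hz⟩ := hne
    rw [mem_com]
    refine ⟨hcard, ⟨z, ?_⟩, ⟨z, ?_⟩⟩
    · ext w
      rw [mem_cls, erase_class hr hrx.1 hz]
    · ext w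
      rw [hx] at hz ⊢
      rw [mem_cls, erase_class hgr hrx.1 hz]

theorem pair_notin_com {f g : V → Fin k} {r x : V} (hr : Single f r) :
    ({r, x} : Finset V) ∉ com f g := by
  intro hZ
  have h1 := (com_cls hZ (Finset.mem_insert_self r {x})).1
  have h2 := (mem_com.1 hZ).1
  rw [← h1, single_iff_cls.1 hr, Finset.card_singleton] at h2
  omega

theorem no_single_nbr {f g : V → Fin k} (h : XExt G f g) {r x : V} (hr : Single f r)
    (hrx : HA G r x) : ¬ Single f x := by
  intro hx
  have hgx := h.single hx
  have hgr := h.single hr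
  have hcx : cls f x = cls g x := by rw [single_iff_cls.1 hx, single_iff_cls.1 hgx]
  obtain ⟨a1, a2, -⟩ := sim_take h hr hrx hcx
  obtain ⟨k1, k2⟩ := join h.1 hr hrx.2
  obtain ⟨k3, k4⟩ := join h.2.1 hgr hrx.2
  have hle := h.le k1 k3 k2 k4
  have := mm_le (f := f) (g := g) ∅ {({r, x} : Finset V)}
    (by
      intro Z hZ _
      apply a1 Z hZ
      rintro rfl
      have h2 := (mem_com.1 hZ).1
      rw [single_iff_cls.1 hx, Finset.card_singleton] at h2
      omega)
    (by
      intro Z hZ
      rw [Finset.mem_singleton] at hZ
      rw [hZ]; exact a2)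
    (by
      intro Z hZ hZ2
      rw [Finset.mem_singleton] at hZ
      rw [hZ] at hZ2
      exact absurd hZ2 (pair_notin_com hr))
  simp at this
  omega

theorem no_big_nbr {f g : V → Fin k} (h : XExt G f g) {r x : V} (hr : Single f r)
    (hrx : HA G r x) (hcx : cls f x = cls g x) : (cls f x).card ≤ 2 := by
  by_contra hbig
  push Not at hbig
  have hgr := h.single hr
  obtain ⟨a1, a2, a3⟩ := sim_take h hr hrx hcx
  have a3' := a3 hbig
  obtain ⟨k1, k2⟩ := join h.1 hr hrx.2
  obtain ⟨k3, k4⟩ := join h.2.1 hgr hrx.2
  have hle := h.le k1 k3 k2 k4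
  have hne : ({r, x} : Finset V) ≠ (cls f x).erase x := by
    intro e
    have : x ∈ (cls f x).erase x := by rw [← e]; simp
    exact (Finset.mem_erase.1 this).1 rfl
  have := mm_le (f := f) (g := g) {cls f x} {({r, x} : Finset V), (cls f x).erase x}
    (by
      intro Z hZ hZL
      apply a1 Z hZ
      simpa using hZL)
    (by
      intro Z hZ
      rw [Finset.mem_insert, Finset.mem_singleton] at hZ
      rcases hZ with rfl | rfl
      · exact a2
      · exact a3')
    (by
      intro Z hZ hZ2
      rw [Finset.mem_insert, Finset.mem_singleton] at hZ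
      rcases hZ with rfl | rfl
      · exact absurd hZ2 (pair_notin_com hr)
      · exfalso
        have hne : ((cls f x).erase x).Nonempty := by
          rw [← Finset.card_pos, Finset.card_erase_of_mem (self_mem_cls f x)]; omega
        obtain ⟨z, hz⟩ := hne
        have e1 := (com_cls hZ2 hz).1
        have e2 : cls f z = cls f x := cls_eq (mem_cls.1 (Finset.mem_of_mem_erase hz))
        rw [e2] at e1
        have : x ∈ (cls f x).erase x := by rw [← e1]; exact self_mem_cls f x
        exact (Finset.mem_erase.1 this).1 rfl)
  rw [Finset.card_pair hne] at this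
  simp at this
  omega

theorem take_ext {f g : V → Fin k} (h : XExt G f g) {r x : V} (hr : Single f r)
    (hrx : HA G r x) (hcx : cls f x = cls g x) :
    XExt G (Function.update f x (f r)) (Function.update g x (g r)) := by
  have hgr := h.single hr
  obtain ⟨a1, a2, a3⟩ := sim_take h hr hrx hcx
  obtain ⟨k1, k2⟩ := join h.1 hr hrx.2
  obtain ⟨k3, k4⟩ := join h.2.1 hgr hrx.2
  have := mm_le (f := f) (g := g) {cls f x} {({r, x} : Finset V)}
    (by
      intro Z hZ hZL
      apply a1 Z hZ
      simpa using hZL)
    (by
      intro Z hZ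
      rw [Finset.mem_singleton] at hZ
      rw [hZ]; exact a2)
    (by
      intro Z hZ hZ2
      rw [Finset.mem_singleton] at hZ
      rw [hZ] at hZ2
      exact absurd hZ2 (pair_notin_com hr))
  simp at this
  exact h.replace k1 k3 k2 k4 this

/-- A single vertex is not complete (in the complement) to a common class. -/
theorem no_complete {f g : V → Fin k} (h : XExt G f g) {r x : V} (hr : Single f r)
    (hcx : cls f x = cls g x) (hcomp : ∀ y ∈ cls f x, HA G r y) : False := by
  have hgr := h.single hr
  have hrx : r ≠ x := (hcomp x (self_mem_cls f x)).1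
  have hfr : ∀ w, f w = f r → w = r := hr
  obtain ⟨k1, k2⟩ := recolour h.1 r (f x) (fun y hy e => (hcomp y (mem_cls.2 e)).2 hy)
  obtain ⟨k3, k4⟩ := recolour h.2.1 r (g x) (fun y hy e => by
    have : y ∈ cls f x := by rw [hcx]; exact mem_cls.2 e
    exact (hcomp y this).2 hy)
  have hsurj : ¬ XExt G (Function.update f r (f x)) (Function.update g r (g x)) := by
    intro hx
    obtain ⟨w, hw⟩ := hx.surj (f r)
    by_cases hwr : w = r
    · subst hwr
      rw [Function.update_self] at hw
      exact hrx (hr x hw).symm
    · rw [Function.update_of_ne hwr] at hw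
      exact hwr (hr w hw)
  apply hsurj
  apply h.replace k1 k3 k2 k4
  have cnew : ∀ (F : V → Fin k), (∀ w, F w = F r → w = r) → ∀ w,
      (Function.update F r (F x) w = F x ↔ w ∈ insert r (cls F x)) := by
    intro F hF w
    rw [Finset.mem_insert, mem_cls]
    by_cases hw : w = r
    · subst hw; simp
    · rw [Function.update_of_ne hw]
      simp [hw]
  have := mm_le (f := f) (g := g) (f' := Function.update f r (f x))
    (g' := Function.update g r (g x)) {cls f x} {insert r (cls f x)}
    (by
      intro Z hZ hZL
      have hZL' : Z ≠ cls f x := by simpa using hZL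
      obtain ⟨h2, ⟨z0, hz0⟩, -⟩ := mem_com.1 hZ
      have hz0Z : z0 ∈ Z := by rw [← hz0]; exact self_mem_cls _ _
      obtain ⟨e1, e2⟩ := com_cls hZ hz0Z
      have hrZ : r ∉ Z := by
        intro hrZ
        rw [← (com_cls hZ hrZ).1, single_iff_cls.1 hr, Finset.card_singleton] at h2
        omega
      apply com_keep hZ
      · apply upd_class e1 hrZ
        intro e
        apply hZL'
        rw [← e1]
        exact cls_eq e
      · apply upd_class e2 hrZ
        intro e
        apply hZL'
        rw [hcx, ← e2]
        exact cls_eq e)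
    (by
      intro Z hZ
      rw [Finset.mem_singleton] at hZ
      subst hZ
      rw [mem_com]
      refine ⟨?_, ⟨x, ?_⟩, ⟨x, ?_⟩⟩
      · have hrn : r ∉ cls f x := fun e => hrx (hr x (mem_cls.1 e).symm).symm
        rw [Finset.card_insert_of_notMem hrn]
        have : 1 ≤ (cls f x).card := Finset.card_pos.2 ⟨x, self_mem_cls f x⟩
        omega
      · ext w
        rw [mem_cls, Function.update_of_ne (Ne.symm hrx), cnew f hr]
      · ext w
        rw [mem_cls, Function.update_of_ne (Ne.symm hrx), cnew g hgr, hcx])
    (by
      intro Z hZ hZ2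
      rw [Finset.mem_singleton] at hZ
      subst hZ
      exfalso
      have h1 := (com_cls hZ2 (Finset.mem_insert_self r _)).1
      have h2 := (mem_com.1 hZ2).1
      rw [← h1, single_iff_cls.1 hr, Finset.card_singleton] at h2
      omega)
  simp at this
  exact this

theorem shift_classes {f : V → Fin k} {W : Finset V} {M : V → V} (hM : Mt (HA G) W M)
    (hcf : ∀ v ∈ W, ∀ w, f w = f v ↔ (w = v ∨ w = M v)) {r x : V} (hr : r ∈ fixs W M)
    (hx : x ∈ W) (hxx : M x ≠ x) :
    ∀ v ∈ W, ∀ w, Function.update f x (f r) w = Function.update f x (f r) v ↔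
      (w = v ∨ w = shiftF M r x v) := by
  obtain ⟨n1, n2⟩ := shift_ne hM hr hx hxx
  obtain ⟨hrW, hMr⟩ := mem_fixs.1 hr
  have hrs : Single f r := by
    intro w hw
    rcases (hcf r hrW w).1 hw with e | e
    · exact e
    · rw [e, hMr]
  obtain ⟨m1, m2, -⟩ := hM x hx
  intro v hv w
  by_cases h1 : v = r
  · subst h1
    have e1 : shiftF M v x v = x := by unfold shiftF; simp
    rw [e1, Function.update_of_ne (Ne.symm n1), pair_class hrs (Ne.symm n1)]
  · by_cases h2 : v = x
    · subst h2
      have e1 : shiftF M r v v = r := by unfold shiftF; simp [n1]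
      rw [e1, Function.update_self, pair_class hrs (Ne.symm n1)]
      tauto
    · by_cases h3 : v = M x
      · subst h3
        have e1 : shiftF M r x (M x) = M x := by unfold shiftF; simp [n2, hxx]
        rw [e1, Function.update_of_ne hxx]
        have hfm : f (M x) = f x := (hcf x hx (M x)).2 (Or.inr rfl)
        rw [hfm]
        by_cases hw : w = x
        · subst hw
          rw [Function.update_self]
          constructor
          · intro e; exact absurd (hrs w e.symm) n1
          · rintro (e | e) <;> exact absurd e.symm hxx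
        · rw [Function.update_of_ne hw, hcf x hx w]
          tauto
      · have e1 : shiftF M r x v = M v := by unfold shiftF; simp [h1, h2, h3]
        rw [e1, Function.update_of_ne h2]
        by_cases hw : w = x
        · subst hw
          rw [Function.update_self]
          constructor
          · intro e; exact absurd (hrs v e.symm) h1
          · rintro (e | e)
            · exact absurd e.symm h2
            · exfalso
              apply h3
              rw [e, (hM v hv).2.1]
        · rw [Function.update_of_ne hw]
          exact hcf v hv w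

theorem St.hole_single {c d f g : V → Fin k} {M : V → V} (h : St G c d f g M) {r : V}
    (hr : r ∈ fixs (small c d) M) : Single f r := by
  obtain ⟨hrW, hMr⟩ := mem_fixs.1 hr
  intro w hw
  rcases (h.cf r hrW w).1 hw with e | e
  · exact e
  · rw [e, hMr]

theorem St.small_cls {c d f g : V → Fin k} {M : V → V} (h : St G c d f g M) {x : V}
    (hx : x ∈ small c d) : cls f x = cls g x := by
  ext w
  rw [mem_cls, mem_cls, h.cf x hx w, h.cg x hx w]

theorem St.nbr {c d f g : V → Fin k} {M : V → V} (h : St G c d f g M) {r z : V}
    (hr : r ∈ fixs (small c d) M) (hrz : HA G r z) :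
    z ∈ small c d ∧ M z ≠ z ∧ ¬ HA G r (M z) := by
  have hrs := h.hole_single hr
  have hz : z ∈ small c d := by
    by_contra hz
    obtain ⟨e1, e2⟩ := h.cls_off hz
    by_cases hodd : cls f z = cls g z
    · have h2 := no_big_nbr h.ext hrs hrz hodd
      apply hz
      rw [mem_small, ← e1, ← e2]
      exact ⟨hodd, h2⟩
    · exact h.ext.single_odd hrs hodd hrz
  have hzz : M z ≠ z := by
    intro e
    exact no_single_nbr h.ext hrs hrz (h.hole_single (mem_fixs.2 ⟨hz, e⟩))
  refine ⟨hz, hzz, fun hrm => ?_⟩
  apply no_complete h.ext hrs (h.small_cls hz)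
  intro y hy
  rw [mem_cls, h.cf z hz y] at hy
  rcases hy with e | e
  · rw [e]; exact hrz
  · rw [e]; exact hrm

theorem St.move {c d f g : V → Fin k} {M : V → V} (h : St G c d f g M) {r x : V}
    (hr : r ∈ fixs (small c d) M) (hrx : HA G r x) :
    St G c d (Function.update f x (f r)) (Function.update g x (g r)) (shiftF M r x) := by
  obtain ⟨hx, hxx, -⟩ := h.nbr hr hrx
  have hrs := h.hole_single hr
  refine ⟨take_ext h.ext hrs hrx (h.small_cls hx), ?_, ?_,
    (shift_mt HA.symm' h.inv hr hx hxx hrx).1,
    shift_classes h.inv h.cf hr hx hxx, shift_classes h.inv h.cg hr hx hxx⟩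
  · intro w hw
    have : w ≠ x := by rintro rfl; exact hw hx
    rw [Function.update_of_ne this]
    exact h.offc w hw
  · intro w hw
    have : w ≠ x := by rintro rfl; exact hw hx
    rw [Function.update_of_ne this]
    exact h.offd w hw

theorem St.follow {c d : V → Fin k} {N : V → V} (hN : Mt (HA G) (small c d) N) :
    ∀ (n : ℕ) (f g : V → Fin k) (M : V → V), St G c d f g M →
      ((small c d).filter (fun v => N v ≠ M v)).card = n →
      ∃ (f' g' : V → Fin k) (M' : V → V), St G c d f' g' M' ∧
        fixs (small c d) M' ⊆ fixs (small c d) N ∧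
        (fixs (small c d) M').card = (fixs (small c d) M).card := by
  classical
  intro n
  induction n using Nat.strong_induction_on with
  | _ n ih =>
    intro f g M h hn
    by_cases hall : fixs (small c d) M ⊆ fixs (small c d) N
    · exact ⟨f, g, M, h, hall, rfl⟩
    · rw [Finset.not_subset] at hall
      obtain ⟨r, hr, hrN⟩ := hall
      obtain ⟨hrW, hMr⟩ := mem_fixs.1 hr
      have hNr : N r ≠ r := fun e => hrN (mem_fixs.2 ⟨hrW, e⟩)
      obtain ⟨hxW, hNx, hH⟩ := hN r hrW
      have hrx := hH hNr
      obtain ⟨hx, hxx, -⟩ := h.nbr hr hrx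
      obtain ⟨n1, n2⟩ := shift_ne h.inv hr hx hxx
      have hst := h.move hr hrx
      have hc : (fixs (small c d) (shiftF M r (N r))).card = (fixs (small c d) M).card := by
        rw [(shift_mt HA.symm' h.inv hr hx hxx hrx).2, shift_card h.inv hr hx hxx]
      have hlt : ((small c d).filter (fun v => N v ≠ shiftF M r (N r) v)).card < n := by
        rw [← hn]
        apply Finset.card_lt_card
        rw [Finset.ssubset_iff_of_subset]
        · refine ⟨r, ?_, ?_⟩
          · rw [Finset.mem_filter, hMr]
            exact ⟨hrW, hNr⟩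
          · rw [Finset.mem_filter, not_and, not_not]
            intro _
            unfold shiftF; simp
        · intro v hv
          rw [Finset.mem_filter] at hv ⊢
          refine ⟨hv.1, ?_⟩
          by_cases h1 : v = r
          · rw [h1, hMr]; exact hNr
          · by_cases h2 : v = N r
            · exfalso
              apply hv.2
              rw [h2, hNx]
              unfold shiftF
              simp [n1]
            · by_cases h3 : v = M (N r)
              · rw [h3, (h.inv (N r) hx).2.1]
                intro e
                have e2 := (hN (M (N r)) (h.inv (N r) hx).1).2.1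
                rw [e, hNx] at e2
                exact n2 e2.symm
              · have : shiftF M r (N r) v = M v := by unfold shiftF; simp [h1, h2, h3]
                rw [this] at hv
                exact hv.2
      obtain ⟨f', g', M', a1, a2, a3⟩ := ih _ hlt _ _ _ hst rfl
      exact ⟨f', g', M', a1, a2, a3.trans hc⟩

end Pool.Agent.Helper26.Kempe
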