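import Pool.Agent.Helper26.KempeExt

set_option autoImplicit false
set_option linter.unusedSectionVars false

/-! The counting part of Case B. -/

namespace Pool.Agent.Helper26.Kempe

open Relation

variable {V : Type} [Fintype V] [DecidableEq V] {k : ℕ} {G : SimpleGraph V}

open Classical in
/-- The non-neighbours of a vertex (other than itself). -/
noncomputable def NN (G : SimpleGraph V) (v : V) : Finset V :=
  Finset.univ.filter (fun x => x ≠ v ∧ ¬ G.Adj v x)

theorem mem_NN {v x : V} : x ∈ NN G v ↔ x ≠ v ∧ ¬ G.Adj v x := by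
  classical
  simp [NN]

theorem NN_clique (h3 : NoTriple G) (v : V) : G.IsClique (NN G v : Set V) := by
  intro x hx y hy hxy
  rw [Finset.mem_coe, mem_NN] at hx hy
  exact h3 v x y hx.1.symm hy.1.symm hxy hx.2 hy.2

theorem NN_disjoint (h3 : NoTriple G) {x y : V} (hxy : x ≠ y) (ha : ¬ G.Adj x y) :
    Disjoint (NN G x) (NN G y) := by
  rw [Finset.disjoint_left]
  intro t h1 h2
  rw [mem_NN] at h1 h2
  have := h3 x y t hxy h1.1.symm h2.1.symm ha h1.2
  exact h2.2 this

open Classical in
/-- The partner of a vertex. -/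
noncomputable def par (c : V → Fin k) (x : V) : V :=
  if h : ∃ y, y ≠ x ∧ c y = c x then h.choose else x

theorem par_spec {c : V → Fin k} {x : V} (h : ¬ Single c x) :
    par c x ≠ x ∧ c (par c x) = c x := by
  classical
  have h' := not_single h
  unfold par
  rw [dif_pos h']
  exact h'.choose_spec

theorem par_eq (h3 : NoTriple G) {c : V → Fin k} (hc : Proper G c) {x y : V} (hyx : y ≠ x)
    (h : c y = c x) : par c x = y := by
  have hns : ¬ Single c x := fun hs => hyx (hs y h)
  obtain ⟨h1, h2⟩ := par_spec hns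
  exact two h3 hc h2.symm h.symm (Ne.symm h1) (Ne.symm hyx)

theorem par_not_single {c : V → Fin k} {x : V} (h : ¬ Single c x) : ¬ Single c (par c x) := by
  obtain ⟨h1, h2⟩ := par_spec h
  intro hs
  exact h1 (hs x h2.symm).symm

theorem par_par (h3 : NoTriple G) {c : V → Fin k} (hc : Proper G c) {x : V}
    (h : ¬ Single c x) : par c (par c x) = x := by
  obtain ⟨h1, h2⟩ := par_spec h
  exact par_eq h3 hc (Ne.symm h1) h2.symm

/-- Data obtained by moving the hole `v` along `x`. -/
theorem hole_par (h3 : NoTriple G) (hs : ∀ c : V → Fin k, Proper G c → ∀ a, ∃ v, c v = a)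
    {p q : V} (hpq : p ≠ q) {c d : V → Fin k} (h : Good G p q c d) {v x : V}
    (hv : Single c v) (hxv : x ≠ v) (hadj : ¬ G.Adj v x) :
    ¬ Single c x ∧ Good G p q (Function.update c x (c v)) (Function.update d x (d v)) ∧
      Single (Function.update c x (c v)) (par c x) := by
  obtain ⟨y, hyx, hcy, hdy, hg, hsy⟩ := good_move h3 hs hpq h hv hxv hadj
  have hns : ¬ Single c x := fun hh => hyx (hh y hcy)
  have : par c x = y := par_eq h3 h.1.1 hyx hcy
  rw [this]
  exact ⟨hns, hg, hsy⟩

/-- Moving the hole twice. -/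
theorem second_move (h3 : NoTriple G)
    (hs : ∀ c : V → Fin k, Proper G c → ∀ a, ∃ v, c v = a)
    {p q : V} (hpq : p ≠ q) {c d : V → Fin k} (h : Good G p q c d) {v x : V}
    (hv : Single c v) (hxv : x ≠ v) (hadj : ¬ G.Adj v x) {t : V} (ht : t ≠ par c x)
    (hat : ¬ G.Adj (par c x) t) : ¬ Single c t ∧ Hole G k p q (par c t) := by
  classical
  obtain ⟨hns, hg, hsy⟩ := hole_par h3 hs hpq h hv hxv hadj
  obtain ⟨hy1, hy2⟩ := par_spec hns
  by_cases htx : t = x
  · subst htx
    exact ⟨hns, _, _, hg, hsy⟩
  · have htv : t ≠ v := by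
      rintro rfl
      have hyv : par c x ≠ t := Ne.symm ht
      have := h3 t x (par c x) (Ne.symm hxv) ht (Ne.symm hy1) hadj (fun e => hat e.symm)
      exact h.1.1 _ _ this hy2.symm
    obtain ⟨s, hst, hcs, hds, hg2, hss⟩ := good_move h3 hs hpq hg hsy ht hat
    rw [Function.update_of_ne htx] at hcs
    have hsx : s ≠ x := by
      rintro rfl
      rw [Function.update_self] at hcs
      exact htv (hv t hcs.symm)
    rw [Function.update_of_ne hsx] at hcs
    have hpar : par c t = s := par_eq h3 h.1.1 hst hcs
    refine ⟨fun hh => hst (hh s hcs), ?_⟩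
    rw [hpar]
    exact ⟨_, _, hg2, hss⟩

theorem card_singles (h3 : NoTriple G)
    (hs : ∀ c : V → Fin k, Proper G c → ∀ a, ∃ v, c v = a)
    {c : V → Fin k} (hc : Proper G c) :
    Fintype.card V + (singles c).card = 2 * k := by
  classical
  have h := count_classes h3 hc
  have : Finset.univ.image c = (Finset.univ : Finset (Fin k)) := by
    ext a
    simp only [Finset.mem_image, Finset.mem_univ, true_and, iff_true]
    exact hs c hc a
  rw [this] at h
  simpa using h

theorem singles_clique (hs : ∀ c : V → Fin k, Proper G c → ∀ a, ∃ v, c v = a)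
    {c : V → Fin k} (hc : Proper G c) : G.IsClique (singles c : Set V) := by
  intro x hx y hy hxy
  rw [Finset.mem_coe, mem_singles] at hx hy
  exact singles_adj hs hc hx hy (Ne.symm hxy)

/-- The blossom case. -/
theorem blossom (h3 : NoTriple G) (hs : ∀ c : V → Fin k, Proper G c → ∀ a, ∃ v, c v = a)
    (hstar : ∀ Q : Finset V, G.IsClique (Q : Set V) → ∀ v : V,
      Q.card + 2 * Fintype.card V ≤ 3 * k + 2 * (NN G v).card)
    {p q : V} (hpq : p ≠ q) {c d : V → Fin k} (h : Good G p q c d) {v x x' : V}
    (hv : Single c v) (hxv : x ≠ v) (hadj : ¬ G.Adj v x) (hxv' : x' ≠ v)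
    (hadj' : ¬ G.Adj v x') (hyy : par c x ≠ par c x') (hay : ¬ G.Adj (par c x) (par c x')) :
    False := by
  classical
  have hc : Proper G c := h.1.1
  have hcpq : c p = c q := h.2.1
  have hapq : ¬ G.Adj p q := fun e => hc p q e hcpq
  let U := singles c
  let T1 := NN G (par c x) ∪ NN G (par c x')
  let T2 := NN G p ∪ NN G q
  have hT1 : ∀ t ∈ T1, ¬ Single c t ∧ Hole G k p q (par c t) := by
    intro t ht
    rw [Finset.mem_union, mem_NN, mem_NN] at ht
    rcases ht with ht | ht
    · exact second_move h3 hs hpq h hv hxv hadj ht.1 ht.2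
    · exact second_move h3 hs hpq h hv hxv' hadj' ht.1 ht.2
  have hT2h : ∀ t ∈ T2, ¬ Hole G k p q t := by
    intro t ht hh
    rw [Finset.mem_union, mem_NN, mem_NN] at ht
    rcases ht with ht | ht
    · exact ht.2 (hh.adj_left h3 hpq).symm
    · exact ht.2 (hh.adj_right h3 hpq).symm
  have hT2 : ∀ t ∈ T2, ¬ Single c t := fun t ht hst => hT2h t ht ⟨c, d, h, hst⟩
  let I := T1 ∩ T2
  let J := I.image (par c)
  have hJcard : J.card = I.card := by
    apply Finset.card_image_of_injOn
    intro a ha b hb hab
    rw [Finset.mem_coe, Finset.mem_inter] at ha hb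
    have h1 := par_par h3 hc (hT1 a ha.1).1
    have h2 := par_par h3 hc (hT1 b hb.1).1
    change par c a = par c b at hab
    rw [← h1, ← h2, hab]
  have hJT : Disjoint J (T1 ∪ T2) := by
    rw [Finset.disjoint_left]
    intro s hs' hsT
    rw [Finset.mem_image] at hs'
    obtain ⟨t, ht, rfl⟩ := hs'
    rw [Finset.mem_inter] at ht
    obtain ⟨hns, hh⟩ := hT1 t ht.1
    rw [Finset.mem_union] at hsT
    rcases hsT with hsT | hsT
    · have := (hT1 _ hsT).2
      rw [par_par h3 hc hns] at this
      exact hT2h t ht.2 this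
    · exact hT2h _ hsT hh
  have hUJ : Disjoint U (J ∪ (T1 ∪ T2)) := by
    rw [Finset.disjoint_left]
    intro s hsU hsT
    rw [mem_singles] at hsU
    rw [Finset.mem_union, Finset.mem_union] at hsT
    rcases hsT with hsT | hsT | hsT
    · rw [Finset.mem_image] at hsT
      obtain ⟨t, ht, rfl⟩ := hsT
      rw [Finset.mem_inter] at ht
      exact par_not_single (hT1 t ht.1).1 hsU
    · exact (hT1 s hsT).1 hsU
    · exact hT2 s hsT hsU
  have e1 : T1.card = (NN G (par c x)).card + (NN G (par c x')).card :=
    Finset.card_union_of_disjoint (NN_disjoint h3 hyy hay)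
  have e2 : T2.card = (NN G p).card + (NN G q).card :=
    Finset.card_union_of_disjoint (NN_disjoint h3 hpq hapq)
  have e3 : (T1 ∪ T2).card + I.card = T1.card + T2.card := Finset.card_union_add_card_inter T1 T2
  have e4 : (J ∪ (T1 ∪ T2)).card = J.card + (T1 ∪ T2).card := Finset.card_union_of_disjoint hJT
  have e5 : (U ∪ (J ∪ (T1 ∪ T2))).card = U.card + (J ∪ (T1 ∪ T2)).card :=
    Finset.card_union_of_disjoint hUJ
  have e6 : (U ∪ (J ∪ (T1 ∪ T2))).card ≤ Fintype.card V := Finset.card_le_univ _
  have e7 := card_singles h3 hs hc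
  have hpU : p ∉ U := by
    intro hp
    rw [mem_singles] at hp
    exact hpq (hp q hcpq.symm).symm
  have hQ : G.IsClique ((insert p U : Finset V) : Set V) := by
    rw [Finset.coe_insert]
    apply SimpleGraph.IsClique.insert (singles_clique hs hc)
    intro b hb _
    rw [Finset.mem_coe, mem_singles] at hb
    have hh : Hole G k p q b := ⟨c, d, h, hb⟩
    exact (hh.adj_left h3 hpq).symm
  have hQc : (insert p U).card = U.card + 1 := Finset.card_insert_of_notMem hpU
  have s1 := hstar _ hQ (par c x)
  have s2 := hstar _ hQ (par c x')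
  have s3 := hstar _ hQ p
  have s4 := hstar _ hQ q
  have e7' : Fintype.card V + U.card = 2 * k := e7
  omega

/-- Case B with a single vertex is impossible. -/
theorem caseB1 (h3 : NoTriple G) (hs : ∀ c : V → Fin k, Proper G c → ∀ a, ∃ v, c v = a)
    (hstar : ∀ Q : Finset V, G.IsClique (Q : Set V) → ∀ v : V,
      Q.card + 2 * Fintype.card V ≤ 3 * k + 2 * (NN G v).card)
    {p q : V} (hpq : p ≠ q) {c d : V → Fin k} (h : Good G p q c d) {v : V}
    (hv : Single c v) : False := by
  classical
  have hc : Proper G c := h.1.1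
  have hcpq : c p = c q := h.2.1
  have hN : ∀ x ∈ NN G v, ¬ Single c x ∧
      Good G p q (Function.update c x (c v)) (Function.update d x (d v)) ∧
      Single (Function.update c x (c v)) (par c x) := by
    intro x hx
    rw [mem_NN] at hx
    exact hole_par h3 hs hpq h hv hx.1 hx.2
  have hvh : Hole G k p q v := ⟨c, d, h, hv⟩
  let P := (NN G v).image (par c)
  let U := singles c
  have hPcard : P.card = (NN G v).card := by
    apply Finset.card_image_of_injOn
    intro a ha b hb hab
    rw [Finset.mem_coe] at ha hb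
    have h1 := par_par h3 hc (hN a ha).1
    have h2 := par_par h3 hc (hN b hb).1
    change par c a = par c b at hab
    rw [← h1, ← h2, hab]
  have hpN : p ∉ NN G v := by
    rw [mem_NN]; exact fun hh => hh.2 (hvh.adj_left h3 hpq)
  have hqN : q ∉ NN G v := by
    rw [mem_NN]; exact fun hh => hh.2 (hvh.adj_right h3 hpq)
  -- the partner of a non-neighbour of v is a neighbour of v
  have hPN : ∀ x ∈ NN G v, par c x ∉ NN G v ∧ par c x ≠ v := by
    intro x hx
    obtain ⟨hns, -, -⟩ := hN x hx
    obtain ⟨h1, h2⟩ := par_spec hns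
    refine ⟨fun hy => ?_, fun hy => ?_⟩
    · exact hc _ _ (NN_clique h3 v hy hx h1) h2
    · rw [hy] at h2
      rw [mem_NN] at hx
      exact hx.1 (hv x h2.symm)
  have key : ∀ a ∈ P, ∀ b ∈ U, G.Adj a b := by
    intro a ha b hb
    rw [Finset.mem_image] at ha
    obtain ⟨x, hx, rfl⟩ := ha
    rw [mem_singles] at hb
    obtain ⟨hns, hg, hsy⟩ := hN x hx
    obtain ⟨h1, h2⟩ := par_spec hns
    have hx' := mem_NN.1 hx
    by_cases hbv : b = v
    · rw [hbv]
      by_contra hna
      exact (hPN x hx).1 (mem_NN.2 ⟨(hPN x hx).2, fun e => hna e.symm⟩)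
    · have hbx : b ≠ x := by
        rintro rfl
        exact hns hb
      have hbs : Single (Function.update c x (c v)) b := by
        intro w hw
        rw [Function.update_of_ne hbx] at hw
        by_cases hwx : w = x
        · subst hwx
          rw [Function.update_self] at hw
          exact absurd (hv b hw.symm) hbv
        · rw [Function.update_of_ne hwx] at hw
          exact hb w hw
      have hne : b ≠ par c x := by
        rintro rfl
        exact par_not_single hns hb
      exact singles_adj hs hg.1.1 hsy hbs hne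
  by_cases hcl : G.IsClique ((P ∪ U : Finset V) : Set V)
  · -- counting
    have d1 : Disjoint P U := by
      rw [Finset.disjoint_left]
      intro a ha hb
      rw [Finset.mem_image] at ha
      obtain ⟨x, hx, rfl⟩ := ha
      rw [mem_singles] at hb
      exact par_not_single (hN x hx).1 hb
    have d2 : Disjoint (P ∪ U) (NN G v) := by
      rw [Finset.disjoint_left]
      intro a ha hb
      rw [Finset.mem_union] at ha
      rcases ha with ha | ha
      · rw [Finset.mem_image] at ha
        obtain ⟨x, hx, rfl⟩ := ha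
        exact (hPN x hx).1 hb
      · rw [mem_singles] at ha
        exact (hN a hb).1 ha
    have hp1 : p ∉ (P ∪ U) ∪ NN G v := by
      rw [Finset.mem_union, Finset.mem_union, not_or, not_or]
      refine ⟨⟨fun hp => ?_, fun hp => ?_⟩, hpN⟩
      · rw [Finset.mem_image] at hp
        obtain ⟨x, hx, hxp⟩ := hp
        have h1 := par_par h3 hc (hN x hx).1
        rw [hxp, par_eq h3 hc (Ne.symm hpq) hcpq.symm] at h1
        rw [h1] at hqN
        exact hqN hx
      · rw [mem_singles] at hp
        exact hpq (hp q hcpq.symm).symm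
    have hq1 : q ∉ (P ∪ U) ∪ NN G v := by
      rw [Finset.mem_union, Finset.mem_union, not_or, not_or]
      refine ⟨⟨fun hp => ?_, fun hp => ?_⟩, hqN⟩
      · rw [Finset.mem_image] at hp
        obtain ⟨x, hx, hxp⟩ := hp
        have h1 := par_par h3 hc (hN x hx).1
        rw [hxp, par_eq h3 hc hpq hcpq] at h1
        rw [h1] at hpN
        exact hpN hx
      · rw [mem_singles] at hp
        exact hpq (hp p hcpq)
    have e0 : (P ∪ U).card = P.card + U.card := Finset.card_union_of_disjoint d1
    have e1 : ((P ∪ U) ∪ NN G v).card = (P ∪ U).card + (NN G v).card :=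
      Finset.card_union_of_disjoint d2
    have e2 : (insert p (insert q ((P ∪ U) ∪ NN G v))).card
        = ((P ∪ U) ∪ NN G v).card + 1 + 1 := by
      rw [Finset.card_insert_of_notMem, Finset.card_insert_of_notMem hq1]
      rw [Finset.mem_insert, not_or]
      exact ⟨hpq, hp1⟩
    have e3 : (insert p (insert q ((P ∪ U) ∪ NN G v))).card ≤ Fintype.card V :=
      Finset.card_le_univ _
    have e4 := hstar _ hcl v
    have e5 : Fintype.card V + U.card = 2 * k := card_singles h3 hs hc
    omega
  · rw [SimpleGraph.isClique_iff, Set.Pairwise] at hcl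
    push Not at hcl
    obtain ⟨a, ha, b, hb, hab, hnab⟩ := hcl
    rw [Finset.mem_coe, Finset.mem_union] at ha hb
    rcases ha with ha | ha
    · rcases hb with hb | hb
      · rw [Finset.mem_image] at ha hb
        obtain ⟨x, hx, rfl⟩ := ha
        obtain ⟨x', hx', rfl⟩ := hb
        rw [mem_NN] at hx hx'
        exact blossom h3 hs hstar hpq h hv hx.1 hx.2 hx'.1 hx'.2 hab hnab
      · exact hnab (key a ha b hb)
    · rcases hb with hb | hb
      · exact hnab (key b hb a ha).symm
      · exact hnab (singles_clique hs hc ha hb hab)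

/-- Case B without single vertices is impossible. -/
theorem caseB0 (h3 : NoTriple G) (hs : ∀ c : V → Fin k, Proper G c → ∀ a, ∃ v, c v = a)
    (hstar : ∀ Q : Finset V, G.IsClique (Q : Set V) → ∀ v : V,
      Q.card + 2 * Fintype.card V ≤ 3 * k + 2 * (NN G v).card)
    {p q : V} (hpq : p ≠ q) {c d : V → Fin k} (h : Good G p q c d)
    (hno : ∀ v, ¬ Single c v) : False := by
  classical
  obtain ⟨hext, hcpq, hdpq⟩ := h
  have hc : Proper G c := hext.1
  have hd : Proper G d := hext.2.1
  have hnod : ∀ v, ¬ Single d v := fun v hv => hno v (F0 h3 hext.symm hv)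
  have hU : (singles c).card = 0 := by
    rw [Finset.card_eq_zero]
    ext x
    simp [mem_singles, hno x]
  have hn := card_singles h3 hs hc
  rw [hU, Nat.add_zero] at hn
  have hlarge : ∀ w, k ≤ (NN G w).card := by
    intro w
    have := hstar _ (NN_clique h3 w) w
    omega
  have hcover : ∀ x y, x ≠ y → ¬ G.Adj x y → ∀ t, t ∈ NN G x ∨ t ∈ NN G y := by
    intro x y hxy ha t
    have e1 : (NN G x ∪ NN G y).card = (NN G x).card + (NN G y).card :=
      Finset.card_union_of_disjoint (NN_disjoint h3 hxy ha)
    have e2 := hlarge x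
    have e3 := hlarge y
    have e4 : (NN G x ∪ NN G y).card ≤ Fintype.card V := Finset.card_le_univ _
    have e5 : (NN G x ∪ NN G y) = Finset.univ := by
      apply Finset.eq_univ_of_card
      omega
    have : t ∈ NN G x ∪ NN G y := by rw [e5]; exact Finset.mem_univ t
    exact Finset.mem_union.1 this
  obtain ⟨q', hq'p, hdq'⟩ := not_single (hnod p)
  obtain ⟨p', hp'q', hcp'⟩ := not_single (hno q')
  have hq'q : q' ≠ q := by
    rintro rfl
    exact hdpq hdq'.symm
  have hapq : ¬ G.Adj p q := fun e => hc p q e hcpq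
  have hapq' : ¬ G.Adj p q' := fun e => hd p q' e hdq'.symm
  have hp'q'a : ¬ G.Adj p' q' := fun e => hc p' q' e hcp'
  have hqNp : q ∈ NN G p := mem_NN.2 ⟨Ne.symm hpq, hapq⟩
  have hq'Np : q' ∈ NN G p := mem_NN.2 ⟨hq'p, hapq'⟩
  have hqq' : G.Adj q q' := NN_clique h3 p hqNp hq'Np (Ne.symm hq'q)
  have hcab : c q ≠ c q' := hc q q' hqq'
  have hp'Nq' : p' ∈ NN G q' := mem_NN.2 ⟨hp'q', fun e => hp'q'a e.symm⟩
  have hp'p : p' ∉ NN G p := by
    intro hh
    exact Finset.disjoint_left.1 (NN_disjoint h3 (Ne.symm hq'p) hapq') hh hp'Nq'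
  have hp'q : p' ∈ NN G q := (hcover p q hpq hapq p').resolve_left hp'p
  rw [mem_NN] at hp'q
  have cls1 : ∀ w, c w = c q → w = q ∨ w = p := by
    intro w hw
    by_cases hwq : w = q
    · exact Or.inl hwq
    · exact Or.inr (two h3 hc hcpq.symm hw.symm (Ne.symm hpq) (Ne.symm hwq)).symm
  have cls2 : ∀ w, c w = c q' → w = q' ∨ w = p' := by
    intro w hw
    by_cases hwq : w = q'
    · exact Or.inl hwq
    · exact Or.inr (two h3 hc hcp'.symm hw.symm (Ne.symm hp'q') (Ne.symm hwq)).symm
  have hS1 : ∀ x ∈ ({q, q'} : Finset V), c x = c q ∨ c x = c q' := by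
    intro x hx
    rw [Finset.mem_insert, Finset.mem_singleton] at hx
    rcases hx with rfl | rfl
    · exact Or.inl rfl
    · exact Or.inr rfl
  have hS2 : ∀ x ∈ ({q, q'} : Finset V), ∀ y, G.Adj x y → (c y = c q ∨ c y = c q') →
      y ∈ ({q, q'} : Finset V) := by
    intro x hx y hxy hy
    rw [Finset.mem_insert, Finset.mem_singleton] at hx ⊢
    have hyc : y = q ∨ y = p ∨ y = q' ∨ y = p' := by
      rcases hy with hy | hy
      · rcases cls1 y hy with e | e
        · exact Or.inl e
        · exact Or.inr (Or.inl e)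
      · rcases cls2 y hy with e | e
        · exact Or.inr (Or.inr (Or.inl e))
        · exact Or.inr (Or.inr (Or.inr e))
    rcases hyc with rfl | rfl | rfl | rfl
    · exact Or.inl rfl
    · rcases hx with rfl | rfl
      · exact absurd hxy.symm hapq
      · exact absurd hxy.symm hapq'
    · exact Or.inr rfl
    · rcases hx with rfl | rfl
      · exact absurd hxy hp'q.2
      · exact absurd hxy.symm hp'q'a
  have m1 := closed_swap (G := G) c (c q) (c q') {q, q'} hS1 hS2
  have m2 := closed_swap_proper hc (c q) (c q') {q, q'} hS1 hS2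
  have hle := hext.not_lt m1 (KE.refl d) m2 hd
  have hpp' : p ≠ p' := by
    rintro rfl
    exact hcab (hcpq.symm.trans hcp')
  have hlt : (agrSet c d).card < (agrSet (fun w => if w ∈ ({q, q'} : Finset V) then
      Equiv.swap (c q) (c q') (c w) else c w) d).card := by
    apply Finset.card_lt_card
    rw [Finset.ssubset_iff_of_subset]
    · refine ⟨(p, q'), ?_, ?_⟩
      · rw [mem_agrSet]
        refine ⟨Ne.symm hq'p, ?_, hdq'.symm⟩
        have e1 : p ∉ ({q, q'} : Finset V) := by
          rw [Finset.mem_insert, Finset.mem_singleton, not_or]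
          exact ⟨hpq, Ne.symm hq'p⟩
        have e2 : q' ∈ ({q, q'} : Finset V) := by simp
        simp only [e1, e2, if_true, if_false, Equiv.swap_apply_right]
        exact hcpq
      · rw [mem_agrSet]
        rintro ⟨-, h1, -⟩
        exact hcab (hcpq.symm.trans h1)
    · rintro ⟨r, s⟩ hrs
      rw [mem_agrSet] at hrs ⊢
      obtain ⟨hne, h1, h2⟩ := hrs
      have aux : ∀ r s : V, r ≠ s → c r = c s → d r = d s → r ∉ ({q, q'} : Finset V) := by
        intro r s hne h1 h2 hr
        rw [Finset.mem_insert, Finset.mem_singleton] at hr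
        rcases hr with rfl | rfl
        · rcases cls1 s h1.symm with e | e
          · exact hne e.symm
          · subst e; exact hdpq h2.symm
        · rcases cls2 s h1.symm with e | e
          · exact hne e.symm
          · subst e
            have := two h3 hd hdq' h2 hq'p (Ne.symm hp'q')
            exact hpp' this
      have e1 := aux r s hne h1 h2
      have e2 := aux s r (Ne.symm hne) h1.symm h2.symm
      simp only [e1, e2, if_false]
      exact ⟨hne, h1, h2⟩
  omega

/-- The main theorem, in the vocabulary of this file. -/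
theorem main (h3 : NoTriple G)
    (hstar : ∀ Q : Finset V, G.IsClique (Q : Set V) → ∀ v : V,
      Q.card + 2 * Fintype.card V ≤ 3 * k + 2 * (NN G v).card)
    (c d : V → Fin k) (hc : Proper G c) (hd : Proper G d) : KE G c d := by
  classical
  by_cases hA : ∃ d0 : V → Fin k, Proper G d0 ∧ ∃ a, ∀ v, d0 v ≠ a
  · obtain ⟨d0, hd0, a, ha⟩ := hA
    exact KE.trans (missing h3 d0 hd0 a ha _ c hc rfl)
      (missing h3 d0 hd0 a ha _ d hd rfl).symm
  · push Not at hA
    by_contra hne
    obtain ⟨c', d', hext⟩ := exists_ext hc hd hne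
    have hex : ∃ p q, p ≠ q ∧ c' p = c' q ∧ d' p ≠ d' q := by
      by_contra hcon
      push Not at hcon
      apply hext.2.2.1
      apply same_kernel
      intro x y
      by_cases hxy : x = y
      · subst hxy; simp
      · refine ⟨hcon x y hxy, fun hdd => ?_⟩
        have hns : ¬ Single c' x := fun hs' => hxy ((F0 h3 hext hs') y hdd.symm).symm
        obtain ⟨z, hz, hcz⟩ := not_single hns
        have h1 := hcon x z (Ne.symm hz) hcz.symm
        have h2 : y = z := two h3 hext.2.1 hdd h1 hxy (Ne.symm hz)
        rw [h2]; exact hcz.symm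
    obtain ⟨p, q, hpq, h1, h2⟩ := hex
    by_cases hsing : ∃ v, Single c' v
    · obtain ⟨v, hv⟩ := hsing
      exact caseB1 h3 hA hstar hpq ⟨hext, h1, h2⟩ hv
    · push Not at hsing
      exact caseB0 h3 hA hstar hpq ⟨hext, h1, h2⟩ hsing

end Pool.Agent.Helper26.Kempe
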