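import Pool.Agent.Helper26.KempeTwo

set_option autoImplicit false
set_option linter.unusedSectionVars false

/-! Case B: every proper colouring uses all colours.  Extremal pairs of inequivalent
colourings. -/

namespace Pool.Agent.Helper26.Kempe

open Relation

variable {V : Type} [Fintype V] [DecidableEq V] {k : ℕ} {G : SimpleGraph V}

/-- The set of ordered pairs of distinct vertices sharing a class in both colourings. -/
noncomputable def agrSet (c d : V → Fin k) : Finset (V × V) := by
  classical
  exact Finset.univ.filter (fun p : V × V => p.1 ≠ p.2 ∧ c p.1 = c p.2 ∧ d p.1 = d p.2)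

theorem mem_agrSet {c d : V → Fin k} {x y : V} :
    (x, y) ∈ agrSet c d ↔ x ≠ y ∧ c x = c y ∧ d x = d y := by
  classical
  simp [agrSet]

theorem agrSet_comm (c d : V → Fin k) : agrSet c d = agrSet d c := by
  ext ⟨x, y⟩
  rw [mem_agrSet, mem_agrSet]
  tauto

/-- A pair of inequivalent proper colourings with the largest agreement. -/
def Ext (G : SimpleGraph V) (c d : V → Fin k) : Prop :=
  Proper G c ∧ Proper G d ∧ ¬ KE G c d ∧
    ∀ c' d' : V → Fin k, Proper G c' → Proper G d' → ¬ KE G c' d' →
      (agrSet c' d').card ≤ (agrSet c d).card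

theorem Ext.symm {c d : V → Fin k} (h : Ext G c d) : Ext G d c := by
  refine ⟨h.2.1, h.1, fun hk => h.2.2.1 hk.symm, fun c' d' h1 h2 h4 => ?_⟩
  rw [agrSet_comm d c]
  exact h.2.2.2 c' d' h1 h2 h4

theorem Ext.replace {c d c' d' : V → Fin k} (h : Ext G c d) (h1 : KE G c c') (h2 : KE G d d')
    (p1 : Proper G c') (p2 : Proper G d') (hle : (agrSet c d).card ≤ (agrSet c' d').card) :
    Ext G c' d' := by
  refine ⟨p1, p2, fun hk => h.2.2.1 (KE.trans h1 (KE.trans hk h2.symm)), ?_⟩
  intro c'' d'' q1 q2 q3
  exact (h.2.2.2 c'' d'' q1 q2 q3).trans hle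

theorem Ext.not_lt {c d c' d' : V → Fin k} (h : Ext G c d) (h1 : KE G c c') (h2 : KE G d d')
    (p1 : Proper G c') (p2 : Proper G d') : (agrSet c' d').card ≤ (agrSet c d).card :=
  h.2.2.2 c' d' p1 p2 (fun hk => h.2.2.1 (KE.trans h1 (KE.trans hk h2.symm)))

theorem exists_ext {c d : V → Fin k} (hc : Proper G c) (hd : Proper G d) (h : ¬ KE G c d) :
    ∃ c' d' : V → Fin k, Ext G c' d' := by
  classical
  let S : Finset ((V → Fin k) × (V → Fin k)) :=
    Finset.univ.filter (fun p => Proper G p.1 ∧ Proper G p.2 ∧ ¬ KE G p.1 p.2)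
  have hS : S.Nonempty := ⟨(c, d), by simp [S, hc, hd, h]⟩
  obtain ⟨p, hp, hmax⟩ := Finset.exists_max_image S (fun p => (agrSet p.1 p.2).card) hS
  simp only [S, Finset.mem_filter, Finset.mem_univ, true_and] at hp hmax
  exact ⟨p.1, p.2, hp.1, hp.2.1, hp.2.2, fun c' d' h1 h2 h4 => hmax (c', d') ⟨h1, h2, h4⟩⟩

/-- F0: extremal pairs have the same singles. -/
theorem F0 (h3 : NoTriple G) {c d : V → Fin k} (h : Ext G c d) {v : V} (hv : Single c v) :
    Single d v := by
  classical
  by_contra hns
  obtain ⟨x, hxv, hdx⟩ := not_single hns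
  have hadj : ¬ G.Adj v x := fun ha => h.2.1 v x ha hdx.symm
  obtain ⟨k1, k2⟩ := join h.1 hv hadj
  have hle := h.not_lt k1 (KE.refl d) k2 h.2.1
  have hlt : (agrSet c d).card < (agrSet (Function.update c x (c v)) d).card := by
    apply Finset.card_lt_card
    rw [Finset.ssubset_iff_of_subset]
    · refine ⟨(x, v), ?_, ?_⟩
      · rw [mem_agrSet, Function.update_self, Function.update_of_ne (Ne.symm hxv)]
        exact ⟨hxv, rfl, hdx⟩
      · rw [mem_agrSet]
        rintro ⟨-, h1, -⟩
        exact hxv (hv x h1)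
    · rintro ⟨p, q⟩ hpq
      rw [mem_agrSet] at hpq ⊢
      obtain ⟨hne, h1, h2⟩ := hpq
      have hpx : p ≠ x := by
        rintro rfl
        have h5 : v = q := two h3 h.2.1 hdx h2 hxv hne
        subst h5
        exact hxv (hv p h1)
      have hqx : q ≠ x := by
        rintro rfl
        have h5 : v = p := two h3 h.2.1 hdx h2.symm hxv (Ne.symm hne)
        subst h5
        exact hxv (hv q h1.symm)
      rw [Function.update_of_ne hpx, Function.update_of_ne hqx]
      exact ⟨hne, h1, h2⟩
  omega

/-- F1: a single vertex is adjacent to every vertex whose two partners differ. -/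
theorem F1 (h3 : NoTriple G) {c d : V → Fin k} (h : Ext G c d) {v x y : V} (hv : Single c v)
    (hyx : y ≠ x) (hc : c x = c y) (hd : d x ≠ d y) : G.Adj v x := by
  classical
  by_contra hadj
  have hxv : x ≠ v := by
    rintro rfl
    exact hyx (hv y hc.symm)
  obtain ⟨k1, k2⟩ := join h.1 hv hadj
  have hext : Ext G (Function.update c x (c v)) d := by
    apply h.replace k1 (KE.refl d) k2 h.2.1
    apply Finset.card_le_card
    rintro ⟨p, q⟩ hpq
    rw [mem_agrSet] at hpq ⊢
    obtain ⟨hne, h1, h2⟩ := hpq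
    have hpx : p ≠ x := by
      rintro rfl
      have h5 : y = q := two h3 h.1 hc h1 (Ne.symm hyx) hne
      subst h5
      exact hd h2
    have hqx : q ≠ x := by
      rintro rfl
      have h5 : y = p := two h3 h.1 hc h1.symm (Ne.symm hyx) (Ne.symm hne)
      subst h5
      exact hd h2.symm
    rw [Function.update_of_ne hpx, Function.update_of_ne hqx]
    exact ⟨hne, h1, h2⟩
  have hdv : Single d v := F0 h3 h hv
  have hcv := F0 h3 hext.symm hdv
  have := hcv x (by rw [Function.update_self, Function.update_of_ne (Ne.symm hxv)])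
  exact hxv this

/-- In Case B singles are pairwise adjacent. -/
theorem singles_adj (hs : ∀ c : V → Fin k, Proper G c → ∀ a, ∃ v, c v = a)
    {c : V → Fin k} (hc : Proper G c) {v x : V} (hv : Single c v) (hx : Single c x)
    (hxv : x ≠ v) : G.Adj v x := by
  classical
  by_contra hadj
  obtain ⟨-, k2⟩ := join hc hv hadj
  obtain ⟨w, hw⟩ := hs _ k2 (c x)
  by_cases hwx : w = x
  · subst hwx
    rw [Function.update_self] at hw
    exact hxv (hv w hw.symm)
  · rw [Function.update_of_ne hwx] at hw
    exact hwx (hx w hw)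

/-- F2: moving a hole. -/
theorem F2 (h3 : NoTriple G) (hs : ∀ c : V → Fin k, Proper G c → ∀ a, ∃ v, c v = a)
    {c d : V → Fin k} (h : Ext G c d) {v x : V} (hv : Single c v) (hxv : x ≠ v)
    (hadj : ¬ G.Adj v x) :
    ∃ y, y ≠ x ∧ c y = c x ∧ d y = d x ∧
      Ext G (Function.update c x (c v)) (Function.update d x (d v)) ∧
      Single (Function.update c x (c v)) y := by
  classical
  have hns : ¬ Single c x := fun hx => hadj (singles_adj hs h.1 hv hx hxv)
  obtain ⟨y, hyx, hcy⟩ := not_single hns
  have hdy : d y = d x := by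
    by_contra hne
    exact hadj (F1 h3 h hv hyx hcy.symm (fun e => hne e.symm))
  have hdv : Single d v := F0 h3 h hv
  obtain ⟨k1, k2⟩ := join h.1 hv hadj
  obtain ⟨k3, k4⟩ := join h.2.1 hdv hadj
  have hyv : y ≠ v := by
    rintro rfl
    exact hxv (hv x hcy.symm)
  refine ⟨y, hyx, hcy, hdy, ?_, ?_⟩
  · apply h.replace k1 k3 k2 k4
    -- injection swapping `y` and `v`
    let τ : V → V := Equiv.swap y v
    have hinj : Set.InjOn (Prod.map τ τ) (agrSet c d : Set (V × V)) := by
      intro a _ b _ hab
      exact (Function.Injective.prodMap (Equiv.swap y v).injective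
        (Equiv.swap y v).injective) hab
    apply Finset.card_le_card_of_injOn (Prod.map τ τ) _ hinj
    rintro ⟨p, q⟩ hpq
    rw [Finset.mem_coe, mem_agrSet] at hpq
    obtain ⟨hne, h1, h2⟩ := hpq
    have hpv : p ≠ v := by
      rintro rfl
      exact hne (hv q h1.symm).symm
    have hqv : q ≠ v := by
      rintro rfl
      exact hne (hv p h1)
    show (τ p, τ q) ∈ ((agrSet (Function.update c x (c v)) (Function.update d x (d v)) :
      Finset (V × V)) : Set (V × V))
    rw [Finset.mem_coe, mem_agrSet]
    by_cases hpx : p = x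
    · subst hpx
      have hq : y = q := two h3 h.1 hcy.symm h1 (Ne.symm hyx) hne
      subst hq
      have t1 : τ p = p := Equiv.swap_apply_of_ne_of_ne (Ne.symm hyx) hpv
      have t2 : τ y = v := Equiv.swap_apply_left y v
      rw [t1, t2]
      simp [hxv, hxv.symm]
    · by_cases hqx : q = x
      · subst hqx
        have hq : y = p := two h3 h.1 hcy.symm h1.symm (Ne.symm hyx) (Ne.symm hne)
        subst hq
        have t1 : τ q = q := Equiv.swap_apply_of_ne_of_ne (Ne.symm hyx) hqv
        have t2 : τ y = v := Equiv.swap_apply_left y v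
        rw [t1, t2]
        simp [hxv, hxv.symm]
      · have hpy : p ≠ y := by
          rintro rfl
          exact hqx (two h3 h.1 h1 hcy hne hyx)
        have hqy : q ≠ y := by
          rintro rfl
          exact hpx (two h3 h.1 h1.symm hcy (Ne.symm hne) hyx)
        have t1 : τ p = p := Equiv.swap_apply_of_ne_of_ne hpy hpv
        have t2 : τ q = q := Equiv.swap_apply_of_ne_of_ne hqy hqv
        rw [t1, t2, Function.update_of_ne hpx, Function.update_of_ne hqx,
          Function.update_of_ne hpx, Function.update_of_ne hqx]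
        exact ⟨hne, h1, h2⟩
  · intro w hw
    rw [Function.update_of_ne hyx] at hw
    by_cases hwx : w = x
    · subst hwx
      rw [Function.update_self] at hw
      exact absurd (hv y hw.symm) hyv
    · rw [Function.update_of_ne hwx] at hw
      exact (two h3 h.1 (hcy.symm.trans hw.symm) hcy.symm (Ne.symm hwx) (Ne.symm hyx))

/-- An extremal pair together with a pair `p`, `q` joined only in the first colouring. -/
def Good (G : SimpleGraph V) (p q : V) (c d : V → Fin k) : Prop :=
  Ext G c d ∧ c p = c q ∧ d p ≠ d q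

/-- `w` is single in some good pair. -/
def Hole (G : SimpleGraph V) (k : ℕ) (p q w : V) : Prop :=
  ∃ c d : V → Fin k, Good G p q c d ∧ Single c w

theorem Hole.adj_left (h3 : NoTriple G) {p q w : V} (hpq : p ≠ q) (h : Hole G k p q w) :
    G.Adj w p := by
  obtain ⟨c, d, ⟨h1, h2, h4⟩, hw⟩ := h
  exact F1 h3 h1 hw (Ne.symm hpq) h2 h4

theorem Hole.adj_right (h3 : NoTriple G) {p q w : V} (hpq : p ≠ q) (h : Hole G k p q w) :
    G.Adj w q := by
  obtain ⟨c, d, ⟨h1, h2, h4⟩, hw⟩ := h
  exact F1 h3 h1 hw hpq h2.symm (Ne.symm h4)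

theorem good_move (h3 : NoTriple G) (hs : ∀ c : V → Fin k, Proper G c → ∀ a, ∃ v, c v = a)
    {p q : V} (hpq : p ≠ q) {c d : V → Fin k} (h : Good G p q c d) {v x : V}
    (hv : Single c v) (hxv : x ≠ v) (hadj : ¬ G.Adj v x) :
    ∃ y, y ≠ x ∧ c y = c x ∧ d y = d x ∧
      Good G p q (Function.update c x (c v)) (Function.update d x (d v)) ∧
      Single (Function.update c x (c v)) y := by
  classical
  obtain ⟨h1, h2, h4⟩ := h
  obtain ⟨y, hyx, hcy, hdy, hext, hsy⟩ := F2 h3 hs h1 hv hxv hadj
  have hpx : p ≠ x := by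
    rintro rfl
    have : y = q := two h3 h1.1 hcy.symm h2 (Ne.symm hyx) hpq
    subst this
    exact h4 hdy.symm
  have hqx : q ≠ x := by
    rintro rfl
    have : y = p := two h3 h1.1 hcy.symm h2.symm (Ne.symm hyx) (Ne.symm hpq)
    subst this
    exact h4 hdy
  refine ⟨y, hyx, hcy, hdy, ⟨hext, ?_, ?_⟩, hsy⟩
  · rw [Function.update_of_ne hpx, Function.update_of_ne hqx]; exact h2
  · rw [Function.update_of_ne hpx, Function.update_of_ne hqx]; exact h4

end Pool.Agent.Helper26.Kempe
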