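import Pool.Agent.Helper26.KempeCount

set_option autoImplicit false

namespace Pool.Agent.Helper26.KempeIndependenceTwoOld

open Pool.Agent.Helper26.Kempe

/-- Every finite graph `G` with independence number at most two is `k`-recolourable for every
`k` with `3 k ≥ ω(G) + 2 (Δ(G) + 1)`. -/
theorem old :
    ∀ (V : Type) [Fintype V] [DecidableEq V] (G : SimpleGraph V) [DecidableRel G.Adj] (k : ℕ),
      (∀ s : Finset V, G.IsIndepSet (s : Set V) → s.card ≤ 2) →
      (∀ s : Finset V, G.IsClique (s : Set V) → s.card + 2 * (G.maxDegree + 1) ≤ 3 * k) →
      ∀ c d : V → Fin k,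
        (∀ x y : V, G.Adj x y → c x ≠ c y) →
        (∀ x y : V, G.Adj x y → d x ≠ d y) →
        Relation.ReflTransGen
          (fun f g : V → Fin k =>
            ∃ (a b : Fin k) (v : V), (f v = a ∨ f v = b) ∧
              ∀ w : V,
                (Relation.ReflTransGen
                    (fun x y : V => G.Adj x y ∧ (f x = a ∨ f x = b) ∧ (f y = a ∨ f y = b)) v w →
                  g w = Equiv.swap a b (f w)) ∧
                (¬ Relation.ReflTransGen
                    (fun x y : V => G.Adj x y ∧ (f x = a ∨ f x = b) ∧ (f y = a ∨ f y = b)) v w →
                  g w = f w))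
          c d := by
  intro V _ _ G _ k hind hcl c d hc hd
  classical
  have h3 : NoTriple G := by
    intro x y z hxy hxz hyz h1 h2
    by_contra h4
    have hi : G.IsIndepSet (({x, y, z} : Finset V) : Set V) := by
      intro a ha b hb hab
      simp only [Finset.coe_insert, Finset.coe_singleton, Set.mem_insert_iff,
        Set.mem_singleton_iff] at ha hb
      rcases ha with rfl | rfl | rfl <;> rcases hb with rfl | rfl | rfl
      · exact absurd rfl hab
      · exact h1
      · exact h2
      · exact fun e => h1 e.symm
      · exact absurd rfl hab
      · exact h4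
      · exact fun e => h2 e.symm
      · exact fun e => h4 e.symm
      · exact absurd rfl hab
    have h5 := hind _ hi
    rw [Finset.card_insert_of_notMem (by simp [hxy, hxz]), Finset.card_pair hyz] at h5
    omega
  have hstar : ∀ Q : Finset V, G.IsClique (Q : Set V) → ∀ v : V,
      Q.card + 2 * Fintype.card V ≤ 3 * k + 2 * (NN G v).card := by
    intro Q hQ v
    have h1 := hcl Q hQ
    have h2 := G.degree_le_maxDegree v
    have h5 : (NN G v).card + G.degree v + 1 = Fintype.card V := by
      have e1 : Disjoint (NN G v) (insert v (G.neighborFinset v)) := by
        rw [Finset.disjoint_left]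
        intro x hx hx2
        rw [mem_NN] at hx
        rw [Finset.mem_insert, SimpleGraph.mem_neighborFinset] at hx2
        rcases hx2 with hx2 | hx2
        · exact hx.1 hx2
        · exact hx.2 hx2
      have e2 : NN G v ∪ insert v (G.neighborFinset v) = Finset.univ := by
        ext x
        simp only [Finset.mem_union, mem_NN, Finset.mem_insert, SimpleGraph.mem_neighborFinset,
          Finset.mem_univ, iff_true]
        tauto
      have e3 := Finset.card_union_of_disjoint e1
      rw [e2, Finset.card_univ, Finset.card_insert_of_notMem (by simp),
        SimpleGraph.card_neighborFinset_eq_degree] at e3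
      omega
    omega
  exact main h3 hstar c d hc hd

end Pool.Agent.Helper26.KempeIndependenceTwoOld
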