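import Pool.Agent.Helper26.KempeMoves

set_option autoImplicit false
set_option linter.unusedSectionVars false

/-! Colourings of graphs without three pairwise non-adjacent vertices: counting classes,
and Kempe equivalence when some colouring misses a colour. -/

namespace Pool.Agent.Helper26.Kempe

open Relation

variable {V : Type} [Fintype V] [DecidableEq V] {k : ℕ} {G : SimpleGraph V}

/-- No three distinct pairwise non-adjacent vertices. -/
def NoTriple (G : SimpleGraph V) : Prop :=
  ∀ x y z : V, x ≠ y → x ≠ z → y ≠ z → ¬ G.Adj x y → ¬ G.Adj x z → G.Adj y z

/-- The colour of `v` is used only at `v`. -/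
def Single (f : V → Fin k) (v : V) : Prop := ∀ y, f y = f v → y = v

theorem two (h3 : NoTriple G) {f : V → Fin k} (hf : Proper G f) {x y z : V}
    (h1 : f x = f y) (h2 : f x = f z) (hxy : x ≠ y) (hxz : x ≠ z) : y = z := by
  by_contra hyz
  have ha := h3 x y z hxy hxz hyz (fun h => hf x y h h1) (fun h => hf x z h h2)
  exact hf y z ha (h1.symm.trans h2)

open Classical in
/-- The set of singly coloured vertices. -/
noncomputable def singles (f : V → Fin k) : Finset V := Finset.univ.filter (fun v => Single f v)

theorem mem_singles {f : V → Fin k} {v : V} : v ∈ singles f ↔ Single f v := by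
  classical
  simp [singles]

theorem not_single {f : V → Fin k} {v : V} (h : ¬ Single f v) : ∃ w, w ≠ v ∧ f w = f v := by
  unfold Single at h
  push Not at h
  obtain ⟨w, h1, h2⟩ := h
  exact ⟨w, h2, h1⟩

theorem count_classes (h3 : NoTriple G) {f : V → Fin k} (hf : Proper G f) :
    Fintype.card V + (singles f).card = 2 * (Finset.univ.image f).card := by
  classical
  have e1 : (Finset.univ : Finset V).card
      = ∑ b ∈ Finset.univ.image f, (Finset.univ.filter (fun x => f x = b)).card :=
    Finset.card_eq_sum_card_fiberwise (fun x _ => by simp)
  have e2 : (singles f).card
      = ∑ b ∈ Finset.univ.image f, ((singles f).filter (fun x => f x = b)).card :=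
    Finset.card_eq_sum_card_fiberwise (fun x _ => by simp)
  rw [← Finset.card_univ, e1, e2, ← Finset.sum_add_distrib]
  have e3 : ∀ b ∈ Finset.univ.image f, (Finset.univ.filter (fun x => f x = b)).card
      + ((singles f).filter (fun x => f x = b)).card = 2 := by
    intro b hb
    rw [Finset.mem_image] at hb
    obtain ⟨v, -, rfl⟩ := hb
    by_cases hs : Single f v
    · have a1 : Finset.univ.filter (fun x => f x = f v) = {v} := by
        ext x
        simp only [Finset.mem_filter, Finset.mem_univ, true_and, Finset.mem_singleton]
        exact ⟨fun h => hs x h, fun h => by rw [h]⟩
      have a2 : (singles f).filter (fun x => f x = f v) = {v} := by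
        ext x
        simp only [Finset.mem_filter, mem_singles, Finset.mem_singleton]
        exact ⟨fun h => hs x h.2, fun h => by subst h; exact ⟨hs, rfl⟩⟩
      rw [a1, a2]; simp
    · obtain ⟨w, hw, hwv⟩ := not_single hs
      have a1 : Finset.univ.filter (fun x => f x = f v) = {v, w} := by
        ext x
        simp only [Finset.mem_filter, Finset.mem_univ, true_and, Finset.mem_insert,
          Finset.mem_singleton]
        constructor
        · intro h
          by_cases hx : x = v
          · exact Or.inl hx
          · exact Or.inr (two h3 hf h.symm hwv.symm (Ne.symm hx) hw.symm)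
        · rintro (h | h)
          · rw [h]
          · rw [h, hwv]
      have a2 : (singles f).filter (fun x => f x = f v) = ∅ := by
        ext x
        simp only [Finset.mem_filter, mem_singles, Finset.notMem_empty, iff_false, not_and]
        intro h1 h2
        have h4 : v = x := h1 v h2.symm
        subst h4
        exact hs h1
      rw [a1, a2, Finset.card_pair hw.symm]; simp
  rw [Finset.sum_congr rfl e3, Finset.sum_const, smul_eq_mul, mul_comm]

/-- Number of ordered pairs on which the two partitions differ. -/
noncomputable def dis (c d : V → Fin k) : ℕ := by
  classical
  exact (Finset.univ.filter (fun p : V × V => ¬ (c p.1 = c p.2 ↔ d p.1 = d p.2))).card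

theorem dis_lt (c c' d : V → Fin k) (S : V → Prop)
    (h1 : ∀ p, ¬ S p → c' p = c p)
    (h2 : ∀ p q, S p → (c' p = c' q ↔ d p = d q))
    (h4 : ∃ p q, ¬ (c p = c q ↔ d p = d q) ∧ S p) : dis c' d < dis c d := by
  classical
  unfold dis
  apply Finset.card_lt_card
  rw [Finset.ssubset_iff_of_subset]
  · obtain ⟨p, q, hb, hS⟩ := h4
    refine ⟨(p, q), by simpa using hb, ?_⟩
    simp only [Finset.mem_filter, Finset.mem_univ, true_and, not_not]
    exact h2 p q hS
  · rintro ⟨p, q⟩ hpq
    simp only [Finset.mem_filter, Finset.mem_univ, true_and] at hpq ⊢
    have hp : ¬ S p := fun h => hpq (h2 p q h)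
    have hq : ¬ S q := by
      intro h
      apply hpq
      have := h2 q p h
      exact ⟨fun e => (this.1 e.symm).symm, fun e => (this.2 e.symm).symm⟩
    rw [h1 p hp, h1 q hq] at hpq
    exact hpq

/-- If `u` is alone in its colour and not adjacent to `x`, then `x` may join it. -/
theorem join {f : V → Fin k} (hf : Proper G f) {u x : V} (hu : Single f u)
    (hux : ¬ G.Adj u x) :
    KE G f (Function.update f x (f u)) ∧ Proper G (Function.update f x (f u)) := by
  apply recolour hf
  intro y hxy hy
  have := hu y hy
  subst this
  exact hux hxy.symm

/-- Case A: some proper colouring misses a colour. -/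
theorem missing (h3 : NoTriple G) (d : V → Fin k) (hd : Proper G d) (a0 : Fin k)
    (ha0 : ∀ v, d v ≠ a0) :
    ∀ (n : ℕ) (c : V → Fin k), Proper G c → dis c d = n → KE G c d := by
  classical
  intro n
  induction n using Nat.strong_induction_on with
  | _ n ih =>
    intro c hc hn
    have next : ∀ c' : V → Fin k, KE G c c' → Proper G c' → dis c' d < dis c d → KE G c d := by
      intro c' h1 h2 h4
      exact KE.trans h1 (ih (dis c' d) (hn ▸ h4) c' h2 rfl)
    by_cases hA : ∃ u v, u ≠ v ∧ d u = d v ∧ c u ≠ c v ∧ Single c u
    · obtain ⟨u, v, huv, hduv, hcuv, hs⟩ := hA
      have hadj : ¬ G.Adj u v := fun h => hd u v h hduv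
      obtain ⟨k1, k2⟩ := join hc hs hadj
      refine next _ k1 k2 (dis_lt c _ d (fun p => p = v) ?_ ?_ ?_)
      · intro p hp
        exact Function.update_of_ne hp _ _
      · rintro p q rfl
        by_cases hq : q = p
        · subst hq; simp
        · rw [Function.update_self, Function.update_of_ne hq]
          constructor
          · intro h
            have := hs q h.symm
            subst this
            exact hduv.symm
          · intro h
            have : u = q := two h3 hd hduv.symm h (Ne.symm huv) (Ne.symm hq)
            rw [this]
      · refine ⟨v, u, ?_, rfl⟩
        intro h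
        exact hcuv (h.2 hduv.symm).symm
    · push Not at hA
      -- `c` misses a colour
      have hsub : singles c ⊆ singles d := by
        intro x hx
        rw [mem_singles] at hx ⊢
        by_contra hns
        obtain ⟨y, hy, hdy⟩ := not_single hns
        by_cases hcy : c x = c y
        · exact hy (hx y hcy.symm)
        · exact hA x y (Ne.symm hy) hdy.symm hcy hx
      have hlt : (Finset.univ.image c).card < k := by
        have e1 := count_classes h3 hc
        have e2 := count_classes h3 hd
        have e3 := Finset.card_le_card hsub
        have e4 : (Finset.univ.image d).card < k := by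
          have : Finset.univ.image d ⊂ (Finset.univ : Finset (Fin k)) := by
            rw [Finset.ssubset_iff_of_subset (Finset.subset_univ _)]
            exact ⟨a0, Finset.mem_univ _, by simpa using ha0⟩
          simpa using Finset.card_lt_card this
        omega
      have hex : ∃ a, ∀ v, c v ≠ a := by
        by_contra hcon
        push Not at hcon
        have : Finset.univ.image c = (Finset.univ : Finset (Fin k)) := by
          ext a
          simp only [Finset.mem_image, Finset.mem_univ, true_and, iff_true]
          exact hcon a
        rw [this] at hlt
        simp at hlt
      obtain ⟨a, ha⟩ := hex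
      by_cases hB : ∃ u v, u ≠ v ∧ d u = d v ∧ c u ≠ c v
      · obtain ⟨u, v, huv, hduv, hcuv⟩ := hB
        obtain ⟨k1, k2⟩ := recolour (G := G) hc u a (fun y _ => ha y)
        obtain ⟨k3, k4⟩ := recolour (G := G) k2 v a (by
          intro y hy
          by_cases hyu : y = u
          · subst hyu
            exact absurd hduv (hd _ _ hy.symm)
          · rw [Function.update_of_ne hyu]; exact ha y)
        refine next _ (KE.trans k1 k3) k4 (dis_lt c _ d (fun p => p = u ∨ p = v) ?_ ?_ ?_)
        · intro p hp
          push Not at hp
          rw [Function.update_of_ne hp.2, Function.update_of_ne hp.1]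
        · intro p q hp
          have hval : ∀ w, (Function.update (Function.update c u a) v a w = a) ↔
              (w = u ∨ w = v) := by
            intro w
            by_cases hwv : w = v
            · subst hwv; simp
            · rw [Function.update_of_ne hwv]
              by_cases hwu : w = u
              · subst hwu; simp
              · rw [Function.update_of_ne hwu]
                simp [hwv, hwu, ha w]
          have hdd : ∀ w, (d p = d w) ↔ (w = u ∨ w = v) := by
            intro w
            have hdp : d p = d u := by
              rcases hp with rfl | rfl
              · rfl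
              · exact hduv.symm
            constructor
            · intro h
              by_cases hwu : w = u
              · exact Or.inl hwu
              · right
                exact (two h3 hd hduv (hdp.symm.trans h) huv (Ne.symm hwu)).symm
            · rintro (rfl | rfl)
              · exact hdp
              · exact hdp.trans hduv
          rw [hdd q, (hval p).2 hp, eq_comm, hval q]
        · refine ⟨u, v, ?_, Or.inl rfl⟩
          intro h
          exact hcuv (h.2 hduv)
      · push Not at hB
        by_cases hC : ∃ x y, x ≠ y ∧ c x = c y ∧ d x ≠ d y
        · obtain ⟨x, y, hxy, hcxy, hdxy⟩ := hC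
          obtain ⟨k1, k2⟩ := recolour (G := G) hc x a (fun y _ => ha y)
          refine next _ k1 k2 (dis_lt c _ d (fun p => p = x) ?_ ?_ ?_)
          · intro p hp
            exact Function.update_of_ne hp _ _
          · rintro p q rfl
            by_cases hq : q = p
            · subst hq; simp
            · rw [Function.update_self, Function.update_of_ne hq]
              constructor
              · intro h
                exact absurd h.symm (ha q)
              · intro h
                have h5 : c p = c q := hB p q (Ne.symm hq) h
                have h6 : y = q := two h3 hc hcxy h5 hxy (Ne.symm hq)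
                subst h6
                exact absurd h hdxy
          · refine ⟨x, y, ?_, rfl⟩
            intro h
            exact hdxy (h.1 hcxy)
        · push Not at hC
          apply same_kernel
          intro x y
          by_cases hxy : x = y
          · subst hxy; simp
          · exact ⟨fun h => hC x y hxy h, fun h => hB x y hxy h⟩

end Pool.Agent.Helper26.Kempe
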