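import Pool.Agent.Helper85.LC.Defs

/-!
# Module R of MP_816dee_pr: cluster paths from the regularity lemma

`cluster_path_of` takes the statement of `erdos_gallai` as a hypothesis.
-/

namespace Pool.H85.LC

open Finset

open Classical in
/-- the cluster graph of a partition: pairs of distinct uniform dense parts. -/
noncomputable def clusterGraph {W : Type*} [Fintype W] (F : SimpleGraph W)
    (P : Finpartition (univ : Finset W)) (e0 : ℝ) : SimpleGraph {V // V ∈ P.parts} where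
  Adj U V := U ≠ V ∧ F.IsUniform (e0 / 8) U.1 V.1 ∧ e0 / 4 ≤ F.edgeDensity U.1 V.1
  symm.symm U V := by
    rintro ⟨h1, h2, h3⟩
    refine ⟨h1.symm, h2.symm, ?_⟩
    rwa [SimpleGraph.edgeDensity_comm]
  loopless.irrefl U h := h.1 rfl

open Classical in
theorem red_card_le {W : Type*} [Fintype W] (F : SimpleGraph W)
    (P : Finpartition (univ : Finset W)) (e0 : ℝ) (hP : P.IsEquipartition) :
    2 * #(F.regularityReduced P (e0 / 8) (e0 / 4)).edgeFinset ≤
      2 * (clusterGraph F P e0).edgeSet.ncard * (Fintype.card W / #P.parts + 1) ^ 2 := by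
  have h1 : (clusterGraph F P e0).edgeSet.ncard = #(clusterGraph F P e0).edgeFinset := by
    rw [← SimpleGraph.coe_edgeFinset, Set.ncard_coe_finset]
  rw [h1, SimpleGraph.two_mul_card_edgeFinset, SimpleGraph.two_mul_card_edgeFinset]
  have hsub : (univ.filter fun (x, y) ↦ (F.regularityReduced P (e0 / 8) (e0 / 4)).Adj x y) ⊆
      (univ.filter fun (x, y) ↦ (clusterGraph F P e0).Adj x y).biUnion
        (fun UV => UV.1.1 ×ˢ UV.2.1) := by
    rintro ⟨x, y⟩ hxy
    simp only [mem_filter, mem_univ, true_and] at hxy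
    obtain ⟨_, U, hU, V, hV, hx, hy, hne, hunif, hdens⟩ := hxy
    rw [mem_biUnion]
    refine ⟨(⟨U, hU⟩, ⟨V, hV⟩), ?_, ?_⟩
    · simp only [mem_filter, mem_univ, true_and]
      exact ⟨by simpa using hne, hunif, hdens⟩
    · exact mem_product.2 ⟨hx, hy⟩
  refine (card_le_card hsub).trans ?_
  refine card_biUnion_le_card_mul _ _ _ ?_
  rintro ⟨⟨U, hU⟩, ⟨V, hV⟩⟩ -
  rw [card_product, sq]
  have := hP.card_part_le_average_add_one hU
  have := hP.card_part_le_average_add_one hV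
  rw [card_univ] at *
  exact Nat.mul_le_mul ‹_› ‹_›


open Classical in
theorem gb_ge_of_uniform {W : Type*} [Fintype W] (F : SimpleGraph W) {e0 : ℝ}
    {S T A B : Finset W} (hu : F.IsUniform (e0 / 8) S T) (hd : e0 / 4 ≤ F.edgeDensity S T)
    (hA : A ⊆ S) (hB : B ⊆ T) (hAc : #S * (e0 / 8) ≤ #A) (hBc : #T * (e0 / 8) ≤ #B) :
    (e0 / 8) * #A * #B ≤ gb F A B := by
  have h1 := hu hA hB hAc hBc
  rw [abs_lt] at h1
  have h2 : e0 / 8 < F.edgeDensity A B := by linarith
  have h3 : (F.edgeDensity A B : ℝ) = (gb F A B : ℝ) / (#A * #B) := by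
    rw [← SimpleGraph.card_interedges_div_card]
    unfold gb
    rw [SimpleGraph.interedges_def]
    push_cast
    congr!
  rw [h3] at h2
  rcases A.eq_empty_or_nonempty with rfl | hAne
  · simp
  rcases B.eq_empty_or_nonempty with rfl | hBne
  · simp
  have hApos : (0 : ℝ) < #A := by exact_mod_cast hAne.card_pos
  have hBpos : (0 : ℝ) < #B := by exact_mod_cast hBne.card_pos
  rw [lt_div_iff₀ (by positivity)] at h2
  linarith

theorem exists_two_subsets {W : Type*} (V : Finset W) (h : ℕ) (hV : 2 * h ≤ #V) :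
    ∃ S S' : Finset W, S ⊆ V ∧ S' ⊆ V ∧ Disjoint S S' ∧ #S = h ∧ #S' = h := by
  classical
  obtain ⟨S, hS, hSc⟩ := Finset.exists_subset_card_eq (s := V) (n := h) (by omega)
  obtain ⟨S', hS', hSc'⟩ := Finset.exists_subset_card_eq (s := V \ S) (n := h)
    (by rw [card_sdiff_of_subset hS]; omega)
  refine ⟨S, S', hS, hS'.trans sdiff_subset, ?_, hSc, hSc'⟩
  exact (disjoint_sdiff (s := S) (t := V)).mono_right hS'

theorem numeric_R {ε k u q m D N : ℝ} (hε : 0 < ε) (hε1 : ε ≤ 1 / 4) (hk : 0 < k)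
    (hu : 1 ≤ u) (huε : 6 ≤ ε * (u + 1)) (hm : 0 < m) (hqD : D ≤ q * m)
    (hN : m * u ≤ N)
    (hD : (1 - 3 * ε / 2) * k * N ≤ D * (u + 1) ^ 2) :
    (1 - 2 * ε) * k ≤ (u - 1) * q := by
  have h0 : 0 < 1 - 3 * ε / 2 := by linarith
  have h1 : (1 - 3 * ε / 2) * k * (m * u) ≤ q * m * (u + 1) ^ 2 := by
    calc (1 - 3 * ε / 2) * k * (m * u) ≤ (1 - 3 * ε / 2) * k * N := by gcongr
      _ ≤ D * (u + 1) ^ 2 := hD
      _ ≤ q * m * (u + 1) ^ 2 := by gcongr
  have h2 : (1 - 3 * ε / 2) * k * u ≤ q * (u + 1) ^ 2 := by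
    have : m * ((1 - 3 * ε / 2) * k * u) ≤ m * (q * (u + 1) ^ 2) := by linarith
    exact le_of_mul_le_mul_left this hm
  have h3 : (1 - 2 * ε) * (u + 1) ^ 2 ≤ (u - 1) * u * (1 - 3 * ε / 2) := by
    nlinarith [mul_nonneg (by linarith : (0:ℝ) ≤ u + 1) (by linarith : 0 ≤ ε * (u + 1) - 6)]
  have h4 : (1 - 2 * ε) * k * (u + 1) ^ 2 ≤ (u - 1) * q * (u + 1) ^ 2 := by
    calc (1 - 2 * ε) * k * (u + 1) ^ 2 = ((1 - 2 * ε) * (u + 1) ^ 2) * k := by ring
      _ ≤ ((u - 1) * u * (1 - 3 * ε / 2)) * k := by gcongr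
      _ = (u - 1) * ((1 - 3 * ε / 2) * k * u) := by ring
      _ ≤ (u - 1) * (q * (u + 1) ^ 2) := by
        apply mul_le_mul_of_nonneg_left h2; linarith
      _ = _ := by ring
  exact le_of_mul_le_mul_right h4 (by positivity)

open Classical in
theorem cluster_path_of
    (heg : ∀ (V : Type) [Fintype V] (R : SimpleGraph V) (q : ℕ),
      q * Fintype.card V < 2 * R.edgeSet.ncard + Fintype.card V →
      ∃ l : List V, l.Nodup ∧ l.IsChain R.Adj ∧ q + 1 ≤ l.length) (ε : ℝ) (hε : 0 < ε) (hε1 : ε ≤ 1 / 4) (C : ℝ) (hC : 1 ≤ C) (τ : ℝ)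
    (hτ : 0 < τ) :
    ∃ γ : ℝ, 0 < γ ∧ ∃ k0 : ℕ, ∀ k : ℕ, k0 ≤ k → ∀ (W : Type) [Fintype W] [Nonempty W]
      (F : SimpleGraph W), (Fintype.card W : ℝ) ≤ C * k →
      (1 - ε) * k * Fintype.card W ≤ 2 * F.edgeSet.ncard →
      ∃ (J h : ℕ) (U U' : ℕ → Finset W), 1 ≤ J ∧ 1 ≤ τ * h ∧ (1 - 2 * ε) * k ≤ 4 * h * J ∧
        (∀ i < 2 * J, (U i).card = h ∧ (U' i).card = h) ∧
        (∀ i < 2 * J, ∀ j < 2 * J, Disjoint (U i) (U' j)) ∧
        (∀ i < 2 * J, ∀ j < 2 * J, i ≠ j → Disjoint (U i) (U j) ∧ Disjoint (U' i) (U' j)) ∧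
        ∀ i, i + 1 < 2 * J → ∀ A B : Finset W, (∀ v ∈ A, v ∈ U i ∨ v ∈ U' i) →
          (∀ v ∈ B, v ∈ U (i + 1) ∨ v ∈ U' (i + 1)) → τ * h ≤ A.card → τ * h ≤ B.card →
          γ * k ^ 2 ≤ gb F A B := by
  have hCpos : 0 < C := by linarith
  obtain ⟨e0, he0, he0C, he0τ⟩ : ∃ e0 : ℝ, 0 < e0 ∧ e0 ≤ ε / (4 * C) ∧ e0 ≤ τ :=
    ⟨min (ε / (4 * C)) τ, by positivity, min_le_left _ _, min_le_right _ _⟩
  set l : ℕ := ⌈4 / e0⌉₊ with hl
  set M : ℕ := SzemerediRegularity.bound (e0 / 8) l with hM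
  have hMpos : 0 < M := SzemerediRegularity.bound_pos _ _
  have hlM : l ≤ M := SzemerediRegularity.le_bound _ _
  have hMR : (1 : ℝ) ≤ M := by exact_mod_cast hMpos
  refine ⟨(e0 / 8) * τ ^ 2 / (16 * M ^ 2), by positivity, ⌈8 * M / ε + 4 * M / τ⌉₊, ?_⟩
  intro k hk W _ _ F hW hF
  have hkR : 8 * M / ε + 4 * M / τ ≤ (k : ℝ) := (Nat.le_ceil _).trans (by exact_mod_cast hk)
  have hk1 : 8 * M / ε ≤ (k : ℝ) := by
    have : 0 ≤ 4 * M / τ := by positivity
    linarith
  have hk2 : 4 * M / τ ≤ (k : ℝ) := by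
    have : 0 ≤ 8 * M / ε := by positivity
    linarith
  have hk3 : 32 * M ≤ (k : ℝ) := by
    refine le_trans ?_ hk1
    rw [le_div_iff₀ hε]
    nlinarith
  have hkpos : (0 : ℝ) < k := by linarith
  set N : ℕ := Fintype.card W with hN
  have hNpos : 0 < N := Fintype.card_pos
  have hNR : (0 : ℝ) < N := by exact_mod_cast hNpos
  have hcard : F.edgeSet.ncard = #F.edgeFinset := by
    rw [← SimpleGraph.coe_edgeFinset, Set.ncard_coe_finset]
  -- N is large
  have hNk : 3 / 4 * (k : ℝ) ≤ N := by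
    have h1 : 2 * #F.edgeFinset ≤ N * N := by
      rw [SimpleGraph.two_mul_card_edgeFinset]
      refine (card_le_univ _).trans ?_
      simp [hN]
    have h2 : (2 * #F.edgeFinset : ℝ) ≤ N * N := by exact_mod_cast h1
    rw [hcard] at hF
    have h3 : (1 - ε) * k * N ≤ N * N := hF.trans h2
    have h4 : (1 - ε) * k ≤ N := le_of_mul_le_mul_right h3 hNR
    nlinarith
  have hlN : l ≤ N := by
    have : (l : ℝ) ≤ N := by
      have : (l : ℝ) ≤ M := by exact_mod_cast hlM
      nlinarith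
    exact_mod_cast this
  obtain ⟨P, hP1, hP2, hP3, hP4⟩ := szemeredi_regularity (ε := e0 / 8) (l := l) F
    (by positivity) hlN
  set m : ℕ := #P.parts with hm
  have hm4 : 4 / e0 ≤ (m : ℝ) := (Nat.le_ceil _).trans (by exact_mod_cast hP2)
  have hmR : (0 : ℝ) < m := lt_of_lt_of_le (by positivity) hm4
  have hmpos : 0 < m := by exact_mod_cast hmR
  have hmM : (m : ℝ) ≤ M := by exact_mod_cast hP3
  have haux := SimpleGraph.regularityReduced_edges_card_aux (G := F) he0 hP1 hP4 hm4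
  set Fr := F.regularityReduced P (e0 / 8) (e0 / 4) with hFr
  set u : ℕ := N / m with hu
  have hmu : m * u ≤ N := Nat.mul_div_le _ _
  have hmu1 : N < m * (u + 1) := by
    have := Nat.lt_div_mul_add (a := N) hmpos
    rw [mul_add, mul_one, mul_comm]
    exact this
  have hmuR : (m : ℝ) * u ≤ N := by exact_mod_cast hmu
  have hmu1R : (N : ℝ) < m * (u + 1) := by exact_mod_cast hmu1
  have hred := red_card_le F P e0 hP1
  set D : ℕ := 2 * (clusterGraph F P e0).edgeSet.ncard with hD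
  have hredR : (2 * #Fr.edgeFinset : ℝ) ≤ D * (u + 1) ^ 2 := by exact_mod_cast hred
  -- lower bound for the reduced graph
  have hFred : (1 - 3 * ε / 2) * k * N ≤ D * (u + 1) ^ 2 := by
    refine le_trans ?_ hredR
    have h1 : 2 * e0 * ((N ^ 2 : ℕ) : ℝ) ≤ ε / 2 * k * N := by
      push_cast
      calc 2 * e0 * (N : ℝ) ^ 2 = 2 * e0 * N * N := by ring
        _ ≤ 2 * (ε / (4 * C)) * (C * k) * N := by gcongr
        _ = ε / 2 * k * N := by field_simp; ring
    rw [hcard] at hF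
    have h2 : (2 * (#F.edgeFinset - #Fr.edgeFinset : ℝ)) < ε / 2 * k * N := by
      refine lt_of_lt_of_le haux ?_
      exact h1
    nlinarith
  -- u is large
  have hkM : (k : ℝ) * (3 / 4) < M * (u + 1) := by
    calc (k : ℝ) * (3 / 4) ≤ N := by linarith
      _ < m * (u + 1) := hmu1R
      _ ≤ M * (u + 1) := by gcongr
  have hMpos' : (0 : ℝ) < M := by linarith
  have hu6 : 6 ≤ ε * (u + 1) := by
    have h1 : 8 * (M : ℝ) ≤ k * ε := (div_le_iff₀ hε).1 hk1
    have h2 : M * 6 ≤ M * (ε * (u + 1)) := by nlinarith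
    exact le_of_mul_le_mul_left h2 hMpos'
  have hu23 : (23 : ℝ) < u + 1 := by
    have h2 : M * 23 < M * ((u : ℝ) + 1) := by nlinarith
    exact lt_of_mul_lt_mul_left h2 hMpos'.le
  have hu23' : 22 < u := by
    have : (22 : ℝ) < u := by linarith
    exact_mod_cast this
  -- q
  obtain ⟨q, hq1, hq2⟩ : ∃ q : ℕ, D ≤ q * m ∧ q * m < D + m := by
    refine ⟨(D + m - 1) / m, ?_, ?_⟩
    · have h := Nat.lt_div_mul_add (a := D + m - 1) hmpos
      omega
    · have h := Nat.div_mul_le_self (D + m - 1) m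
      omega
  have hq1R : (D : ℝ) ≤ q * m := by exact_mod_cast hq1
  have hmain : (1 - 2 * ε) * k ≤ ((u : ℝ) - 1) * q :=
    numeric_R hε hε1 hkpos (by linarith) hu6 hmR hq1R hmuR hFred
  have hqpos : 1 ≤ q := by
    by_contra hcon
    have hq0 : q = 0 := by omega
    rw [hq0] at hmain
    simp only [Nat.cast_zero, mul_zero] at hmain
    have : 0 < (1 - 2 * ε) * (k : ℝ) := mul_pos (by linarith) hkpos
    linarith
  have hcardV : Fintype.card {V // V ∈ P.parts} = m := by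
    rw [Fintype.card_coe]
  obtain ⟨L, hLn, hLc, hLlen⟩ := heg _ (clusterGraph F P e0) q (by
    rw [hcardV]; exact hq2)
  set J : ℕ := (q + 1) / 2 with hJ
  set h : ℕ := u / 2 with hh
  have h2J : 2 * J ≤ L.length := by omega
  have hJq : (q : ℝ) ≤ 2 * J := by
    have : q ≤ 2 * J := by omega
    exact_mod_cast this
  have hhu : (u : ℝ) - 1 ≤ 2 * h := by
    have : u ≤ 2 * h + 1 := by omega
    have : (u : ℝ) ≤ 2 * h + 1 := by exact_mod_cast this
    linarith
  have hhk : (k : ℝ) / (4 * M) ≤ h := by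
    rw [div_le_iff₀ (by positivity)]
    nlinarith
  have hhτ : 1 ≤ τ * h := by
    have h1 : 4 * (M : ℝ) ≤ k * τ := (div_le_iff₀ hτ).1 hk2
    have h2 : τ * (k / (4 * M)) ≤ τ * h := by gcongr
    refine le_trans ?_ h2
    rw [← mul_div_assoc, le_div_iff₀ (by positivity)]
    linarith
  -- choose subsets
  have hsub : ∀ V : {V // V ∈ P.parts}, ∃ S S' : Finset W, S ⊆ V.1 ∧ S' ⊆ V.1 ∧
      Disjoint S S' ∧ #S = h ∧ #S' = h := by
    rintro ⟨V, hV⟩
    refine exists_two_subsets V h ?_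
    have := hP1.average_le_card_part hV
    rw [card_univ] at this
    have h3 : u ≤ #V := this
    omega
  choose S S' hS hS' hSS hSc hSc' using hsub
  refine ⟨J, h, fun i => if hi : i < L.length then S L[i] else ∅,
    fun i => if hi : i < L.length then S' L[i] else ∅, by omega, hhτ, ?_, ?_, ?_, ?_, ?_⟩
  · calc (1 - 2 * ε) * k ≤ ((u : ℝ) - 1) * q := hmain
      _ ≤ (2 * h) * (2 * J) := by
        apply mul_le_mul hhu hJq (by positivity) (by positivity)
      _ = 4 * h * J := by ring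
  · intro i hi
    have hi' : i < L.length := lt_of_lt_of_le hi h2J
    simp only [dif_pos hi']
    exact ⟨hSc _, hSc' _⟩
  · intro i hi j hj
    have hi' : i < L.length := lt_of_lt_of_le hi h2J
    have hj' : j < L.length := lt_of_lt_of_le hj h2J
    simp only [dif_pos hi', dif_pos hj']
    by_cases hij : i = j
    · subst hij
      exact hSS _
    · have hne : L[i] ≠ L[j] := fun h => hij ((hLn.getElem_inj_iff).1 h)
      have hne' : (L[i]).1 ≠ (L[j]).1 := fun h => hne (Subtype.ext h)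
      exact (P.disjoint (L[i]).2 (L[j]).2 hne').mono (hS _) (hS' _)
  · intro i hi j hj hij
    have hi' : i < L.length := lt_of_lt_of_le hi h2J
    have hj' : j < L.length := lt_of_lt_of_le hj h2J
    simp only [dif_pos hi', dif_pos hj']
    have hne : L[i] ≠ L[j] := fun h => hij ((hLn.getElem_inj_iff).1 h)
    have hne' : (L[i]).1 ≠ (L[j]).1 := fun h => hne (Subtype.ext h)
    have hd := P.disjoint (L[i]).2 (L[j]).2 hne'
    exact ⟨hd.mono (hS _) (hS _), hd.mono (hS' _) (hS' _)⟩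
  · intro i hi A B hA hB hAc hBc
    have hi' : i < L.length := by omega
    have hi1' : i + 1 < L.length := lt_of_lt_of_le hi h2J
    simp only [dif_pos hi', dif_pos hi1'] at hA hB
    have hadj : (clusterGraph F P e0).Adj L[i] L[i + 1] := by
      rw [List.isChain_iff_getElem] at hLc
      exact hLc i hi1'
    obtain ⟨_, hunif, hdens⟩ := hadj
    have hAsub : A ⊆ (L[i]).1 := fun v hv => (hA v hv).elim (fun h => hS _ h) (fun h => hS' _ h)
    have hBsub : B ⊆ (L[i + 1]).1 :=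
      fun v hv => (hB v hv).elim (fun h => hS _ h) (fun h => hS' _ h)
    have hbig : ∀ (V : Finset W), V ∈ P.parts → (#V : ℝ) * (e0 / 8) ≤ τ * h := by
      intro V hV
      have h1 := hP1.card_part_le_average_add_one hV
      rw [card_univ] at h1
      have h2 : #V ≤ u + 1 := h1
      have h3 : (#V : ℝ) ≤ u + 1 := by exact_mod_cast h2
      have h4 : (#V : ℝ) ≤ 8 * h := by linarith
      calc (#V : ℝ) * (e0 / 8) ≤ (8 * h) * (τ / 8) := by gcongr
        _ = τ * h := by ring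
    have hgb := gb_ge_of_uniform F hunif hdens hAsub hBsub
      ((hbig _ (L[i]).2).trans hAc) ((hbig _ (L[i + 1]).2).trans hBc)
    refine le_trans ?_ hgb
    calc e0 / 8 * τ ^ 2 / (16 * M ^ 2) * k ^ 2
        = e0 / 8 * (τ * (k / (4 * M))) * (τ * (k / (4 * M))) := by field_simp; ring
      _ ≤ e0 / 8 * (τ * h) * (τ * h) := by gcongr
      _ ≤ e0 / 8 * #A * #B := by gcongr

end Pool.H85.LC
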