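import Pool.Agent.Helper26.LC_R
import Pool.Agent.Helper50.LC_E1

/-!
# Module R of MP_816dee_pr: `cluster_path`
-/

namespace Pool.H85.LC

open Finset

theorem cluster_path (ε : ℝ) (hε : 0 < ε) (hε1 : ε ≤ 1 / 4) (C : ℝ) (hC : 1 ≤ C) (τ : ℝ)
    (hτ : 0 < τ) :
    ∃ γ : ℝ, 0 < γ ∧ ∃ k0 : ℕ, ∀ k : ℕ, k0 ≤ k → ∀ (W : Type) [Fintype W] [Nonempty W]
      (F : SimpleGraph W), (Fintype.card W : ℝ) ≤ C * k →
      (1 - ε) * k * Fintype.card W ≤ 2 * F.edgeSet.ncard →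
      ∃ (J h : ℕ) (U U' : ℕ → Finset W), 1 ≤ J ∧ 1 ≤ τ * h ∧ (1 - 2 * ε) * k ≤ 4 * h * J ∧
        (∀ i < 2 * J, (U i).card = h ∧ (U' i).card = h) ∧
        (∀ i < 2 * J, ∀ j < 2 * J, Disjoint (U i) (U' j)) ∧
        (∀ i < 2 * J, ∀ j < 2 * J, i ≠ j → Disjoint (U i) (U j) ∧ Disjoint (U' i) (U' j)) ∧
        ∀ i, i + 1 < 2 * J → ∀ A B : Finset W, (∀ v ∈ A, v ∈ U i ∨ v ∈ U' i) →
          (∀ v ∈ B, v ∈ U (i + 1) ∨ v ∈ U' (i + 1)) → τ * h ≤ A.card → τ * h ≤ B.card →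
          γ * k ^ 2 ≤ gb F A B :=
  cluster_path_of (fun _ _ R q h => erdos_gallai R q h) ε hε hε1 C hC τ hτ

end Pool.H85.LC
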